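import Pool.Agent.H36.K3.Tel

/-!
# KW Chunk: gluing tables
-/

set_option autoImplicit false

namespace Pool.Agent.H36.KW

open Pool.Agent.H36.K3

theorem chl_append {f : ℕ → ℕ} {y : ℕ} {l2 : List (ℕ × ℕ)} (h2 : ChL f y l2) :
    ∀ (l1 : List (ℕ × ℕ)) (x : ℕ), lst x l1 = y → ChL f x l1 → ChL f x (l1 ++ l2)
  | [], x, h, _ => by
    have h3 : x = y := h
    rw [h3]
    exact h2
  | e :: t, _, h, h1 => ⟨h1.1, h1.2.1, chl_append h2 t e.1 h h1.2.2⟩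

theorem chu_append {f : ℕ → ℕ} {y : ℕ} {l2 : List (ℕ × ℕ)} (h2 : ChU f y l2) :
    ∀ (l1 : List (ℕ × ℕ)) (x : ℕ), lst x l1 = y → ChU f x l1 → ChU f x (l1 ++ l2)
  | [], x, h, _ => by
    have h3 : x = y := h
    rw [h3]
    exact h2
  | e :: t, _, h, h1 => ⟨h1.1, h1.2.1, chu_append h2 t e.1 h h1.2.2⟩

end Pool.Agent.H36.KW
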