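import Pool.Agent.H36.KW.SdfSound
import Pool.Agent.H36.K3.Tel

/-!
# KW Fc: smooth numbers up to `j`, tables of certificates
-/

set_option autoImplicit false

namespace Pool.Agent.H36.KW

open Pool.Agent.H96.KMF Pool.Agent.H36.K3

/-- the numbers `s ≤ j` all of whose prime factors divide `P` -/
noncomputable def fc (P j : ℕ) : Finset ℕ := cell P (j + 1) j

theorem mem_fc {P j s : ℕ} : s ∈ fc P j ↔ (1 ≤ s ∧ s ≤ j) ∧ Smo P s := by
  unfold fc
  rw [mem_cell]
  constructor
  · rintro ⟨h1, h2, _⟩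
    exact ⟨h1, h2⟩
  · rintro ⟨h1, h2⟩
    refine ⟨h1, h2, ?_⟩
    have := Nat.le_mul_of_pos_left (j + 1) h1.1
    omega

theorem cell_subset_fc (P M j : ℕ) : cell P M j ⊆ fc P j := by
  intro s hs
  rw [mem_cell] at hs
  exact mem_fc.2 ⟨hs.1, hs.2.1⟩

theorem fc_mono (P : ℕ) {i j : ℕ} (h : i ≤ j) : fc P i ⊆ fc P j := by
  intro s hs
  rw [mem_fc] at hs ⊢
  exact ⟨⟨hs.1.1, hs.1.2.trans h⟩, hs.2⟩

theorem smo_dvd (P : ℕ) : ∀ (k s : ℕ), Smo P s → s < 2 ^ k → s ∣ P ^ k
  | 0, s, hs, h => by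
    have : s = 1 := by
      have := Nat.pos_of_ne_zero hs.1
      simp at h
      omega
    rw [this]
    exact one_dvd _
  | k + 1, s, hs, h => by
    by_cases h1 : s = 1
    · rw [h1]
      exact one_dvd _
    · have hp := Nat.minFac_prime h1
      obtain ⟨t, ht⟩ := Nat.minFac_dvd s
      have htS : Smo P t := hs.of_dvd ⟨s.minFac, by rw [mul_comm]; exact ht⟩
      have ht2 : t < 2 ^ k := by
        have h2 := hp.two_le
        have h3 : 2 * t ≤ s := by
          calc 2 * t ≤ s.minFac * t := Nat.mul_le_mul_right _ h2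
            _ = s := ht.symm
        rw [pow_succ] at h
        omega
      have h4 := smo_dvd P k t htS ht2
      rw [pow_succ, mul_comm, ht]
      exact Nat.mul_dvd_mul (hs.2 _ hp (Nat.minFac_dvd s)) h4

/-- all smooth numbers up to `X` are in the list -/
def cov (P X : ℕ) (xs : List ℕ) : Bool :=
  (List.range (X + 1)).all fun s => !(Nat.beq (P ^ 15 % s) 0) || xs.any fun x => Nat.beq x s

theorem cov_spec {P X : ℕ} {xs : List ℕ} (hX : X < 2 ^ 15) (h : cov P X xs = true) : ∀ s, s ≤ X → Smo P s → s ∈ xs := by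
  intro s hs hsm
  unfold cov at h
  rw [List.all_eq_true] at h
  have h3 := h s (List.mem_range.2 (by omega))
  rw [Nat.mod_eq_zero_of_dvd (smo_dvd P 15 s hsm (by omega))] at h3
  simp only [Nat.beq_refl, Bool.not_true, Bool.false_or, List.any_eq_true] at h3
  obtain ⟨y, hy, hys⟩ := h3
  exact (Nat.eq_of_beq_eq_true hys) ▸ hy

/-- no element divides an earlier one, and all are positive -/
def ordc : List ℕ → Bool
  | [] => true
  | x :: ys => Nat.ble 1 x && (ys.all fun y => !(Nat.beq (x % y) 0)) && ordc ys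

theorem ord_of_ordc : ∀ xs : List ℕ, ordc xs = true → Ord xs ∧ ∀ x ∈ xs, 0 < x
  | [], _ => ⟨List.Pairwise.nil, fun x hx => absurd hx (by simp)⟩
  | x :: ys, h => by
    rw [ordc, Bool.and_eq_true, Bool.and_eq_true] at h
    obtain ⟨h1, h2⟩ := ord_of_ordc ys h.2
    refine ⟨List.pairwise_cons.2 ⟨?_, h1⟩, ?_⟩
    · intro y hy hd
      have h3 := (List.all_eq_true.1 h.1.2) y hy
      rw [Nat.mod_eq_zero_of_dvd hd] at h3
      exact absurd h3 (by decide)
    · intro z hz
      rcases List.mem_cons.1 hz with h4 | h4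
      · rw [h4]
        exact Nat.le_of_ble_eq_true h.1.1
      · exact h2 z h4

/-- flags from the bits of a number -/
def wf : ℕ → List ℕ → List (ℕ × Bool)
  | _, [] => []
  | f, x :: xs => (x, Nat.beq (f % 2) 1) :: wf (f / 2) xs

theorem wf_fst : ∀ (f : ℕ) (xs : List ℕ), (wf f xs).map Prod.fst = xs
  | _, [] => rfl
  | f, x :: xs => by
    rw [wf, List.map_cons, wf_fst (f / 2) xs]

/-- the check of a table of upper bounds: the entry `(y, v, f)` says that `v` is a bound for `y - 1`, shown by the search with flags `f` -/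
noncomputable def ctab (k : ℕ) (ms : List ℕ) : ℕ → List (ℕ × ℕ × ℕ) → Bool
  | _, [] => true
  | x, e :: t => Nat.ble x e.1 && Nat.ble 1 e.1 && Nat.ble (res k (wf e.2.2 (ms.filter fun s => Nat.blt s e.1))) e.2.1 && ctab k ms e.1 t

theorem opt_fc_le (k : ℕ) (hk : 1 ≤ k) (P X N H f : ℕ) (ms : List ℕ) (hN : N < 2 ^ 15) (hX : X ≤ N) (h0 : cov P N ms = true)
    (h1 : ordc ms = true) (h3 : Nat.ble (res k (wf f (ms.filter fun s => Nat.blt s (X + 1)))) H = true) : opt k (fc P X) ≤ H := by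
  classical
  obtain ⟨h4, h5⟩ := ord_of_ordc ms h1
  have hmap := wf_fst f (ms.filter fun s => Nat.blt s (X + 1))
  have hsub : fc P X ⊆ ((wf f (ms.filter fun s => Nat.blt s (X + 1))).map Prod.fst).toFinset := by
    intro s hs
    rw [mem_fc] at hs
    rw [List.mem_toFinset, hmap, List.mem_filter]
    refine ⟨cov_spec hN h0 s (hs.1.2.trans hX) hs.2, ?_⟩
    rw [Nat.blt_eq]
    omega
  calc opt k (fc P X) ≤ opt k ((wf f (ms.filter fun s => Nat.blt s (X + 1))).map Prod.fst).toFinset := opt_mono k hsub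
    _ ≤ res k (wf f (ms.filter fun s => Nat.blt s (X + 1))) := res_sound k hk _ (by
        rw [hmap]
        exact List.Pairwise.filter _ h4) (by
        rw [hmap]
        intro x hx
        exact h5 x (List.mem_filter.1 hx).1)
    _ ≤ H := Nat.le_of_ble_eq_true h3

/-- the largest size of a `k`-multiple-free set of numbers up to `j` composed of the primes of `P` -/
noncomputable def tt (k P j : ℕ) : ℕ := opt k (fc P j)

theorem tt_mono (k P : ℕ) : Monotone (tt k P) := fun _ _ h => opt_mono k (fc_mono P h)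

theorem chu_of_ctab (k : ℕ) (hk : 1 ≤ k) (P N : ℕ) (ms : List ℕ) (hN : N < 2 ^ 15) (h0 : cov P N ms = true) (h1 : ordc ms = true) :
    ∀ (l : List (ℕ × ℕ × ℕ)) (x : ℕ), (∀ e ∈ l, e.1 ≤ N + 1) → ctab k ms x l = true → ChU (tt k P) x (l.map fun e => (e.1, e.2.1))
  | [], _, _, _ => trivial
  | e :: t, x, hl, h => by
    rw [ctab, Bool.and_eq_true, Bool.and_eq_true, Bool.and_eq_true] at h
    have h2 := Nat.le_of_ble_eq_true h.1.1.2
    have h3 := hl e (List.mem_cons_self)
    refine ⟨Nat.le_of_ble_eq_true h.1.1.1, ?_, chu_of_ctab k hk P N ms hN h0 h1 t e.1 (fun e' he' => hl e' (List.mem_cons_of_mem _ he')) h.2⟩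
    intro j _ hj
    have h4 := opt_fc_le k hk P (e.1 - 1) N e.2.1 e.2.2 ms hN (by omega) h0 h1 (by
      rw [Nat.sub_add_cancel h2]
      exact h.1.2)
    exact (tt_mono k P (Nat.le_sub_one_of_lt hj)).trans h4

theorem opt_union_le (k : ℕ) (S T : Finset ℕ) : opt k (S ∪ T) ≤ opt k S + opt k T := by
  classical
  obtain ⟨A, hA, hAf, hAc⟩ := exists_opt k (S ∪ T)
  rw [← hAc]
  have h1 : A = (A ∩ S) ∪ (A ∩ T) := by
    rw [← Finset.inter_union_distrib_left]
    exact (Finset.inter_eq_left.2 hA).symm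
  calc A.card ≤ (A ∩ S).card + (A ∩ T).card := by
        conv_lhs => rw [h1]
        exact Finset.card_union_le _ _
    _ ≤ opt k S + opt k T := Nat.add_le_add
        (le_opt Finset.inter_subset_right (hAf.subset Finset.inter_subset_left))
        (le_opt Finset.inter_subset_right (hAf.subset Finset.inter_subset_left))

theorem nd_image (p : ℕ) (hp : 0 < p) (A : Finset ℕ) (a : ℕ) : nd (A.image (fun s => p * s)) (p * a) = nd A a := by
  classical
  have hinj : Function.Injective (fun s : ℕ => p * s) := fun a b h => Nat.eq_of_mul_eq_mul_left hp h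
  have h1 : (A.image (fun s => p * s)).filter (fun b => b ∣ p * a) = (A.filter (fun b => b ∣ a)).image (fun s => p * s) := by
    ext b
    simp only [Finset.mem_filter, Finset.mem_image]
    constructor
    · rintro ⟨⟨c, hc, rfl⟩, hd⟩
      exact ⟨c, ⟨hc, Nat.dvd_of_mul_dvd_mul_left hp hd⟩, rfl⟩
    · rintro ⟨c, ⟨hc, hd⟩, rfl⟩
      exact ⟨⟨c, hc, rfl⟩, Nat.mul_dvd_mul_left p hd⟩
  unfold nd
  rw [h1, Finset.card_image_of_injective _ hinj]

theorem kmf_image (k p : ℕ) (hp : 0 < p) (A : Finset ℕ) : KMultipleFree k (A.image (fun s => p * s)) ↔ KMultipleFree k A := by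
  classical
  rw [kmf_nd, kmf_nd]
  constructor
  · intro h2 a ha
    rw [← nd_image p hp]
    exact h2 (p * a) (Finset.mem_image.2 ⟨a, ha, rfl⟩)
  · intro h2 b hb
    obtain ⟨a, ha, rfl⟩ := Finset.mem_image.1 hb
    rw [nd_image p hp]
    exact h2 a ha

theorem opt_image_le (k p : ℕ) (hp : 0 < p) (S : Finset ℕ) : opt k (S.image (fun s => p * s)) ≤ opt k S := by
  classical
  obtain ⟨B, hB, hBf, hBc⟩ := exists_opt k (S.image (fun s => p * s))
  rw [← hBc]
  have h1 : B = (S.filter (fun s => p * s ∈ B)).image (fun s => p * s) := by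
    ext b
    simp only [Finset.mem_image, Finset.mem_filter]
    constructor
    · intro hb
      obtain ⟨s, hs, rfl⟩ := Finset.mem_image.1 (hB hb)
      exact ⟨s, ⟨hs, hb⟩, rfl⟩
    · rintro ⟨s, ⟨_, hb⟩, rfl⟩
      exact hb
  have h2 : KMultipleFree k (S.filter (fun s => p * s ∈ B)) := by
    rw [← kmf_image k p hp, ← h1]
    exact hBf
  calc B.card ≤ (S.filter (fun s => p * s ∈ B)).card := by
        conv_lhs => rw [h1]
        exact Finset.card_image_le
    _ ≤ opt k S := le_opt (Finset.filter_subset _ _) h2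

theorem fc_split (Q p j : ℕ) (hp : p.Prime) : fc (Q * p) j ⊆ fc Q j ∪ (fc (Q * p) (j / p)).image (fun s => p * s) := by
  classical
  intro s hs
  rw [mem_fc] at hs
  rw [Finset.mem_union]
  by_cases hd : p ∣ s
  · right
    obtain ⟨t, rfl⟩ := hd
    refine Finset.mem_image.2 ⟨t, mem_fc.2 ⟨⟨?_, ?_⟩, hs.2.of_dvd (Dvd.intro_left p rfl)⟩, rfl⟩
    · rcases Nat.eq_zero_or_pos t with h | h
      · rw [h, mul_zero] at hs
        omega
      · exact h
    · rw [Nat.le_div_iff_mul_le hp.pos, mul_comm]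
      exact hs.1.2
  · left
    refine mem_fc.2 ⟨hs.1, hs.2.1, ?_⟩
    intro r hr hrs
    have h1 := hs.2.2 r hr hrs
    rcases (hr.dvd_mul).1 h1 with h2 | h2
    · exact h2
    · exact absurd (((Nat.prime_dvd_prime_iff_eq hr hp).1 h2) ▸ hrs) hd

theorem tt_split (k Q p j : ℕ) (hp : p.Prime) : tt k (Q * p) j ≤ tt k Q j + tt k (Q * p) (j / p) :=
  calc opt k (fc (Q * p) j) ≤ opt k (fc Q j ∪ (fc (Q * p) (j / p)).image (fun s => p * s)) := opt_mono k (fc_split Q p j hp)
    _ ≤ opt k (fc Q j) + opt k ((fc (Q * p) (j / p)).image (fun s => p * s)) := opt_union_le k _ _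
    _ ≤ _ := Nat.add_le_add_left (opt_image_le k p hp.pos _) _

theorem smo_two_dvd {s t : ℕ} (hs : Smo 2 s) (ht : Smo 2 t) (h : s ≤ t) : s ∣ t := by
  obtain ⟨a, _, ha⟩ := (Nat.dvd_prime_pow Nat.prime_two).1 (smo_dvd 2 s s hs Nat.lt_two_pow_self)
  obtain ⟨b, _, hb⟩ := (Nat.dvd_prime_pow Nat.prime_two).1 (smo_dvd 2 t t ht Nat.lt_two_pow_self)
  rw [ha, hb] at h ⊢
  exact pow_dvd_pow 2 ((Nat.pow_le_pow_iff_right (by norm_num)).1 h)

theorem tt_two (k j : ℕ) : tt k 2 j ≤ k := by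
  classical
  obtain ⟨A, hA, hAf, hAc⟩ := exists_opt k (fc 2 j)
  unfold tt
  rw [← hAc]
  rcases A.eq_empty_or_nonempty with h | h
  · rw [h, Finset.card_empty]
    omega
  · have hm := A.max'_mem h
    have h1 := (kmf_nd k A).1 hAf _ hm
    refine le_trans (Finset.card_le_card ?_) h1
    intro b hb
    exact Finset.mem_filter.2 ⟨hb, smo_two_dvd (mem_fc.1 (hA hb)).2 (mem_fc.1 (hA hm)).2 (A.le_max' _ hb)⟩

theorem tt_six (k j : ℕ) : tt k 6 j ≤ (fun _ => k) j + tt k 6 (j / 3) := by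
  have h := tt_split k 2 3 j Nat.prime_three
  have h2 := tt_two k j
  norm_num at h
  show tt k 6 j ≤ k + tt k 6 (j / 3)
  omega

theorem tt_thirty (k j : ℕ) : tt k 30 j ≤ tt k 6 j + tt k 30 (j / 5) := by
  have h := tt_split k 6 5 j Nat.prime_five
  norm_num at h
  exact h

theorem tt_twoten (k j : ℕ) : tt k 210 j ≤ tt k 30 j + tt k 210 (j / 7) := by
  have h := tt_split k 30 7 j (by norm_num)
  norm_num at h
  exact h

end Pool.Agent.H36.KW
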