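import Pool.Agent.H36.KW.SdfSound

/-!
# KW Raw: the search with the arithmetic functions which the kernel evaluates directly
-/

set_option autoImplicit false

namespace Pool.Agent.H36.KW

def vmR (B x : ℕ) (l : List ℕ) : ℕ :=
  List.rec (motive := fun _ => ℕ) 0 (fun y _ ih => cond (Nat.beq (Nat.mod y x) 0) (Nat.add (Nat.sub B 1) (Nat.mul B ih)) (Nat.mul B ih)) l

def rpR (B c n : ℕ) : ℕ := Nat.rec (motive := fun _ => ℕ) 0 (fun _ ih => Nat.add c (Nat.mul B ih)) n

def nstR (B K O V s : ℕ) : ℕ := Nat.lor (Nat.div s B) (Nat.land (Nat.lor (Nat.mul 2 (Nat.land (Nat.div s B) K)) O) V)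

noncomputable def sdfR (B C K O : ℕ) (l : List (ℕ × ℕ)) : ℕ → ℕ → Bool :=
  List.rec (motive := fun _ => ℕ → ℕ → Bool) (fun _ r => Nat.ble 1 r)
    (fun e _ ih s r => cond (Nat.beq r 0) false
      (cond (Nat.ble r e.2)
        (frc s fun s' => frc (Nat.mod s' B) fun g => cond (Nat.beq g 0)
          (cond (ih (nstR B K O e.1 s') (Nat.sub r 1)) (ih (Nat.div s' B) r) false)
          (cond (Nat.ble C g) (cond (Nat.beq g C) true (ih (Nat.div s' B) r)) (ih (nstR B K O e.1 s') (Nat.sub r 1))))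
        true)) l

noncomputable def bndR (B C K O : ℕ) (l : List (ℕ × Bool)) : (List (ℕ × ℕ) → ℕ → List ℕ → ℕ) → ℕ :=
  List.rec (motive := fun _ => (List (ℕ × ℕ) → ℕ → List ℕ → ℕ) → ℕ) (fun k => k [] 0 [])
    (fun e _ ih k => ih fun t u ys => frc (vmR B e.1 ys) fun V => frc (Nat.succ u) fun u' =>
      cond (cond e.2 (sdfR B C K O t (nstR B K O V 0) u) false) (k ((V, u) :: t) u (e.1 :: ys)) (k ((V, u') :: t) u' (e.1 :: ys))) l

noncomputable def resR (k : ℕ) (l : List (ℕ × Bool)) : ℕ :=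
  frc (Nat.pow 2 (Nat.succ k)) fun B => frc (Nat.sub (Nat.pow 2 k) 1) fun C => frc (rpR B C l.length) fun K => frc (rpR B 1 l.length) fun O =>
    bndR B C K O l fun _ u _ => u

theorem vmR_eq (B x : ℕ) : ∀ l : List ℕ, vmR B x l = vm B x l
  | [] => rfl
  | y :: ys => by
    have h : vmR B x (y :: ys) = cond (Nat.beq (y % x) 0) ((B - 1) + B * vmR B x ys) (B * vmR B x ys) := rfl
    rw [h, vmR_eq B x ys, vm]

theorem rpR_eq (B c : ℕ) : ∀ n : ℕ, rpR B c n = rp B c n
  | 0 => rfl
  | n + 1 => by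
    have h : rpR B c (n + 1) = c + B * rpR B c n := rfl
    rw [h, rpR_eq B c n, rp]

theorem sdfR_eq (B C K O : ℕ) : ∀ l : List (ℕ × ℕ), sdfR B C K O l = sdf B C K O l
  | [] => rfl
  | e :: l => by
    have h : sdfR B C K O (e :: l) = fun s r => cond (Nat.beq r 0) false
      (cond (Nat.ble r e.2)
        (frc s fun s' => frc (s' % B) fun g => cond (Nat.beq g 0)
          (cond (sdfR B C K O l (nst B K O e.1 s') (r - 1)) (sdfR B C K O l (s' / B) r) false)
          (cond (Nat.ble C g) (cond (Nat.beq g C) true (sdfR B C K O l (s' / B) r)) (sdfR B C K O l (nst B K O e.1 s') (r - 1))))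
        true) := rfl
    rw [h, sdfR_eq B C K O l]
    rfl

theorem bndR_eq (B C K O : ℕ) : ∀ l : List (ℕ × Bool), bndR B C K O l = bnd B C K O l
  | [] => rfl
  | e :: l => by
    have h : bndR B C K O (e :: l) = fun k => bndR B C K O l fun t u ys => frc (vmR B e.1 ys) fun V => frc (u + 1) fun u' =>
      cond (cond e.2 (sdfR B C K O t (nst B K O V 0) u) false) (k ((V, u) :: t) u (e.1 :: ys)) (k ((V, u') :: t) u' (e.1 :: ys)) := rfl
    rw [h, bndR_eq B C K O l]
    funext k
    show bnd B C K O l _ = bnd B C K O l _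
    congr 1
    funext t u ys
    rw [vmR_eq, sdfR_eq]

theorem resR_eq (k : ℕ) (l : List (ℕ × Bool)) : resR k l = res k l := by
  have h : resR k l = frc (2 ^ (k + 1)) fun B => frc (2 ^ k - 1) fun C => frc (rpR B C l.length) fun K => frc (rpR B 1 l.length) fun O =>
    bndR B C K O l fun _ u _ => u := rfl
  rw [h]
  unfold res
  congr 1
  funext B
  congr 1
  funext C
  rw [rpR_eq, rpR_eq]
  congr 1
  funext K
  congr 1
  funext O
  rw [bndR_eq]

end Pool.Agent.H36.KW
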