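import Pool.Agent.H36.KW.Fc
import Pool.Agent.H36.KW.Raw

/-!
# KW Fc2: tables of upper bounds
-/

set_option autoImplicit false

namespace Pool.Agent.H36.KW

open Pool.Agent.H96.KMF Pool.Agent.H36.K3

/-- the sublist of the elements less than `y` with the flags -/
noncomputable def wfl (y : ℕ) (l : List ℕ) (f : ℕ) : List (ℕ × Bool) :=
  List.rec (motive := fun _ => ℕ → List (ℕ × Bool)) (fun _ => [])
    (fun x _ ih f => cond (Nat.ble y x) (ih f) (frc f fun f' => (x, Nat.beq (Nat.mod f' 2) 1) :: ih (Nat.div f' 2))) l f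

theorem wfl_eq (y : ℕ) : ∀ (l : List ℕ) (f : ℕ), (wfl y l f).map Prod.fst = l.filter fun s => Nat.blt s y
  | [], _ => rfl
  | x :: l, f => by
    have h : wfl y (x :: l) f = cond (Nat.ble y x) (wfl y l f) (frc f fun f' => (x, Nat.beq (Nat.mod f' 2) 1) :: wfl y l (Nat.div f' 2)) := rfl
    rw [h, List.filter_cons, frc_eq]
    by_cases h1 : y ≤ x
    · rw [Nat.ble_eq_true_of_le h1, cond_true, wfl_eq y l f]
      have h2 : Nat.blt x y = false := by
        rw [Bool.eq_false_iff]
        intro h3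
        rw [Nat.blt_eq] at h3
        omega
      rw [h2]
      rfl
    · have h2 : Nat.blt x y = true := by
        rw [Nat.blt_eq]
        omega
      have h3 : Nat.ble y x = false := by
        rw [Bool.eq_false_iff]
        intro h3
        exact h1 (Nat.le_of_ble_eq_true h3)
      rw [h3, cond_false, h2, List.map_cons, wfl_eq y l (Nat.div f 2)]
      rfl

/-- the check of one upper bound -/
noncomputable def cho (k : ℕ) (ms : List ℕ) (y v f : ℕ) : Bool := frc y fun y' => Nat.ble (resR k (wfl y' ms f)) v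

theorem cho_spec {k P N y v f : ℕ} {ms : List ℕ} (hk : 1 ≤ k) (hN : N < 2 ^ 15) (h0 : cov P N ms = true) (h1 : ordc ms = true)
    (hy : y ≤ N + 1) (hy1 : 1 ≤ y) (h : cho k ms y v f = true) : tt k P (y - 1) ≤ v := by
  classical
  unfold cho at h
  rw [frc_eq, resR_eq] at h
  obtain ⟨h4, h5⟩ := ord_of_ordc ms h1
  have hmap := wfl_eq y ms f
  have hsub : fc P (y - 1) ⊆ ((wfl y ms f).map Prod.fst).toFinset := by
    intro s hs
    rw [mem_fc] at hs
    rw [List.mem_toFinset, hmap, List.mem_filter]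
    refine ⟨cov_spec hN h0 s (by omega) hs.2, ?_⟩
    rw [Nat.blt_eq]
    omega
  calc tt k P (y - 1) ≤ opt k ((wfl y ms f).map Prod.fst).toFinset := opt_mono k hsub
    _ ≤ res k (wfl y ms f) := res_sound k hk _ (by
        rw [hmap]
        exact List.Pairwise.filter _ h4) (by
        rw [hmap]
        intro x hx
        exact h5 x (List.mem_filter.1 hx).1)
    _ ≤ v := Nat.le_of_ble_eq_true h

/-- the check of a table of upper bounds: the entry `(y, v, f)` says that `v` is a bound for `y - 1`, shown by the search with flags `f` -/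
noncomputable def ctabR (k : ℕ) (ms : List ℕ) (x : ℕ) (T : List (ℕ × ℕ × ℕ)) : Bool :=
  List.rec (motive := fun _ => ℕ → Bool) (fun _ => true)
    (fun e _ ih x => cond (Nat.ble x e.1) (cond (Nat.ble 1 e.1) (cond (cho k ms e.1 e.2.1 e.2.2) (ih e.1) false) false) false) T x

theorem ctabR_cons {k : ℕ} {ms : List ℕ} {x : ℕ} {e : ℕ × ℕ × ℕ} {t : List (ℕ × ℕ × ℕ)} (h : ctabR k ms x (e :: t) = true) :
    x ≤ e.1 ∧ 1 ≤ e.1 ∧ cho k ms e.1 e.2.1 e.2.2 = true ∧ ctabR k ms e.1 t = true := by
  have h1 : cond (Nat.ble x e.1) (cond (Nat.ble 1 e.1) (cond (cho k ms e.1 e.2.1 e.2.2) (ctabR k ms e.1 t) false) false) false = true := h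
  cases h2 : Nat.ble x e.1 with
  | false =>
    rw [h2] at h1
    exact absurd h1 (by simp)
  | true =>
    cases h3 : Nat.ble 1 e.1 with
    | false =>
      rw [h2, h3] at h1
      exact absurd h1 (by simp)
    | true =>
      cases h4 : cho k ms e.1 e.2.1 e.2.2 with
      | false =>
        rw [h2, h3, h4] at h1
        exact absurd h1 (by simp)
      | true =>
        rw [h2, h3, h4] at h1
        exact ⟨Nat.le_of_ble_eq_true h2, Nat.le_of_ble_eq_true h3, rfl, h1⟩

/-- all ends are at most `X` -/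
def leX (X : ℕ) (T : List (ℕ × ℕ × ℕ)) : Bool := T.all fun e => Nat.ble e.1 X

theorem chu_of_ctabR {k P N : ℕ} {ms : List ℕ} (hk : 1 ≤ k) (hN : N < 2 ^ 15) (h0 : cov P N ms = true) (h1 : ordc ms = true) :
    ∀ (l : List (ℕ × ℕ × ℕ)) (x : ℕ), leX (N + 1) l = true → ctabR k ms x l = true → ChU (tt k P) x (l.map fun e => (e.1, e.2.1))
  | [], _, _, _ => trivial
  | e :: t, x, hl, h => by
    obtain ⟨h2, h3, h4, h5⟩ := ctabR_cons h
    unfold leX at hl
    rw [List.all_cons, Bool.and_eq_true] at hl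
    refine ⟨h2, ?_, chu_of_ctabR hk hN h0 h1 t e.1 hl.2 h5⟩
    intro j _ hj
    exact (tt_mono k P (Nat.le_sub_one_of_lt hj)).trans (cho_spec hk hN h0 h1 (Nat.le_of_ble_eq_true hl.1) h3 h4)

end Pool.Agent.H36.KW
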