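import Pool.Agent.H36.KW.Sm7
import Pool.Agent.H36.KW.Chunk

/-!
# KW Tab3g0: sets which can be completed, for k = 3, j from 2048 to 4095
-/

set_option autoImplicit false
set_option maxRecDepth 100000

namespace Pool.Agent.H36.KW

open Pool.Agent.H96.KMF Pool.Agent.H36.K3

def tab3g0_0 : List (ℕ × ℕ × ℕ) :=
  [
    (2187, 92, 0x356adff3ff7ffbfffffffd7b91e2d0840000000000000000),
    (2205, 93, 0x2746edfd3ffffffdffffffdfb91a0d2800000000000000000),
    (2240, 94, 0x6756edff3ff7ffffff7efff7db182c2800000000000000000)]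

theorem chk_tab3g0_0 : chk true 3 11 qs11 sm7 2048 tab3g0_0 = true := by decide +kernel

def tab3g0_1 : List (ℕ × ℕ × ℕ) :=
  [
    (2304, 95, 0xe376edff7ff7fffffffefff79a1e280800000000000000000),
    (2401, 96, 0x5e36efdfffffffffffefffbfe981e200000000000000000000),
    (2430, 97, 0x25e34efdfffffffffffefffbfe991e200000000000000000000)]

theorem chk_tab3g0_1 : chk true 3 11 qs11 sm7 2240 tab3g0_1 = true := by decide +kernel

def tab3g0_2 : List (ℕ × ℕ × ℕ) :=
  [
    (2450, 98, 0x65e35efdfffffffffffefffbfc991e200000000000000000000),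
    (2560, 99, 0xe5e7fefffffffff7fffeffbae8d95c200000000000000000000),
    (2646, 100, 0x7e5e7ffffffffffbffffff73be1534c000000000000000000000)]

theorem chk_tab3g0_2 : chk true 3 11 qs11 sm7 2430 tab3g0_2 = true := by decide +kernel

def tab3g0_3 : List (ℕ × ℕ × ℕ) :=
  [
    (2744, 101, 0x25e7e77ffdfffffeffffffff6bf11b0a200000000000000000000),
    (2835, 102, 0x1fdadfffffffffffdfffff7f07f370604000000000000000000000),
    (3087, 103, 0x575efeffffffffffffffff7f579b51204000000000000000000000)]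

theorem chk_tab3g0_3 : chk true 3 11 qs11 sm7 2646 tab3g0_3 = true := by decide +kernel

def tab3g0_4 : List (ℕ × ℕ × ℕ) :=
  [
    (3125, 104, 0x20735e7ef7fffffffffffffffef78b55a00000000000000000000000),
    (3136, 105, 0x60735e7ef7fffffffffffffffef78b55a00000000000000000000000),
    (3200, 106, 0xe4775efeffffffffffffffbf6ed68b5da00000000000000000000000)]

theorem chk_tab3g0_4 : chk true 3 11 qs11 sm7 3087 tab3g0_4 = true := by decide +kernel

def tab3g0_5 : List (ℕ × ℕ × ℕ) :=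
  [
    (3375, 107, 0x3e1734efeffffffeffffedfff7ff78bd5800000000000000000000000),
    (3456, 108, 0x17f07bfffffffffffffffffffc3fa9c0e4000000000000000000000000),
    (3584, 109, 0xf3e97bdeffffffff7ffbdefff77bb7c294800000000000000000000000)]

theorem chk_tab3g0_5 : chk true 3 11 qs11 sm7 3200 tab3g0_5 = true := by decide +kernel

def tab3g0_6 : List (ℕ × ℕ × ℕ) :=
  [
    (3645, 110, 0x5f3e97ffe7fffffffffffdfdfb3fab3d210800000000000000000000000),
    (3675, 111, 0x15f3e97ffeffffffffffffdfdfb37ab3d210800000000000000000000000),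
    (3969, 112, 0x37f3eb7ffeffffffffffff9fdfb7f2b35210000000000000000000000000)]

theorem chk_tab3g0_6 : chk true 3 11 qs11 sm7 3584 tab3g0_6 = true := by decide +kernel

def tab3g0_7 : List (ℕ × ℕ × ℕ) :=
  [
    (4000, 113, 0x837f3eb7ffeffffffff7fff9fffb7f2b35210000000000000000000000000),
    (4050, 114, 0x183ff3efffffffffffffffffbfcf37f0b21a00000000000000000000000000),
    (4096, 115, 0x7835f3fbfffffffffffffe7fffdff6b0bb1800000000000000000000000000)]

theorem chk_tab3g0_7 : chk true 3 11 qs11 sm7 3969 tab3g0_7 = true := by decide +kernel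

def cat_tab3g0_7 : List (ℕ × ℕ) := [(4000, 113), (4050, 114), (4096, 115)]

theorem chl_tab3g0_7 : ChL (fn 3 210 11) 3969 cat_tab3g0_7 :=
  (chl_fn mas_sm7 qs11_spec tab3g0_7 3969 chk_tab3g0_7)

def cat_tab3g0_6 : List (ℕ × ℕ) := [(3645, 110), (3675, 111), (3969, 112)] ++ cat_tab3g0_7

theorem chl_tab3g0_6 : ChL (fn 3 210 11) 3584 cat_tab3g0_6 :=
  chl_append chl_tab3g0_7 [(3645, 110), (3675, 111), (3969, 112)] 3584 (by decide +kernel) (chl_fn mas_sm7 qs11_spec tab3g0_6 3584 chk_tab3g0_6)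

def cat_tab3g0_5 : List (ℕ × ℕ) := [(3375, 107), (3456, 108), (3584, 109)] ++ cat_tab3g0_6

theorem chl_tab3g0_5 : ChL (fn 3 210 11) 3200 cat_tab3g0_5 :=
  chl_append chl_tab3g0_6 [(3375, 107), (3456, 108), (3584, 109)] 3200 (by decide +kernel) (chl_fn mas_sm7 qs11_spec tab3g0_5 3200 chk_tab3g0_5)

def cat_tab3g0_4 : List (ℕ × ℕ) := [(3125, 104), (3136, 105), (3200, 106)] ++ cat_tab3g0_5

theorem chl_tab3g0_4 : ChL (fn 3 210 11) 3087 cat_tab3g0_4 :=
  chl_append chl_tab3g0_5 [(3125, 104), (3136, 105), (3200, 106)] 3087 (by decide +kernel) (chl_fn mas_sm7 qs11_spec tab3g0_4 3087 chk_tab3g0_4)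

def cat_tab3g0_3 : List (ℕ × ℕ) := [(2744, 101), (2835, 102), (3087, 103)] ++ cat_tab3g0_4

theorem chl_tab3g0_3 : ChL (fn 3 210 11) 2646 cat_tab3g0_3 :=
  chl_append chl_tab3g0_4 [(2744, 101), (2835, 102), (3087, 103)] 2646 (by decide +kernel) (chl_fn mas_sm7 qs11_spec tab3g0_3 2646 chk_tab3g0_3)

def cat_tab3g0_2 : List (ℕ × ℕ) := [(2450, 98), (2560, 99), (2646, 100)] ++ cat_tab3g0_3

theorem chl_tab3g0_2 : ChL (fn 3 210 11) 2430 cat_tab3g0_2 :=
  chl_append chl_tab3g0_3 [(2450, 98), (2560, 99), (2646, 100)] 2430 (by decide +kernel) (chl_fn mas_sm7 qs11_spec tab3g0_2 2430 chk_tab3g0_2)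

def cat_tab3g0_1 : List (ℕ × ℕ) := [(2304, 95), (2401, 96), (2430, 97)] ++ cat_tab3g0_2

theorem chl_tab3g0_1 : ChL (fn 3 210 11) 2240 cat_tab3g0_1 :=
  chl_append chl_tab3g0_2 [(2304, 95), (2401, 96), (2430, 97)] 2240 (by decide +kernel) (chl_fn mas_sm7 qs11_spec tab3g0_1 2240 chk_tab3g0_1)

def cat_tab3g0_0 : List (ℕ × ℕ) := [(2187, 92), (2205, 93), (2240, 94)] ++ cat_tab3g0_1

theorem chl_tab3g0_0 : ChL (fn 3 210 11) 2048 cat_tab3g0_0 :=
  chl_append chl_tab3g0_1 [(2187, 92), (2205, 93), (2240, 94)] 2048 (by decide +kernel) (chl_fn mas_sm7 qs11_spec tab3g0_0 2048 chk_tab3g0_0)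

def tab3g0 : List (ℕ × ℕ) := cat_tab3g0_0

theorem chl_tab3g0 : ChL (fn 3 210 11) 2048 tab3g0 := chl_tab3g0_0

theorem lst_tab3g0 : lst 2048 tab3g0 = 4096 := by decide +kernel

theorem tel_tab3g0 : (123970629 / 5000000000 : ℚ) ≤ tel 2048 tab3g0 := by decide +kernel

theorem ws_tab3g0 : (123970629 / 5000000000 : ℝ) ≤ ws (fn 3 210 11) 2048 4096 := by
  have h2 := (tel_le_ws _ _ 2048 (by norm_num) chl_tab3g0).2
  rw [lst_tab3g0] at h2
  have h4 : ((123970629 / 5000000000 : ℚ) : ℝ) ≤ _ := Rat.cast_le.2 tel_tab3g0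
  rw [show ((123970629 / 5000000000 : ℚ) : ℝ) = (123970629 / 5000000000 : ℝ) by norm_num] at h4
  exact h4.trans h2

end Pool.Agent.H36.KW
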