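import Pool.Agent.H36.KW.Tab3a0
import Pool.Agent.H36.KW.Tab3g0

/-!
# KW Fl3: the lower bound for k = 3
-/

set_option autoImplicit false
set_option maxRecDepth 100000

namespace Pool.Agent.H36.KW

open Pool.Agent.H96.KMF Pool.Agent.H36.K3 Filter Topology

theorem lo3a : (35084471161 / 10000000000 : ℝ) ≤ ws (fa 3 210 11) 1 4096 := by
  have h0 := ws_tab3a0
  linarith

theorem lo3g : (123970629 / 5000000000 : ℝ) ≤ ws (fn 3 210 11) 2048 4096 := by
  have h0 := ws_tab3g0
  linarith

theorem lower3 (c : ℝ) (hc : Tendsto (fun n : ℕ => (gk 3 n : ℝ) / n) atTop (𝓝 c)) : 0.8103 < c := by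
  have h := lower_aux 3 210 11 (by norm_num) (by norm_num) (by norm_num) (by norm_num) (by norm_num) (by
    intro p hp hlt
    interval_cases p <;> first | decide | exact absurd hp (by norm_num)) c hc 2048 20 (by norm_num)
  have h0 : (Nat.totient 210 : ℝ) / (210 : ℕ) = 8 / 35 := by
    have : Nat.totient 210 = 48 := by decide +kernel
    rw [this]
    norm_num
  rw [h0] at h
  have h1 := lo3a
  have h2 := lo3g
  have h3 := ws_cc_a_3
  have h4 := ws_cc_g_3
  norm_num at h h1 h2 h3 h4 ⊢
  linarith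

end Pool.Agent.H36.KW
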