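import Pool.Agent.H36.KW.Sm13
import Pool.Agent.H36.KW.Chunk

/-!
# KW Tab4a1: sets, for k = 4, j from 1000 to 2047
-/

set_option autoImplicit false
set_option maxRecDepth 100000

namespace Pool.Agent.H36.KW

open Pool.Agent.H96.KMF Pool.Agent.H36.K3

def tab4a1_0 : List (ℕ × ℕ × ℕ) :=
  [
    (1001, 163, 0x2f43fffaffffffffffffffffffffffffffffdff8fae2c3204200000000000),
    (1014, 164, 0x6f43fffaffffffffffffffffffffffffffffdff8fae2c3204200000000000),
    (1024, 165, 0x1ef43fffabfffdfffffffffffffffffffffffdffafae283204300000000000)]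

theorem chk_tab4a1_0 : chk false 4 17 qs17 sm13 1000 tab4a1_0 = true := by decide +kernel

def tab4a1_1 : List (ℕ × ℕ × ℕ) :=
  [
    (1029, 166, 0x3ed43ffeebffffffffffffffffffffffffbfeffbbfab680724200000000000),
    (1053, 167, 0x7ed43ffeebffffffffffffffffffffffffbfeefbbfab681724200000000000),
    (1056, 168, 0x27ed43ffeabffffffffffffffffffffffffbfcffbbfaf681724200000000000)]

theorem chk_tab4a1_1 : chk false 4 17 qs17 sm13 1024 tab4a1_1 = true := by decide +kernel

def tab4a1_2 : List (ℕ × ℕ × ℕ) :=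
  [
    (1078, 169, 0x67ef43fffefffffffffffffffffbffffffbbfffffafaa681204300000000000),
    (1089, 170, 0xe7ef43fffefffffffffffffffffbffffffbbfffffafab681204200000000000),
    (1100, 171, 0x2e7ef43fffebfffffffffffffffffffffffbbfffffafab681204200000000000)]

theorem chk_tab4a1_2 : chk false 4 17 qs17 sm13 1056 tab4a1_2 = true := by decide +kernel

def tab4a1_3 : List (ℕ × ℕ × ℕ) :=
  [
    (1120, 172, 0xaefefcbfffeffffffffffffffffffffffffbbfffdfa7a9681204000000000000),
    (1125, 173, 0x1aefefcbffffefffffffffffffffefffffffbfffddfa7a9681206000000000000),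
    (1134, 174, 0x3aefefcbfffeffffffffffffffffffffffffbffffdfa6a9281206000000000000)]

theorem chk_tab4a1_3 : chk false 4 17 qs17 sm13 1100 tab4a1_3 = true := by decide +kernel

def tab4a1_4 : List (ℕ × ℕ × ℕ) :=
  [
    (1144, 175, 0x7aefefcbfffeffffffffffffffffffffffffbffffdfa6a9281206000000000000),
    (1183, 176, 0xfaefefcbfffeffffffffffffffffffffffffbffffdfa6a9281206000000000000),
    (1210, 177, 0x17faafffcbfffbffffffffffffffffebffffffffffe9f86ad281206000000000000)]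

theorem chk_tab4a1_4 : chk false 4 17 qs17 sm13 1134 tab4a1_4 = true := by decide +kernel

def tab4a1_5 : List (ℕ × ℕ × ℕ) :=
  [
    (1215, 178, 0x97faafefebfffbffffffffffffffffffffffefffdff9f82ad281206000000000000),
    (1225, 179, 0x1b3faafffebfffffffffffbfffff7ffbfffffefffffedf82ad281206000000000000),
    (1232, 180, 0x3b3faafffebfffffffffffbfffff7ffbfffffefffffedf82ad281206000000000000)]

theorem chk_tab4a1_5 : chk false 4 17 qs17 sm13 1210 tab4a1_5 = true := by decide +kernel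

def tab4a1_6 : List (ℕ × ℕ × ℕ) :=
  [
    (1248, 181, 0x793faefefdbffffffffffffffffffffffffffef9bfffdfa5a9681200000000000000),
    (1250, 182, 0xf92faefeffbfffffffffffffffffffffffffdffbbfffdfa1a9681200000000000000),
    (1274, 183, 0x1f92faefeffbfffffffffffffffffffffffffdffbbfffdfa1a9681200000000000000)]

theorem chk_tab4a1_6 : chk false 4 17 qs17 sm13 1232 tab4a1_6 = true := by decide +kernel

def tab4a1_7 : List (ℕ × ℕ × ℕ) :=
  [
    (1280, 184, 0x5f93faefeffbfffffffffffffffffffffffffdefbbfffdfa1a9681200000000000000),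
    (1287, 185, 0xdf93faefeffbfffffffffffffffffffffffffdffbbfffdfa1a8681200000000000000),
    (1300, 186, 0x1dfb3faaffffbfffffffffffffffffffffffffdfffbffedfa1a8680200000000000000)]

theorem chk_tab4a1_7 : chk false 4 17 qs17 sm13 1274 tab4a1_7 = true := by decide +kernel

def tab4a1_8 : List (ℕ × ℕ × ℕ) :=
  [
    (1323, 187, 0x7dfb3faaffffbfffffffff7fffffffffffffffdfffbffedfa1a8680200000000000000),
    (1331, 188, 0x17dfb3faefffebffffffffffffffffffeffffffdfffbffedda3a8680200000000000000),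
    (1352, 189, 0x35dfb3faefffebfffffffffffffffffffffffffdfffbffedda3a8680200000000000000)]

theorem chk_tab4a1_8 : chk false 4 17 qs17 sm13 1300 tab4a1_8 = true := by decide +kernel

def tab4a1_9 : List (ℕ × ℕ × ℕ) :=
  [
    (1372, 190, 0x135dfb3faefffebfffffffffffffffffffffffffdfffbffedda3a8680200000000000000),
    (1375, 191, 0x537dfb3faefffebfffffffffffffffffffffffffdfffbfeedda3a8680200000000000000),
    (1386, 192, 0xd77dfb3faefffebffffffffffffffffff7ffffffdfffbfeedda3a8680200000000000000)]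

theorem chk_tab4a1_9 : chk false 4 17 qs17 sm13 1352 tab4a1_9 = true := by decide +kernel

def tab4a1_10 : List (ℕ × ℕ × ℕ) :=
  [
    (1400, 193, 0x1f37dfb3faeffffbfffffffffffffffffffffffffdfefbfeedda1a8680200000000000000),
    (1408, 194, 0x3f75d7f7fafffffffffffffffffffffffffffffff77fffdbc9caca8600200000000000000),
    (1430, 195, 0xbf77d7f7faffffdffffffffffffffffffffffffff77fffdac9caca8680200000000000000)]

theorem chk_tab4a1_10 : chk false 4 17 qs17 sm13 1386 tab4a1_10 = true := by decide +kernel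

def tab4a1_11 : List (ℕ × ℕ × ℕ) :=
  [
    (1456, 196, 0x1bf77d7f7faffffdffffffffffffffffffffffffff77fffdac9caca8680200000000000000),
    (1458, 197, 0x9ff37d7f7feffffffffffffffffffffffffefffffff7fffdfcd4a0a8600000000000000000),
    (1485, 198, 0x19ff35dff7feffffffffffffffffbfffffffffffffff7fffdfcd4a0a8600000000000000000)]

theorem chk_tab4a1_11 : chk false 4 17 qs17 sm13 1430 tab4a1_11 = true := by decide +kernel

def tab4a1_12 : List (ℕ × ℕ × ℕ) :=
  [
    (1521, 199, 0x5bffb7d7f7fffffffffffffffffffffffffeffffefffefff9ecf2a0a0600000000000000000),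
    (1568, 200, 0x25bffb7dff7fffffffffffffffffffffffffefdffefffefff9ecf2a0a0600000000000000000),
    (1573, 201, 0x2e59fff7dff7fefffffffffffffffffffbfffeeffffbfeffaf9b8dfa8a0600000000000000000)]

theorem chk_tab4a1_12 : chk false 4 17 qs17 sm13 1485 tab4a1_12 = true := by decide +kernel

def tab4a1_13 : List (ℕ × ℕ × ℕ) :=
  [
    (1575, 202, 0x6659fff5dff7fabffffffffffffffffffffffefffffbffffef9b8dfa8a0600000000000000000),
    (1600, 203, 0xe659fff7d7f7fffffffffffffffffffffffffeffffcfffffef9acd6a8a0600000000000000000),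
    (1617, 204, 0x3fe59bf7fdff7fefffffffffbffffffffffffffffef7fed7faff9c9e80a8680000000000000000)]

theorem chk_tab4a1_13 : chk false 4 17 qs17 sm13 1573 tab4a1_13 = true := by decide +kernel

def tab4a1_14 : List (ℕ × ℕ × ℕ) :=
  [
    (1625, 205, 0x7fe59bf7fdff7fefffffffffbffffffffffffffffef7fed7faff9c9e80a8680000000000000000),
    (1638, 206, 0x16fa59bf7ddff7feffffffffffffffffffffffffffef7ffd7fbff9c9e80a8680000000000000000),
    (1664, 207, 0x3eea59fff7dff7ffffffffffff7fffffbffdffffffffffef7f3fdbcd6a0a0600000000000000000)]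

theorem chk_tab4a1_14 : chk false 4 17 qs17 sm13 1617 tab4a1_14 = true := by decide +kernel

def tab4a1_15 : List (ℕ × ℕ × ℕ) :=
  [
    (1690, 208, 0xbeee59fff7d7f7ffffffffffff7ffffffffdfffffffbefef7f7fdbcd6a0a0600000000000000000),
    (1694, 209, 0x2bfee59fff7dff7fffffffffffbfffffffffdfffffdf7ffef7f6fdbcd4a0a0600000000000000000),
    (1701, 210, 0x6bfe259fff7dff7fffffffffffbfffffffffdfffffdffffef7f7fdbcd4a0a0600000000000000000)]

theorem chk_tab4a1_15 : chk false 4 17 qs17 sm13 1664 tab4a1_15 = true := by decide +kernel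

def tab4a1_16 : List (ℕ × ℕ × ℕ) :=
  [
    (1715, 211, 0xebfe259fff7dff7fffffffffffbfffffffffdfffffdffffef7f7fdbcd4a0a0600000000000000000),
    (1755, 212, 0x1ebeee59fff7d7f7fffffffffffffffffffffdefffffffefee7f7fdbcd6a0a0600000000000000000),
    (1760, 213, 0x11ebee659fff7d7f7fffffffffffffffffffffdefffffffefef7f7fdbcd6a0a0600000000000000000)]

theorem chk_tab4a1_16 : chk false 4 17 qs17 sm13 1701 tab4a1_16 = true := by decide +kernel

def tab4a1_17 : List (ℕ × ℕ × ℕ) :=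
  [
    (1764, 214, 0x31ebeee59fff7d7f7fffffffffffffffffffffdefffffffefef7f7fd9cd6a0a0600000000000000000),
    (1782, 215, 0x79ebeea7bffb7f7ffffffffffdfffffffffffffffffffffefefcf779d472e020600000000000000000),
    (1815, 216, 0xf9ebeea7bffb7f7ffffffffffdfffffffffffffffffffffefefcf779d472e020600000000000000000)]

theorem chk_tab4a1_17 : chk false 4 17 qs17 sm13 1760 tab4a1_17 = true := by decide +kernel

def tab4a1_18 : List (ℕ × ℕ × ℕ) :=
  [
    (1859, 217, 0x7fdef6eefbffbff7fffffffffffffffffffffffffffffffecbbf4fe7d4453c020200000000000000000),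
    (1875, 218, 0x2ff5ef6ee7bdfbffffffffffffffffffffffffffffffdffffcfbf4fe7d4053c020600000000000000000),
    (1911, 219, 0xa7f5ef6ee7bdfbff7ffffffffffffffffffffffffffffffffcfbf4fe7d4453c020600000000000000000)]

theorem chk_tab4a1_18 : chk false 4 17 qs17 sm13 1815 tab4a1_18 = true := by decide +kernel

def tab4a1_19 : List (ℕ × ℕ × ℕ) :=
  [
    (1920, 220, 0x2eff5ef6ee7bffbffffffffffffffffffff7ffbffffffdffffcfbd4fe7d4453c020600000000000000000),
    (1925, 221, 0x6edb9ebffe5bffffdff7fffffffffffeffffffbfffffeffffbfbedff1f99cd080a0600000000000000000),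
    (1980, 222, 0xea5b9effee5bffffdff7fffffffffffbffffffffffffeffffbffaffe7b998d880a0600000000000000000)]

theorem chk_tab4a1_19 : chk false 4 17 qs17 sm13 1911 tab4a1_19 = true := by decide +kernel

def tab4a1_20 : List (ℕ × ℕ × ℕ) :=
  [
    (2002, 223, 0x11ea5b9effee5bffffd7f7fffffeffffffffffffffffffefffbbfbafff7f99cd080a0600000000000000000),
    (2025, 224, 0x50ea5b9effee5bffffdff7ffffffffffffffffffffffffefffbbfbafff7f998d080a0600000000000000000),
    (2048, 225, 0x150eadb1effee5bffffd7f7ffffffffffffffffffffffffefffbb7fafff7f99cd080a0600000000000000000)]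

theorem chk_tab4a1_20 : chk false 4 17 qs17 sm13 1980 tab4a1_20 = true := by decide +kernel

def cat_tab4a1_20 : List (ℕ × ℕ) := [(2002, 223), (2025, 224), (2048, 225)]

theorem chl_tab4a1_20 : ChL (fa 4 30030 17) 1980 cat_tab4a1_20 :=
  (chl_fa mas_sm13 qs17_spec tab4a1_20 1980 chk_tab4a1_20)

def cat_tab4a1_19 : List (ℕ × ℕ) := [(1920, 220), (1925, 221), (1980, 222)] ++ cat_tab4a1_20

theorem chl_tab4a1_19 : ChL (fa 4 30030 17) 1911 cat_tab4a1_19 :=
  chl_append chl_tab4a1_20 [(1920, 220), (1925, 221), (1980, 222)] 1911 (by decide +kernel) (chl_fa mas_sm13 qs17_spec tab4a1_19 1911 chk_tab4a1_19)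

def cat_tab4a1_18 : List (ℕ × ℕ) := [(1859, 217), (1875, 218), (1911, 219)] ++ cat_tab4a1_19

theorem chl_tab4a1_18 : ChL (fa 4 30030 17) 1815 cat_tab4a1_18 :=
  chl_append chl_tab4a1_19 [(1859, 217), (1875, 218), (1911, 219)] 1815 (by decide +kernel) (chl_fa mas_sm13 qs17_spec tab4a1_18 1815 chk_tab4a1_18)

def cat_tab4a1_17 : List (ℕ × ℕ) := [(1764, 214), (1782, 215), (1815, 216)] ++ cat_tab4a1_18

theorem chl_tab4a1_17 : ChL (fa 4 30030 17) 1760 cat_tab4a1_17 :=
  chl_append chl_tab4a1_18 [(1764, 214), (1782, 215), (1815, 216)] 1760 (by decide +kernel) (chl_fa mas_sm13 qs17_spec tab4a1_17 1760 chk_tab4a1_17)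

def cat_tab4a1_16 : List (ℕ × ℕ) := [(1715, 211), (1755, 212), (1760, 213)] ++ cat_tab4a1_17

theorem chl_tab4a1_16 : ChL (fa 4 30030 17) 1701 cat_tab4a1_16 :=
  chl_append chl_tab4a1_17 [(1715, 211), (1755, 212), (1760, 213)] 1701 (by decide +kernel) (chl_fa mas_sm13 qs17_spec tab4a1_16 1701 chk_tab4a1_16)

def cat_tab4a1_15 : List (ℕ × ℕ) := [(1690, 208), (1694, 209), (1701, 210)] ++ cat_tab4a1_16

theorem chl_tab4a1_15 : ChL (fa 4 30030 17) 1664 cat_tab4a1_15 :=
  chl_append chl_tab4a1_16 [(1690, 208), (1694, 209), (1701, 210)] 1664 (by decide +kernel) (chl_fa mas_sm13 qs17_spec tab4a1_15 1664 chk_tab4a1_15)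

def cat_tab4a1_14 : List (ℕ × ℕ) := [(1625, 205), (1638, 206), (1664, 207)] ++ cat_tab4a1_15

theorem chl_tab4a1_14 : ChL (fa 4 30030 17) 1617 cat_tab4a1_14 :=
  chl_append chl_tab4a1_15 [(1625, 205), (1638, 206), (1664, 207)] 1617 (by decide +kernel) (chl_fa mas_sm13 qs17_spec tab4a1_14 1617 chk_tab4a1_14)

def cat_tab4a1_13 : List (ℕ × ℕ) := [(1575, 202), (1600, 203), (1617, 204)] ++ cat_tab4a1_14

theorem chl_tab4a1_13 : ChL (fa 4 30030 17) 1573 cat_tab4a1_13 :=
  chl_append chl_tab4a1_14 [(1575, 202), (1600, 203), (1617, 204)] 1573 (by decide +kernel) (chl_fa mas_sm13 qs17_spec tab4a1_13 1573 chk_tab4a1_13)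

def cat_tab4a1_12 : List (ℕ × ℕ) := [(1521, 199), (1568, 200), (1573, 201)] ++ cat_tab4a1_13

theorem chl_tab4a1_12 : ChL (fa 4 30030 17) 1485 cat_tab4a1_12 :=
  chl_append chl_tab4a1_13 [(1521, 199), (1568, 200), (1573, 201)] 1485 (by decide +kernel) (chl_fa mas_sm13 qs17_spec tab4a1_12 1485 chk_tab4a1_12)

def cat_tab4a1_11 : List (ℕ × ℕ) := [(1456, 196), (1458, 197), (1485, 198)] ++ cat_tab4a1_12

theorem chl_tab4a1_11 : ChL (fa 4 30030 17) 1430 cat_tab4a1_11 :=
  chl_append chl_tab4a1_12 [(1456, 196), (1458, 197), (1485, 198)] 1430 (by decide +kernel) (chl_fa mas_sm13 qs17_spec tab4a1_11 1430 chk_tab4a1_11)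

def cat_tab4a1_10 : List (ℕ × ℕ) := [(1400, 193), (1408, 194), (1430, 195)] ++ cat_tab4a1_11

theorem chl_tab4a1_10 : ChL (fa 4 30030 17) 1386 cat_tab4a1_10 :=
  chl_append chl_tab4a1_11 [(1400, 193), (1408, 194), (1430, 195)] 1386 (by decide +kernel) (chl_fa mas_sm13 qs17_spec tab4a1_10 1386 chk_tab4a1_10)

def cat_tab4a1_9 : List (ℕ × ℕ) := [(1372, 190), (1375, 191), (1386, 192)] ++ cat_tab4a1_10

theorem chl_tab4a1_9 : ChL (fa 4 30030 17) 1352 cat_tab4a1_9 :=
  chl_append chl_tab4a1_10 [(1372, 190), (1375, 191), (1386, 192)] 1352 (by decide +kernel) (chl_fa mas_sm13 qs17_spec tab4a1_9 1352 chk_tab4a1_9)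

def cat_tab4a1_8 : List (ℕ × ℕ) := [(1323, 187), (1331, 188), (1352, 189)] ++ cat_tab4a1_9

theorem chl_tab4a1_8 : ChL (fa 4 30030 17) 1300 cat_tab4a1_8 :=
  chl_append chl_tab4a1_9 [(1323, 187), (1331, 188), (1352, 189)] 1300 (by decide +kernel) (chl_fa mas_sm13 qs17_spec tab4a1_8 1300 chk_tab4a1_8)

def cat_tab4a1_7 : List (ℕ × ℕ) := [(1280, 184), (1287, 185), (1300, 186)] ++ cat_tab4a1_8

theorem chl_tab4a1_7 : ChL (fa 4 30030 17) 1274 cat_tab4a1_7 :=
  chl_append chl_tab4a1_8 [(1280, 184), (1287, 185), (1300, 186)] 1274 (by decide +kernel) (chl_fa mas_sm13 qs17_spec tab4a1_7 1274 chk_tab4a1_7)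

def cat_tab4a1_6 : List (ℕ × ℕ) := [(1248, 181), (1250, 182), (1274, 183)] ++ cat_tab4a1_7

theorem chl_tab4a1_6 : ChL (fa 4 30030 17) 1232 cat_tab4a1_6 :=
  chl_append chl_tab4a1_7 [(1248, 181), (1250, 182), (1274, 183)] 1232 (by decide +kernel) (chl_fa mas_sm13 qs17_spec tab4a1_6 1232 chk_tab4a1_6)

def cat_tab4a1_5 : List (ℕ × ℕ) := [(1215, 178), (1225, 179), (1232, 180)] ++ cat_tab4a1_6

theorem chl_tab4a1_5 : ChL (fa 4 30030 17) 1210 cat_tab4a1_5 :=
  chl_append chl_tab4a1_6 [(1215, 178), (1225, 179), (1232, 180)] 1210 (by decide +kernel) (chl_fa mas_sm13 qs17_spec tab4a1_5 1210 chk_tab4a1_5)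

def cat_tab4a1_4 : List (ℕ × ℕ) := [(1144, 175), (1183, 176), (1210, 177)] ++ cat_tab4a1_5

theorem chl_tab4a1_4 : ChL (fa 4 30030 17) 1134 cat_tab4a1_4 :=
  chl_append chl_tab4a1_5 [(1144, 175), (1183, 176), (1210, 177)] 1134 (by decide +kernel) (chl_fa mas_sm13 qs17_spec tab4a1_4 1134 chk_tab4a1_4)

def cat_tab4a1_3 : List (ℕ × ℕ) := [(1120, 172), (1125, 173), (1134, 174)] ++ cat_tab4a1_4

theorem chl_tab4a1_3 : ChL (fa 4 30030 17) 1100 cat_tab4a1_3 :=
  chl_append chl_tab4a1_4 [(1120, 172), (1125, 173), (1134, 174)] 1100 (by decide +kernel) (chl_fa mas_sm13 qs17_spec tab4a1_3 1100 chk_tab4a1_3)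

def cat_tab4a1_2 : List (ℕ × ℕ) := [(1078, 169), (1089, 170), (1100, 171)] ++ cat_tab4a1_3

theorem chl_tab4a1_2 : ChL (fa 4 30030 17) 1056 cat_tab4a1_2 :=
  chl_append chl_tab4a1_3 [(1078, 169), (1089, 170), (1100, 171)] 1056 (by decide +kernel) (chl_fa mas_sm13 qs17_spec tab4a1_2 1056 chk_tab4a1_2)

def cat_tab4a1_1 : List (ℕ × ℕ) := [(1029, 166), (1053, 167), (1056, 168)] ++ cat_tab4a1_2

theorem chl_tab4a1_1 : ChL (fa 4 30030 17) 1024 cat_tab4a1_1 :=
  chl_append chl_tab4a1_2 [(1029, 166), (1053, 167), (1056, 168)] 1024 (by decide +kernel) (chl_fa mas_sm13 qs17_spec tab4a1_1 1024 chk_tab4a1_1)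

def cat_tab4a1_0 : List (ℕ × ℕ) := [(1001, 163), (1014, 164), (1024, 165)] ++ cat_tab4a1_1

theorem chl_tab4a1_0 : ChL (fa 4 30030 17) 1000 cat_tab4a1_0 :=
  chl_append chl_tab4a1_1 [(1001, 163), (1014, 164), (1024, 165)] 1000 (by decide +kernel) (chl_fa mas_sm13 qs17_spec tab4a1_0 1000 chk_tab4a1_0)

def tab4a1 : List (ℕ × ℕ) := cat_tab4a1_0

theorem chl_tab4a1 : ChL (fa 4 30030 17) 1000 tab4a1 := chl_tab4a1_0

theorem lst_tab4a1 : lst 1000 tab4a1 = 2048 := by decide +kernel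

theorem tel_tab4a1 : (6101869 / 62500000 : ℚ) ≤ tel 1000 tab4a1 := by decide +kernel

theorem ws_tab4a1 : (6101869 / 62500000 : ℝ) ≤ ws (fa 4 30030 17) 1000 2048 := by
  have h2 := (tel_le_ws _ _ 1000 (by norm_num) chl_tab4a1).2
  rw [lst_tab4a1] at h2
  have h4 : ((6101869 / 62500000 : ℚ) : ℝ) ≤ _ := Rat.cast_le.2 tel_tab4a1
  rw [show ((6101869 / 62500000 : ℚ) : ℝ) = (6101869 / 62500000 : ℝ) by norm_num] at h4
  exact h4.trans h2

end Pool.Agent.H36.KW
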