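import Pool.Agent.H36.KW.Sm13
import Pool.Agent.H36.KW.Chunk

/-!
# KW Tab4g0: sets which can be completed, for k = 4, j from 1024 to 2047
-/

set_option autoImplicit false
set_option maxRecDepth 100000

namespace Pool.Agent.H36.KW

open Pool.Agent.H96.KMF Pool.Agent.H36.K3

def tab4g0_0 : List (ℕ × ℕ × ℕ) :=
  [
    (1029, 159, 0x2ff037affbfffffffffffffefffff7ffffdffebfcb9f28c404000000000000),
    (1040, 160, 0x6ff0bfeffbfffffffffff7dffffff7fefffffebfcb1f08c404000000000000),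
    (1071, 161, 0xee71beeffbffffffffffffff7ffffffdfffffbbfad3928cc00000000000000)]

theorem chk_tab4g0_0 : chk true 4 17 qs17 sm13 1024 tab4g0_0 = true := by decide +kernel

def tab4g0_1 : List (ℕ × ℕ × ℕ) :=
  [
    (1078, 162, 0xee70b6effbfffffffffffffffffffffffffffbbfaf1928cc04000000000000),
    (1100, 163, 0x8f6f1bfeffffffffffffff7bfffbffffffffffbbf6f3928c000000000000000),
    (1105, 164, 0x8ae6f1bfefffffffffffffffffffff7ffffffebbbfef282cc000000000000000)]

theorem chk_tab4g0_1 : chk true 4 17 qs17 sm13 1071 tab4g0_1 = true := by decide +kernel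

def tab4g0_2 : List (ℕ × ℕ × ℕ) :=
  [
    (1120, 165, 0xaefe79bfeffffffffffffffffffffbffffffbffb9d253960c800000000000000),
    (1144, 166, 0x8ef679beefffffffffffff7ffffffffffffbbbfb9fed7960d800000000000000),
    (1170, 167, 0xc8cf679beefffffffffffffffffffffeffffbbbff8fed79689800000000000000)]

theorem chk_tab4g0_2 : chk true 4 17 qs17 sm13 1105 tab4g0_2 = true := by decide +kernel

def tab4g0_3 : List (ℕ × ℕ × ℕ) :=
  [
    (1183, 168, 0x4c8ef27bbfeffffffffffffffffffffffffefbb9ff8f6d79609a00000000000000),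
    (1210, 170, 0x17d8ebeffbffffffffffffffffffffffffffefbfcdf8f0789221200000000000000),
    (1232, 171, 0xb7faeafffffffffffffffffffffefffbffffffffc7e8d87a9000000000000000000)]

theorem chk_tab4g0_3 : chk true 4 17 qs17 sm13 1170 tab4g0_3 = true := by decide +kernel

def tab4g0_4 : List (ℕ × ℕ × ℕ) :=
  [
    (1248, 172, 0x4b6faeafffffffffffffffffffffeffffffffffffc7e8d87a9000000000000000000),
    (1250, 173, 0x7b5baaffffffffffffffffffff7fffffbfffffffcd7e9bb521000800000000000000),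
    (1260, 174, 0x17b5baaffffffffffffffffffff7fffffbfffffffcd7e9bb521000800000000000000)]

theorem chk_tab4g0_4 : chk true 4 17 qs17 sm13 1232 tab4g0_4 = true := by decide +kernel

def tab4g0_5 : List (ℕ × ℕ × ℕ) :=
  [
    (1274, 175, 0x17b0bbaf7f7ffffffffffffffffffffffffffffbfcf6efb7960000a00000000000000),
    (1280, 176, 0x57b0bfef7f7fffffffffffffffffffffffeffffbfcf6ed3f961000800000000000000),
    (1300, 177, 0xdfb1beeffffbfffffffffffffffffffffee7fdfffcffed7b120080800000000000000)]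

theorem chk_tab4g0_5 : chk true 4 17 qs17 sm13 1260 tab4g0_5 = true := by decide +kernel

def tab4g0_6 : List (ℕ × ℕ × ℕ) :=
  [
    (1320, 178, 0x4dfb1be8ffffbfffffffffffffffffffffefffdfffcffed7b120080800000000000000),
    (1331, 180, 0x6ffb1bfbffffffffffffff7ffffffffffff7ffdffd6f66daf1a2080000000000000000),
    (1352, 181, 0x24ffb1bfffffffffffffffffffffffffffff7ffdff96f66daf1a2080000000000000000)]

theorem chk_tab4g0_6 : chk true 4 17 qs17 sm13 1300 tab4g0_6 = true := by decide +kernel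

def tab4g0_7 : List (ℕ × ℕ × ℕ) :=
  [
    (1372, 182, 0x124ffb1bfffffffffffffffffffffffffffff7ffdff96f66daf1a2080000000000000000),
    (1375, 183, 0x526ffb1bffffffffffffffffffffbffffffffeffdffd6f66dae1a2080000000000000000),
    (1408, 184, 0xd24ff31bfffffffffffffffffffff7fffffff7ffdff56f76daf1a2280000000000000000)]

theorem chk_tab4g0_7 : chk true 4 17 qs17 sm13 1352 tab4g0_7 = true := by decide +kernel

def tab4g0_8 : List (ℕ × ℕ × ℕ) :=
  [
    (1428, 186, 0xbf24df33befffffbfffffffffffff7fffffffffbfdfefeefe9c91a02a0000000000000000),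
    (1430, 187, 0xaf76de31feffffebfffffffffffffffffdbffffb7dfefffeecca3a8a80000000000000000),
    (1452, 188, 0x1ef77deb7fefffffbffffffffffffffffffbffffb6ffeff4fa8c8388a00000000000000000)]

theorem chk_tab4g0_8 : chk true 4 17 qs17 sm13 1408 tab4g0_8 = true := by decide +kernel

def tab4g0_9 : List (ℕ × ℕ × ℕ) :=
  [
    (1456, 189, 0x1ef75d6b7fefffffbffffffffffffffffffbffffb7ffeff4fe8ca388a00000000000000000),
    (1458, 190, 0x9ef77de37fefffffbfffffffff7ffffffffbffffb7ffeffcfa8ca388a00000000000000000),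
    (1521, 191, 0x1bef27dff7ffffffffffffffffffefffffffffffffffeefe8e8b8a280200000000000000000)]

theorem chk_tab4g0_9 : chk true 4 17 qs17 sm13 1452 tab4g0_9 = true := by decide +kernel

def tab4g0_10 : List (ℕ × ℕ × ℕ) :=
  [
    (1540, 192, 0x20baf27dff7fffffffffffffffffffffff7ffffffffffeeffae8b8a280200000000000000000),
    (1568, 193, 0x85bed2ff7f7fffffffffffffffffffffffffffbff7ffeafb69cdfac280200000000000000000),
    (1573, 194, 0x2c59edefdff7ffffffffffffffffffbffffffeffffffffbf2e98dd68880200000000000000000)]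

theorem chk_tab4g0_10 : chk true 4 17 qs17 sm13 1521 tab4g0_10 = true := by decide +kernel

def tab4g0_11 : List (ℕ × ℕ × ℕ) :=
  [
    (1617, 195, 0x6c59edefdff7ffffffffffffffffffbffffffeffffffffbf2e98dd68880200000000000000000),
    (1625, 196, 0x76619ed75dffffeffffffffffbffffffffffffffddf7f7f7fbecf8cc2208a04000000000000000),
    (1664, 197, 0x176299ed77dffffeffffffffffffffffffffffffedde7f7f7fbecf8cc2208a04000000000000000)]

theorem chk_tab4g0_11 : chk true 4 17 qs17 sm13 1573 tab4g0_11 = true := by decide +kernel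

def tab4g0_12 : List (ℕ × ℕ × ℕ) :=
  [
    (1690, 198, 0x976299ed77dffffeffffffffffffffffbfffffffefde7f7f7fbecf8cc2208a04000000000000000),
    (1715, 200, 0x2be621bfdb7dfffffffffffffdffffffffffffffbfffffbedef7e8fc712200200000000000000000),
    (1750, 202, 0x1a9e623bcff7dfffffffffffffffffffffffffffffffffff6fce7c8b0e92210a00000000000000000)]

theorem chk_tab4g0_12 : chk true 4 17 qs17 sm13 1664 tab4g0_12 = true := by decide +kernel

def tab4g0_13 : List (ℕ × ℕ × ℕ) :=
  [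
    (1782, 203, 0xda96e33bdf77ffbfffffffffffffffffffffffffffffffdbf3cef4c22c82319200000000000000000),
    (1792, 204, 0xafeb36bd9ffff5ff7ffffffffffdfdfffffff7fffffffffffff3638d88cc0081000000000000000000),
    (1800, 206, 0x1ade936addffffdff7ffffffffffffffffffff7fffffffffbdff3e3ad88cc00a0000000000000000000)]

theorem chk_tab4g0_13 : chk true 4 17 qs17 sm13 1750 tab4g0_13 = true := by decide +kernel

def tab4g0_14 : List (ℕ × ℕ × ℕ) :=
  [
    (1815, 207, 0x3bce93ebdffffffff7ffffffffffffffffffbfffffffffff97fb2fb2f0c8000a0000000000000000000),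
    (1820, 208, 0x7bce93ebdffffffff7ffffffffffffffffffbfffffffffff97fb2fb2f0c8000a0000000000000000000),
    (1859, 209, 0xfbce93ffdffffffff7fffffffffffffffffffffffffffffb97f92f92f0c8000a0000000000000000000)]

theorem chk_tab4g0_14 : chk true 4 17 qs17 sm13 1800 tab4g0_14 = true := by decide +kernel

def tab4g0_15 : List (ℕ × ℕ × ℕ) :=
  [
    (1920, 210, 0x2f3ce93ffdffffffff7ffffffffffffffffffffdffffffffb97f96f93f0c8000a0000000000000000000),
    (1936, 211, 0x6ad2deb7efffbffff7ffffffffffffffffffffffffffefeffabffbde9080cc01420000000000000000000),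
    (1980, 212, 0x1ebd3de97fffffffffffffffffffffffffffffdffffffebefb2b7f9df90a0d801020000000000000000000)]

theorem chk_tab4g0_15 : chk true 4 17 qs17 sm13 1859 tab4g0_15 = true := by decide +kernel

def tab4g0_16 : List (ℕ × ℕ × ℕ) :=
  [
    (2000, 213, 0x11aa7256f7eaffffffd7fffffffffffffffffffffffeffffefbe9fbf4cfdd1cd00020000000000000000000),
    (2002, 214, 0x31a2fad6f7eaffffffd7fffffffffffffffffffffffeffffefbf1fbf0cf9d1cd00020000000000000000000),
    (2025, 215, 0x7bbadafdfbeffffffff7fffffffffffffffffffffbfffffdf79cbf2be8689c4c08000000000000000000000)]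

theorem chk_tab4g0_16 : chk true 4 17 qs17 sm13 1980 tab4g0_16 = true := by decide +kernel

def tab4g0_17 : List (ℕ × ℕ × ℕ) :=
  [
    (2048, 216, 0x7bbadaffffeffffffffffffffffff6fdffffffffbfbfffffff9cbf2be8689c4c08000000000000000000000)]

theorem chk_tab4g0_17 : chk true 4 17 qs17 sm13 2025 tab4g0_17 = true := by decide +kernel

def cat_tab4g0_17 : List (ℕ × ℕ) := [(2048, 216)]

theorem chl_tab4g0_17 : ChL (fn 4 30030 17) 2025 cat_tab4g0_17 :=
  (chl_fn mas_sm13 qs17_spec tab4g0_17 2025 chk_tab4g0_17)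

def cat_tab4g0_16 : List (ℕ × ℕ) := [(2000, 213), (2002, 214), (2025, 215)] ++ cat_tab4g0_17

theorem chl_tab4g0_16 : ChL (fn 4 30030 17) 1980 cat_tab4g0_16 :=
  chl_append chl_tab4g0_17 [(2000, 213), (2002, 214), (2025, 215)] 1980 (by decide +kernel) (chl_fn mas_sm13 qs17_spec tab4g0_16 1980 chk_tab4g0_16)

def cat_tab4g0_15 : List (ℕ × ℕ) := [(1920, 210), (1936, 211), (1980, 212)] ++ cat_tab4g0_16

theorem chl_tab4g0_15 : ChL (fn 4 30030 17) 1859 cat_tab4g0_15 :=
  chl_append chl_tab4g0_16 [(1920, 210), (1936, 211), (1980, 212)] 1859 (by decide +kernel) (chl_fn mas_sm13 qs17_spec tab4g0_15 1859 chk_tab4g0_15)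

def cat_tab4g0_14 : List (ℕ × ℕ) := [(1815, 207), (1820, 208), (1859, 209)] ++ cat_tab4g0_15

theorem chl_tab4g0_14 : ChL (fn 4 30030 17) 1800 cat_tab4g0_14 :=
  chl_append chl_tab4g0_15 [(1815, 207), (1820, 208), (1859, 209)] 1800 (by decide +kernel) (chl_fn mas_sm13 qs17_spec tab4g0_14 1800 chk_tab4g0_14)

def cat_tab4g0_13 : List (ℕ × ℕ) := [(1782, 203), (1792, 204), (1800, 206)] ++ cat_tab4g0_14

theorem chl_tab4g0_13 : ChL (fn 4 30030 17) 1750 cat_tab4g0_13 :=
  chl_append chl_tab4g0_14 [(1782, 203), (1792, 204), (1800, 206)] 1750 (by decide +kernel) (chl_fn mas_sm13 qs17_spec tab4g0_13 1750 chk_tab4g0_13)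

def cat_tab4g0_12 : List (ℕ × ℕ) := [(1690, 198), (1715, 200), (1750, 202)] ++ cat_tab4g0_13

theorem chl_tab4g0_12 : ChL (fn 4 30030 17) 1664 cat_tab4g0_12 :=
  chl_append chl_tab4g0_13 [(1690, 198), (1715, 200), (1750, 202)] 1664 (by decide +kernel) (chl_fn mas_sm13 qs17_spec tab4g0_12 1664 chk_tab4g0_12)

def cat_tab4g0_11 : List (ℕ × ℕ) := [(1617, 195), (1625, 196), (1664, 197)] ++ cat_tab4g0_12

theorem chl_tab4g0_11 : ChL (fn 4 30030 17) 1573 cat_tab4g0_11 :=
  chl_append chl_tab4g0_12 [(1617, 195), (1625, 196), (1664, 197)] 1573 (by decide +kernel) (chl_fn mas_sm13 qs17_spec tab4g0_11 1573 chk_tab4g0_11)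

def cat_tab4g0_10 : List (ℕ × ℕ) := [(1540, 192), (1568, 193), (1573, 194)] ++ cat_tab4g0_11

theorem chl_tab4g0_10 : ChL (fn 4 30030 17) 1521 cat_tab4g0_10 :=
  chl_append chl_tab4g0_11 [(1540, 192), (1568, 193), (1573, 194)] 1521 (by decide +kernel) (chl_fn mas_sm13 qs17_spec tab4g0_10 1521 chk_tab4g0_10)

def cat_tab4g0_9 : List (ℕ × ℕ) := [(1456, 189), (1458, 190), (1521, 191)] ++ cat_tab4g0_10

theorem chl_tab4g0_9 : ChL (fn 4 30030 17) 1452 cat_tab4g0_9 :=
  chl_append chl_tab4g0_10 [(1456, 189), (1458, 190), (1521, 191)] 1452 (by decide +kernel) (chl_fn mas_sm13 qs17_spec tab4g0_9 1452 chk_tab4g0_9)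

def cat_tab4g0_8 : List (ℕ × ℕ) := [(1428, 186), (1430, 187), (1452, 188)] ++ cat_tab4g0_9

theorem chl_tab4g0_8 : ChL (fn 4 30030 17) 1408 cat_tab4g0_8 :=
  chl_append chl_tab4g0_9 [(1428, 186), (1430, 187), (1452, 188)] 1408 (by decide +kernel) (chl_fn mas_sm13 qs17_spec tab4g0_8 1408 chk_tab4g0_8)

def cat_tab4g0_7 : List (ℕ × ℕ) := [(1372, 182), (1375, 183), (1408, 184)] ++ cat_tab4g0_8

theorem chl_tab4g0_7 : ChL (fn 4 30030 17) 1352 cat_tab4g0_7 :=
  chl_append chl_tab4g0_8 [(1372, 182), (1375, 183), (1408, 184)] 1352 (by decide +kernel) (chl_fn mas_sm13 qs17_spec tab4g0_7 1352 chk_tab4g0_7)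

def cat_tab4g0_6 : List (ℕ × ℕ) := [(1320, 178), (1331, 180), (1352, 181)] ++ cat_tab4g0_7

theorem chl_tab4g0_6 : ChL (fn 4 30030 17) 1300 cat_tab4g0_6 :=
  chl_append chl_tab4g0_7 [(1320, 178), (1331, 180), (1352, 181)] 1300 (by decide +kernel) (chl_fn mas_sm13 qs17_spec tab4g0_6 1300 chk_tab4g0_6)

def cat_tab4g0_5 : List (ℕ × ℕ) := [(1274, 175), (1280, 176), (1300, 177)] ++ cat_tab4g0_6

theorem chl_tab4g0_5 : ChL (fn 4 30030 17) 1260 cat_tab4g0_5 :=
  chl_append chl_tab4g0_6 [(1274, 175), (1280, 176), (1300, 177)] 1260 (by decide +kernel) (chl_fn mas_sm13 qs17_spec tab4g0_5 1260 chk_tab4g0_5)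

def cat_tab4g0_4 : List (ℕ × ℕ) := [(1248, 172), (1250, 173), (1260, 174)] ++ cat_tab4g0_5

theorem chl_tab4g0_4 : ChL (fn 4 30030 17) 1232 cat_tab4g0_4 :=
  chl_append chl_tab4g0_5 [(1248, 172), (1250, 173), (1260, 174)] 1232 (by decide +kernel) (chl_fn mas_sm13 qs17_spec tab4g0_4 1232 chk_tab4g0_4)

def cat_tab4g0_3 : List (ℕ × ℕ) := [(1183, 168), (1210, 170), (1232, 171)] ++ cat_tab4g0_4

theorem chl_tab4g0_3 : ChL (fn 4 30030 17) 1170 cat_tab4g0_3 :=
  chl_append chl_tab4g0_4 [(1183, 168), (1210, 170), (1232, 171)] 1170 (by decide +kernel) (chl_fn mas_sm13 qs17_spec tab4g0_3 1170 chk_tab4g0_3)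

def cat_tab4g0_2 : List (ℕ × ℕ) := [(1120, 165), (1144, 166), (1170, 167)] ++ cat_tab4g0_3

theorem chl_tab4g0_2 : ChL (fn 4 30030 17) 1105 cat_tab4g0_2 :=
  chl_append chl_tab4g0_3 [(1120, 165), (1144, 166), (1170, 167)] 1105 (by decide +kernel) (chl_fn mas_sm13 qs17_spec tab4g0_2 1105 chk_tab4g0_2)

def cat_tab4g0_1 : List (ℕ × ℕ) := [(1078, 162), (1100, 163), (1105, 164)] ++ cat_tab4g0_2

theorem chl_tab4g0_1 : ChL (fn 4 30030 17) 1071 cat_tab4g0_1 :=
  chl_append chl_tab4g0_2 [(1078, 162), (1100, 163), (1105, 164)] 1071 (by decide +kernel) (chl_fn mas_sm13 qs17_spec tab4g0_1 1071 chk_tab4g0_1)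

def cat_tab4g0_0 : List (ℕ × ℕ) := [(1029, 159), (1040, 160), (1071, 161)] ++ cat_tab4g0_1

theorem chl_tab4g0_0 : ChL (fn 4 30030 17) 1024 cat_tab4g0_0 :=
  chl_append chl_tab4g0_1 [(1029, 159), (1040, 160), (1071, 161)] 1024 (by decide +kernel) (chl_fn mas_sm13 qs17_spec tab4g0_0 1024 chk_tab4g0_0)

def tab4g0 : List (ℕ × ℕ) := cat_tab4g0_0

theorem chl_tab4g0 : ChL (fn 4 30030 17) 1024 tab4g0 := chl_tab4g0_0

theorem lst_tab4g0 : lst 1024 tab4g0 = 2048 := by decide +kernel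

theorem tel_tab4g0 : (896808979 / 10000000000 : ℚ) ≤ tel 1024 tab4g0 := by decide +kernel

theorem ws_tab4g0 : (896808979 / 10000000000 : ℝ) ≤ ws (fn 4 30030 17) 1024 2048 := by
  have h2 := (tel_le_ws _ _ 1024 (by norm_num) chl_tab4g0).2
  rw [lst_tab4g0] at h2
  have h4 : ((896808979 / 10000000000 : ℚ) : ℝ) ≤ _ := Rat.cast_le.2 tel_tab4g0
  rw [show ((896808979 / 10000000000 : ℚ) : ℝ) = (896808979 / 10000000000 : ℝ) by norm_num] at h4
  exact h4.trans h2

end Pool.Agent.H36.KW
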