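import Pool.Agent.H36.KW.Tab4a0
import Pool.Agent.H36.KW.Tab4a1
import Pool.Agent.H36.KW.Tab4g0

/-!
# KW Fl4: the lower bound for k = 4
-/

set_option autoImplicit false
set_option maxRecDepth 100000

namespace Pool.Agent.H36.KW

open Pool.Agent.H96.KMF Pool.Agent.H36.K3 Filter Topology

theorem lo4a : (43815124049 / 10000000000 : ℝ) ≤ ws (fa 4 30030 17) 1 2048 := by
  have e0 := ws_add (fa 4 30030 17) (x := 1) (y := 1000) (z := 2048) (by norm_num) (by norm_num)
  have h0 := ws_tab4a0
  have h1 := ws_tab4a1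
  linarith

theorem lo4g : (896808979 / 10000000000 : ℝ) ≤ ws (fn 4 30030 17) 1024 2048 := by
  have h0 := ws_tab4g0
  linarith

theorem lower4 (c : ℝ) (hc : Tendsto (fun n : ℕ => (gk 4 n : ℝ) / n) atTop (𝓝 c)) : 0.8725 < c := by
  have h := lower_aux 4 30030 17 (by norm_num) (by norm_num) (by norm_num) (by norm_num) (by norm_num) (by
    intro p hp hlt
    interval_cases p <;> first | decide | exact absurd hp (by norm_num)) c hc 1024 20 (by norm_num)
  have h0 : (Nat.totient 30030 : ℝ) / (30030 : ℕ) = 192 / 1001 := by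
    have : Nat.totient 30030 = 5760 := by
      rw [show 30030 = 210 * 143 by norm_num, Nat.totient_mul (by norm_num)]
      have h1 : Nat.totient 210 = 48 := by decide +kernel
      have h2 : Nat.totient 143 = 120 := by decide +kernel
      rw [h1, h2]
    rw [this]
    norm_num
  rw [h0] at h
  have h1 := lo4a
  have h2 := lo4g
  have h3 := ws_cc_a_4
  have h4 := ws_cc_g_4
  norm_num at h h1 h2 h3 h4 ⊢
  linarith

end Pool.Agent.H36.KW
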