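import Pool.Agent.H36.KW.Sm13
import Pool.Agent.H36.KW.Chunk

/-!
# KW Tab5a1: sets, for k = 5, j from 832 to 1759
-/

set_option autoImplicit false
set_option maxRecDepth 100000

namespace Pool.Agent.H36.KW

open Pool.Agent.H96.KMF Pool.Agent.H36.K3

def tab5a1_0 : List (ℕ × ℕ × ℕ) :=
  [
    (845, 161, 0xfa7f7fdff7ff7ffffffffffffffffffffe7ffbebab7654000000000),
    (847, 162, 0x2faff7fdff7fffffffff7fffffffffffffe7fbbebab7654000000000),
    (858, 163, 0x6faff7fdff7fffffffff7fffffffffffffe7fbbebab7654000000000)]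

theorem chk_tab5a1_0 : chk false 5 17 qs17 sm13 832 tab5a1_0 = true := by decide +kernel

def tab5a1_1 : List (ℕ × ℕ × ℕ) :=
  [
    (875, 164, 0xefaff7fdff7fffffffff7fffffffffffffe7fbbebab7654000000000),
    (880, 165, 0x2efaef7fdff7ff7ffffff7fffffffffffffe7fffebab7654000000000),
    (882, 166, 0x7efafffffffffffffffffffffffffffffffffbbecba85604000000000)]

theorem chk_tab5a1_1 : chk false 5 17 qs17 sm13 858 tab5a1_1 = true := by decide +kernel

def tab5a1_2 : List (ℕ × ℕ × ℕ) :=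
  [
    (891, 167, 0xfefafffffffffffffffffbfffffffffffffeebf7d9aaeb00000000000),
    (896, 168, 0x1fefafffffffffffffffffbfffffffffffffeebf7ddaa6b00000000000),
    (945, 169, 0x3fefaffffffffffffffffffffffffffffffffabf7dda8ea00000000000)]

theorem chk_tab5a1_2 : chk false 5 17 qs17 sm13 882 tab5a1_2 = true := by decide +kernel

def tab5a1_3 : List (ℕ × ℕ × ℕ) :=
  [
    (968, 170, 0x43fefaffffffffffffffffffffffffffffffffabf7dda8ea00000000000),
    (972, 171, 0x143fefaffffffffffffffffffffffffffffffffabf7dda8ea00000000000),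
    (975, 172, 0x347fefaffffffbfffffffffffffffffffffffbeeff7cdaaea00000000000)]

theorem chk_tab5a1_3 : chk false 5 17 qs17 sm13 945 tab5a1_3 = true := by decide +kernel

def tab5a1_4 : List (ℕ × ℕ × ℕ) :=
  [
    (1000, 173, 0x747fefaffffffbfffffffffffffffffffffffbeeff7cdaaea00000000000),
    (1001, 174, 0x3747fefafffffffffffffffffffffdffffffffbceff7cdaaea00000000000),
    (1014, 175, 0x7747fefafffffffffffffffffffffdffffffffbceff7cdaaea00000000000)]

theorem chk_tab5a1_4 : chk false 5 17 qs17 sm13 975 tab5a1_4 = true := by decide +kernel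

def tab5a1_5 : List (ℕ × ℕ × ℕ) :=
  [
    (1024, 176, 0x16747fefafffffffffffffffffffffdffffffffbeeff7cdaaea00000000000),
    (1029, 177, 0x36f47fefaffffffbfffffffffffffffffffffffbfebffcd28f200000000000),
    (1040, 178, 0x77f47fefaffffffbffffeffffffffffffffffffbfebffcd28f200000000000)]

theorem chk_tab5a1_5 : chk false 5 17 qs17 sm13 1014 tab5a1_5 = true := by decide +kernel

def tab5a1_6 : List (ℕ × ℕ × ℕ) :=
  [
    (1053, 179, 0xf7f4ffefaffffffffffffffffffffffffffffafbfebdfcd28f200000000000),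
    (1056, 180, 0x2f6f4ffefaffffffffffffffffffffffffffffbfbfebdfcd28f200000000000),
    (1078, 181, 0x6f6f5ffefeffffffffffffffffffffffffffffffbfdf8fe920c300000000000)]

theorem chk_tab5a1_6 : chk false 5 17 qs17 sm13 1040 tab5a1_6 = true := by decide +kernel

def tab5a1_7 : List (ℕ × ℕ × ℕ) :=
  [
    (1089, 182, 0xef6f5ffefeffffffffffffffffffffffffffffbfbfff9fed208200000000000),
    (1100, 183, 0x2ef6f4ffefeffffffffffffffffffffffffffffffbfff9fe920c200000000000),
    (1125, 184, 0xaef6f5ffefffffffffffffffffffffffeffffffffbeaf9fed22e000000000000)]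

theorem chk_tab5a1_7 : chk false 5 17 qs17 sm13 1078 tab5a1_7 = true := by decide +kernel

def tab5a1_8 : List (ℕ × ℕ × ℕ) :=
  [
    (1134, 185, 0x2aef6f5ffefffffffffffffffbffffffffffffffffbfff9fed204000000000000),
    (1144, 186, 0x6aef675ffeffffffffffffffffffffffffffffffffbfcf97eda06800000000000),
    (1155, 187, 0xeaef675ffeffffffffffffffffffffffffffffffffbfcf97eda06800000000000)]

theorem chk_tab5a1_8 : chk false 5 17 qs17 sm13 1125 tab5a1_8 = true := by decide +kernel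

def tab5a1_9 : List (ℕ × ℕ × ℕ) :=
  [
    (1183, 188, 0x2eaef675ffeffffffffffffffffffffffffffffffffbfaf97eda0a800000000000),
    (1210, 189, 0x16faff6fffffffffffffffffffffffffffffffffdf7fff2e966da08000000000000),
    (1215, 190, 0x92faff6fcffffefffffffffffffffffffffffffffffffe6eb6e1a2c000000000000)]

theorem chk_tab5a1_9 : chk false 5 17 qs17 sm13 1155 tab5a1_9 = true := by decide +kernel

def tab5a1_10 : List (ℕ × ℕ × ℕ) :=
  [
    (1225, 191, 0x1b2faff6fdffffeffffffffffffffffbffffffffffffffe6eb6e1a28000000000000),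
    (1232, 192, 0x3b2faff6fcffffeffffffffffffffffbffffffffffffffe6eb6e1a2c000000000000),
    (1248, 193, 0x7d2faffefdfffffffffffffffffffffffffffffffbf7fbeaa96bdb08000000000000)]

theorem chk_tab5a1_10 : chk false 5 17 qs17 sm13 1215 tab5a1_10 = true := by decide +kernel

def tab5a1_11 : List (ℕ × ℕ × ℕ) :=
  [
    (1250, 194, 0xff2feefffffffffffffffffffffffffffffff7fffbfff7bbeb688a00000000000000),
    (1274, 195, 0x1ff2feefffffffffffffffffffffffffffffbf7fffbfff7bbeb6a8a00000000000000),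
    (1280, 196, 0x5ff2faefffffffffffffffffffffffffffffbf7fffbffffbbeb6a8a00000000000000)]

theorem chk_tab5a1_11 : chk false 5 17 qs17 sm13 1248 tab5a1_11 = true := by decide +kernel

def tab5a1_12 : List (ℕ × ℕ × ℕ) :=
  [
    (1287, 197, 0xdfd3faffedffffffffffffffffffffffffffffffffbf7ffeaaa6b9a20000000000000),
    (1300, 198, 0x1dfd3faffefffffffffffffffffffffffffffefffffbf7ffeaaa6b9a20000000000000),
    (1323, 199, 0x5dfd3feffefffffffffffffffffffffffff7ffffffebf7ffeaaa6b9a20000000000000)]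

theorem chk_tab5a1_12 : chk false 5 17 qs17 sm13 1280 tab5a1_12 = true := by decide +kernel

def tab5a1_13 : List (ℕ × ℕ × ℕ) :=
  [
    (1331, 200, 0x15dfd3faffefffffffffffffffffffffffffffffffffbf7ffeaaa6b9a00000000000000),
    (1344, 201, 0x35dfd3feffeffffffffffffffffbfffffffffffffffebf7ffeaaa6b9a20000000000000),
    (1352, 202, 0x77dffbfeffeffffffffffffffffbffffffffffff3ffffff5fa23bea1b00000000000000)]

theorem chk_tab5a1_13 : chk false 5 17 qs17 sm13 1323 tab5a1_13 = true := by decide +kernel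

def tab5a1_14 : List (ℕ × ℕ × ℕ) :=
  [
    (1365, 203, 0x177dffbfeffeffffffffffffffffbffffffffffff3ffffff5fa23bea1b00000000000000),
    (1372, 204, 0x377dffbfeffeffffffffffffffbffffffffff7fff7ffffff5fa23bea1b00000000000000),
    (1375, 205, 0x777dffbfeffeffffffffffffffffbffffffffffff3ffffff5fa23bea1b00000000000000)]

theorem chk_tab5a1_14 : chk false 5 17 qs17 sm13 1352 tab5a1_14 = true := by decide +kernel

def tab5a1_15 : List (ℕ × ℕ × ℕ) :=
  [
    (1386, 206, 0xf77dffbfeffeffffffffffffffffbffffffffffff3ffffff5fa23bea1b00000000000000),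
    (1408, 207, 0x1fb7dff3ffffffffffffffffffffffffffffffffffff7fbe6fffaaa6a8800000000000000),
    (1430, 208, 0x9fb7dff3ffffffffffffffffffffffffffffffffffff7fbe6fffaaa6a8800000000000000)]

theorem chk_tab5a1_15 : chk false 5 17 qs17 sm13 1375 tab5a1_15 = true := by decide +kernel

def tab5a1_16 : List (ℕ × ℕ × ℕ) :=
  [
    (1456, 209, 0x1fff5dff7fafffffffffffffffffffffffeffffff7dffffdfcdffae86a4a00000000000000),
    (1458, 210, 0xdfff5dff7fffffffffffffeffffffffffffffff5f7fffffdf8dffae06a4a00000000000000),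
    (1485, 211, 0x19fff5dff7feffffffffffffffffffffffffffff7f7fffffdf8dffae06a4a00000000000000)]

theorem chk_tab5a1_16 : chk false 5 17 qs17 sm13 1430 tab5a1_16 = true := by decide +kernel

def tab5a1_17 : List (ℕ × ℕ × ℕ) :=
  [
    (1521, 212, 0x59fff5dff7fffffffffffffffffffffdffffffff7f7fffffdf8dffae06a4a00000000000000),
    (1536, 213, 0x259fff5dff7fefffffffffffffffffffffffeffff7fffffffff8dfbae8624a00000000000000),
    (1568, 214, 0x65dfff5dff7feffffffffffffffffffffffdeffffffffffffff8dfbae8624800000000000000)]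

theorem chk_tab5a1_17 : chk false 5 17 qs17 sm13 1485 tab5a1_17 = true := by decide +kernel

def tab5a1_18 : List (ℕ × ℕ × ℕ) :=
  [
    (1573, 215, 0x2e59fff7dff7fffffffffffffffffffefffffffffffffffffffa1dff8a260c800000000000000),
    (1575, 216, 0x6e5dfff7dff7fffffffffffffffffffeffffffffffffffffff7a1dff8a260c800000000000000),
    (1600, 217, 0xee5dfff7dff3ffffffffffffffeffffffffffffffffffffffffaddff8a2480800000000000000)]

theorem chk_tab5a1_18 : chk false 5 17 qs17 sm13 1568 tab5a1_18 = true := by decide +kernel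

def tab5a1_19 : List (ℕ × ℕ × ℕ) :=
  [
    (1617, 218, 0x2ee59bff7dff3fffffffffffffffffffffffffffffffffffffffaddff8a2680800000000000000),
    (1625, 219, 0x6ee5dbff7dff3ffffffffffffffffffffffffffffffbffffffffaddff8a2680800000000000000),
    (1638, 220, 0x16ee5dfff7dff3ffffffffffffffffffffffffffffffb7fffffffaddff8a2680800000000000000)]

theorem chk_tab5a1_19 : chk false 5 17 qs17 sm13 1600 tab5a1_19 = true := by decide +kernel

def tab5a1_20 : List (ℕ × ℕ × ℕ) :=
  [
    (1664, 221, 0x36ee5dfff7dff7ffffffffffffffffffffffffffffffffffffffdacdff8a2401800000000000000),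
    (1690, 222, 0xf6ee79effdffffffffffffffffffffffffffffffffffffffff7fdd5db9a6a600000000000000000),
    (1694, 223, 0x2b6ee79fff5ffffffffffffffffffffffffffffffffffffffff7fdf1dbb86a604000000000000000)]

theorem chk_tab5a1_20 : chk false 5 17 qs17 sm13 1638 tab5a1_20 = true := by decide +kernel

def tab5a1_21 : List (ℕ × ℕ × ℕ) :=
  [
    (1701, 224, 0x6f6ef7dfff7fffffffffffffffffffffffffffffffffffffffd675e1dfb82b604000000000000000),
    (1715, 225, 0xef6ee7dfff5ffffffffffffffffffffffffffffffffffffbfdfff5f5dbb8e2600000000000000000),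
    (1728, 226, 0x1ef6ee7dfff5ffffffffffffffffffffffffffffffffffffbfdfff5f5dbb8e2600000000000000000)]

theorem chk_tab5a1_21 : chk false 5 17 qs17 sm13 1694 tab5a1_21 = true := by decide +kernel

def tab5a1_22 : List (ℕ × ℕ × ℕ) :=
  [
    (1755, 227, 0x5ef6ef7defffffffffffffffffffffffffffffffffffffbfbfffe7dc5dfba23600000000000000000),
    (1760, 228, 0x1fef6ef79fffffffffffffffff7fffffffffffffffbffffffbfffe3dc5dfba23600000000000000000)]

theorem chk_tab5a1_22 : chk false 5 17 qs17 sm13 1728 tab5a1_22 = true := by decide +kernel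

def cat_tab5a1_22 : List (ℕ × ℕ) := [(1755, 227), (1760, 228)]

theorem chl_tab5a1_22 : ChL (fa 5 30030 17) 1728 cat_tab5a1_22 :=
  (chl_fa mas_sm13 qs17_spec tab5a1_22 1728 chk_tab5a1_22)

def cat_tab5a1_21 : List (ℕ × ℕ) := [(1701, 224), (1715, 225), (1728, 226)] ++ cat_tab5a1_22

theorem chl_tab5a1_21 : ChL (fa 5 30030 17) 1694 cat_tab5a1_21 :=
  chl_append chl_tab5a1_22 [(1701, 224), (1715, 225), (1728, 226)] 1694 (by decide +kernel) (chl_fa mas_sm13 qs17_spec tab5a1_21 1694 chk_tab5a1_21)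

def cat_tab5a1_20 : List (ℕ × ℕ) := [(1664, 221), (1690, 222), (1694, 223)] ++ cat_tab5a1_21

theorem chl_tab5a1_20 : ChL (fa 5 30030 17) 1638 cat_tab5a1_20 :=
  chl_append chl_tab5a1_21 [(1664, 221), (1690, 222), (1694, 223)] 1638 (by decide +kernel) (chl_fa mas_sm13 qs17_spec tab5a1_20 1638 chk_tab5a1_20)

def cat_tab5a1_19 : List (ℕ × ℕ) := [(1617, 218), (1625, 219), (1638, 220)] ++ cat_tab5a1_20

theorem chl_tab5a1_19 : ChL (fa 5 30030 17) 1600 cat_tab5a1_19 :=
  chl_append chl_tab5a1_20 [(1617, 218), (1625, 219), (1638, 220)] 1600 (by decide +kernel) (chl_fa mas_sm13 qs17_spec tab5a1_19 1600 chk_tab5a1_19)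

def cat_tab5a1_18 : List (ℕ × ℕ) := [(1573, 215), (1575, 216), (1600, 217)] ++ cat_tab5a1_19

theorem chl_tab5a1_18 : ChL (fa 5 30030 17) 1568 cat_tab5a1_18 :=
  chl_append chl_tab5a1_19 [(1573, 215), (1575, 216), (1600, 217)] 1568 (by decide +kernel) (chl_fa mas_sm13 qs17_spec tab5a1_18 1568 chk_tab5a1_18)

def cat_tab5a1_17 : List (ℕ × ℕ) := [(1521, 212), (1536, 213), (1568, 214)] ++ cat_tab5a1_18

theorem chl_tab5a1_17 : ChL (fa 5 30030 17) 1485 cat_tab5a1_17 :=
  chl_append chl_tab5a1_18 [(1521, 212), (1536, 213), (1568, 214)] 1485 (by decide +kernel) (chl_fa mas_sm13 qs17_spec tab5a1_17 1485 chk_tab5a1_17)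

def cat_tab5a1_16 : List (ℕ × ℕ) := [(1456, 209), (1458, 210), (1485, 211)] ++ cat_tab5a1_17

theorem chl_tab5a1_16 : ChL (fa 5 30030 17) 1430 cat_tab5a1_16 :=
  chl_append chl_tab5a1_17 [(1456, 209), (1458, 210), (1485, 211)] 1430 (by decide +kernel) (chl_fa mas_sm13 qs17_spec tab5a1_16 1430 chk_tab5a1_16)

def cat_tab5a1_15 : List (ℕ × ℕ) := [(1386, 206), (1408, 207), (1430, 208)] ++ cat_tab5a1_16

theorem chl_tab5a1_15 : ChL (fa 5 30030 17) 1375 cat_tab5a1_15 :=
  chl_append chl_tab5a1_16 [(1386, 206), (1408, 207), (1430, 208)] 1375 (by decide +kernel) (chl_fa mas_sm13 qs17_spec tab5a1_15 1375 chk_tab5a1_15)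

def cat_tab5a1_14 : List (ℕ × ℕ) := [(1365, 203), (1372, 204), (1375, 205)] ++ cat_tab5a1_15

theorem chl_tab5a1_14 : ChL (fa 5 30030 17) 1352 cat_tab5a1_14 :=
  chl_append chl_tab5a1_15 [(1365, 203), (1372, 204), (1375, 205)] 1352 (by decide +kernel) (chl_fa mas_sm13 qs17_spec tab5a1_14 1352 chk_tab5a1_14)

def cat_tab5a1_13 : List (ℕ × ℕ) := [(1331, 200), (1344, 201), (1352, 202)] ++ cat_tab5a1_14

theorem chl_tab5a1_13 : ChL (fa 5 30030 17) 1323 cat_tab5a1_13 :=
  chl_append chl_tab5a1_14 [(1331, 200), (1344, 201), (1352, 202)] 1323 (by decide +kernel) (chl_fa mas_sm13 qs17_spec tab5a1_13 1323 chk_tab5a1_13)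

def cat_tab5a1_12 : List (ℕ × ℕ) := [(1287, 197), (1300, 198), (1323, 199)] ++ cat_tab5a1_13

theorem chl_tab5a1_12 : ChL (fa 5 30030 17) 1280 cat_tab5a1_12 :=
  chl_append chl_tab5a1_13 [(1287, 197), (1300, 198), (1323, 199)] 1280 (by decide +kernel) (chl_fa mas_sm13 qs17_spec tab5a1_12 1280 chk_tab5a1_12)

def cat_tab5a1_11 : List (ℕ × ℕ) := [(1250, 194), (1274, 195), (1280, 196)] ++ cat_tab5a1_12

theorem chl_tab5a1_11 : ChL (fa 5 30030 17) 1248 cat_tab5a1_11 :=
  chl_append chl_tab5a1_12 [(1250, 194), (1274, 195), (1280, 196)] 1248 (by decide +kernel) (chl_fa mas_sm13 qs17_spec tab5a1_11 1248 chk_tab5a1_11)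

def cat_tab5a1_10 : List (ℕ × ℕ) := [(1225, 191), (1232, 192), (1248, 193)] ++ cat_tab5a1_11

theorem chl_tab5a1_10 : ChL (fa 5 30030 17) 1215 cat_tab5a1_10 :=
  chl_append chl_tab5a1_11 [(1225, 191), (1232, 192), (1248, 193)] 1215 (by decide +kernel) (chl_fa mas_sm13 qs17_spec tab5a1_10 1215 chk_tab5a1_10)

def cat_tab5a1_9 : List (ℕ × ℕ) := [(1183, 188), (1210, 189), (1215, 190)] ++ cat_tab5a1_10

theorem chl_tab5a1_9 : ChL (fa 5 30030 17) 1155 cat_tab5a1_9 :=
  chl_append chl_tab5a1_10 [(1183, 188), (1210, 189), (1215, 190)] 1155 (by decide +kernel) (chl_fa mas_sm13 qs17_spec tab5a1_9 1155 chk_tab5a1_9)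

def cat_tab5a1_8 : List (ℕ × ℕ) := [(1134, 185), (1144, 186), (1155, 187)] ++ cat_tab5a1_9

theorem chl_tab5a1_8 : ChL (fa 5 30030 17) 1125 cat_tab5a1_8 :=
  chl_append chl_tab5a1_9 [(1134, 185), (1144, 186), (1155, 187)] 1125 (by decide +kernel) (chl_fa mas_sm13 qs17_spec tab5a1_8 1125 chk_tab5a1_8)

def cat_tab5a1_7 : List (ℕ × ℕ) := [(1089, 182), (1100, 183), (1125, 184)] ++ cat_tab5a1_8

theorem chl_tab5a1_7 : ChL (fa 5 30030 17) 1078 cat_tab5a1_7 :=
  chl_append chl_tab5a1_8 [(1089, 182), (1100, 183), (1125, 184)] 1078 (by decide +kernel) (chl_fa mas_sm13 qs17_spec tab5a1_7 1078 chk_tab5a1_7)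

def cat_tab5a1_6 : List (ℕ × ℕ) := [(1053, 179), (1056, 180), (1078, 181)] ++ cat_tab5a1_7

theorem chl_tab5a1_6 : ChL (fa 5 30030 17) 1040 cat_tab5a1_6 :=
  chl_append chl_tab5a1_7 [(1053, 179), (1056, 180), (1078, 181)] 1040 (by decide +kernel) (chl_fa mas_sm13 qs17_spec tab5a1_6 1040 chk_tab5a1_6)

def cat_tab5a1_5 : List (ℕ × ℕ) := [(1024, 176), (1029, 177), (1040, 178)] ++ cat_tab5a1_6

theorem chl_tab5a1_5 : ChL (fa 5 30030 17) 1014 cat_tab5a1_5 :=
  chl_append chl_tab5a1_6 [(1024, 176), (1029, 177), (1040, 178)] 1014 (by decide +kernel) (chl_fa mas_sm13 qs17_spec tab5a1_5 1014 chk_tab5a1_5)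

def cat_tab5a1_4 : List (ℕ × ℕ) := [(1000, 173), (1001, 174), (1014, 175)] ++ cat_tab5a1_5

theorem chl_tab5a1_4 : ChL (fa 5 30030 17) 975 cat_tab5a1_4 :=
  chl_append chl_tab5a1_5 [(1000, 173), (1001, 174), (1014, 175)] 975 (by decide +kernel) (chl_fa mas_sm13 qs17_spec tab5a1_4 975 chk_tab5a1_4)

def cat_tab5a1_3 : List (ℕ × ℕ) := [(968, 170), (972, 171), (975, 172)] ++ cat_tab5a1_4

theorem chl_tab5a1_3 : ChL (fa 5 30030 17) 945 cat_tab5a1_3 :=
  chl_append chl_tab5a1_4 [(968, 170), (972, 171), (975, 172)] 945 (by decide +kernel) (chl_fa mas_sm13 qs17_spec tab5a1_3 945 chk_tab5a1_3)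

def cat_tab5a1_2 : List (ℕ × ℕ) := [(891, 167), (896, 168), (945, 169)] ++ cat_tab5a1_3

theorem chl_tab5a1_2 : ChL (fa 5 30030 17) 882 cat_tab5a1_2 :=
  chl_append chl_tab5a1_3 [(891, 167), (896, 168), (945, 169)] 882 (by decide +kernel) (chl_fa mas_sm13 qs17_spec tab5a1_2 882 chk_tab5a1_2)

def cat_tab5a1_1 : List (ℕ × ℕ) := [(875, 164), (880, 165), (882, 166)] ++ cat_tab5a1_2

theorem chl_tab5a1_1 : ChL (fa 5 30030 17) 858 cat_tab5a1_1 :=
  chl_append chl_tab5a1_2 [(875, 164), (880, 165), (882, 166)] 858 (by decide +kernel) (chl_fa mas_sm13 qs17_spec tab5a1_1 858 chk_tab5a1_1)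

def cat_tab5a1_0 : List (ℕ × ℕ) := [(845, 161), (847, 162), (858, 163)] ++ cat_tab5a1_1

theorem chl_tab5a1_0 : ChL (fa 5 30030 17) 832 cat_tab5a1_0 :=
  chl_append chl_tab5a1_1 [(845, 161), (847, 162), (858, 163)] 832 (by decide +kernel) (chl_fa mas_sm13 qs17_spec tab5a1_0 832 chk_tab5a1_0)

def tab5a1 : List (ℕ × ℕ) := cat_tab5a1_0

theorem chl_tab5a1 : ChL (fa 5 30030 17) 832 tab5a1 := chl_tab5a1_0

theorem lst_tab5a1 : lst 832 tab5a1 = 1760 := by decide +kernel

theorem tel_tab5a1 : (1193301851 / 10000000000 : ℚ) ≤ tel 832 tab5a1 := by decide +kernel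

theorem ws_tab5a1 : (1193301851 / 10000000000 : ℝ) ≤ ws (fa 5 30030 17) 832 1760 := by
  have h2 := (tel_le_ws _ _ 832 (by norm_num) chl_tab5a1).2
  rw [lst_tab5a1] at h2
  have h4 : ((1193301851 / 10000000000 : ℚ) : ℝ) ≤ _ := Rat.cast_le.2 tel_tab5a1
  rw [show ((1193301851 / 10000000000 : ℚ) : ℝ) = (1193301851 / 10000000000 : ℝ) by norm_num] at h4
  exact h4.trans h2

end Pool.Agent.H36.KW
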