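import Pool.Agent.H36.KW.Sm13
import Pool.Agent.H36.KW.Chunk

/-!
# KW Tab5a2: sets, for k = 5, j from 1760 to 2047
-/

set_option autoImplicit false
set_option maxRecDepth 100000

namespace Pool.Agent.H36.KW

open Pool.Agent.H96.KMF Pool.Agent.H36.K3

def tab5a2_0 : List (ℕ × ℕ × ℕ) :=
  [
    (1782, 229, 0x3def7ef5dffffdffffffffffffffffffffffffffbffff7fffffffff5ce5c9aa2608000000000000000),
    (1792, 230, 0xb7ef7ef79fffffffffffffffff7fffffffffffffffffffffffffff7dc4dd9a22600000000000000000),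
    (1800, 231, 0x1ffef7ef7fffffffffffffffffffffffffffffffffffffbffbffd7f714edb922a600000000000000000)]

theorem chk_tab5a2_0 : chk false 5 17 qs17 sm13 1760 tab5a2_0 = true := by decide +kernel

def tab5a2_1 : List (ℕ × ℕ × ℕ) :=
  [
    (1815, 232, 0x3fdef7eff9fffffffffffffffffffffffffffffffffeffffffbf5fe7dccd9ba2b200000000000000000),
    (1859, 233, 0x7fdef7eff9fffffffffffffffffffffffffffffffffeffffffbf5fe7dccd9ba2b200000000000000000),
    (1875, 234, 0x27ffef7eff9fffffffffffffffff7fffffffffffffffeffffffbf5fe7dccd9ba2b200000000000000000)]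

theorem chk_tab5a2_1 : chk false 5 17 qs17 sm13 1800 tab5a2_1 = true := by decide +kernel

def tab5a2_2 : List (ℕ × ℕ × ℕ) :=
  [
    (1911, 235, 0xa7fdef7effdfffffffffffffffffffffffffffffffffeffffbfbf5fe7dccd9ba2b200000000000000000),
    (1925, 236, 0x2a7fdef7effdfffffffffffffffffffffffffffffffffeffffbfbf5fe7dccd9ba2b200000000000000000),
    (1936, 237, 0xae7ffef7eff9fffffffffffffffffffffffffffffffffeffffffbd57e7dccd9ba2b200000000000000000)]

theorem chk_tab5a2_2 : chk false 5 17 qs17 sm13 1875 tab5a2_2 = true := by decide +kernel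

def tab5a2_3 : List (ℕ × ℕ × ℕ) :=
  [
    (2000, 238, 0x1ae7fdef7effdffffffffffffffffffffffffffffffffdeffffffbd5fe7dccd9ba2b200000000000000000),
    (2002, 239, 0x21aa7fdef7effdffffffffffffffffffffffffffffffffdeffffffbf5fe7dccd9ba2b200000000000000000),
    (2016, 240, 0x75aaffdef7effdffffffffffffffffffffffffdffffffffeffefffff5fe7fccd19a29000000000000000000)]

theorem chk_tab5a2_3 : chk false 5 17 qs17 sm13 1936 tab5a2_3 = true := by decide +kernel

def tab5a2_4 : List (ℕ × ℕ × ℕ) :=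
  [
    (2025, 241, 0xfdaafffef7fbffffffffffffffffffffffffffffffbfff7fffafffff6fd7f0c33922b000000000000000000),
    (2048, 242, 0x1fdaafffef7fbffffffffffffffffffffffffffffffbfff7fffafffff6fd7f0c33922b000000000000000000)]

theorem chk_tab5a2_4 : chk false 5 17 qs17 sm13 2016 tab5a2_4 = true := by decide +kernel

def cat_tab5a2_4 : List (ℕ × ℕ) := [(2025, 241), (2048, 242)]

theorem chl_tab5a2_4 : ChL (fa 5 30030 17) 2016 cat_tab5a2_4 :=
  (chl_fa mas_sm13 qs17_spec tab5a2_4 2016 chk_tab5a2_4)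

def cat_tab5a2_3 : List (ℕ × ℕ) := [(2000, 238), (2002, 239), (2016, 240)] ++ cat_tab5a2_4

theorem chl_tab5a2_3 : ChL (fa 5 30030 17) 1936 cat_tab5a2_3 :=
  chl_append chl_tab5a2_4 [(2000, 238), (2002, 239), (2016, 240)] 1936 (by decide +kernel) (chl_fa mas_sm13 qs17_spec tab5a2_3 1936 chk_tab5a2_3)

def cat_tab5a2_2 : List (ℕ × ℕ) := [(1911, 235), (1925, 236), (1936, 237)] ++ cat_tab5a2_3

theorem chl_tab5a2_2 : ChL (fa 5 30030 17) 1875 cat_tab5a2_2 :=
  chl_append chl_tab5a2_3 [(1911, 235), (1925, 236), (1936, 237)] 1875 (by decide +kernel) (chl_fa mas_sm13 qs17_spec tab5a2_2 1875 chk_tab5a2_2)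

def cat_tab5a2_1 : List (ℕ × ℕ) := [(1815, 232), (1859, 233), (1875, 234)] ++ cat_tab5a2_2

theorem chl_tab5a2_1 : ChL (fa 5 30030 17) 1800 cat_tab5a2_1 :=
  chl_append chl_tab5a2_2 [(1815, 232), (1859, 233), (1875, 234)] 1800 (by decide +kernel) (chl_fa mas_sm13 qs17_spec tab5a2_1 1800 chk_tab5a2_1)

def cat_tab5a2_0 : List (ℕ × ℕ) := [(1782, 229), (1792, 230), (1800, 231)] ++ cat_tab5a2_1

theorem chl_tab5a2_0 : ChL (fa 5 30030 17) 1760 cat_tab5a2_0 :=
  chl_append chl_tab5a2_1 [(1782, 229), (1792, 230), (1800, 231)] 1760 (by decide +kernel) (chl_fa mas_sm13 qs17_spec tab5a2_0 1760 chk_tab5a2_0)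

def tab5a2 : List (ℕ × ℕ) := cat_tab5a2_0

theorem chl_tab5a2 : ChL (fa 5 30030 17) 1760 tab5a2 := chl_tab5a2_0

theorem lst_tab5a2 : lst 1760 tab5a2 = 2048 := by decide +kernel

theorem tel_tab5a2 : (37590417 / 2000000000 : ℚ) ≤ tel 1760 tab5a2 := by decide +kernel

theorem ws_tab5a2 : (37590417 / 2000000000 : ℝ) ≤ ws (fa 5 30030 17) 1760 2048 := by
  have h2 := (tel_le_ws _ _ 1760 (by norm_num) chl_tab5a2).2
  rw [lst_tab5a2] at h2
  have h4 : ((37590417 / 2000000000 : ℚ) : ℝ) ≤ _ := Rat.cast_le.2 tel_tab5a2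
  rw [show ((37590417 / 2000000000 : ℚ) : ℝ) = (37590417 / 2000000000 : ℝ) by norm_num] at h4
  exact h4.trans h2

end Pool.Agent.H36.KW
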