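import Pool.Agent.H36.KW.Sm13
import Pool.Agent.H36.KW.Chunk

/-!
# KW Tab5g0: sets which can be completed, for k = 5, j from 1024 to 2047
-/

set_option autoImplicit false
set_option maxRecDepth 100000

namespace Pool.Agent.H36.KW

open Pool.Agent.H96.KMF Pool.Agent.H36.K3

def tab5g0_0 : List (ℕ × ℕ × ℕ) :=
  [
    (1029, 173, 0x36fdb7ffeffffffffffffeffffffffffffffffffffe3ae7800000000000000),
    (1040, 174, 0x76fdb7ffeffffffffffffeffffffffffffffffffffe3ae7800000000000000),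
    (1053, 175, 0xf6f7b7fffffffffffffffffffffffffffffffffffbe3ae3800000000000000)]

theorem chk_tab5g0_0 : chk true 5 17 qs17 sm13 1024 tab5g0_0 = true := by decide +kernel

def tab5g0_1 : List (ℕ × ℕ × ℕ) :=
  [
    (1056, 176, 0x2f6f7b7fffffffffffffffffffffffffffffffffffbe3ae3800000000000000),
    (1078, 177, 0x6f6f7b7fffffffffffffffffffffffffffffffffffbe3ae3800000000000000),
    (1092, 178, 0xef6fbb7fefffffffffffffffffffffffffffbfffffbebae3900000000000000)]

theorem chk_tab5g0_1 : chk true 5 17 qs17 sm13 1053 tab5g0_1 = true := by decide +kernel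

def tab5g0_2 : List (ℕ × ℕ × ℕ) :=
  [
    (1100, 179, 0x4ef6fbb7fefffffffffffffffffffffffffffbfffffbebae3900000000000000),
    (1120, 180, 0xfef6fff7fffffffffffffffffffffffffff7fffffff2e3ee0800000000000000),
    (1125, 181, 0x1eef6fff7fffffffffffffffffffffffffffffffffff2e3ee0800000000000000)]

theorem chk_tab5g0_2 : chk true 5 17 qs17 sm13 1092 tab5g0_2 = true := by decide +kernel

def tab5g0_3 : List (ℕ × ℕ × ℕ) :=
  [
    (1144, 182, 0x3def6fff7ffffffffffffdfffffffffffffffff7ffff3e3ee1800000000000000),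
    (1152, 183, 0xbdef6fff7ffffffffffffdfffffffffffffffff7ffff3e3ee1800000000000000),
    (1183, 184, 0x1fcefefbffefffffffffffffffffffffffffffff7fdfe3bb7b9000000000000000)]

theorem chk_tab5g0_3 : chk true 5 17 qs17 sm13 1125 tab5g0_3 = true := by decide +kernel

def tab5g0_4 : List (ℕ × ℕ × ℕ) :=
  [
    (1210, 185, 0x11fcefefbffefffffffffffffffffffffffffffff7fdfe3bb7b9000000000000000),
    (1215, 186, 0x91feefefbffefffffffffffffffffffffffffffff7fdfe3bb5b9000000000000000),
    (1225, 187, 0x1b6baef7fff7ffffffffffffffffffffffffffffed7fffd7e1e44a20000000000000)]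

theorem chk_tab5g0_4 : chk true 5 17 qs17 sm13 1183 tab5g0_4 = true := by decide +kernel

def tab5g0_5 : List (ℕ × ℕ × ℕ) :=
  [
    (1232, 188, 0x3b6baef7fff7ffffffffffffffffffffffffffffed7fffd7e1e44a20000000000000),
    (1248, 189, 0x7b3faefffdb7fffffffffffffffffffffffffffffffedfcfa1296b00000000000000),
    (1250, 190, 0xfb3feeffffbffffffffffffffffffffffffffdfffffed5cba3292b80000000000000)]

theorem chk_tab5g0_5 : chk true 5 17 qs17 sm13 1225 tab5g0_5 = true := by decide +kernel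

def tab5g0_6 : List (ℕ × ℕ × ℕ) :=
  [
    (1274, 191, 0x1fb3feeffffbffffffffffffffffffffffffffdfffffed5cba3292b80000000000000),
    (1296, 192, 0x5fb3feeffffbffffffffffffffffffffffffffffffffed5cba3292380000000000000),
    (1300, 193, 0x3dfbabfeffffbffffffffffffffffffffffffffdffffeff59393a82280000000000000)]

theorem chk_tab5g0_6 : chk true 5 17 qs17 sm13 1250 tab5g0_6 = true := by decide +kernel

def tab5g0_7 : List (ℕ × ℕ × ℕ) :=
  [
    (1323, 194, 0x7dfbabfefffffffffffffffffffffffffffffffdffff6ff593b3e00280000000000000),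
    (1331, 195, 0x17dfb3ffefff7ffffffffffffffffffffffffffffffff6fe5dba2600a80000000000000),
    (1344, 196, 0x36dfb2ffeffffffffffffffffffffffffffffff7fffff6fe5dba3680a80000000000000)]

theorem chk_tab5g0_7 : chk true 5 17 qs17 sm13 1300 tab5g0_7 = true := by decide +kernel

def tab5g0_8 : List (ℕ × ℕ × ℕ) :=
  [
    (1352, 197, 0x77dfbbbfeffffffffffffffffffffffff7fffffffffff6fd59333e80280000000000000),
    (1372, 198, 0x176dfbbbfeffffffffffffffffffffffffffffffffffff6fd59333e80280000000000000),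
    (1375, 199, 0x5f7dfbbbfeffffffffffffffffffffffefffffffffffff6fd59313e80280000000000000)]

theorem chk_tab5g0_8 : chk true 5 17 qs17 sm13 1344 tab5g0_8 = true := by decide +kernel

def tab5g0_9 : List (ℕ × ℕ × ℕ) :=
  [
    (1386, 200, 0xdf6dfbbbbeffffffffffffffffffffffefffffffffffff6fdd9333e80280000000000000),
    (1404, 201, 0x1df5dfb1ffaffffffffffffffffffffffff7ffffffff7ff7ecfb9e6688880000000000000),
    (1408, 202, 0x7df5dfb1ffaffffffffffffffffffffffffffffffffb7ff7ecfb9e6608880000000000000)]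

theorem chk_tab5g0_9 : chk true 5 17 qs17 sm13 1375 tab5g0_9 = true := by decide +kernel

def tab5g0_10 : List (ℕ × ℕ × ℕ) :=
  [
    (1430, 203, 0xfdf5dfb1ffaffffffffffffffffffffffffffffffffb7ff7ecfb9e6608880000000000000),
    (1456, 204, 0x1efb7dff7ffffffffffffffffffffffffffffffffffffffb6dacdaa0602880000000000000),
    (1470, 205, 0xdefb7dff7ffffffffffffffffffffffffffffffffffffff36dacdaa0602880000000000000)]

theorem chk_tab5g0_10 : chk true 5 17 qs17 sm13 1408 tab5g0_10 = true := by decide +kernel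

def tab5g0_11 : List (ℕ × ℕ × ℕ) :=
  [
    (1485, 206, 0x1befa7fff7ffffffffffffffffffffffffffffffffffeffff71bbc2a1604800000000000000),
    (1521, 207, 0x5befb7fff7ffffffffffffffffffffffffffffffffffeffff71bbc221604800000000000000),
    (1536, 208, 0x25befb7fff7ffffffffffffffffffffffffffffffffffeffff71bbc221604800000000000000)]

theorem chk_tab5g0_11 : chk true 5 17 qs17 sm13 1470 tab5g0_11 = true := by decide +kernel

def tab5g0_12 : List (ℕ × ℕ × ℕ) :=
  [
    (1540, 209, 0x75cedf7dff3ffffffffffffffffffffffffffffffffff7ffff6bce8ae2424800000000000000),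
    (1568, 210, 0xf5defffdfb7fffffffffffffffffffffffffffffffbffffff7498f8ae0606800000000000000),
    (1573, 211, 0x3f5deffffff7ffffffffffffffffffffffffffffffbfffffd7f058fcae0600800000000000000)]

theorem chk_tab5g0_12 : chk true 5 17 qs17 sm13 1536 tab5g0_12 = true := by decide +kernel

def tab5g0_13 : List (ℕ × ℕ × ℕ) :=
  [
    (1575, 212, 0x7f5deffffff7ffffffffffffffffffffffffffffffbfffffd7f058fcae0600800000000000000),
    (1600, 213, 0xef59effffff7fffffffffffffffffffffffffffffffffbfff7f0d8fcae0600800000000000000),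
    (1617, 214, 0x2ef59effffff7fffffffffffffffffffffffffffffffffbfff7f0d8fcae0600800000000000000)]

theorem chk_tab5g0_13 : chk true 5 17 qs17 sm13 1573 tab5g0_13 = true := by decide +kernel

def tab5g0_14 : List (ℕ × ℕ × ℕ) :=
  [
    (1625, 215, 0x6ef5defffffffffffffffffffffffffffffffffffdffffbfff774d9f8a60600800000000000000),
    (1664, 216, 0x16ff5deffffffffffffffffffefeffffffffffffffdffffbfff7f4d9f8a60600800000000000000),
    (1690, 217, 0x96ff5deffffffffffffffffffefefffffffffffffffffffbfff7f4d9f8a60600000000000000000)]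

theorem chk_tab5g0_14 : chk true 5 17 qs17 sm13 1617 tab5g0_14 = true := by decide +kernel

def tab5g0_15 : List (ℕ × ℕ × ℕ) :=
  [
    (1694, 218, 0x296ef5defffffffffffffffffffffffffffffffffffffbffbfff7f4d9f8a60600000000000000000),
    (1715, 219, 0x696ef5deffffffffffffffffffffffffffffffffffffffffbfff774d9f8a60600000000000000000),
    (1728, 220, 0x1ed6ff5defffffffffffffffffffffffffffdfffffffeffffbfdf774d9f8a60600000000000000000)]

theorem chk_tab5g0_15 : chk true 5 17 qs17 sm13 1690 tab5g0_15 = true := by decide +kernel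

def tab5g0_16 : List (ℕ × ℕ × ℕ) :=
  [
    (1755, 221, 0x5eb6ef5deffff7fffffffffffffffffffffffffffdfffffffbfff654dd79e20604000000000000000),
    (1764, 222, 0x15ed6ff59fffffffffffffffffffeffffffffffffffffffffbbffb6f6c9f9824600000000000000000),
    (1792, 223, 0x7fe96effdefffffffffffffffffffffffffffffffffeffffeff57f2f479e9262400000000000000000)]

theorem chk_tab5g0_16 : chk true 5 17 qs17 sm13 1728 tab5g0_16 = true := by decide +kernel

def tab5g0_17 : List (ℕ × ℕ × ℕ) :=
  [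
    (1815, 224, 0x17fe96effdefffffffffffffffffffffffffffffffffeffffeff57f2f479e9262400000000000000000),
    (1820, 225, 0x57fed6effdefffffffffffffffffffffffffffffffffeffffeff55f2f479e9262400000000000000000),
    (1859, 226, 0xd7fe96fffdeffffffffffffffff7ffffffffffffffffffffffff5fd6f479e9220000000000000000000)]

theorem chk_tab5g0_17 : chk true 5 17 qs17 sm13 1792 tab5g0_17 = true := by decide +kernel

def tab5g0_18 : List (ℕ × ℕ × ℕ) :=
  [
    (1875, 227, 0x2d7de96fffdefffffffffffffffffffffffffffffffffffffffff5fd6f479e9220000000000000000000),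
    (1911, 228, 0xad7fe96fffdefffffffffffffffffffffffffffffffffffffffff5fd6f479e9200000000000000000000),
    (1920, 229, 0x2ad7fed6fffdefffffffffffffffffffffffffffffffffffffffbf5fd6f479e9200000000000000000000)]

theorem chk_tab5g0_18 : chk true 5 17 qs17 sm13 1859 tab5g0_18 = true := by decide +kernel

def tab5g0_19 : List (ℕ × ℕ × ℕ) :=
  [
    (1936, 230, 0x3adffedfffffffffffffffffffffffffffffffffbfffffffffffbb4f57ff6888020000000000000000000),
    (1980, 232, 0x1badfdedfffffffffffffffffffffffffffffffffffffffffffffbb4f57ff6888020000000000000000000),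
    (2000, 233, 0x17ab7bdedffedfffffdfffffffffffffffffffffffffffffffefffaf6fbee5c9a8030800000000000000000)]

theorem chk_tab5g0_19 : chk true 5 17 qs17 sm13 1920 tab5g0_19 = true := by decide +kernel

def tab5g0_20 : List (ℕ × ℕ × ℕ) :=
  [
    (2002, 234, 0x37ab7bfedffedfffffdffffffffffff7ffffffffffffffffffefffaf6fbee5c9a8030800000000000000000),
    (2025, 235, 0x77ab7bfedffedfffffdfffffffffffffffffffffffffffffffefffaf6faee5c9a8011800000000000000000),
    (2048, 236, 0x177ab7bfedffedfffffdfffffffffffffffffffffffffffffffefffaf6faee5c9a8011800000000000000000)]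

theorem chk_tab5g0_20 : chk true 5 17 qs17 sm13 2000 tab5g0_20 = true := by decide +kernel

def cat_tab5g0_20 : List (ℕ × ℕ) := [(2002, 234), (2025, 235), (2048, 236)]

theorem chl_tab5g0_20 : ChL (fn 5 30030 17) 2000 cat_tab5g0_20 :=
  (chl_fn mas_sm13 qs17_spec tab5g0_20 2000 chk_tab5g0_20)

def cat_tab5g0_19 : List (ℕ × ℕ) := [(1936, 230), (1980, 232), (2000, 233)] ++ cat_tab5g0_20

theorem chl_tab5g0_19 : ChL (fn 5 30030 17) 1920 cat_tab5g0_19 :=
  chl_append chl_tab5g0_20 [(1936, 230), (1980, 232), (2000, 233)] 1920 (by decide +kernel) (chl_fn mas_sm13 qs17_spec tab5g0_19 1920 chk_tab5g0_19)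

def cat_tab5g0_18 : List (ℕ × ℕ) := [(1875, 227), (1911, 228), (1920, 229)] ++ cat_tab5g0_19

theorem chl_tab5g0_18 : ChL (fn 5 30030 17) 1859 cat_tab5g0_18 :=
  chl_append chl_tab5g0_19 [(1875, 227), (1911, 228), (1920, 229)] 1859 (by decide +kernel) (chl_fn mas_sm13 qs17_spec tab5g0_18 1859 chk_tab5g0_18)

def cat_tab5g0_17 : List (ℕ × ℕ) := [(1815, 224), (1820, 225), (1859, 226)] ++ cat_tab5g0_18

theorem chl_tab5g0_17 : ChL (fn 5 30030 17) 1792 cat_tab5g0_17 :=
  chl_append chl_tab5g0_18 [(1815, 224), (1820, 225), (1859, 226)] 1792 (by decide +kernel) (chl_fn mas_sm13 qs17_spec tab5g0_17 1792 chk_tab5g0_17)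

def cat_tab5g0_16 : List (ℕ × ℕ) := [(1755, 221), (1764, 222), (1792, 223)] ++ cat_tab5g0_17

theorem chl_tab5g0_16 : ChL (fn 5 30030 17) 1728 cat_tab5g0_16 :=
  chl_append chl_tab5g0_17 [(1755, 221), (1764, 222), (1792, 223)] 1728 (by decide +kernel) (chl_fn mas_sm13 qs17_spec tab5g0_16 1728 chk_tab5g0_16)

def cat_tab5g0_15 : List (ℕ × ℕ) := [(1694, 218), (1715, 219), (1728, 220)] ++ cat_tab5g0_16

theorem chl_tab5g0_15 : ChL (fn 5 30030 17) 1690 cat_tab5g0_15 :=
  chl_append chl_tab5g0_16 [(1694, 218), (1715, 219), (1728, 220)] 1690 (by decide +kernel) (chl_fn mas_sm13 qs17_spec tab5g0_15 1690 chk_tab5g0_15)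

def cat_tab5g0_14 : List (ℕ × ℕ) := [(1625, 215), (1664, 216), (1690, 217)] ++ cat_tab5g0_15

theorem chl_tab5g0_14 : ChL (fn 5 30030 17) 1617 cat_tab5g0_14 :=
  chl_append chl_tab5g0_15 [(1625, 215), (1664, 216), (1690, 217)] 1617 (by decide +kernel) (chl_fn mas_sm13 qs17_spec tab5g0_14 1617 chk_tab5g0_14)

def cat_tab5g0_13 : List (ℕ × ℕ) := [(1575, 212), (1600, 213), (1617, 214)] ++ cat_tab5g0_14

theorem chl_tab5g0_13 : ChL (fn 5 30030 17) 1573 cat_tab5g0_13 :=
  chl_append chl_tab5g0_14 [(1575, 212), (1600, 213), (1617, 214)] 1573 (by decide +kernel) (chl_fn mas_sm13 qs17_spec tab5g0_13 1573 chk_tab5g0_13)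

def cat_tab5g0_12 : List (ℕ × ℕ) := [(1540, 209), (1568, 210), (1573, 211)] ++ cat_tab5g0_13

theorem chl_tab5g0_12 : ChL (fn 5 30030 17) 1536 cat_tab5g0_12 :=
  chl_append chl_tab5g0_13 [(1540, 209), (1568, 210), (1573, 211)] 1536 (by decide +kernel) (chl_fn mas_sm13 qs17_spec tab5g0_12 1536 chk_tab5g0_12)

def cat_tab5g0_11 : List (ℕ × ℕ) := [(1485, 206), (1521, 207), (1536, 208)] ++ cat_tab5g0_12

theorem chl_tab5g0_11 : ChL (fn 5 30030 17) 1470 cat_tab5g0_11 :=
  chl_append chl_tab5g0_12 [(1485, 206), (1521, 207), (1536, 208)] 1470 (by decide +kernel) (chl_fn mas_sm13 qs17_spec tab5g0_11 1470 chk_tab5g0_11)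

def cat_tab5g0_10 : List (ℕ × ℕ) := [(1430, 203), (1456, 204), (1470, 205)] ++ cat_tab5g0_11

theorem chl_tab5g0_10 : ChL (fn 5 30030 17) 1408 cat_tab5g0_10 :=
  chl_append chl_tab5g0_11 [(1430, 203), (1456, 204), (1470, 205)] 1408 (by decide +kernel) (chl_fn mas_sm13 qs17_spec tab5g0_10 1408 chk_tab5g0_10)

def cat_tab5g0_9 : List (ℕ × ℕ) := [(1386, 200), (1404, 201), (1408, 202)] ++ cat_tab5g0_10

theorem chl_tab5g0_9 : ChL (fn 5 30030 17) 1375 cat_tab5g0_9 :=
  chl_append chl_tab5g0_10 [(1386, 200), (1404, 201), (1408, 202)] 1375 (by decide +kernel) (chl_fn mas_sm13 qs17_spec tab5g0_9 1375 chk_tab5g0_9)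

def cat_tab5g0_8 : List (ℕ × ℕ) := [(1352, 197), (1372, 198), (1375, 199)] ++ cat_tab5g0_9

theorem chl_tab5g0_8 : ChL (fn 5 30030 17) 1344 cat_tab5g0_8 :=
  chl_append chl_tab5g0_9 [(1352, 197), (1372, 198), (1375, 199)] 1344 (by decide +kernel) (chl_fn mas_sm13 qs17_spec tab5g0_8 1344 chk_tab5g0_8)

def cat_tab5g0_7 : List (ℕ × ℕ) := [(1323, 194), (1331, 195), (1344, 196)] ++ cat_tab5g0_8

theorem chl_tab5g0_7 : ChL (fn 5 30030 17) 1300 cat_tab5g0_7 :=
  chl_append chl_tab5g0_8 [(1323, 194), (1331, 195), (1344, 196)] 1300 (by decide +kernel) (chl_fn mas_sm13 qs17_spec tab5g0_7 1300 chk_tab5g0_7)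

def cat_tab5g0_6 : List (ℕ × ℕ) := [(1274, 191), (1296, 192), (1300, 193)] ++ cat_tab5g0_7

theorem chl_tab5g0_6 : ChL (fn 5 30030 17) 1250 cat_tab5g0_6 :=
  chl_append chl_tab5g0_7 [(1274, 191), (1296, 192), (1300, 193)] 1250 (by decide +kernel) (chl_fn mas_sm13 qs17_spec tab5g0_6 1250 chk_tab5g0_6)

def cat_tab5g0_5 : List (ℕ × ℕ) := [(1232, 188), (1248, 189), (1250, 190)] ++ cat_tab5g0_6

theorem chl_tab5g0_5 : ChL (fn 5 30030 17) 1225 cat_tab5g0_5 :=
  chl_append chl_tab5g0_6 [(1232, 188), (1248, 189), (1250, 190)] 1225 (by decide +kernel) (chl_fn mas_sm13 qs17_spec tab5g0_5 1225 chk_tab5g0_5)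

def cat_tab5g0_4 : List (ℕ × ℕ) := [(1210, 185), (1215, 186), (1225, 187)] ++ cat_tab5g0_5

theorem chl_tab5g0_4 : ChL (fn 5 30030 17) 1183 cat_tab5g0_4 :=
  chl_append chl_tab5g0_5 [(1210, 185), (1215, 186), (1225, 187)] 1183 (by decide +kernel) (chl_fn mas_sm13 qs17_spec tab5g0_4 1183 chk_tab5g0_4)

def cat_tab5g0_3 : List (ℕ × ℕ) := [(1144, 182), (1152, 183), (1183, 184)] ++ cat_tab5g0_4

theorem chl_tab5g0_3 : ChL (fn 5 30030 17) 1125 cat_tab5g0_3 :=
  chl_append chl_tab5g0_4 [(1144, 182), (1152, 183), (1183, 184)] 1125 (by decide +kernel) (chl_fn mas_sm13 qs17_spec tab5g0_3 1125 chk_tab5g0_3)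

def cat_tab5g0_2 : List (ℕ × ℕ) := [(1100, 179), (1120, 180), (1125, 181)] ++ cat_tab5g0_3

theorem chl_tab5g0_2 : ChL (fn 5 30030 17) 1092 cat_tab5g0_2 :=
  chl_append chl_tab5g0_3 [(1100, 179), (1120, 180), (1125, 181)] 1092 (by decide +kernel) (chl_fn mas_sm13 qs17_spec tab5g0_2 1092 chk_tab5g0_2)

def cat_tab5g0_1 : List (ℕ × ℕ) := [(1056, 176), (1078, 177), (1092, 178)] ++ cat_tab5g0_2

theorem chl_tab5g0_1 : ChL (fn 5 30030 17) 1053 cat_tab5g0_1 :=
  chl_append chl_tab5g0_2 [(1056, 176), (1078, 177), (1092, 178)] 1053 (by decide +kernel) (chl_fn mas_sm13 qs17_spec tab5g0_1 1053 chk_tab5g0_1)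

def cat_tab5g0_0 : List (ℕ × ℕ) := [(1029, 173), (1040, 174), (1053, 175)] ++ cat_tab5g0_1

theorem chl_tab5g0_0 : ChL (fn 5 30030 17) 1024 cat_tab5g0_0 :=
  chl_append chl_tab5g0_1 [(1029, 173), (1040, 174), (1053, 175)] 1024 (by decide +kernel) (chl_fn mas_sm13 qs17_spec tab5g0_0 1024 chk_tab5g0_0)

def tab5g0 : List (ℕ × ℕ) := cat_tab5g0_0

theorem chl_tab5g0 : ChL (fn 5 30030 17) 1024 tab5g0 := chl_tab5g0_0

theorem lst_tab5g0 : lst 1024 tab5g0 = 2048 := by decide +kernel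

theorem tel_tab5g0 : (978097913 / 10000000000 : ℚ) ≤ tel 1024 tab5g0 := by decide +kernel

theorem ws_tab5g0 : (978097913 / 10000000000 : ℝ) ≤ ws (fn 5 30030 17) 1024 2048 := by
  have h2 := (tel_le_ws _ _ 1024 (by norm_num) chl_tab5g0).2
  rw [lst_tab5g0] at h2
  have h4 : ((978097913 / 10000000000 : ℚ) : ℝ) ≤ _ := Rat.cast_le.2 tel_tab5g0
  rw [show ((978097913 / 10000000000 : ℚ) : ℝ) = (978097913 / 10000000000 : ℝ) by norm_num] at h4
  exact h4.trans h2

end Pool.Agent.H36.KW
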