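import Pool.Agent.H36.KW.Tab5a0
import Pool.Agent.H36.KW.Tab5a1
import Pool.Agent.H36.KW.Tab5a2
import Pool.Agent.H36.KW.Tab5g0

/-!
# KW Fl5: the lower bound for k = 5
-/

set_option autoImplicit false
set_option maxRecDepth 100000

namespace Pool.Agent.H36.KW

open Pool.Agent.H96.KMF Pool.Agent.H36.K3 Filter Topology

theorem lo5a : (701402201 / 156250000 : ℝ) ≤ ws (fa 5 30030 17) 1 2048 := by
  have e0 := ws_add (fa 5 30030 17) (x := 1) (y := 832) (z := 2048) (by norm_num) (by norm_num)
  have e1 := ws_add (fa 5 30030 17) (x := 832) (y := 1760) (z := 2048) (by norm_num) (by norm_num)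
  have h0 := ws_tab5a0
  have h1 := ws_tab5a1
  have h2 := ws_tab5a2
  linarith

theorem lo5g : (978097913 / 10000000000 : ℝ) ≤ ws (fn 5 30030 17) 1024 2048 := by
  have h0 := ws_tab5g0
  linarith

theorem lower5 (c : ℝ) (hc : Tendsto (fun n : ℕ => (gk 5 n : ℝ) / n) atTop (𝓝 c)) : 0.8959 < c := by
  have h := lower_aux 5 30030 17 (by norm_num) (by norm_num) (by norm_num) (by norm_num) (by norm_num) (by
    intro p hp hlt
    interval_cases p <;> first | decide | exact absurd hp (by norm_num)) c hc 1024 20 (by norm_num)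
  have h0 : (Nat.totient 30030 : ℝ) / (30030 : ℕ) = 192 / 1001 := by
    have : Nat.totient 30030 = 5760 := by
      rw [show 30030 = 210 * 143 by norm_num, Nat.totient_mul (by norm_num)]
      have h1 : Nat.totient 210 = 48 := by decide +kernel
      have h2 : Nat.totient 143 = 120 := by decide +kernel
      rw [h1, h2]
    rw [this]
    norm_num
  rw [h0] at h
  have h1 := lo5a
  have h2 := lo5g
  have h3 := ws_cc_a_5
  have h4 := ws_cc_g_5
  norm_num at h h1 h2 h3 h4 ⊢
  linarith

end Pool.Agent.H36.KW
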