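import Pool.Agent.H36.KW.Ma7
import Pool.Agent.H36.KW.Chunk

/-!
# KW Up4a: bounds for the largest 4-multiple-free sets of 7-smooth numbers
-/

set_option autoImplicit false
set_option maxRecDepth 100000

namespace Pool.Agent.H36.KW

open Pool.Agent.H96.KMF Pool.Agent.H36.K3

def u4a_0 : List (ℕ × ℕ × ℕ) :=
  [
    (2, 1, 0x0),
    (3, 2, 0x0),
    (4, 3, 0x0),
    (5, 4, 0x0),
    (6, 5, 0x00),
    (7, 6, 0x00),
    (8, 7, 0x00),
    (9, 8, 0x00),
    (10, 9, 0x000),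
    (14, 10, 0x002),
    (15, 11, 0x002),
    (18, 12, 0x0003),
    (20, 13, 0x0003),
    (21, 14, 0x0003),
    (25, 15, 0x0000b),
    (27, 16, 0x0000b),
    (28, 17, 0x0000b),
    (32, 18, 0x00004b),
    (35, 19, 0x00008b),
    (42, 20, 0x00000cf),
    (45, 21, 0x00000cf),
    (48, 22, 0x00000cf),
    (49, 23, 0x000000cf),
    (50, 24, 0x000000cf),
    (54, 25, 0x000000cf),
    (56, 26, 0x000000cf),
    (63, 27, 0x0000200cf),
    (64, 28, 0x0000200cf),
    (75, 29, 0x00000c058f),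
    (80, 30, 0x00000c058f)]

theorem uk4a_0 : ctabR 4 ma7 1 u4a_0 = true := by decide +kernel

def uc4a_0 : List (ℕ × ℕ) := [(2, 1), (3, 2), (4, 3), (5, 4), (6, 5), (7, 6), (8, 7), (9, 8), (10, 9), (14, 10), (15, 11), (18, 12), (20, 13), (21, 14), (25, 15), (27, 16), (28, 17), (32, 18), (35, 19), (42, 20), (45, 21), (48, 22), (49, 23), (50, 24), (54, 25), (56, 26), (63, 27), (64, 28), (75, 29), (80, 30)]

theorem ul4a_0 : ChU (tt 4 210) 1 uc4a_0 :=
  (chu_of_ctabR (N := 1399) (by norm_num) (by norm_num) cov_ma7 ord_ma7 u4a_0 1 (by decide +kernel) uk4a_0)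

theorem us4a : lst 1 uc4a_0 = 80 := by decide +kernel

theorem ut4a : tel 1 uc4a_0 ≤ (16031455499 / 5000000000 : ℚ) := by decide +kernel

theorem uw4a : ws (tt 4 210) 1 80 ≤ (16031455499 / 5000000000 : ℝ) := by
  have h2 := (ws_le_tel _ _ 1 (by norm_num) ul4a_0).2
  rw [us4a] at h2
  have h4 : _ ≤ ((16031455499 / 5000000000 : ℚ) : ℝ) := Rat.cast_le.2 ut4a
  rw [show ((16031455499 / 5000000000 : ℚ) : ℝ) = (16031455499 / 5000000000 : ℝ) by norm_num] at h4
  exact h2.trans h4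

def u4b_0 : List (ℕ × ℕ × ℕ) :=
  [
    (81, 30, 0x00000c078f),
    (96, 31, 0x0020018278f),
    (98, 32, 0x0040030478f),
    (100, 33, 0x00040030478f),
    (112, 34, 0x00100460639f),
    (125, 35, 0x000300160639f),
    (126, 36, 0x000600160639f),
    (128, 37, 0x000600160639f)]

theorem uk4b_0 : ctabR 4 ma7 80 u4b_0 = true := by decide +kernel

def u4b_1 : List (ℕ × ℕ × ℕ) :=
  [
    (135, 38, 0x0000c002c0c71f),
    (147, 39, 0x0003000780cf1f),
    (160, 40, 0x00006002780cf1f),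
    (162, 41, 0x0000c004780cf1f),
    (175, 42, 0x000058008f00cf1f),
    (180, 43, 0x000058008f00cf1f)]

theorem uk4b_1 : ctabR 4 ma7 128 u4b_1 = true := by decide +kernel

def u4b_2 : List (ℕ × ℕ × ℕ) :=
  [
    (189, 44, 0x0000b000c701c71f),
    (196, 45, 0x0000160018e03875f),
    (224, 46, 0x00002580033c058f3f),
    (225, 47, 0x00004580033c058f3f)]

theorem uk4b_2 : ctabR 4 ma7 180 u4b_2 = true := by decide +kernel

def u4b_3 : List (ℕ × ℕ × ℕ) :=
  [
    (243, 48, 0x00011600033c078f3f),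
    (245, 49, 0x000022c000678078f3f)]

theorem uk4b_3 : ctabR 4 ma7 225 u4b_3 = true := by decide +kernel

def u4b_4 : List (ℕ × ℕ × ℕ) :=
  [
    (250, 50, 0x000022c000678078f3f),
    (256, 51, 0x0000638000678078f3f)]

theorem uk4b_4 : ctabR 4 ma7 245 u4b_4 = true := by decide +kernel

def u4b_5 : List (ℕ × ℕ × ℕ) :=
  [
    (288, 52, 0x000019e0000cf04f1e3f)]

theorem uk4b_5 : ctabR 4 ma7 256 u4b_5 = true := by decide +kernel

def u4b_6 : List (ℕ × ℕ × ℕ) :=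
  [
    (294, 53, 0x000033c00019e08f3e1f)]

theorem uk4b_6 : ctabR 4 ma7 288 u4b_6 = true := by decide +kernel

def u4b_7 : List (ℕ × ℕ × ℕ) :=
  [
    (315, 54, 0x0000067804019e08f3e1f)]

theorem uk4b_7 : ctabR 4 ma7 294 u4b_7 = true := by decide +kernel

def u4b_8 : List (ℕ × ℕ × ℕ) :=
  [
    (324, 55, 0x00000cf008031e08f3e3f)]

theorem uk4b_8 : ctabR 4 ma7 315 u4b_8 = true := by decide +kernel

def u4b_9 : List (ℕ × ℕ × ℕ) :=
  [
    (343, 56, 0x0000019e010463c0c73e3f)]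

theorem uk4b_9 : ctabR 4 ma7 324 u4b_9 = true := by decide +kernel

def u4b_10 : List (ℕ × ℕ × ℕ) :=
  [
    (375, 57, 0x00000033c0304e3c08f3e3f)]

theorem uk4b_10 : ctabR 4 ma7 343 u4b_10 = true := by decide +kernel

def u4b_11 : List (ℕ × ℕ × ℕ) :=
  [
    (378, 58, 0x0000006780304e3c08f3e3f)]

theorem uk4b_11 : ctabR 4 ma7 375 u4b_11 = true := by decide +kernel

def u4b_12 : List (ℕ × ℕ × ℕ) :=
  [
    (392, 59, 0x000000cf00609c7818e3e7f)]

theorem uk4b_12 : ctabR 4 ma7 378 u4b_12 = true := by decide +kernel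

def u4b_13 : List (ℕ × ℕ × ℕ) :=
  [
    (400, 60, 0x0000000cf00609c7818e3e7f)]

theorem uk4b_13 : ctabR 4 ma7 392 u4b_13 = true := by decide +kernel

def uc4b_13 : List (ℕ × ℕ) := [(400, 60)]

theorem ul4b_13 : ChU (tt 4 210) 392 uc4b_13 :=
  (chu_of_ctabR (N := 1399) (by norm_num) (by norm_num) cov_ma7 ord_ma7 u4b_13 392 (by decide +kernel) uk4b_13)

def uc4b_12 : List (ℕ × ℕ) := [(392, 59)] ++ uc4b_13

theorem ul4b_12 : ChU (tt 4 210) 378 uc4b_12 :=
  chu_append ul4b_13 [(392, 59)] 378 (by decide +kernel)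
    (chu_of_ctabR (N := 1399) (by norm_num) (by norm_num) cov_ma7 ord_ma7 u4b_12 378 (by decide +kernel) uk4b_12)

def uc4b_11 : List (ℕ × ℕ) := [(378, 58)] ++ uc4b_12

theorem ul4b_11 : ChU (tt 4 210) 375 uc4b_11 :=
  chu_append ul4b_12 [(378, 58)] 375 (by decide +kernel)
    (chu_of_ctabR (N := 1399) (by norm_num) (by norm_num) cov_ma7 ord_ma7 u4b_11 375 (by decide +kernel) uk4b_11)

def uc4b_10 : List (ℕ × ℕ) := [(375, 57)] ++ uc4b_11

theorem ul4b_10 : ChU (tt 4 210) 343 uc4b_10 :=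
  chu_append ul4b_11 [(375, 57)] 343 (by decide +kernel)
    (chu_of_ctabR (N := 1399) (by norm_num) (by norm_num) cov_ma7 ord_ma7 u4b_10 343 (by decide +kernel) uk4b_10)

def uc4b_9 : List (ℕ × ℕ) := [(343, 56)] ++ uc4b_10

theorem ul4b_9 : ChU (tt 4 210) 324 uc4b_9 :=
  chu_append ul4b_10 [(343, 56)] 324 (by decide +kernel)
    (chu_of_ctabR (N := 1399) (by norm_num) (by norm_num) cov_ma7 ord_ma7 u4b_9 324 (by decide +kernel) uk4b_9)

def uc4b_8 : List (ℕ × ℕ) := [(324, 55)] ++ uc4b_9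

theorem ul4b_8 : ChU (tt 4 210) 315 uc4b_8 :=
  chu_append ul4b_9 [(324, 55)] 315 (by decide +kernel)
    (chu_of_ctabR (N := 1399) (by norm_num) (by norm_num) cov_ma7 ord_ma7 u4b_8 315 (by decide +kernel) uk4b_8)

def uc4b_7 : List (ℕ × ℕ) := [(315, 54)] ++ uc4b_8

theorem ul4b_7 : ChU (tt 4 210) 294 uc4b_7 :=
  chu_append ul4b_8 [(315, 54)] 294 (by decide +kernel)
    (chu_of_ctabR (N := 1399) (by norm_num) (by norm_num) cov_ma7 ord_ma7 u4b_7 294 (by decide +kernel) uk4b_7)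

def uc4b_6 : List (ℕ × ℕ) := [(294, 53)] ++ uc4b_7

theorem ul4b_6 : ChU (tt 4 210) 288 uc4b_6 :=
  chu_append ul4b_7 [(294, 53)] 288 (by decide +kernel)
    (chu_of_ctabR (N := 1399) (by norm_num) (by norm_num) cov_ma7 ord_ma7 u4b_6 288 (by decide +kernel) uk4b_6)

def uc4b_5 : List (ℕ × ℕ) := [(288, 52)] ++ uc4b_6

theorem ul4b_5 : ChU (tt 4 210) 256 uc4b_5 :=
  chu_append ul4b_6 [(288, 52)] 256 (by decide +kernel)
    (chu_of_ctabR (N := 1399) (by norm_num) (by norm_num) cov_ma7 ord_ma7 u4b_5 256 (by decide +kernel) uk4b_5)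

def uc4b_4 : List (ℕ × ℕ) := [(250, 50), (256, 51)] ++ uc4b_5

theorem ul4b_4 : ChU (tt 4 210) 245 uc4b_4 :=
  chu_append ul4b_5 [(250, 50), (256, 51)] 245 (by decide +kernel)
    (chu_of_ctabR (N := 1399) (by norm_num) (by norm_num) cov_ma7 ord_ma7 u4b_4 245 (by decide +kernel) uk4b_4)

def uc4b_3 : List (ℕ × ℕ) := [(243, 48), (245, 49)] ++ uc4b_4

theorem ul4b_3 : ChU (tt 4 210) 225 uc4b_3 :=
  chu_append ul4b_4 [(243, 48), (245, 49)] 225 (by decide +kernel)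
    (chu_of_ctabR (N := 1399) (by norm_num) (by norm_num) cov_ma7 ord_ma7 u4b_3 225 (by decide +kernel) uk4b_3)

def uc4b_2 : List (ℕ × ℕ) := [(189, 44), (196, 45), (224, 46), (225, 47)] ++ uc4b_3

theorem ul4b_2 : ChU (tt 4 210) 180 uc4b_2 :=
  chu_append ul4b_3 [(189, 44), (196, 45), (224, 46), (225, 47)] 180 (by decide +kernel)
    (chu_of_ctabR (N := 1399) (by norm_num) (by norm_num) cov_ma7 ord_ma7 u4b_2 180 (by decide +kernel) uk4b_2)

def uc4b_1 : List (ℕ × ℕ) := [(135, 38), (147, 39), (160, 40), (162, 41), (175, 42), (180, 43)] ++ uc4b_2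

theorem ul4b_1 : ChU (tt 4 210) 128 uc4b_1 :=
  chu_append ul4b_2 [(135, 38), (147, 39), (160, 40), (162, 41), (175, 42), (180, 43)] 128 (by decide +kernel)
    (chu_of_ctabR (N := 1399) (by norm_num) (by norm_num) cov_ma7 ord_ma7 u4b_1 128 (by decide +kernel) uk4b_1)

def uc4b_0 : List (ℕ × ℕ) := [(81, 30), (96, 31), (98, 32), (100, 33), (112, 34), (125, 35), (126, 36), (128, 37)] ++ uc4b_1

theorem ul4b_0 : ChU (tt 4 210) 80 uc4b_0 :=
  chu_append ul4b_1 [(81, 30), (96, 31), (98, 32), (100, 33), (112, 34), (125, 35), (126, 36), (128, 37)] 80 (by decide +kernel)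
    (chu_of_ctabR (N := 1399) (by norm_num) (by norm_num) cov_ma7 ord_ma7 u4b_0 80 (by decide +kernel) uk4b_0)

theorem us4b : lst 80 uc4b_0 = 400 := by decide +kernel

theorem ut4b : tel 80 uc4b_0 ≤ (1989324743 / 5000000000 : ℚ) := by decide +kernel

theorem uw4b : ws (tt 4 210) 80 400 ≤ (1989324743 / 5000000000 : ℝ) := by
  have h2 := (ws_le_tel _ _ 80 (by norm_num) ul4b_0).2
  rw [us4b] at h2
  have h4 : _ ≤ ((1989324743 / 5000000000 : ℚ) : ℝ) := Rat.cast_le.2 ut4b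
  rw [show ((1989324743 / 5000000000 : ℚ) : ℝ) = (1989324743 / 5000000000 : ℝ) by norm_num] at h4
  exact h2.trans h4

end Pool.Agent.H36.KW
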