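import Pool.Agent.H36.KW.Ma7
import Pool.Agent.H36.KW.Chunk

/-!
# KW Up4b: bounds for the largest 4-multiple-free sets of 7-smooth numbers
-/

set_option autoImplicit false
set_option maxRecDepth 100000

namespace Pool.Agent.H36.KW

open Pool.Agent.H96.KMF Pool.Agent.H36.K3

def u4c_0 : List (ℕ × ℕ × ℕ) :=
  [
    (405, 60, 0x00000019e00609c7819e3e7f)]

theorem uk4c_0 : ctabR 4 ma7 400 u4c_0 = true := by decide +kernel

def u4c_1 : List (ℕ × ℕ × ℕ) :=
  [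
    (432, 61, 0x00008033c00c09c7819e3e7f)]

theorem uk4c_1 : ctabR 4 ma7 405 u4c_1 = true := by decide +kernel

def u4c_2 : List (ℕ × ℕ × ℕ) :=
  [
    (441, 62, 0x0000100678018138f019e3e7f)]

theorem uk4c_2 : ctabR 4 ma7 432 u4c_2 = true := by decide +kernel

def u4c_3 : List (ℕ × ℕ × ℕ) :=
  [
    (448, 63, 0x0000100678018138f019e3e7f)]

theorem uk4c_3 : ctabR 4 ma7 441 u4c_3 = true := by decide +kernel

def u4c_4 : List (ℕ × ℕ × ℕ) :=
  [
    (486, 64, 0x000008031e0030639f019e3e7f)]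

theorem uk4c_4 : ctabR 4 ma7 448 u4c_4 = true := by decide +kernel

def u4c_5 : List (ℕ × ℕ × ℕ) :=
  [
    (500, 65, 0x000018063c0060c73e019e3e7f)]

theorem uk4c_5 : ctabR 4 ma7 486 u4c_5 = true := by decide +kernel

def u4c_6 : List (ℕ × ℕ × ℕ) :=
  [
    (512, 66, 0x00000602c780060c73e019e3e7f),
    (525, 67, 0x00000c058f000c18e7c033c7c7f)]

theorem uk4c_6 : ctabR 4 ma7 500 u4c_6 = true := by decide +kernel

def u4c_7 : List (ℕ × ℕ × ℕ) :=
  [
    (560, 68, 0x0000180b1e011818e7c033c7c7f)]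

theorem uk4c_7 : ctabR 4 ma7 525 u4c_7 = true := by decide +kernel

def uc4c_7 : List (ℕ × ℕ) := [(560, 68)]

theorem ul4c_7 : ChU (tt 4 210) 525 uc4c_7 :=
  (chu_of_ctabR (N := 1399) (by norm_num) (by norm_num) cov_ma7 ord_ma7 u4c_7 525 (by decide +kernel) uk4c_7)

def uc4c_6 : List (ℕ × ℕ) := [(512, 66), (525, 67)] ++ uc4c_7

theorem ul4c_6 : ChU (tt 4 210) 500 uc4c_6 :=
  chu_append ul4c_7 [(512, 66), (525, 67)] 500 (by decide +kernel)
    (chu_of_ctabR (N := 1399) (by norm_num) (by norm_num) cov_ma7 ord_ma7 u4c_6 500 (by decide +kernel) uk4c_6)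

def uc4c_5 : List (ℕ × ℕ) := [(500, 65)] ++ uc4c_6

theorem ul4c_5 : ChU (tt 4 210) 486 uc4c_5 :=
  chu_append ul4c_6 [(500, 65)] 486 (by decide +kernel)
    (chu_of_ctabR (N := 1399) (by norm_num) (by norm_num) cov_ma7 ord_ma7 u4c_5 486 (by decide +kernel) uk4c_5)

def uc4c_4 : List (ℕ × ℕ) := [(486, 64)] ++ uc4c_5

theorem ul4c_4 : ChU (tt 4 210) 448 uc4c_4 :=
  chu_append ul4c_5 [(486, 64)] 448 (by decide +kernel)
    (chu_of_ctabR (N := 1399) (by norm_num) (by norm_num) cov_ma7 ord_ma7 u4c_4 448 (by decide +kernel) uk4c_4)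

def uc4c_3 : List (ℕ × ℕ) := [(448, 63)] ++ uc4c_4

theorem ul4c_3 : ChU (tt 4 210) 441 uc4c_3 :=
  chu_append ul4c_4 [(448, 63)] 441 (by decide +kernel)
    (chu_of_ctabR (N := 1399) (by norm_num) (by norm_num) cov_ma7 ord_ma7 u4c_3 441 (by decide +kernel) uk4c_3)

def uc4c_2 : List (ℕ × ℕ) := [(441, 62)] ++ uc4c_3

theorem ul4c_2 : ChU (tt 4 210) 432 uc4c_2 :=
  chu_append ul4c_3 [(441, 62)] 432 (by decide +kernel)
    (chu_of_ctabR (N := 1399) (by norm_num) (by norm_num) cov_ma7 ord_ma7 u4c_2 432 (by decide +kernel) uk4c_2)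

def uc4c_1 : List (ℕ × ℕ) := [(432, 61)] ++ uc4c_2

theorem ul4c_1 : ChU (tt 4 210) 405 uc4c_1 :=
  chu_append ul4c_2 [(432, 61)] 405 (by decide +kernel)
    (chu_of_ctabR (N := 1399) (by norm_num) (by norm_num) cov_ma7 ord_ma7 u4c_1 405 (by decide +kernel) uk4c_1)

def uc4c_0 : List (ℕ × ℕ) := [(405, 60)] ++ uc4c_1

theorem ul4c_0 : ChU (tt 4 210) 400 uc4c_0 :=
  chu_append ul4c_1 [(405, 60)] 400 (by decide +kernel)
    (chu_of_ctabR (N := 1399) (by norm_num) (by norm_num) cov_ma7 ord_ma7 u4c_0 400 (by decide +kernel) uk4c_0)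

theorem us4c : lst 400 uc4c_0 = 560 := by decide +kernel

theorem ut4c : tel 400 uc4c_0 ≤ (457705959 / 10000000000 : ℚ) := by decide +kernel

theorem uw4c : ws (tt 4 210) 400 560 ≤ (457705959 / 10000000000 : ℝ) := by
  have h2 := (ws_le_tel _ _ 400 (by norm_num) ul4c_0).2
  rw [us4c] at h2
  have h4 : _ ≤ ((457705959 / 10000000000 : ℚ) : ℝ) := Rat.cast_le.2 ut4c
  rw [show ((457705959 / 10000000000 : ℚ) : ℝ) = (457705959 / 10000000000 : ℝ) by norm_num] at h4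
  exact h2.trans h4

end Pool.Agent.H36.KW
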