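import Pool.Agent.H36.KW.Ma5
import Pool.Agent.H36.KW.Chunk

/-!
# KW Up4c: bounds for the largest 4-multiple-free sets of 5-smooth numbers
-/

set_option autoImplicit false
set_option maxRecDepth 100000

namespace Pool.Agent.H36.KW

open Pool.Agent.H96.KMF Pool.Agent.H36.K3

def u4d_0 : List (ℕ × ℕ × ℕ) :=
  [
    (405, 35, 0x000602c7818e3e7f),
    (486, 36, 0x0003045af019e3e7f)]

theorem uk4d_0 : ctabR 4 ma5 400 u4d_0 = true := by decide +kernel

def u4d_1 : List (ℕ × ℕ × ℕ) :=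
  [
    (500, 37, 0x000608b5e019e3e7f)]

theorem uk4d_1 : ctabR 4 ma5 486 u4d_1 = true := by decide +kernel

def u4d_2 : List (ℕ × ℕ × ℕ) :=
  [
    (512, 38, 0x000608f1e019e7e3f)]

theorem uk4d_2 : ctabR 4 ma5 500 u4d_2 = true := by decide +kernel

def u4d_3 : List (ℕ × ℕ × ℕ) :=
  [
    (560, 39, 0x0001818e7c033c7c7f)]

theorem uk4d_3 : ctabR 4 ma5 512 u4d_3 = true := by decide +kernel

def uc4d_3 : List (ℕ × ℕ) := [(560, 39)]

theorem ul4d_3 : ChU (tt 4 30) 512 uc4d_3 :=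
  (chu_of_ctabR (N := 4999) (by norm_num) (by norm_num) cov_ma5 ord_ma5 u4d_3 512 (by decide +kernel) uk4d_3)

def uc4d_2 : List (ℕ × ℕ) := [(512, 38)] ++ uc4d_3

theorem ul4d_2 : ChU (tt 4 30) 500 uc4d_2 :=
  chu_append ul4d_3 [(512, 38)] 500 (by decide +kernel)
    (chu_of_ctabR (N := 4999) (by norm_num) (by norm_num) cov_ma5 ord_ma5 u4d_2 500 (by decide +kernel) uk4d_2)

def uc4d_1 : List (ℕ × ℕ) := [(500, 37)] ++ uc4d_2

theorem ul4d_1 : ChU (tt 4 30) 486 uc4d_1 :=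
  chu_append ul4d_2 [(500, 37)] 486 (by decide +kernel)
    (chu_of_ctabR (N := 4999) (by norm_num) (by norm_num) cov_ma5 ord_ma5 u4d_1 486 (by decide +kernel) uk4d_1)

def uc4d_0 : List (ℕ × ℕ) := [(405, 35), (486, 36)] ++ uc4d_1

theorem ul4d_0 : ChU (tt 4 30) 400 uc4d_0 :=
  chu_append ul4d_1 [(405, 35), (486, 36)] 400 (by decide +kernel)
    (chu_of_ctabR (N := 4999) (by norm_num) (by norm_num) cov_ma5 ord_ma5 u4d_0 400 (by decide +kernel) uk4d_0)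

theorem us4d : lst 400 uc4d_0 = 560 := by decide +kernel

theorem ut4d : tel 400 uc4d_0 ≤ (263370169 / 10000000000 : ℚ) := by decide +kernel

theorem uw4d : ws (tt 4 30) 400 560 ≤ (263370169 / 10000000000 : ℝ) := by
  have h2 := (ws_le_tel _ _ 400 (by norm_num) ul4d_0).2
  rw [us4d] at h2
  have h4 : _ ≤ ((263370169 / 10000000000 : ℚ) : ℝ) := Rat.cast_le.2 ut4d
  rw [show ((263370169 / 10000000000 : ℚ) : ℝ) = (263370169 / 10000000000 : ℝ) by norm_num] at h4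
  exact h2.trans h4

def u4e_0 : List (ℕ × ℕ × ℕ) :=
  [
    (625, 39, 0x000b031cf8063cfc7f)]

theorem uk4e_0 : ctabR 4 ma5 560 u4e_0 = true := by decide +kernel

def u4e_1 : List (ℕ × ℕ × ℕ) :=
  [
    (675, 40, 0x0002c0c71f0163cfcff)]

theorem uk4e_1 : ctabR 4 ma5 625 u4e_1 = true := by decide +kernel

def u4e_2 : List (ℕ × ℕ × ℕ) :=
  [
    (729, 41, 0x000580cf1f0163cfcff)]

theorem uk4e_2 : ctabR 4 ma5 675 u4e_2 = true := by decide +kernel

def u4e_3 : List (ℕ × ℕ × ℕ) :=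
  [
    (750, 42, 0x0000b019e3e0163cfcff)]

theorem uk4e_3 : ctabR 4 ma5 729 u4e_3 = true := by decide +kernel

def u4e_4 : List (ℕ × ℕ × ℕ) :=
  [
    (768, 43, 0x0004b019e1e0163cfcff)]

theorem uk4e_4 : ctabR 4 ma5 750 u4e_4 = true := by decide +kernel

def u4e_5 : List (ℕ × ℕ × ℕ) :=
  [
    (1000, 44, 0x00018e018f3f031cf8fcff)]

theorem uk4e_5 : ctabR 4 ma5 768 u4e_5 = true := by decide +kernel

def uc4e_5 : List (ℕ × ℕ) := [(1000, 44)]

theorem ul4e_5 : ChU (tt 4 30) 768 uc4e_5 :=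
  (chu_of_ctabR (N := 4999) (by norm_num) (by norm_num) cov_ma5 ord_ma5 u4e_5 768 (by decide +kernel) uk4e_5)

def uc4e_4 : List (ℕ × ℕ) := [(768, 43)] ++ uc4e_5

theorem ul4e_4 : ChU (tt 4 30) 750 uc4e_4 :=
  chu_append ul4e_5 [(768, 43)] 750 (by decide +kernel)
    (chu_of_ctabR (N := 4999) (by norm_num) (by norm_num) cov_ma5 ord_ma5 u4e_4 750 (by decide +kernel) uk4e_4)

def uc4e_3 : List (ℕ × ℕ) := [(750, 42)] ++ uc4e_4

theorem ul4e_3 : ChU (tt 4 30) 729 uc4e_3 :=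
  chu_append ul4e_4 [(750, 42)] 729 (by decide +kernel)
    (chu_of_ctabR (N := 4999) (by norm_num) (by norm_num) cov_ma5 ord_ma5 u4e_3 729 (by decide +kernel) uk4e_3)

def uc4e_2 : List (ℕ × ℕ) := [(729, 41)] ++ uc4e_3

theorem ul4e_2 : ChU (tt 4 30) 675 uc4e_2 :=
  chu_append ul4e_3 [(729, 41)] 675 (by decide +kernel)
    (chu_of_ctabR (N := 4999) (by norm_num) (by norm_num) cov_ma5 ord_ma5 u4e_2 675 (by decide +kernel) uk4e_2)

def uc4e_1 : List (ℕ × ℕ) := [(675, 40)] ++ uc4e_2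

theorem ul4e_1 : ChU (tt 4 30) 625 uc4e_1 :=
  chu_append ul4e_2 [(675, 40)] 625 (by decide +kernel)
    (chu_of_ctabR (N := 4999) (by norm_num) (by norm_num) cov_ma5 ord_ma5 u4e_1 625 (by decide +kernel) uk4e_1)

def uc4e_0 : List (ℕ × ℕ) := [(625, 39)] ++ uc4e_1

theorem ul4e_0 : ChU (tt 4 30) 560 uc4e_0 :=
  chu_append ul4e_1 [(625, 39)] 560 (by decide +kernel)
    (chu_of_ctabR (N := 4999) (by norm_num) (by norm_num) cov_ma5 ord_ma5 u4e_0 560 (by decide +kernel) uk4e_0)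

theorem us4e : lst 560 uc4e_0 = 1000 := by decide +kernel

theorem ut4e : tel 560 uc4e_0 ≤ (13092599 / 400000000 : ℚ) := by decide +kernel

theorem uw4e : ws (tt 4 30) 560 1000 ≤ (13092599 / 400000000 : ℝ) := by
  have h2 := (ws_le_tel _ _ 560 (by norm_num) ul4e_0).2
  rw [us4e] at h2
  have h4 : _ ≤ ((13092599 / 400000000 : ℚ) : ℝ) := Rat.cast_le.2 ut4e
  rw [show ((13092599 / 400000000 : ℚ) : ℝ) = (13092599 / 400000000 : ℝ) by norm_num] at h4
  exact h2.trans h4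

end Pool.Agent.H36.KW
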