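import Pool.Agent.H36.KW.Ma5
import Pool.Agent.H36.KW.Chunk

/-!
# KW Up4d1: bounds for the largest 4-multiple-free sets of 5-smooth numbers
-/

set_option autoImplicit false
set_option maxRecDepth 100000

namespace Pool.Agent.H36.KW

open Pool.Agent.H96.KMF Pool.Agent.H36.K3

def u4f1_0 : List (ℕ × ℕ × ℕ) :=
  [
    (1024, 44, 0x00019e018f3f031cb9fcff)]

theorem uk4f1_0 : ctabR 4 ma5 1000 u4f1_0 = true := by decide +kernel

def u4f1_1 : List (ℕ × ℕ × ℕ) :=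
  [
    (1125, 45, 0x0006780b1e7e063973f8ff)]

theorem uk4f1_1 : ctabR 4 ma5 1024 u4f1_1 = true := by decide +kernel

def u4f1_2 : List (ℕ × ℕ × ℕ) :=
  [
    (1200, 46, 0x0000cf0163cfc0c71f3f8ff)]

theorem uk4f1_2 : ctabR 4 ma5 1125 u4f1_2 = true := by decide +kernel

def u4f1_3 : List (ℕ × ℕ × ℕ) :=
  [
    (1215, 47, 0x0000cf01e3cfc0c71f3f87f)]

theorem uk4f1_3 : ctabR 4 ma5 1200 u4f1_3 = true := by decide +kernel

def u4f1_4 : List (ℕ × ℕ × ℕ) :=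
  [
    (1250, 48, 0x00019e01e3cfc0c71f3f87f)]

theorem uk4f1_4 : ctabR 4 ma5 1215 u4f1_4 = true := by decide +kernel

def u4f1_5 : List (ℕ × ℕ × ℕ) :=
  [
    (1458, 49, 0x00000cf0479f0f80cf2f6f9ff)]

theorem uk4f1_5 : ctabR 4 ma5 1250 u4f1_5 = true := by decide +kernel

def u4f1_6 : List (ℕ × ℕ × ℕ) :=
  [
    (1500, 50, 0x000019e08f3e1f00cf3f2f9ff)]

theorem uk4f1_6 : ctabR 4 ma5 1458 u4f1_6 = true := by decide +kernel

def uc4f1_6 : List (ℕ × ℕ) := [(1500, 50)]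

theorem ul4f1_6 : ChU (tt 4 30) 1458 uc4f1_6 :=
  (chu_of_ctabR (N := 4999) (by norm_num) (by norm_num) cov_ma5 ord_ma5 u4f1_6 1458 (by decide +kernel) uk4f1_6)

def uc4f1_5 : List (ℕ × ℕ) := [(1458, 49)] ++ uc4f1_6

theorem ul4f1_5 : ChU (tt 4 30) 1250 uc4f1_5 :=
  chu_append ul4f1_6 [(1458, 49)] 1250 (by decide +kernel)
    (chu_of_ctabR (N := 4999) (by norm_num) (by norm_num) cov_ma5 ord_ma5 u4f1_5 1250 (by decide +kernel) uk4f1_5)

def uc4f1_4 : List (ℕ × ℕ) := [(1250, 48)] ++ uc4f1_5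

theorem ul4f1_4 : ChU (tt 4 30) 1215 uc4f1_4 :=
  chu_append ul4f1_5 [(1250, 48)] 1215 (by decide +kernel)
    (chu_of_ctabR (N := 4999) (by norm_num) (by norm_num) cov_ma5 ord_ma5 u4f1_4 1215 (by decide +kernel) uk4f1_4)

def uc4f1_3 : List (ℕ × ℕ) := [(1215, 47)] ++ uc4f1_4

theorem ul4f1_3 : ChU (tt 4 30) 1200 uc4f1_3 :=
  chu_append ul4f1_4 [(1215, 47)] 1200 (by decide +kernel)
    (chu_of_ctabR (N := 4999) (by norm_num) (by norm_num) cov_ma5 ord_ma5 u4f1_3 1200 (by decide +kernel) uk4f1_3)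

def uc4f1_2 : List (ℕ × ℕ) := [(1200, 46)] ++ uc4f1_3

theorem ul4f1_2 : ChU (tt 4 30) 1125 uc4f1_2 :=
  chu_append ul4f1_3 [(1200, 46)] 1125 (by decide +kernel)
    (chu_of_ctabR (N := 4999) (by norm_num) (by norm_num) cov_ma5 ord_ma5 u4f1_2 1125 (by decide +kernel) uk4f1_2)

def uc4f1_1 : List (ℕ × ℕ) := [(1125, 45)] ++ uc4f1_2

theorem ul4f1_1 : ChU (tt 4 30) 1024 uc4f1_1 :=
  chu_append ul4f1_2 [(1125, 45)] 1024 (by decide +kernel)
    (chu_of_ctabR (N := 4999) (by norm_num) (by norm_num) cov_ma5 ord_ma5 u4f1_1 1024 (by decide +kernel) uk4f1_1)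

def uc4f1_0 : List (ℕ × ℕ) := [(1024, 44)] ++ uc4f1_1

theorem ul4f1_0 : ChU (tt 4 30) 1000 uc4f1_0 :=
  chu_append ul4f1_1 [(1024, 44)] 1000 (by decide +kernel)
    (chu_of_ctabR (N := 4999) (by norm_num) (by norm_num) cov_ma5 ord_ma5 u4f1_0 1000 (by decide +kernel) uk4f1_0)

theorem us4f1 : lst 1000 uc4f1_0 = 1500 := by decide +kernel

theorem ut4f1 : tel 1000 uc4f1_0 ≤ (78371839 / 5000000000 : ℚ) := by decide +kernel

theorem uw4f1 : ws (tt 4 30) 1000 1500 ≤ (78371839 / 5000000000 : ℝ) := by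
  have h2 := (ws_le_tel _ _ 1000 (by norm_num) ul4f1_0).2
  rw [us4f1] at h2
  have h4 : _ ≤ ((78371839 / 5000000000 : ℚ) : ℝ) := Rat.cast_le.2 ut4f1
  rw [show ((78371839 / 5000000000 : ℚ) : ℝ) = (78371839 / 5000000000 : ℝ) by norm_num] at h4
  exact h2.trans h4

end Pool.Agent.H36.KW
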