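import Pool.Agent.H36.KW.Ma5
import Pool.Agent.H36.KW.Chunk

/-!
# KW Up4d2: bounds for the largest 4-multiple-free sets of 5-smooth numbers
-/

set_option autoImplicit false
set_option maxRecDepth 100000

namespace Pool.Agent.H36.KW

open Pool.Agent.H96.KMF Pool.Agent.H36.K3

def u4f2_0 : List (ℕ × ℕ × ℕ) :=
  [
    (1600, 50, 0x008033c11e7c3e019e7e3f9ff)]

theorem uk4f2_0 : ctabR 4 ma5 1500 u4f2_0 = true := by decide +kernel

def u4f2_1 : List (ℕ × ℕ × ℕ) :=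
  [
    (1620, 51, 0x0010063c11e7c7e019e3e3f9ff)]

theorem uk4f2_1 : ctabR 4 ma5 1600 u4f2_1 = true := by decide +kernel

def u4f2_2 : List (ℕ × ℕ × ℕ) :=
  [
    (1875, 52, 0x008058f031cf8fc070efe1faff)]

theorem uk4f2_2 : ctabR 4 ma5 1620 u4f2_2 = true := by decide +kernel

def u4f2_3 : List (ℕ × ℕ × ℕ) :=
  [
    (2000, 53, 0x0020163c0c71f3f80f0ebe5faff)]

theorem uk4f2_3 : ctabR 4 ma5 1875 u4f2_3 = true := by decide +kernel

def uc4f2_3 : List (ℕ × ℕ) := [(2000, 53)]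

theorem ul4f2_3 : ChU (tt 4 30) 1875 uc4f2_3 :=
  (chu_of_ctabR (N := 4999) (by norm_num) (by norm_num) cov_ma5 ord_ma5 u4f2_3 1875 (by decide +kernel) uk4f2_3)

def uc4f2_2 : List (ℕ × ℕ) := [(1875, 52)] ++ uc4f2_3

theorem ul4f2_2 : ChU (tt 4 30) 1620 uc4f2_2 :=
  chu_append ul4f2_3 [(1875, 52)] 1620 (by decide +kernel)
    (chu_of_ctabR (N := 4999) (by norm_num) (by norm_num) cov_ma5 ord_ma5 u4f2_2 1620 (by decide +kernel) uk4f2_2)

def uc4f2_1 : List (ℕ × ℕ) := [(1620, 51)] ++ uc4f2_2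

theorem ul4f2_1 : ChU (tt 4 30) 1600 uc4f2_1 :=
  chu_append ul4f2_2 [(1620, 51)] 1600 (by decide +kernel)
    (chu_of_ctabR (N := 4999) (by norm_num) (by norm_num) cov_ma5 ord_ma5 u4f2_1 1600 (by decide +kernel) uk4f2_1)

def uc4f2_0 : List (ℕ × ℕ) := [(1600, 50)] ++ uc4f2_1

theorem ul4f2_0 : ChU (tt 4 30) 1500 uc4f2_0 :=
  chu_append ul4f2_1 [(1600, 50)] 1500 (by decide +kernel)
    (chu_of_ctabR (N := 4999) (by norm_num) (by norm_num) cov_ma5 ord_ma5 u4f2_0 1500 (by decide +kernel) uk4f2_0)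

theorem us4f2 : lst 1500 uc4f2_0 = 2000 := by decide +kernel

theorem ut4f2 : tel 1500 uc4f2_0 ≤ (86089507 / 10000000000 : ℚ) := by decide +kernel

theorem uw4f2 : ws (tt 4 30) 1500 2000 ≤ (86089507 / 10000000000 : ℝ) := by
  have h2 := (ws_le_tel _ _ 1500 (by norm_num) ul4f2_0).2
  rw [us4f2] at h2
  have h4 : _ ≤ ((86089507 / 10000000000 : ℚ) : ℝ) := Rat.cast_le.2 ut4f2
  rw [show ((86089507 / 10000000000 : ℚ) : ℝ) = (86089507 / 10000000000 : ℝ) by norm_num] at h4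
  exact h2.trans h4

end Pool.Agent.H36.KW
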