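import Pool.Agent.H36.KW.Ma3
import Pool.Agent.H36.KW.Chunk

/-!
# KW Up4e: bounds for the largest 4-multiple-free sets of 3-smooth numbers
-/

set_option autoImplicit false
set_option maxRecDepth 100000

namespace Pool.Agent.H36.KW

open Pool.Agent.H96.KMF Pool.Agent.H36.K3

def u4g_0 : List (ℕ × ℕ × ℕ) :=
  [
    (2187, 19, 0x0163cfc7f1ff)]

theorem uk4g_0 : ctabR 4 ma3 2000 u4g_0 = true := by decide +kernel

def u4g_1 : List (ℕ × ℕ × ℕ) :=
  [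
    (4096, 20, 0x00cb2f5f8ff3ff)]

theorem uk4g_1 : ctabR 4 ma3 2187 u4g_1 = true := by decide +kernel

def u4g_2 : List (ℕ × ℕ × ℕ) :=
  [
    (4374, 21, 0x01965ebf1fe3ff)]

theorem uk4g_2 : ctabR 4 ma3 4096 u4g_2 = true := by decide +kernel

def u4g_3 : List (ℕ × ℕ × ℕ) :=
  [
    (6561, 22, 0x002c79f8fe3fe5ff)]

theorem uk4g_3 : ctabR 4 ma3 4374 u4g_3 = true := by decide +kernel

def uc4g_3 : List (ℕ × ℕ) := [(6561, 22)]

theorem ul4g_3 : ChU (tt 4 6) 4374 uc4g_3 :=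
  (chu_of_ctabR (N := 19683) (by norm_num) (by norm_num) cov_ma3 ord_ma3 u4g_3 4374 (by decide +kernel) uk4g_3)

def uc4g_2 : List (ℕ × ℕ) := [(4374, 21)] ++ uc4g_3

theorem ul4g_2 : ChU (tt 4 6) 4096 uc4g_2 :=
  chu_append ul4g_3 [(4374, 21)] 4096 (by decide +kernel)
    (chu_of_ctabR (N := 19683) (by norm_num) (by norm_num) cov_ma3 ord_ma3 u4g_2 4096 (by decide +kernel) uk4g_2)

def uc4g_1 : List (ℕ × ℕ) := [(4096, 20)] ++ uc4g_2

theorem ul4g_1 : ChU (tt 4 6) 2187 uc4g_1 :=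
  chu_append ul4g_2 [(4096, 20)] 2187 (by decide +kernel)
    (chu_of_ctabR (N := 19683) (by norm_num) (by norm_num) cov_ma3 ord_ma3 u4g_1 2187 (by decide +kernel) uk4g_1)

def uc4g_0 : List (ℕ × ℕ) := [(2187, 19)] ++ uc4g_1

theorem ul4g_0 : ChU (tt 4 6) 2000 uc4g_0 :=
  chu_append ul4g_1 [(2187, 19)] 2000 (by decide +kernel)
    (chu_of_ctabR (N := 19683) (by norm_num) (by norm_num) cov_ma3 ord_ma3 u4g_0 2000 (by decide +kernel) uk4g_0)

theorem us4g : lst 2000 uc4g_0 = 6561 := by decide +kernel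

theorem ut4g : tel 2000 uc4g_0 ≤ (70768643 / 10000000000 : ℚ) := by decide +kernel

theorem uw4g : ws (tt 4 6) 2000 6561 ≤ (70768643 / 10000000000 : ℝ) := by
  have h2 := (ws_le_tel _ _ 2000 (by norm_num) ul4g_0).2
  rw [us4g] at h2
  have h4 : _ ≤ ((70768643 / 10000000000 : ℚ) : ℝ) := Rat.cast_le.2 ut4g
  rw [show ((70768643 / 10000000000 : ℚ) : ℝ) = (70768643 / 10000000000 : ℝ) by norm_num] at h4
  exact h2.trans h4

def u4h_0 : List (ℕ × ℕ × ℕ) :=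
  [
    (13122, 23, 0x006597afc7f8ffcfff)]

theorem uk4h_0 : ctabR 4 ma3 6561 u4h_0 = true := by decide +kernel

def u4h_1 : List (ℕ × ℕ × ℕ) :=
  [
    (16384, 24, 0x0018f3f1fcbf97fd7ff)]

theorem uk4h_1 : ctabR 4 ma3 13122 u4h_1 = true := by decide +kernel

def u4h_2 : List (ℕ × ℕ × ℕ) :=
  [
    (19683, 25, 0x0163cfc7f1ff2ff97ff)]

theorem uk4h_2 : ctabR 4 ma3 16384 u4h_2 = true := by decide +kernel

def uc4h_2 : List (ℕ × ℕ) := [(19683, 25)]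

theorem ul4h_2 : ChU (tt 4 6) 16384 uc4h_2 :=
  (chu_of_ctabR (N := 19683) (by norm_num) (by norm_num) cov_ma3 ord_ma3 u4h_2 16384 (by decide +kernel) uk4h_2)

def uc4h_1 : List (ℕ × ℕ) := [(16384, 24)] ++ uc4h_2

theorem ul4h_1 : ChU (tt 4 6) 13122 uc4h_1 :=
  chu_append ul4h_2 [(16384, 24)] 13122 (by decide +kernel)
    (chu_of_ctabR (N := 19683) (by norm_num) (by norm_num) cov_ma3 ord_ma3 u4h_1 13122 (by decide +kernel) uk4h_1)

def uc4h_0 : List (ℕ × ℕ) := [(13122, 23)] ++ uc4h_1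

theorem ul4h_0 : ChU (tt 4 6) 6561 uc4h_0 :=
  chu_append ul4h_1 [(13122, 23)] 6561 (by decide +kernel)
    (chu_of_ctabR (N := 19683) (by norm_num) (by norm_num) cov_ma3 ord_ma3 u4h_0 6561 (by decide +kernel) uk4h_0)

theorem us4h : lst 6561 uc4h_0 = 19683 := by decide +kernel

theorem ut4h : tel 6561 uc4h_0 ≤ (23726747 / 10000000000 : ℚ) := by decide +kernel

theorem uw4h : ws (tt 4 6) 6561 19683 ≤ (23726747 / 10000000000 : ℝ) := by
  have h2 := (ws_le_tel _ _ 6561 (by norm_num) ul4h_0).2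
  rw [us4h] at h2
  have h4 : _ ≤ ((23726747 / 10000000000 : ℚ) : ℝ) := Rat.cast_le.2 ut4h
  rw [show ((23726747 / 10000000000 : ℚ) : ℝ) = (23726747 / 10000000000 : ℝ) by norm_num] at h4
  exact h2.trans h4

end Pool.Agent.H36.KW
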