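import Pool.Agent.H36.KW.Upp
import Pool.Agent.H36.KW.Up4a
import Pool.Agent.H36.KW.Up4b
import Pool.Agent.H36.KW.Up4c
import Pool.Agent.H36.KW.Up4d1
import Pool.Agent.H36.KW.Up4d2
import Pool.Agent.H36.KW.Up4e

/-!
# KW Fu4: the upper bound for k = 4
-/

set_option autoImplicit false
set_option maxRecDepth 100000

namespace Pool.Agent.H36.KW

open Pool.Agent.H96.KMF Pool.Agent.H36.K3 Filter Topology

theorem up4A : ws (tt 4 210) 1 80 ≤ (16031455499 / 5000000000 : ℝ) := by
  have h0 := uw4a
  linarith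

theorem up4B : ws (tt 4 210) 80 560 ≤ (887271089 / 2000000000 : ℝ) := by
  have e0 := ws_add (tt 4 210) (x := 80) (y := 400) (z := 560) (by norm_num) (by norm_num)
  have h0 := uw4b
  have h1 := uw4c
  linarith

theorem up4C : ws (tt 4 30) 400 2000 ≤ (833518329 / 10000000000 : ℝ) := by
  have e0 := ws_add (tt 4 30) (x := 400) (y := 560) (z := 2000) (by norm_num) (by norm_num)
  have e1 := ws_add (tt 4 30) (x := 560) (y := 1000) (z := 2000) (by norm_num) (by norm_num)
  have e2 := ws_add (tt 4 30) (x := 1000) (y := 1500) (z := 2000) (by norm_num) (by norm_num)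
  have h0 := uw4d
  have h1 := uw4e
  have h2 := uw4f1
  have h3 := uw4f2
  linarith

theorem up4D : ws (tt 4 30) 560 2000 ≤ (1781713 / 31250000 : ℝ) := by
  have e0 := ws_add (tt 4 30) (x := 560) (y := 1000) (z := 2000) (by norm_num) (by norm_num)
  have e1 := ws_add (tt 4 30) (x := 1000) (y := 1500) (z := 2000) (by norm_num) (by norm_num)
  have h0 := uw4e
  have h1 := uw4f1
  have h2 := uw4f2
  linarith

theorem up4E : ws (tt 4 6) 2000 19683 ≤ (9449539 / 1000000000 : ℝ) := by
  have e0 := ws_add (tt 4 6) (x := 2000) (y := 6561) (z := 19683) (by norm_num) (by norm_num)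
  have h0 := uw4g
  have h1 := uw4h
  linarith

theorem up4F : ws (tt 4 6) 6561 19683 ≤ (23726747 / 10000000000 : ℝ) := by
  have h0 := uw4h
  linarith

theorem upper4 (c : ℝ) (hc : Tendsto (fun n : ℕ => (gk 4 n : ℝ) / n) atTop (𝓝 c)) : c < 0.8756 := by
  have h := upper_aux 4 c hc 80 400 6561 (by norm_num) (by norm_num) (by norm_num) _ _ _ _ _ _ up4A up4B up4C up4D up4E up4F
  norm_num at h ⊢
  linarith

end Pool.Agent.H36.KW
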