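import Pool.Agent.H36.KW.Ma7
import Pool.Agent.H36.KW.Chunk

/-!
# KW Up5a: bounds for the largest 5-multiple-free sets of 7-smooth numbers
-/

set_option autoImplicit false
set_option maxRecDepth 100000

namespace Pool.Agent.H36.KW

open Pool.Agent.H96.KMF Pool.Agent.H36.K3

def u5a_0 : List (ℕ × ℕ × ℕ) :=
  [
    (2, 1, 0x0),
    (3, 2, 0x0),
    (4, 3, 0x0),
    (5, 4, 0x0),
    (6, 5, 0x00),
    (7, 6, 0x00),
    (8, 7, 0x00),
    (9, 8, 0x00),
    (10, 9, 0x000),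
    (14, 10, 0x001),
    (15, 11, 0x001),
    (16, 12, 0x0001),
    (18, 13, 0x0001),
    (20, 14, 0x0001),
    (21, 15, 0x0001),
    (25, 16, 0x00005),
    (27, 17, 0x00005),
    (28, 18, 0x00005),
    (32, 19, 0x000023),
    (35, 20, 0x000043),
    (40, 21, 0x0000047),
    (42, 22, 0x0000047),
    (45, 23, 0x0000047),
    (49, 24, 0x0000004f),
    (50, 25, 0x0000004f),
    (54, 26, 0x0000004f),
    (56, 27, 0x0000004f),
    (63, 28, 0x00001004f),
    (64, 29, 0x00001004f),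
    (75, 30, 0x000004038f),
    (80, 31, 0x000004038f)]

theorem uk5a_0 : ctabR 5 ma7 1 u5a_0 = true := by decide +kernel

def uc5a_0 : List (ℕ × ℕ) := [(2, 1), (3, 2), (4, 3), (5, 4), (6, 5), (7, 6), (8, 7), (9, 8), (10, 9), (14, 10), (15, 11), (16, 12), (18, 13), (20, 14), (21, 15), (25, 16), (27, 17), (28, 18), (32, 19), (35, 20), (40, 21), (42, 22), (45, 23), (49, 24), (50, 25), (54, 26), (56, 27), (63, 28), (64, 29), (75, 30), (80, 31)]

theorem ul5a_0 : ChU (tt 5 210) 1 uc5a_0 :=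
  (chu_of_ctabR (N := 1399) (by norm_num) (by norm_num) cov_ma7 ord_ma7 u5a_0 1 (by decide +kernel) uk5a_0)

theorem us5a : lst 1 uc5a_0 = 80 := by decide +kernel

theorem ut5a : tel 1 uc5a_0 ≤ (6520915533 / 2000000000 : ℚ) := by decide +kernel

theorem uw5a : ws (tt 5 210) 1 80 ≤ (6520915533 / 2000000000 : ℝ) := by
  have h2 := (ws_le_tel _ _ 1 (by norm_num) ul5a_0).2
  rw [us5a] at h2
  have h4 : _ ≤ ((6520915533 / 2000000000 : ℚ) : ℝ) := Rat.cast_le.2 ut5a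
  rw [show ((6520915533 / 2000000000 : ℚ) : ℝ) = (6520915533 / 2000000000 : ℝ) by norm_num] at h4
  exact h2.trans h4

def u5b_0 : List (ℕ × ℕ × ℕ) :=
  [
    (81, 32, 0x000004038f),
    (96, 33, 0x0010008238f),
    (98, 34, 0x0020010438f),
    (100, 35, 0x00020010438f),
    (105, 36, 0x00040010438f),
    (112, 37, 0x00080020638f),
    (125, 38, 0x0001000a0638f),
    (126, 39, 0x0002000a0638f),
    (128, 40, 0x0002000a0638f)]

theorem uk5b_0 : ctabR 5 ma7 80 u5b_0 = true := by decide +kernel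

def u5b_1 : List (ℕ × ℕ × ℕ) :=
  [
    (135, 41, 0x0000400140c70f),
    (147, 42, 0x0001000380c71f),
    (160, 43, 0x000020013804f1f),
    (162, 44, 0x000040023804f1f),
    (175, 45, 0x0000280047004f1f)]

theorem uk5b_1 : ctabR 5 ma7 128 u5b_1 = true := by decide +kernel

def u5b_2 : List (ℕ × ℕ × ℕ) :=
  [
    (180, 46, 0x0000280047004f1f),
    (189, 47, 0x0000500047014f0f),
    (196, 48, 0x00000a0008e028f1f),
    (200, 49, 0x00000a0008e028f1f)]

theorem uk5b_2 : ctabR 5 ma7 175 u5b_2 = true := by decide +kernel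

def u5b_3 : List (ℕ × ℕ × ℕ) :=
  [
    (225, 50, 0x00002180011c038f3f)]

theorem uk5b_3 : ctabR 5 ma7 200 u5b_3 = true := by decide +kernel

def u5b_4 : List (ℕ × ℕ × ℕ) :=
  [
    (240, 51, 0x00004300011c038f3f),
    (243, 52, 0x00008600013c038f1f)]

theorem uk5b_4 : ctabR 5 ma7 225 u5b_4 = true := by decide +kernel

def u5b_5 : List (ℕ × ℕ × ℕ) :=
  [
    (245, 53, 0x000010c000278038f1f),
    (250, 54, 0x000010c000278038f1f),
    (256, 55, 0x0000238000278038f1f)]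

theorem uk5b_5 : ctabR 5 ma7 243 u5b_5 = true := by decide +kernel

def u5b_6 : List (ℕ × ℕ × ℕ) :=
  [
    (294, 56, 0x000011c00019e0433e3f)]

theorem uk5b_6 : ctabR 5 ma7 256 u5b_6 = true := by decide +kernel

def u5b_7 : List (ℕ × ℕ × ℕ) :=
  [
    (315, 57, 0x0000023802019e0433e3f)]

theorem uk5b_7 : ctabR 5 ma7 294 u5b_7 = true := by decide +kernel

def u5b_8 : List (ℕ × ℕ × ℕ) :=
  [
    (320, 58, 0x0000023802019e0433e3f)]

theorem uk5b_8 : ctabR 5 ma7 315 u5b_8 = true := by decide +kernel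

def u5b_9 : List (ℕ × ℕ × ℕ) :=
  [
    (324, 59, 0x0000047004031e0433e3f)]

theorem uk5b_9 : ctabR 5 ma7 320 u5b_9 = true := by decide +kernel

def u5b_10 : List (ℕ × ℕ × ℕ) :=
  [
    (343, 60, 0x0000009e008023c0473e3f)]

theorem uk5b_10 : ctabR 5 ma7 324 u5b_10 = true := by decide +kernel

def u5b_11 : List (ℕ × ℕ × ℕ) :=
  [
    (360, 61, 0x0000009e0080a3c0473e3f)]

theorem uk5b_11 : ctabR 5 ma7 343 u5b_11 = true := by decide +kernel

def u5b_12 : List (ℕ × ℕ × ℕ) :=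
  [
    (375, 62, 0x00000013c0100e3c0473e1f)]

theorem uk5b_12 : ctabR 5 ma7 360 u5b_12 = true := by decide +kernel

def u5b_13 : List (ℕ × ℕ × ℕ) :=
  [
    (384, 63, 0x0000002780100e3c0473e3f)]

theorem uk5b_13 : ctabR 5 ma7 375 u5b_13 = true := by decide +kernel

def u5b_14 : List (ℕ × ℕ × ℕ) :=
  [
    (392, 64, 0x0000004f00201c7808e3e3f)]

theorem uk5b_14 : ctabR 5 ma7 384 u5b_14 = true := by decide +kernel

def u5b_15 : List (ℕ × ℕ × ℕ) :=
  [
    (400, 65, 0x00000004f00201c7808e3e3f)]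

theorem uk5b_15 : ctabR 5 ma7 392 u5b_15 = true := by decide +kernel

def uc5b_15 : List (ℕ × ℕ) := [(400, 65)]

theorem ul5b_15 : ChU (tt 5 210) 392 uc5b_15 :=
  (chu_of_ctabR (N := 1399) (by norm_num) (by norm_num) cov_ma7 ord_ma7 u5b_15 392 (by decide +kernel) uk5b_15)

def uc5b_14 : List (ℕ × ℕ) := [(392, 64)] ++ uc5b_15

theorem ul5b_14 : ChU (tt 5 210) 384 uc5b_14 :=
  chu_append ul5b_15 [(392, 64)] 384 (by decide +kernel)
    (chu_of_ctabR (N := 1399) (by norm_num) (by norm_num) cov_ma7 ord_ma7 u5b_14 384 (by decide +kernel) uk5b_14)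

def uc5b_13 : List (ℕ × ℕ) := [(384, 63)] ++ uc5b_14

theorem ul5b_13 : ChU (tt 5 210) 375 uc5b_13 :=
  chu_append ul5b_14 [(384, 63)] 375 (by decide +kernel)
    (chu_of_ctabR (N := 1399) (by norm_num) (by norm_num) cov_ma7 ord_ma7 u5b_13 375 (by decide +kernel) uk5b_13)

def uc5b_12 : List (ℕ × ℕ) := [(375, 62)] ++ uc5b_13

theorem ul5b_12 : ChU (tt 5 210) 360 uc5b_12 :=
  chu_append ul5b_13 [(375, 62)] 360 (by decide +kernel)
    (chu_of_ctabR (N := 1399) (by norm_num) (by norm_num) cov_ma7 ord_ma7 u5b_12 360 (by decide +kernel) uk5b_12)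

def uc5b_11 : List (ℕ × ℕ) := [(360, 61)] ++ uc5b_12

theorem ul5b_11 : ChU (tt 5 210) 343 uc5b_11 :=
  chu_append ul5b_12 [(360, 61)] 343 (by decide +kernel)
    (chu_of_ctabR (N := 1399) (by norm_num) (by norm_num) cov_ma7 ord_ma7 u5b_11 343 (by decide +kernel) uk5b_11)

def uc5b_10 : List (ℕ × ℕ) := [(343, 60)] ++ uc5b_11

theorem ul5b_10 : ChU (tt 5 210) 324 uc5b_10 :=
  chu_append ul5b_11 [(343, 60)] 324 (by decide +kernel)
    (chu_of_ctabR (N := 1399) (by norm_num) (by norm_num) cov_ma7 ord_ma7 u5b_10 324 (by decide +kernel) uk5b_10)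

def uc5b_9 : List (ℕ × ℕ) := [(324, 59)] ++ uc5b_10

theorem ul5b_9 : ChU (tt 5 210) 320 uc5b_9 :=
  chu_append ul5b_10 [(324, 59)] 320 (by decide +kernel)
    (chu_of_ctabR (N := 1399) (by norm_num) (by norm_num) cov_ma7 ord_ma7 u5b_9 320 (by decide +kernel) uk5b_9)

def uc5b_8 : List (ℕ × ℕ) := [(320, 58)] ++ uc5b_9

theorem ul5b_8 : ChU (tt 5 210) 315 uc5b_8 :=
  chu_append ul5b_9 [(320, 58)] 315 (by decide +kernel)
    (chu_of_ctabR (N := 1399) (by norm_num) (by norm_num) cov_ma7 ord_ma7 u5b_8 315 (by decide +kernel) uk5b_8)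

def uc5b_7 : List (ℕ × ℕ) := [(315, 57)] ++ uc5b_8

theorem ul5b_7 : ChU (tt 5 210) 294 uc5b_7 :=
  chu_append ul5b_8 [(315, 57)] 294 (by decide +kernel)
    (chu_of_ctabR (N := 1399) (by norm_num) (by norm_num) cov_ma7 ord_ma7 u5b_7 294 (by decide +kernel) uk5b_7)

def uc5b_6 : List (ℕ × ℕ) := [(294, 56)] ++ uc5b_7

theorem ul5b_6 : ChU (tt 5 210) 256 uc5b_6 :=
  chu_append ul5b_7 [(294, 56)] 256 (by decide +kernel)
    (chu_of_ctabR (N := 1399) (by norm_num) (by norm_num) cov_ma7 ord_ma7 u5b_6 256 (by decide +kernel) uk5b_6)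

def uc5b_5 : List (ℕ × ℕ) := [(245, 53), (250, 54), (256, 55)] ++ uc5b_6

theorem ul5b_5 : ChU (tt 5 210) 243 uc5b_5 :=
  chu_append ul5b_6 [(245, 53), (250, 54), (256, 55)] 243 (by decide +kernel)
    (chu_of_ctabR (N := 1399) (by norm_num) (by norm_num) cov_ma7 ord_ma7 u5b_5 243 (by decide +kernel) uk5b_5)

def uc5b_4 : List (ℕ × ℕ) := [(240, 51), (243, 52)] ++ uc5b_5

theorem ul5b_4 : ChU (tt 5 210) 225 uc5b_4 :=
  chu_append ul5b_5 [(240, 51), (243, 52)] 225 (by decide +kernel)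
    (chu_of_ctabR (N := 1399) (by norm_num) (by norm_num) cov_ma7 ord_ma7 u5b_4 225 (by decide +kernel) uk5b_4)

def uc5b_3 : List (ℕ × ℕ) := [(225, 50)] ++ uc5b_4

theorem ul5b_3 : ChU (tt 5 210) 200 uc5b_3 :=
  chu_append ul5b_4 [(225, 50)] 200 (by decide +kernel)
    (chu_of_ctabR (N := 1399) (by norm_num) (by norm_num) cov_ma7 ord_ma7 u5b_3 200 (by decide +kernel) uk5b_3)

def uc5b_2 : List (ℕ × ℕ) := [(180, 46), (189, 47), (196, 48), (200, 49)] ++ uc5b_3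

theorem ul5b_2 : ChU (tt 5 210) 175 uc5b_2 :=
  chu_append ul5b_3 [(180, 46), (189, 47), (196, 48), (200, 49)] 175 (by decide +kernel)
    (chu_of_ctabR (N := 1399) (by norm_num) (by norm_num) cov_ma7 ord_ma7 u5b_2 175 (by decide +kernel) uk5b_2)

def uc5b_1 : List (ℕ × ℕ) := [(135, 41), (147, 42), (160, 43), (162, 44), (175, 45)] ++ uc5b_2

theorem ul5b_1 : ChU (tt 5 210) 128 uc5b_1 :=
  chu_append ul5b_2 [(135, 41), (147, 42), (160, 43), (162, 44), (175, 45)] 128 (by decide +kernel)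
    (chu_of_ctabR (N := 1399) (by norm_num) (by norm_num) cov_ma7 ord_ma7 u5b_1 128 (by decide +kernel) uk5b_1)

def uc5b_0 : List (ℕ × ℕ) := [(81, 32), (96, 33), (98, 34), (100, 35), (105, 36), (112, 37), (125, 38), (126, 39), (128, 40)] ++ uc5b_1

theorem ul5b_0 : ChU (tt 5 210) 80 uc5b_0 :=
  chu_append ul5b_1 [(81, 32), (96, 33), (98, 34), (100, 35), (105, 36), (112, 37), (125, 38), (126, 39), (128, 40)] 80 (by decide +kernel)
    (chu_of_ctabR (N := 1399) (by norm_num) (by norm_num) cov_ma7 ord_ma7 u5b_0 80 (by decide +kernel) uk5b_0)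

theorem us5b : lst 80 uc5b_0 = 400 := by decide +kernel

theorem ut5b : tel 80 uc5b_0 ≤ (2134901793 / 5000000000 : ℚ) := by decide +kernel

theorem uw5b : ws (tt 5 210) 80 400 ≤ (2134901793 / 5000000000 : ℝ) := by
  have h2 := (ws_le_tel _ _ 80 (by norm_num) ul5b_0).2
  rw [us5b] at h2
  have h4 : _ ≤ ((2134901793 / 5000000000 : ℚ) : ℝ) := Rat.cast_le.2 ut5b
  rw [show ((2134901793 / 5000000000 : ℚ) : ℝ) = (2134901793 / 5000000000 : ℝ) by norm_num] at h4
  exact h2.trans h4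

end Pool.Agent.H36.KW
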