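import Pool.Agent.H36.KW.Ma7
import Pool.Agent.H36.KW.Chunk

/-!
# KW Up5b: bounds for the largest 5-multiple-free sets of 7-smooth numbers
-/

set_option autoImplicit false
set_option maxRecDepth 100000

namespace Pool.Agent.H36.KW

open Pool.Agent.H96.KMF Pool.Agent.H36.K3

def u5c_0 : List (ℕ × ℕ × ℕ) :=
  [
    (405, 65, 0x00000009e00201c7809e3e3f)]

theorem uk5c_0 : ctabR 5 ma7 400 u5c_0 = true := by decide +kernel

def u5c_1 : List (ℕ × ℕ × ℕ) :=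
  [
    (432, 66, 0x00004013c00401c7809e3e3f)]

theorem uk5c_1 : ctabR 5 ma7 405 u5c_1 = true := by decide +kernel

def u5c_2 : List (ℕ × ℕ × ℕ) :=
  [
    (441, 67, 0x0000080278008038f009e3e3f)]

theorem uk5c_2 : ctabR 5 ma7 432 u5c_2 = true := by decide +kernel

def u5c_3 : List (ℕ × ℕ × ℕ) :=
  [
    (448, 68, 0x0000080278008038f009e3e3f)]

theorem uk5c_3 : ctabR 5 ma7 441 u5c_3 = true := by decide +kernel

def u5c_4 : List (ℕ × ℕ × ℕ) :=
  [
    (486, 69, 0x000004011e0010438f009e7e3f)]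

theorem uk5c_4 : ctabR 5 ma7 448 u5c_4 = true := by decide +kernel

def u5c_5 : List (ℕ × ℕ × ℕ) :=
  [
    (500, 70, 0x0000080a3c0020855e009e7e3f)]

theorem uk5c_5 : ctabR 5 ma7 486 u5c_5 = true := by decide +kernel

def u5c_6 : List (ℕ × ℕ × ℕ) :=
  [
    (512, 71, 0x00000201c780020871e009e7e3f)]

theorem uk5c_6 : ctabR 5 ma7 500 u5c_6 = true := by decide +kernel

def u5c_7 : List (ℕ × ℕ × ℕ) :=
  [
    (525, 72, 0x000004038f000410e3c013cfc3f)]

theorem uk5c_7 : ctabR 5 ma7 512 u5c_7 = true := by decide +kernel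

def u5c_8 : List (ℕ × ℕ × ℕ) :=
  [
    (560, 73, 0x000008071e000818e3c013cfc3f)]

theorem uk5c_8 : ctabR 5 ma7 525 u5c_8 = true := by decide +kernel

def uc5c_8 : List (ℕ × ℕ) := [(560, 73)]

theorem ul5c_8 : ChU (tt 5 210) 525 uc5c_8 :=
  (chu_of_ctabR (N := 1399) (by norm_num) (by norm_num) cov_ma7 ord_ma7 u5c_8 525 (by decide +kernel) uk5c_8)

def uc5c_7 : List (ℕ × ℕ) := [(525, 72)] ++ uc5c_8

theorem ul5c_7 : ChU (tt 5 210) 512 uc5c_7 :=
  chu_append ul5c_8 [(525, 72)] 512 (by decide +kernel)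
    (chu_of_ctabR (N := 1399) (by norm_num) (by norm_num) cov_ma7 ord_ma7 u5c_7 512 (by decide +kernel) uk5c_7)

def uc5c_6 : List (ℕ × ℕ) := [(512, 71)] ++ uc5c_7

theorem ul5c_6 : ChU (tt 5 210) 500 uc5c_6 :=
  chu_append ul5c_7 [(512, 71)] 500 (by decide +kernel)
    (chu_of_ctabR (N := 1399) (by norm_num) (by norm_num) cov_ma7 ord_ma7 u5c_6 500 (by decide +kernel) uk5c_6)

def uc5c_5 : List (ℕ × ℕ) := [(500, 70)] ++ uc5c_6

theorem ul5c_5 : ChU (tt 5 210) 486 uc5c_5 :=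
  chu_append ul5c_6 [(500, 70)] 486 (by decide +kernel)
    (chu_of_ctabR (N := 1399) (by norm_num) (by norm_num) cov_ma7 ord_ma7 u5c_5 486 (by decide +kernel) uk5c_5)

def uc5c_4 : List (ℕ × ℕ) := [(486, 69)] ++ uc5c_5

theorem ul5c_4 : ChU (tt 5 210) 448 uc5c_4 :=
  chu_append ul5c_5 [(486, 69)] 448 (by decide +kernel)
    (chu_of_ctabR (N := 1399) (by norm_num) (by norm_num) cov_ma7 ord_ma7 u5c_4 448 (by decide +kernel) uk5c_4)

def uc5c_3 : List (ℕ × ℕ) := [(448, 68)] ++ uc5c_4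

theorem ul5c_3 : ChU (tt 5 210) 441 uc5c_3 :=
  chu_append ul5c_4 [(448, 68)] 441 (by decide +kernel)
    (chu_of_ctabR (N := 1399) (by norm_num) (by norm_num) cov_ma7 ord_ma7 u5c_3 441 (by decide +kernel) uk5c_3)

def uc5c_2 : List (ℕ × ℕ) := [(441, 67)] ++ uc5c_3

theorem ul5c_2 : ChU (tt 5 210) 432 uc5c_2 :=
  chu_append ul5c_3 [(441, 67)] 432 (by decide +kernel)
    (chu_of_ctabR (N := 1399) (by norm_num) (by norm_num) cov_ma7 ord_ma7 u5c_2 432 (by decide +kernel) uk5c_2)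

def uc5c_1 : List (ℕ × ℕ) := [(432, 66)] ++ uc5c_2

theorem ul5c_1 : ChU (tt 5 210) 405 uc5c_1 :=
  chu_append ul5c_2 [(432, 66)] 405 (by decide +kernel)
    (chu_of_ctabR (N := 1399) (by norm_num) (by norm_num) cov_ma7 ord_ma7 u5c_1 405 (by decide +kernel) uk5c_1)

def uc5c_0 : List (ℕ × ℕ) := [(405, 65)] ++ uc5c_1

theorem ul5c_0 : ChU (tt 5 210) 400 uc5c_0 :=
  chu_append ul5c_1 [(405, 65)] 400 (by decide +kernel)
    (chu_of_ctabR (N := 1399) (by norm_num) (by norm_num) cov_ma7 ord_ma7 u5c_0 400 (by decide +kernel) uk5c_0)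

theorem us5c : lst 400 uc5c_0 = 560 := by decide +kernel

theorem ut5c : tel 400 uc5c_0 ≤ (123355061 / 2500000000 : ℚ) := by decide +kernel

theorem uw5c : ws (tt 5 210) 400 560 ≤ (123355061 / 2500000000 : ℝ) := by
  have h2 := (ws_le_tel _ _ 400 (by norm_num) ul5c_0).2
  rw [us5c] at h2
  have h4 : _ ≤ ((123355061 / 2500000000 : ℚ) : ℝ) := Rat.cast_le.2 ut5c
  rw [show ((123355061 / 2500000000 : ℚ) : ℝ) = (123355061 / 2500000000 : ℝ) by norm_num] at h4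
  exact h2.trans h4

end Pool.Agent.H36.KW
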