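import Pool.Agent.H36.KW.Ma5
import Pool.Agent.H36.KW.Chunk

/-!
# KW Up5c: bounds for the largest 5-multiple-free sets of 5-smooth numbers
-/

set_option autoImplicit false
set_option maxRecDepth 100000

namespace Pool.Agent.H36.KW

open Pool.Agent.H96.KMF Pool.Agent.H36.K3

def u5d_0 : List (ℕ × ℕ × ℕ) :=
  [
    (405, 38, 0x0002014f808e3e3f)]

theorem uk5d_0 : ctabR 5 ma5 400 u5d_0 = true := by decide +kernel

def u5d_1 : List (ℕ × ℕ × ℕ) :=
  [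
    (486, 39, 0x0001042af009e7e3f)]

theorem uk5d_1 : ctabR 5 ma5 405 u5d_1 = true := by decide +kernel

def u5d_2 : List (ℕ × ℕ × ℕ) :=
  [
    (500, 40, 0x00020855e009e7e3f)]

theorem uk5d_2 : ctabR 5 ma5 486 u5d_2 = true := by decide +kernel

def u5d_3 : List (ℕ × ℕ × ℕ) :=
  [
    (512, 41, 0x00020871e009e7e3f)]

theorem uk5d_3 : ctabR 5 ma5 500 u5d_3 = true := by decide +kernel

def u5d_4 : List (ℕ × ℕ × ℕ) :=
  [
    (560, 42, 0x0000818e3c013cfc3f)]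

theorem uk5d_4 : ctabR 5 ma5 512 u5d_4 = true := by decide +kernel

def uc5d_4 : List (ℕ × ℕ) := [(560, 42)]

theorem ul5d_4 : ChU (tt 5 30) 512 uc5d_4 :=
  (chu_of_ctabR (N := 4999) (by norm_num) (by norm_num) cov_ma5 ord_ma5 u5d_4 512 (by decide +kernel) uk5d_4)

def uc5d_3 : List (ℕ × ℕ) := [(512, 41)] ++ uc5d_4

theorem ul5d_3 : ChU (tt 5 30) 500 uc5d_3 :=
  chu_append ul5d_4 [(512, 41)] 500 (by decide +kernel)
    (chu_of_ctabR (N := 4999) (by norm_num) (by norm_num) cov_ma5 ord_ma5 u5d_3 500 (by decide +kernel) uk5d_3)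

def uc5d_2 : List (ℕ × ℕ) := [(500, 40)] ++ uc5d_3

theorem ul5d_2 : ChU (tt 5 30) 486 uc5d_2 :=
  chu_append ul5d_3 [(500, 40)] 486 (by decide +kernel)
    (chu_of_ctabR (N := 4999) (by norm_num) (by norm_num) cov_ma5 ord_ma5 u5d_2 486 (by decide +kernel) uk5d_2)

def uc5d_1 : List (ℕ × ℕ) := [(486, 39)] ++ uc5d_2

theorem ul5d_1 : ChU (tt 5 30) 405 uc5d_1 :=
  chu_append ul5d_2 [(486, 39)] 405 (by decide +kernel)
    (chu_of_ctabR (N := 4999) (by norm_num) (by norm_num) cov_ma5 ord_ma5 u5d_1 405 (by decide +kernel) uk5d_1)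

def uc5d_0 : List (ℕ × ℕ) := [(405, 38)] ++ uc5d_1

theorem ul5d_0 : ChU (tt 5 30) 400 uc5d_0 :=
  chu_append ul5d_1 [(405, 38)] 400 (by decide +kernel)
    (chu_of_ctabR (N := 4999) (by norm_num) (by norm_num) cov_ma5 ord_ma5 u5d_0 400 (by decide +kernel) uk5d_0)

theorem us5d : lst 400 uc5d_0 = 560 := by decide +kernel

theorem ut5d : tel 400 uc5d_0 ≤ (14239937 / 500000000 : ℚ) := by decide +kernel

theorem uw5d : ws (tt 5 30) 400 560 ≤ (14239937 / 500000000 : ℝ) := by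
  have h2 := (ws_le_tel _ _ 400 (by norm_num) ul5d_0).2
  rw [us5d] at h2
  have h4 : _ ≤ ((14239937 / 500000000 : ℚ) : ℝ) := Rat.cast_le.2 ut5d
  rw [show ((14239937 / 500000000 : ℚ) : ℝ) = (14239937 / 500000000 : ℝ) by norm_num] at h4
  exact h2.trans h4

def u5e_0 : List (ℕ × ℕ × ℕ) :=
  [
    (576, 42, 0x0000818e3c013cfc3f)]

theorem uk5e_0 : ctabR 5 ma5 560 u5e_0 = true := by decide +kernel

def u5e_1 : List (ℕ × ℕ × ℕ) :=
  [
    (625, 43, 0x0005031c78023cfc3f)]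

theorem uk5e_1 : ctabR 5 ma5 576 u5e_1 = true := by decide +kernel

def u5e_2 : List (ℕ × ℕ × ℕ) :=
  [
    (675, 44, 0x000140c70f00a3cfc7f)]

theorem uk5e_2 : ctabR 5 ma5 625 u5e_2 = true := by decide +kernel

def u5e_3 : List (ℕ × ℕ × ℕ) :=
  [
    (729, 45, 0x000280c71f00a3cfc7f)]

theorem uk5e_3 : ctabR 5 ma5 675 u5e_3 = true := by decide +kernel

def u5e_4 : List (ℕ × ℕ × ℕ) :=
  [
    (750, 46, 0x00005018e3e00a3cfc7f)]

theorem uk5e_4 : ctabR 5 ma5 729 u5e_4 = true := by decide +kernel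

def u5e_5 : List (ℕ × ℕ × ℕ) :=
  [
    (800, 47, 0x00046013c7c014787cff)]

theorem uk5e_5 : ctabR 5 ma5 750 u5e_5 = true := by decide +kernel

def u5e_6 : List (ℕ × ℕ × ℕ) :=
  [
    (1000, 48, 0x00008e008f1f031c79fc7f)]

theorem uk5e_6 : ctabR 5 ma5 800 u5e_6 = true := by decide +kernel

def uc5e_6 : List (ℕ × ℕ) := [(1000, 48)]

theorem ul5e_6 : ChU (tt 5 30) 800 uc5e_6 :=
  (chu_of_ctabR (N := 4999) (by norm_num) (by norm_num) cov_ma5 ord_ma5 u5e_6 800 (by decide +kernel) uk5e_6)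

def uc5e_5 : List (ℕ × ℕ) := [(800, 47)] ++ uc5e_6

theorem ul5e_5 : ChU (tt 5 30) 750 uc5e_5 :=
  chu_append ul5e_6 [(800, 47)] 750 (by decide +kernel)
    (chu_of_ctabR (N := 4999) (by norm_num) (by norm_num) cov_ma5 ord_ma5 u5e_5 750 (by decide +kernel) uk5e_5)

def uc5e_4 : List (ℕ × ℕ) := [(750, 46)] ++ uc5e_5

theorem ul5e_4 : ChU (tt 5 30) 729 uc5e_4 :=
  chu_append ul5e_5 [(750, 46)] 729 (by decide +kernel)
    (chu_of_ctabR (N := 4999) (by norm_num) (by norm_num) cov_ma5 ord_ma5 u5e_4 729 (by decide +kernel) uk5e_4)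

def uc5e_3 : List (ℕ × ℕ) := [(729, 45)] ++ uc5e_4

theorem ul5e_3 : ChU (tt 5 30) 675 uc5e_3 :=
  chu_append ul5e_4 [(729, 45)] 675 (by decide +kernel)
    (chu_of_ctabR (N := 4999) (by norm_num) (by norm_num) cov_ma5 ord_ma5 u5e_3 675 (by decide +kernel) uk5e_3)

def uc5e_2 : List (ℕ × ℕ) := [(675, 44)] ++ uc5e_3

theorem ul5e_2 : ChU (tt 5 30) 625 uc5e_2 :=
  chu_append ul5e_3 [(675, 44)] 625 (by decide +kernel)
    (chu_of_ctabR (N := 4999) (by norm_num) (by norm_num) cov_ma5 ord_ma5 u5e_2 625 (by decide +kernel) uk5e_2)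

def uc5e_1 : List (ℕ × ℕ) := [(625, 43)] ++ uc5e_2

theorem ul5e_1 : ChU (tt 5 30) 576 uc5e_1 :=
  chu_append ul5e_2 [(625, 43)] 576 (by decide +kernel)
    (chu_of_ctabR (N := 4999) (by norm_num) (by norm_num) cov_ma5 ord_ma5 u5e_1 576 (by decide +kernel) uk5e_1)

def uc5e_0 : List (ℕ × ℕ) := [(576, 42)] ++ uc5e_1

theorem ul5e_0 : ChU (tt 5 30) 560 uc5e_0 :=
  chu_append ul5e_1 [(576, 42)] 560 (by decide +kernel)
    (chu_of_ctabR (N := 4999) (by norm_num) (by norm_num) cov_ma5 ord_ma5 u5e_0 560 (by decide +kernel) uk5e_0)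

theorem us5e : lst 560 uc5e_0 = 1000 := by decide +kernel

theorem ut5e : tel 560 uc5e_0 ≤ (357726681 / 10000000000 : ℚ) := by decide +kernel

theorem uw5e : ws (tt 5 30) 560 1000 ≤ (357726681 / 10000000000 : ℝ) := by
  have h2 := (ws_le_tel _ _ 560 (by norm_num) ul5e_0).2
  rw [us5e] at h2
  have h4 : _ ≤ ((357726681 / 10000000000 : ℚ) : ℝ) := Rat.cast_le.2 ut5e
  rw [show ((357726681 / 10000000000 : ℚ) : ℝ) = (357726681 / 10000000000 : ℝ) by norm_num] at h4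
  exact h2.trans h4

end Pool.Agent.H36.KW
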