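import Pool.Agent.H36.KW.Ma5
import Pool.Agent.H36.KW.Chunk

/-!
# KW Up5d1: bounds for the largest 5-multiple-free sets of 5-smooth numbers
-/

set_option autoImplicit false
set_option maxRecDepth 100000

namespace Pool.Agent.H36.KW

open Pool.Agent.H96.KMF Pool.Agent.H36.K3

def u5f1_0 : List (ℕ × ℕ × ℕ) :=
  [
    (1024, 49, 0x00008e028f1f011cf8fc7f)]

theorem uk5f1_0 : ctabR 5 ma5 1000 u5f1_0 = true := by decide +kernel

def u5f1_1 : List (ℕ × ℕ × ℕ) :=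
  [
    (1125, 50, 0x000238071e3e0239f0f8ff)]

theorem uk5f1_1 : ctabR 5 ma5 1024 u5f1_1 = true := by decide +kernel

def u5f1_2 : List (ℕ × ℕ × ℕ) :=
  [
    (1215, 51, 0x00004f00e3c7c0471f1f8ff)]

theorem uk5f1_2 : ctabR 5 ma5 1125 u5f1_2 = true := by decide +kernel

def u5f1_3 : List (ℕ × ℕ × ℕ) :=
  [
    (1250, 52, 0x00009e00e3c7c0471f1f8ff)]

theorem uk5f1_3 : ctabR 5 ma5 1215 u5f1_3 = true := by decide +kernel

def u5f1_4 : List (ℕ × ℕ × ℕ) :=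
  [
    (1350, 53, 0x0000278038f0f804f1f1f9ff)]

theorem uk5f1_4 : ctabR 5 ma5 1250 u5f1_4 = true := by decide +kernel

def u5f1_5 : List (ℕ × ℕ × ℕ) :=
  [
    (1458, 54, 0x000004f0219f1f804f1f1f8ff)]

theorem uk5f1_5 : ctabR 5 ma5 1350 u5f1_5 = true := by decide +kernel

def u5f1_6 : List (ℕ × ℕ × ℕ) :=
  [
    (1500, 55, 0x000009e0433e3f004f1f1f8ff)]

theorem uk5f1_6 : ctabR 5 ma5 1458 u5f1_6 = true := by decide +kernel

def uc5f1_6 : List (ℕ × ℕ) := [(1500, 55)]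

theorem ul5f1_6 : ChU (tt 5 30) 1458 uc5f1_6 :=
  (chu_of_ctabR (N := 4999) (by norm_num) (by norm_num) cov_ma5 ord_ma5 u5f1_6 1458 (by decide +kernel) uk5f1_6)

def uc5f1_5 : List (ℕ × ℕ) := [(1458, 54)] ++ uc5f1_6

theorem ul5f1_5 : ChU (tt 5 30) 1350 uc5f1_5 :=
  chu_append ul5f1_6 [(1458, 54)] 1350 (by decide +kernel)
    (chu_of_ctabR (N := 4999) (by norm_num) (by norm_num) cov_ma5 ord_ma5 u5f1_5 1350 (by decide +kernel) uk5f1_5)

def uc5f1_4 : List (ℕ × ℕ) := [(1350, 53)] ++ uc5f1_5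

theorem ul5f1_4 : ChU (tt 5 30) 1250 uc5f1_4 :=
  chu_append ul5f1_5 [(1350, 53)] 1250 (by decide +kernel)
    (chu_of_ctabR (N := 4999) (by norm_num) (by norm_num) cov_ma5 ord_ma5 u5f1_4 1250 (by decide +kernel) uk5f1_4)

def uc5f1_3 : List (ℕ × ℕ) := [(1250, 52)] ++ uc5f1_4

theorem ul5f1_3 : ChU (tt 5 30) 1215 uc5f1_3 :=
  chu_append ul5f1_4 [(1250, 52)] 1215 (by decide +kernel)
    (chu_of_ctabR (N := 4999) (by norm_num) (by norm_num) cov_ma5 ord_ma5 u5f1_3 1215 (by decide +kernel) uk5f1_3)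

def uc5f1_2 : List (ℕ × ℕ) := [(1215, 51)] ++ uc5f1_3

theorem ul5f1_2 : ChU (tt 5 30) 1125 uc5f1_2 :=
  chu_append ul5f1_3 [(1215, 51)] 1125 (by decide +kernel)
    (chu_of_ctabR (N := 4999) (by norm_num) (by norm_num) cov_ma5 ord_ma5 u5f1_2 1125 (by decide +kernel) uk5f1_2)

def uc5f1_1 : List (ℕ × ℕ) := [(1125, 50)] ++ uc5f1_2

theorem ul5f1_1 : ChU (tt 5 30) 1024 uc5f1_1 :=
  chu_append ul5f1_2 [(1125, 50)] 1024 (by decide +kernel)
    (chu_of_ctabR (N := 4999) (by norm_num) (by norm_num) cov_ma5 ord_ma5 u5f1_1 1024 (by decide +kernel) uk5f1_1)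

def uc5f1_0 : List (ℕ × ℕ) := [(1024, 49)] ++ uc5f1_1

theorem ul5f1_0 : ChU (tt 5 30) 1000 uc5f1_0 :=
  chu_append ul5f1_1 [(1024, 49)] 1000 (by decide +kernel)
    (chu_of_ctabR (N := 4999) (by norm_num) (by norm_num) cov_ma5 ord_ma5 u5f1_0 1000 (by decide +kernel) uk5f1_0)

theorem us5f1 : lst 1000 uc5f1_0 = 1500 := by decide +kernel

theorem ut5f1 : tel 1000 uc5f1_0 ≤ (86242209 / 5000000000 : ℚ) := by decide +kernel

theorem uw5f1 : ws (tt 5 30) 1000 1500 ≤ (86242209 / 5000000000 : ℝ) := by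
  have h2 := (ws_le_tel _ _ 1000 (by norm_num) ul5f1_0).2
  rw [us5f1] at h2
  have h4 : _ ≤ ((86242209 / 5000000000 : ℚ) : ℝ) := Rat.cast_le.2 ut5f1
  rw [show ((86242209 / 5000000000 : ℚ) : ℝ) = (86242209 / 5000000000 : ℝ) by norm_num] at h4
  exact h2.trans h4

end Pool.Agent.H36.KW
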