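import Pool.Agent.H36.KW.Ma5
import Pool.Agent.H36.KW.Chunk

/-!
# KW Up5d2: bounds for the largest 5-multiple-free sets of 5-smooth numbers
-/

set_option autoImplicit false
set_option maxRecDepth 100000

namespace Pool.Agent.H36.KW

open Pool.Agent.H96.KMF Pool.Agent.H36.K3

def u5f2_0 : List (ℕ × ℕ × ℕ) :=
  [
    (1600, 55, 0x004013c0867c7e009e3e1f9ff)]

theorem uk5f2_0 : ctabR 5 ma5 1500 u5f2_0 = true := by decide +kernel

def u5f2_1 : List (ℕ × ℕ × ℕ) :=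
  [
    (1728, 56, 0x0010047808e7c7e009e3e1f9ff)]

theorem uk5f2_1 : ctabR 5 ma5 1600 u5f2_1 = true := by decide +kernel

def u5f2_2 : List (ℕ × ℕ × ℕ) :=
  [
    (1875, 57, 0x004028f011cf8fc011e3e3f8ff)]

theorem uk5f2_2 : ctabR 5 ma5 1728 u5f2_2 = true := by decide +kernel

def u5f2_3 : List (ℕ × ℕ × ℕ) :=
  [
    (2000, 58, 0x00100a3c0471f1f8051e7e3f8ff)]

theorem uk5f2_3 : ctabR 5 ma5 1875 u5f2_3 = true := by decide +kernel

def uc5f2_3 : List (ℕ × ℕ) := [(2000, 58)]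

theorem ul5f2_3 : ChU (tt 5 30) 1875 uc5f2_3 :=
  (chu_of_ctabR (N := 4999) (by norm_num) (by norm_num) cov_ma5 ord_ma5 u5f2_3 1875 (by decide +kernel) uk5f2_3)

def uc5f2_2 : List (ℕ × ℕ) := [(1875, 57)] ++ uc5f2_3

theorem ul5f2_2 : ChU (tt 5 30) 1728 uc5f2_2 :=
  chu_append ul5f2_3 [(1875, 57)] 1728 (by decide +kernel)
    (chu_of_ctabR (N := 4999) (by norm_num) (by norm_num) cov_ma5 ord_ma5 u5f2_2 1728 (by decide +kernel) uk5f2_2)

def uc5f2_1 : List (ℕ × ℕ) := [(1728, 56)] ++ uc5f2_2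

theorem ul5f2_1 : ChU (tt 5 30) 1600 uc5f2_1 :=
  chu_append ul5f2_2 [(1728, 56)] 1600 (by decide +kernel)
    (chu_of_ctabR (N := 4999) (by norm_num) (by norm_num) cov_ma5 ord_ma5 u5f2_1 1600 (by decide +kernel) uk5f2_1)

def uc5f2_0 : List (ℕ × ℕ) := [(1600, 55)] ++ uc5f2_1

theorem ul5f2_0 : ChU (tt 5 30) 1500 uc5f2_0 :=
  chu_append ul5f2_1 [(1600, 55)] 1500 (by decide +kernel)
    (chu_of_ctabR (N := 4999) (by norm_num) (by norm_num) cov_ma5 ord_ma5 u5f2_0 1500 (by decide +kernel) uk5f2_0)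

theorem us5f2 : lst 1500 uc5f2_0 = 2000 := by decide +kernel

theorem ut5f2 : tel 1500 uc5f2_0 ≤ (47018519 / 5000000000 : ℚ) := by decide +kernel

theorem uw5f2 : ws (tt 5 30) 1500 2000 ≤ (47018519 / 5000000000 : ℝ) := by
  have h2 := (ws_le_tel _ _ 1500 (by norm_num) ul5f2_0).2
  rw [us5f2] at h2
  have h4 : _ ≤ ((47018519 / 5000000000 : ℚ) : ℝ) := Rat.cast_le.2 ut5f2
  rw [show ((47018519 / 5000000000 : ℚ) : ℝ) = (47018519 / 5000000000 : ℝ) by norm_num] at h4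
  exact h2.trans h4

end Pool.Agent.H36.KW
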