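import Pool.Agent.H36.KW.Ma3
import Pool.Agent.H36.KW.Chunk

/-!
# KW Up5e: bounds for the largest 5-multiple-free sets of 3-smooth numbers
-/

set_option autoImplicit false
set_option maxRecDepth 100000

namespace Pool.Agent.H36.KW

open Pool.Agent.H96.KMF Pool.Agent.H36.K3

def u5g_0 : List (ℕ × ℕ × ℕ) :=
  [
    (2048, 21, 0x0051e3e3f8ff),
    (2187, 22, 0x00a3c7c7f0ff)]

theorem uk5g_0 : ctabR 5 ma3 2000 u5g_0 = true := by decide +kernel

def u5g_1 : List (ℕ × ℕ × ℕ) :=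
  [
    (4096, 23, 0x004d2f2f8ff1ff)]

theorem uk5g_1 : ctabR 5 ma3 2187 u5g_1 = true := by decide +kernel

def u5g_2 : List (ℕ × ℕ × ℕ) :=
  [
    (4374, 24, 0x009a5e5f1fe1ff)]

theorem uk5g_2 : ctabR 5 ma3 4096 u5g_2 = true := by decide +kernel

def u5g_3 : List (ℕ × ℕ × ℕ) :=
  [
    (6561, 25, 0x001478f8fe1fe6ff)]

theorem uk5g_3 : ctabR 5 ma3 4374 u5g_3 = true := by decide +kernel

def uc5g_3 : List (ℕ × ℕ) := [(6561, 25)]

theorem ul5g_3 : ChU (tt 5 6) 4374 uc5g_3 :=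
  (chu_of_ctabR (N := 19683) (by norm_num) (by norm_num) cov_ma3 ord_ma3 u5g_3 4374 (by decide +kernel) uk5g_3)

def uc5g_2 : List (ℕ × ℕ) := [(4374, 24)] ++ uc5g_3

theorem ul5g_2 : ChU (tt 5 6) 4096 uc5g_2 :=
  chu_append ul5g_3 [(4374, 24)] 4096 (by decide +kernel)
    (chu_of_ctabR (N := 19683) (by norm_num) (by norm_num) cov_ma3 ord_ma3 u5g_2 4096 (by decide +kernel) uk5g_2)

def uc5g_1 : List (ℕ × ℕ) := [(4096, 23)] ++ uc5g_2

theorem ul5g_1 : ChU (tt 5 6) 2187 uc5g_1 :=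
  chu_append ul5g_2 [(4096, 23)] 2187 (by decide +kernel)
    (chu_of_ctabR (N := 19683) (by norm_num) (by norm_num) cov_ma3 ord_ma3 u5g_1 2187 (by decide +kernel) uk5g_1)

def uc5g_0 : List (ℕ × ℕ) := [(2048, 21), (2187, 22)] ++ uc5g_1

theorem ul5g_0 : ChU (tt 5 6) 2000 uc5g_0 :=
  chu_append ul5g_1 [(2048, 21), (2187, 22)] 2000 (by decide +kernel)
    (chu_of_ctabR (N := 19683) (by norm_num) (by norm_num) cov_ma3 ord_ma3 u5g_0 2000 (by decide +kernel) uk5g_0)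

theorem us5g : lst 2000 uc5g_0 = 6561 := by decide +kernel

theorem ut5g : tel 2000 uc5g_0 ≤ (40539491 / 5000000000 : ℚ) := by decide +kernel

theorem uw5g : ws (tt 5 6) 2000 6561 ≤ (40539491 / 5000000000 : ℝ) := by
  have h2 := (ws_le_tel _ _ 2000 (by norm_num) ul5g_0).2
  rw [us5g] at h2
  have h4 : _ ≤ ((40539491 / 5000000000 : ℚ) : ℝ) := Rat.cast_le.2 ut5g
  rw [show ((40539491 / 5000000000 : ℚ) : ℝ) = (40539491 / 5000000000 : ℝ) by norm_num] at h4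
  exact h2.trans h4

def u5h_0 : List (ℕ × ℕ × ℕ) :=
  [
    (13122, 26, 0x00269797c7f87fcfff)]

theorem uk5h_0 : ctabR 5 ma3 6561 u5h_0 = true := by decide +kernel

def u5h_1 : List (ℕ × ℕ × ℕ) :=
  [
    (16384, 27, 0x0008f1f1fc7f8bfd7ff)]

theorem uk5h_1 : ctabR 5 ma3 13122 u5h_1 = true := by decide +kernel

def u5h_2 : List (ℕ × ℕ × ℕ) :=
  [
    (19683, 28, 0x00a3c7c7f0ff37f97ff)]

theorem uk5h_2 : ctabR 5 ma3 16384 u5h_2 = true := by decide +kernel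

def uc5h_2 : List (ℕ × ℕ) := [(19683, 28)]

theorem ul5h_2 : ChU (tt 5 6) 16384 uc5h_2 :=
  (chu_of_ctabR (N := 19683) (by norm_num) (by norm_num) cov_ma3 ord_ma3 u5h_2 16384 (by decide +kernel) uk5h_2)

def uc5h_1 : List (ℕ × ℕ) := [(16384, 27)] ++ uc5h_2

theorem ul5h_1 : ChU (tt 5 6) 13122 uc5h_1 :=
  chu_append ul5h_2 [(16384, 27)] 13122 (by decide +kernel)
    (chu_of_ctabR (N := 19683) (by norm_num) (by norm_num) cov_ma3 ord_ma3 u5h_1 13122 (by decide +kernel) uk5h_1)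

def uc5h_0 : List (ℕ × ℕ) := [(13122, 26)] ++ uc5h_1

theorem ul5h_0 : ChU (tt 5 6) 6561 uc5h_0 :=
  chu_append ul5h_1 [(13122, 26)] 6561 (by decide +kernel)
    (chu_of_ctabR (N := 19683) (by norm_num) (by norm_num) cov_ma3 ord_ma3 u5h_0 6561 (by decide +kernel) uk5h_0)

theorem us5h : lst 6561 uc5h_0 = 19683 := by decide +kernel

theorem ut5h : tel 6561 uc5h_0 ≤ (26775063 / 10000000000 : ℚ) := by decide +kernel

theorem uw5h : ws (tt 5 6) 6561 19683 ≤ (26775063 / 10000000000 : ℝ) := by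
  have h2 := (ws_le_tel _ _ 6561 (by norm_num) ul5h_0).2
  rw [us5h] at h2
  have h4 : _ ≤ ((26775063 / 10000000000 : ℚ) : ℝ) := Rat.cast_le.2 ut5h
  rw [show ((26775063 / 10000000000 : ℚ) : ℝ) = (26775063 / 10000000000 : ℝ) by norm_num] at h4
  exact h2.trans h4

end Pool.Agent.H36.KW
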