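import Pool.Agent.H36.KW.Upp
import Pool.Agent.H36.KW.Up5a
import Pool.Agent.H36.KW.Up5b
import Pool.Agent.H36.KW.Up5c
import Pool.Agent.H36.KW.Up5d1
import Pool.Agent.H36.KW.Up5d2
import Pool.Agent.H36.KW.Up5e

/-!
# KW Fu5: the upper bound for k = 5
-/

set_option autoImplicit false
set_option maxRecDepth 100000

namespace Pool.Agent.H36.KW

open Pool.Agent.H96.KMF Pool.Agent.H36.K3 Filter Topology

theorem up5A : ws (tt 5 210) 1 80 ≤ (6520915533 / 2000000000 : ℝ) := by
  have h0 := uw5a
  linarith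

theorem up5B : ws (tt 5 210) 80 560 ≤ (476322383 / 1000000000 : ℝ) := by
  have e0 := ws_add (tt 5 210) (x := 80) (y := 400) (z := 560) (by norm_num) (by norm_num)
  have h0 := uw5b
  have h1 := uw5c
  linarith

theorem up5C : ws (tt 5 30) 400 2000 ≤ (909046877 / 10000000000 : ℝ) := by
  have e0 := ws_add (tt 5 30) (x := 400) (y := 560) (z := 2000) (by norm_num) (by norm_num)
  have e1 := ws_add (tt 5 30) (x := 560) (y := 1000) (z := 2000) (by norm_num) (by norm_num)
  have e2 := ws_add (tt 5 30) (x := 1000) (y := 1500) (z := 2000) (by norm_num) (by norm_num)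
  have h0 := uw5d
  have h1 := uw5e
  have h2 := uw5f1
  have h3 := uw5f2
  linarith

theorem up5D : ws (tt 5 30) 560 2000 ≤ (624248137 / 10000000000 : ℝ) := by
  have e0 := ws_add (tt 5 30) (x := 560) (y := 1000) (z := 2000) (by norm_num) (by norm_num)
  have e1 := ws_add (tt 5 30) (x := 1000) (y := 1500) (z := 2000) (by norm_num) (by norm_num)
  have h0 := uw5e
  have h1 := uw5f1
  have h2 := uw5f2
  linarith

theorem up5E : ws (tt 5 6) 2000 19683 ≤ (21570809 / 2000000000 : ℝ) := by
  have e0 := ws_add (tt 5 6) (x := 2000) (y := 6561) (z := 19683) (by norm_num) (by norm_num)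
  have h0 := uw5g
  have h1 := uw5h
  linarith

theorem up5F : ws (tt 5 6) 6561 19683 ≤ (26775063 / 10000000000 : ℝ) := by
  have h0 := uw5h
  linarith

theorem upper5 (c : ℝ) (hc : Tendsto (fun n : ℕ => (gk 5 n : ℝ) / n) atTop (𝓝 c)) : c < 0.8992 := by
  have h := upper_aux 5 c hc 80 400 6561 (by norm_num) (by norm_num) (by norm_num) _ _ _ _ _ _ up5A up5B up5C up5D up5E up5F
  norm_num at h ⊢
  linarith

end Pool.Agent.H36.KW
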