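import Pool.Agent.H36.KW.Fu3
import Pool.Agent.H36.KW.Fu4
import Pool.Agent.H36.KW.Fu5
import Pool.Agent.H36.KW.Fl3
import Pool.Agent.H36.KW.Fl4
import Pool.Agent.H36.KW.Fl5

/-!
# KW Final: the densities of the largest k-multiple-free sets for k = 3, 4, 5
-/

set_option autoImplicit false

namespace Pool.Agent.H36.KW

open Pool.Agent.H96.KMF Filter Topology

theorem ev_bounds {k : ℕ} {a b c : ℝ} (hc : Tendsto (fun n : ℕ => (gk k n : ℝ) / n) atTop (𝓝 c)) (h1 : a < c) (h2 : c < b) :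
    ∀ᶠ n : ℕ in atTop, a * (n : ℝ) < gk k n ∧ (gk k n : ℝ) < b * n := by
  filter_upwards [hc.eventually (lt_mem_nhds h1), hc.eventually (gt_mem_nhds h2), eventually_gt_atTop 0] with n h3 h4 h5
  have hn0 : (0 : ℝ) < n := by exact_mod_cast h5
  exact ⟨(lt_div_iff₀ hn0).1 h3, (div_lt_iff₀ hn0).1 h4⟩

theorem rigidity (k n : ℕ) : ∃ A ⊆ Finset.Icc 1 n, KMultipleFree k A ∧ A.card = gk k n ∧
    ∀ m ∈ Finset.Icc 1 n, m ∉ A → (A.filter (fun b => b ∣ m)).card = 0 ∨ k < (A.filter (fun b => b ∣ m)).card := by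
  obtain ⟨A, h1, h2, h3, h4⟩ := exists_rig k (Finset.Icc 1 n) (fun m hm => (Finset.mem_Icc.1 hm).1)
  exact ⟨A, h1, h2, h3, h4⟩

theorem small_k : ∃ c : ℕ → ℝ, (∀ k, Tendsto (fun n : ℕ => (gk k n : ℝ) / n) atTop (𝓝 (c k))) ∧
    (0.8103 < c 3 ∧ c 3 < 0.8108) ∧ (0.8725 < c 4 ∧ c 4 < 0.8756) ∧ (0.8959 < c 5 ∧ c 5 < 0.8992) ∧
    ∃ n₀ : ℕ, ∀ n : ℕ, n₀ ≤ n → (0.8103 * (n : ℝ) < gk 3 n ∧ (gk 3 n : ℝ) < 0.8108 * n) ∧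
      (0.8725 * (n : ℝ) < gk 4 n ∧ (gk 4 n : ℝ) < 0.8756 * n) ∧ (0.8959 * (n : ℝ) < gk 5 n ∧ (gk 5 n : ℝ) < 0.8992 * n) := by
  choose c hc hb using fun k => exists_limit k
  have a3 := lower3 (c 3) (hc 3)
  have a4 := lower4 (c 4) (hc 4)
  have a5 := lower5 (c 5) (hc 5)
  have b3 := upper3 (c 3) (hc 3)
  have b4 := upper4 (c 4) (hc 4)
  have b5 := upper5 (c 5) (hc 5)
  refine ⟨c, hc, ⟨a3, b3⟩, ⟨a4, b4⟩, ⟨a5, b5⟩, ?_⟩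
  obtain ⟨N, hN⟩ := eventually_atTop.1 ((ev_bounds (hc 3) a3 b3).and ((ev_bounds (hc 4) a4 b4).and (ev_bounds (hc 5) a5 b5)))
  exact ⟨N, hN⟩

end Pool.Agent.H36.KW
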