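import Pool.Agent.H36.KW.Ma7
import Pool.Agent.H36.KW.Chunk

/-!
# KW Up3a: bounds for the largest 3-multiple-free sets of 7-smooth numbers
-/

set_option autoImplicit false
set_option maxRecDepth 100000

namespace Pool.Agent.H36.KW

open Pool.Agent.H96.KMF Pool.Agent.H36.K3

def u3a_0 : List (ℕ × ℕ × ℕ) :=
  [
    (2, 1, 0x0),
    (3, 2, 0x0),
    (4, 3, 0x0),
    (5, 4, 0x0),
    (7, 5, 0x01),
    (8, 6, 0x01),
    (9, 7, 0x01),
    (10, 8, 0x001),
    (14, 9, 0x005),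
    (15, 10, 0x005),
    (18, 11, 0x0007),
    (21, 12, 0x0027),
    (25, 13, 0x0002f),
    (27, 14, 0x0002f),
    (28, 15, 0x0002f),
    (32, 16, 0x00102f),
    (35, 17, 0x00204f),
    (45, 18, 0x02041cf),
    (48, 19, 0x04041cf),
    (49, 20, 0x008081cf),
    (50, 21, 0x008081cf),
    (56, 22, 0x020108df),
    (63, 23, 0x0040508df),
    (64, 24, 0x0040508df),
    (75, 25, 0x00101c159f),
    (80, 26, 0x00201c159f),
    (81, 27, 0x00401c159f),
    (98, 28, 0x00a023063bf),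
    (100, 29, 0x000a023063bf)]

theorem uk3a_0 : ctabR 3 ma7 1 u3a_0 = true := by decide +kernel

def uc3a_0 : List (ℕ × ℕ) := [(2, 1), (3, 2), (4, 3), (5, 4), (7, 5), (8, 6), (9, 7), (10, 8), (14, 9), (15, 10), (18, 11), (21, 12), (25, 13), (27, 14), (28, 15), (32, 16), (35, 17), (45, 18), (48, 19), (49, 20), (50, 21), (56, 22), (63, 23), (64, 24), (75, 25), (80, 26), (81, 27), (98, 28), (100, 29)]

theorem ul3a_0 : ChU (tt 3 210) 1 uc3a_0 :=
  (chu_of_ctabR (N := 1399) (by norm_num) (by norm_num) cov_ma7 ord_ma7 u3a_0 1 (by decide +kernel) uk3a_0)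

theorem us3a : lst 1 uc3a_0 = 100 := by decide +kernel

theorem ut3a : tel 1 uc3a_0 ≤ (6134692303 / 2000000000 : ℚ) := by decide +kernel

theorem uw3a : ws (tt 3 210) 1 100 ≤ (6134692303 / 2000000000 : ℝ) := by
  have h2 := (ws_le_tel _ _ 1 (by norm_num) ul3a_0).2
  rw [us3a] at h2
  have h4 : _ ≤ ((6134692303 / 2000000000 : ℚ) : ℝ) := Rat.cast_le.2 ut3a
  rw [show ((6134692303 / 2000000000 : ℚ) : ℝ) = (6134692303 / 2000000000 : ℝ) by norm_num] at h4
  exact h2.trans h4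

def u3b_0 : List (ℕ × ℕ × ℕ) :=
  [
    (105, 30, 0x00140270279f),
    (125, 31, 0x0007005e0a79f),
    (128, 32, 0x0046005e0e3bf),
    (135, 33, 0x0008c00bc1c73f),
    (140, 34, 0x0011800bc1c73f),
    (147, 35, 0x0027001781cf1f),
    (160, 36, 0x0004e081781cf1f),
    (175, 37, 0x000178204f08d73f),
    (189, 38, 0x0002f0414f08d73f),
    (196, 39, 0x00005e0829e119f3f),
    (224, 40, 0x00081781073c159f3f)]

theorem uk3b_0 : ctabR 3 ma7 100 u3b_0 = true := by decide +kernel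

def u3b_1 : List (ℕ × ℕ × ℕ) :=
  [
    (225, 41, 0x00102781073c159f3f),
    (243, 42, 0x00409e02073c179f3f),
    (245, 43, 0x000813c040e78179f3f)]

theorem uk3b_1 : ctabR 3 ma7 224 u3b_1 = true := by decide +kernel

def u3b_2 : List (ℕ × ℕ × ℕ) :=
  [
    (250, 44, 0x000813c040e78179f3f),
    (256, 45, 0x0020a78040e78179f3f),
    (288, 46, 0x000839e0108df02f1e7f),
    (315, 47, 0x01020e780a11be04f3e3f)]

theorem uk3b_2 : ctabR 3 ma7 245 u3b_2 = true := by decide +kernel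

def u3b_3 : List (ℕ × ℕ × ℕ) :=
  [
    (336, 48, 0x0080839e028467c14f3e7f),
    (343, 49, 0x0101039e028467c1c77e3f),
    (375, 50, 0x00402073c070567c14f3e7f)]

theorem uk3b_3 : ctabR 3 ma7 315 u3b_3 = true := by decide +kernel

def u3b_4 : List (ℕ × ℕ × ℕ) :=
  [
    (378, 51, 0x008040e78070567c14f3e7f),
    (400, 52, 0x0020108df00e0acf829e3eff),
    (405, 53, 0x0040211be00e0acf829e3eff),
    (432, 54, 0x01014237c01c0acf829e3eff)]

theorem uk3b_4 : ctabR 3 ma7 375 u3b_4 = true := by decide +kernel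

def u3b_5 : List (ℕ × ℕ × ℕ) :=
  [
    (441, 55, 0x00202846f8038159f039e3ebf),
    (448, 56, 0x00202846f8038159f039e3ebf),
    (500, 57, 0x002038467c0460c77e11ae7e7f),
    (512, 58, 0x00080e0acf804e04f3e11ae7e7f),
    (525, 59, 0x00101c159f009c09e7c235cfc7f)]

theorem uk3b_5 : ctabR 3 ma7 432 u3b_5 = true := by decide +kernel

def u3b_6 : List (ℕ × ℕ × ℕ) :=
  [
    (567, 60, 0x00080382b3e013838efc235cfc7f),
    (600, 61, 0x00a00e0567c027071df8467cfc7f)]

theorem uk3b_6 : ctabR 3 ma7 525 u3b_6 = true := by decide +kernel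

def u3b_7 : List (ℕ × ℕ × ℕ) :=
  [
    (625, 62, 0x001401c0acf802f053cf8467cfc7f),
    (675, 63, 0x002808c18efc00bc14f1f0567cfcff),
    (686, 64, 0x005011831df800bc14f1f0567cfcff),
    (700, 65, 0x005011831df800bc14f1f0567cfcff)]

theorem uk3b_7 : ctabR 3 ma7 600 u3b_7 = true := by decide +kernel

def uc3b_7 : List (ℕ × ℕ) := [(625, 62), (675, 63), (686, 64), (700, 65)]

theorem ul3b_7 : ChU (tt 3 210) 600 uc3b_7 :=
  (chu_of_ctabR (N := 1399) (by norm_num) (by norm_num) cov_ma7 ord_ma7 u3b_7 600 (by decide +kernel) uk3b_7)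

def uc3b_6 : List (ℕ × ℕ) := [(567, 60), (600, 61)] ++ uc3b_7

theorem ul3b_6 : ChU (tt 3 210) 525 uc3b_6 :=
  chu_append ul3b_7 [(567, 60), (600, 61)] 525 (by decide +kernel)
    (chu_of_ctabR (N := 1399) (by norm_num) (by norm_num) cov_ma7 ord_ma7 u3b_6 525 (by decide +kernel) uk3b_6)

def uc3b_5 : List (ℕ × ℕ) := [(441, 55), (448, 56), (500, 57), (512, 58), (525, 59)] ++ uc3b_6

theorem ul3b_5 : ChU (tt 3 210) 432 uc3b_5 :=
  chu_append ul3b_6 [(441, 55), (448, 56), (500, 57), (512, 58), (525, 59)] 432 (by decide +kernel)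
    (chu_of_ctabR (N := 1399) (by norm_num) (by norm_num) cov_ma7 ord_ma7 u3b_5 432 (by decide +kernel) uk3b_5)

def uc3b_4 : List (ℕ × ℕ) := [(378, 51), (400, 52), (405, 53), (432, 54)] ++ uc3b_5

theorem ul3b_4 : ChU (tt 3 210) 375 uc3b_4 :=
  chu_append ul3b_5 [(378, 51), (400, 52), (405, 53), (432, 54)] 375 (by decide +kernel)
    (chu_of_ctabR (N := 1399) (by norm_num) (by norm_num) cov_ma7 ord_ma7 u3b_4 375 (by decide +kernel) uk3b_4)

def uc3b_3 : List (ℕ × ℕ) := [(336, 48), (343, 49), (375, 50)] ++ uc3b_4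

theorem ul3b_3 : ChU (tt 3 210) 315 uc3b_3 :=
  chu_append ul3b_4 [(336, 48), (343, 49), (375, 50)] 315 (by decide +kernel)
    (chu_of_ctabR (N := 1399) (by norm_num) (by norm_num) cov_ma7 ord_ma7 u3b_3 315 (by decide +kernel) uk3b_3)

def uc3b_2 : List (ℕ × ℕ) := [(250, 44), (256, 45), (288, 46), (315, 47)] ++ uc3b_3

theorem ul3b_2 : ChU (tt 3 210) 245 uc3b_2 :=
  chu_append ul3b_3 [(250, 44), (256, 45), (288, 46), (315, 47)] 245 (by decide +kernel)
    (chu_of_ctabR (N := 1399) (by norm_num) (by norm_num) cov_ma7 ord_ma7 u3b_2 245 (by decide +kernel) uk3b_2)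

def uc3b_1 : List (ℕ × ℕ) := [(225, 41), (243, 42), (245, 43)] ++ uc3b_2

theorem ul3b_1 : ChU (tt 3 210) 224 uc3b_1 :=
  chu_append ul3b_2 [(225, 41), (243, 42), (245, 43)] 224 (by decide +kernel)
    (chu_of_ctabR (N := 1399) (by norm_num) (by norm_num) cov_ma7 ord_ma7 u3b_1 224 (by decide +kernel) uk3b_1)

def uc3b_0 : List (ℕ × ℕ) := [(105, 30), (125, 31), (128, 32), (135, 33), (140, 34), (147, 35), (160, 36), (175, 37), (189, 38), (196, 39), (224, 40)] ++ uc3b_1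

theorem ul3b_0 : ChU (tt 3 210) 100 uc3b_0 :=
  chu_append ul3b_1 [(105, 30), (125, 31), (128, 32), (135, 33), (140, 34), (147, 35), (160, 36), (175, 37), (189, 38), (196, 39), (224, 40)] 100 (by decide +kernel)
    (chu_of_ctabR (N := 1399) (by norm_num) (by norm_num) cov_ma7 ord_ma7 u3b_0 100 (by decide +kernel) uk3b_0)

theorem us3b : lst 100 uc3b_0 = 700 := by decide +kernel

theorem ut3b : tel 100 uc3b_0 ≤ (344663057 / 1000000000 : ℚ) := by decide +kernel

theorem uw3b : ws (tt 3 210) 100 700 ≤ (344663057 / 1000000000 : ℝ) := by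
  have h2 := (ws_le_tel _ _ 100 (by norm_num) ul3b_0).2
  rw [us3b] at h2
  have h4 : _ ≤ ((344663057 / 1000000000 : ℚ) : ℝ) := Rat.cast_le.2 ut3b
  rw [show ((344663057 / 1000000000 : ℚ) : ℝ) = (344663057 / 1000000000 : ℝ) by norm_num] at h4
  exact h2.trans h4

end Pool.Agent.H36.KW
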