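import Pool.Agent.H36.KW.Ma5
import Pool.Agent.H36.KW.Chunk

/-!
# KW Up3c: bounds for the largest 3-multiple-free sets of 5-smooth numbers
-/

set_option autoImplicit false
set_option maxRecDepth 100000

namespace Pool.Agent.H36.KW

open Pool.Agent.H96.KMF Pool.Agent.H36.K3

def u3d_0 : List (ℕ × ℕ × ℕ) :=
  [
    (625, 34, 0x002f053cf8467cfc7f),
    (675, 35, 0x000bc14f1f0567cfcff),
    (700, 36, 0x000bc14f1f0567cfcff)]

theorem uk3d_0 : ctabR 3 ma5 600 u3d_0 = true := by decide +kernel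

def uc3d_0 : List (ℕ × ℕ) := [(625, 34), (675, 35), (700, 36)]

theorem ul3d_0 : ChU (tt 3 30) 600 uc3d_0 :=
  (chu_of_ctabR (N := 4999) (by norm_num) (by norm_num) cov_ma5 ord_ma5 u3d_0 600 (by decide +kernel) uk3d_0)

theorem us3d : lst 600 uc3d_0 = 700 := by decide +kernel

theorem ut3d : tel 600 uc3d_0 ≤ (10399471 / 1250000000 : ℚ) := by decide +kernel

theorem uw3d : ws (tt 3 30) 600 700 ≤ (10399471 / 1250000000 : ℝ) := by
  have h2 := (ws_le_tel _ _ 600 (by norm_num) ul3d_0).2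
  rw [us3d] at h2
  have h4 : _ ≤ ((10399471 / 1250000000 : ℚ) : ℝ) := Rat.cast_le.2 ut3d
  rw [show ((10399471 / 1250000000 : ℚ) : ℝ) = (10399471 / 1250000000 : ℝ) by norm_num] at h4
  exact h2.trans h4

def u3e_0 : List (ℕ × ℕ × ℕ) :=
  [
    (729, 36, 0x001781cf1f0567cfcff),
    (800, 37, 0x0205e073c7c0acf8fdff),
    (1024, 38, 0x00839e119f3f053cf8fdff)]

theorem uk3e_0 : ctabR 3 ma5 700 u3e_0 = true := by decide +kernel

def u3e_1 : List (ℕ × ℕ × ℕ) :=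
  [
    (1125, 39, 0x020e782b3e7e0a79f1f9ff),
    (1215, 40, 0x0081cf05e7cfc14f1f5f9ff),
    (1250, 41, 0x01039e05e7cfc14f1f5f9ff)]

theorem uk3e_1 : ctabR 3 ma5 1024 u3e_1 = true := by decide +kernel

def u3e_2 : List (ℕ × ℕ × ℕ) :=
  [
    (1296, 42, 0x002073c0bcf8fc14f1f7f9ff)]

theorem uk3e_2 : ctabR 3 ma5 1250 u3e_2 = true := by decide +kernel

def u3e_3 : List (ℕ × ℕ × ℕ) :=
  [
    (1600, 43, 0x014237c09e7c7e11be7e3fbff)]

theorem uk3e_3 : ctabR 3 ma5 1296 u3e_3 = true := by decide +kernel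

def u3e_4 : List (ℕ × ℕ × ℕ) :=
  [
    (1728, 44, 0x00508cf829e7cfe11ae7e3fbff)]

theorem uk3e_4 : ctabR 3 ma5 1600 u3e_4 = true := by decide +kernel

def u3e_5 : List (ℕ × ℕ × ℕ) :=
  [
    (1875, 45, 0x014159f053cf9fc233e7e3faff),
    (2000, 46, 0x0050567c14f1f7f82b3e7e3faff)]

theorem uk3e_5 : ctabR 3 ma5 1728 u3e_5 = true := by decide +kernel

def uc3e_5 : List (ℕ × ℕ) := [(1875, 45), (2000, 46)]

theorem ul3e_5 : ChU (tt 3 30) 1728 uc3e_5 :=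
  (chu_of_ctabR (N := 4999) (by norm_num) (by norm_num) cov_ma5 ord_ma5 u3e_5 1728 (by decide +kernel) uk3e_5)

def uc3e_4 : List (ℕ × ℕ) := [(1728, 44)] ++ uc3e_5

theorem ul3e_4 : ChU (tt 3 30) 1600 uc3e_4 :=
  chu_append ul3e_5 [(1728, 44)] 1600 (by decide +kernel)
    (chu_of_ctabR (N := 4999) (by norm_num) (by norm_num) cov_ma5 ord_ma5 u3e_4 1600 (by decide +kernel) uk3e_4)

def uc3e_3 : List (ℕ × ℕ) := [(1600, 43)] ++ uc3e_4

theorem ul3e_3 : ChU (tt 3 30) 1296 uc3e_3 :=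
  chu_append ul3e_4 [(1600, 43)] 1296 (by decide +kernel)
    (chu_of_ctabR (N := 4999) (by norm_num) (by norm_num) cov_ma5 ord_ma5 u3e_3 1296 (by decide +kernel) uk3e_3)

def uc3e_2 : List (ℕ × ℕ) := [(1296, 42)] ++ uc3e_3

theorem ul3e_2 : ChU (tt 3 30) 1250 uc3e_2 :=
  chu_append ul3e_3 [(1296, 42)] 1250 (by decide +kernel)
    (chu_of_ctabR (N := 4999) (by norm_num) (by norm_num) cov_ma5 ord_ma5 u3e_2 1250 (by decide +kernel) uk3e_2)

def uc3e_1 : List (ℕ × ℕ) := [(1125, 39), (1215, 40), (1250, 41)] ++ uc3e_2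

theorem ul3e_1 : ChU (tt 3 30) 1024 uc3e_1 :=
  chu_append ul3e_2 [(1125, 39), (1215, 40), (1250, 41)] 1024 (by decide +kernel)
    (chu_of_ctabR (N := 4999) (by norm_num) (by norm_num) cov_ma5 ord_ma5 u3e_1 1024 (by decide +kernel) uk3e_1)

def uc3e_0 : List (ℕ × ℕ) := [(729, 36), (800, 37), (1024, 38)] ++ uc3e_1

theorem ul3e_0 : ChU (tt 3 30) 700 uc3e_0 :=
  chu_append ul3e_1 [(729, 36), (800, 37), (1024, 38)] 700 (by decide +kernel)
    (chu_of_ctabR (N := 4999) (by norm_num) (by norm_num) cov_ma5 ord_ma5 u3e_0 700 (by decide +kernel) uk3e_0)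

theorem us3e : lst 700 uc3e_0 = 2000 := by decide +kernel

theorem ut3e : tel 700 uc3e_0 ≤ (185237261 / 5000000000 : ℚ) := by decide +kernel

theorem uw3e : ws (tt 3 30) 700 2000 ≤ (185237261 / 5000000000 : ℝ) := by
  have h2 := (ws_le_tel _ _ 700 (by norm_num) ul3e_0).2
  rw [us3e] at h2
  have h4 : _ ≤ ((185237261 / 5000000000 : ℚ) : ℝ) := Rat.cast_le.2 ut3e
  rw [show ((185237261 / 5000000000 : ℚ) : ℝ) = (185237261 / 5000000000 : ℝ) by norm_num] at h4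
  exact h2.trans h4

end Pool.Agent.H36.KW
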