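import Pool.Agent.H36.KW.Ma5
import Pool.Agent.H36.KW.Chunk

/-!
# KW Up3d1: bounds for the largest 3-multiple-free sets of 5-smooth numbers
-/

set_option autoImplicit false
set_option maxRecDepth 100000

namespace Pool.Agent.H36.KW

open Pool.Agent.H96.KMF Pool.Agent.H36.K3

def u3f1_0 : List (ℕ × ℕ × ℕ) :=
  [
    (2025, 46, 0x0070567c14f1f7f82b3e7e3faff)]

theorem uk3f1_0 : ctabR 3 ma5 2000 u3f1_0 = true := by decide +kernel

def u3f1_1 : List (ℕ × ℕ × ℕ) :=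
  [
    (2187, 47, 0x0038159f039e3ebf05e7cfc7f3ff)]

theorem uk3f1_1 : ctabR 3 ma5 2025 u3f1_1 = true := by decide +kernel

def u3f1_2 : List (ℕ × ℕ × ℕ) :=
  [
    (2250, 48, 0x00702b3e073c7d7e05e7cfc7f3ff)]

theorem uk3f1_2 : ctabR 3 ma5 2187 u3f1_2 = true := by decide +kernel

def u3f1_3 : List (ℕ × ℕ × ℕ) :=
  [
    (2500, 49, 0x011831df846b9f9fc0acf8fd7f3ff)]

theorem uk3f1_3 : ctabR 3 ma5 2250 u3f1_3 = true := by decide +kernel

def u3f1_4 : List (ℕ × ℕ × ℕ) :=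
  [
    (3000, 50, 0x0027053cf8467cfc7f071d79fcff3ff)]

theorem uk3f1_4 : ctabR 3 ma5 2500 u3f1_4 = true := by decide +kernel

def uc3f1_4 : List (ℕ × ℕ) := [(3000, 50)]

theorem ul3f1_4 : ChU (tt 3 30) 2500 uc3f1_4 :=
  (chu_of_ctabR (N := 4999) (by norm_num) (by norm_num) cov_ma5 ord_ma5 u3f1_4 2500 (by decide +kernel) uk3f1_4)

def uc3f1_3 : List (ℕ × ℕ) := [(2500, 49)] ++ uc3f1_4

theorem ul3f1_3 : ChU (tt 3 30) 2250 uc3f1_3 :=
  chu_append ul3f1_4 [(2500, 49)] 2250 (by decide +kernel)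
    (chu_of_ctabR (N := 4999) (by norm_num) (by norm_num) cov_ma5 ord_ma5 u3f1_3 2250 (by decide +kernel) uk3f1_3)

def uc3f1_2 : List (ℕ × ℕ) := [(2250, 48)] ++ uc3f1_3

theorem ul3f1_2 : ChU (tt 3 30) 2187 uc3f1_2 :=
  chu_append ul3f1_3 [(2250, 48)] 2187 (by decide +kernel)
    (chu_of_ctabR (N := 4999) (by norm_num) (by norm_num) cov_ma5 ord_ma5 u3f1_2 2187 (by decide +kernel) uk3f1_2)

def uc3f1_1 : List (ℕ × ℕ) := [(2187, 47)] ++ uc3f1_2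

theorem ul3f1_1 : ChU (tt 3 30) 2025 uc3f1_1 :=
  chu_append ul3f1_2 [(2187, 47)] 2025 (by decide +kernel)
    (chu_of_ctabR (N := 4999) (by norm_num) (by norm_num) cov_ma5 ord_ma5 u3f1_1 2025 (by decide +kernel) uk3f1_1)

def uc3f1_0 : List (ℕ × ℕ) := [(2025, 46)] ++ uc3f1_1

theorem ul3f1_0 : ChU (tt 3 30) 2000 uc3f1_0 :=
  chu_append ul3f1_1 [(2025, 46)] 2000 (by decide +kernel)
    (chu_of_ctabR (N := 4999) (by norm_num) (by norm_num) cov_ma5 ord_ma5 u3f1_0 2000 (by decide +kernel) uk3f1_0)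

theorem us3f1 : lst 2000 uc3f1_0 = 3000 := by decide +kernel

theorem ut3f1 : tel 2000 uc3f1_0 ≤ (20322131 / 2500000000 : ℚ) := by decide +kernel

theorem uw3f1 : ws (tt 3 30) 2000 3000 ≤ (20322131 / 2500000000 : ℝ) := by
  have h2 := (ws_le_tel _ _ 2000 (by norm_num) ul3f1_0).2
  rw [us3f1] at h2
  have h4 : _ ≤ ((20322131 / 2500000000 : ℚ) : ℝ) := Rat.cast_le.2 ut3f1
  rw [show ((20322131 / 2500000000 : ℚ) : ℝ) = (20322131 / 2500000000 : ℝ) by norm_num] at h4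
  exact h2.trans h4

end Pool.Agent.H36.KW
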