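import Pool.Agent.H36.KW.Ma3
import Pool.Agent.H36.KW.Chunk

/-!
# KW Up3e: bounds for the largest 3-multiple-free sets of 3-smooth numbers
-/

set_option autoImplicit false
set_option maxRecDepth 100000

namespace Pool.Agent.H36.KW

open Pool.Agent.H96.KMF Pool.Agent.H36.K3

def u3g_0 : List (ℕ × ℕ × ℕ) :=
  [
    (4096, 17, 0x01cf1f5f9ff3ff),
    (6561, 18, 0x00acf9f8fe7fe7ff)]

theorem uk3g_0 : ctabR 3 ma3 3000 u3g_0 = true := by decide +kernel

def uc3g_0 : List (ℕ × ℕ) := [(4096, 17), (6561, 18)]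

theorem ul3g_0 : ChU (tt 3 6) 3000 uc3g_0 :=
  (chu_of_ctabR (N := 19683) (by norm_num) (by norm_num) cov_ma3 ord_ma3 u3g_0 3000 (by decide +kernel) uk3g_0)

theorem us3g : lst 3000 uc3g_0 = 6561 := by decide +kernel

theorem ut3g : tel 3000 uc3g_0 ≤ (31673231 / 10000000000 : ℚ) := by decide +kernel

theorem uw3g : ws (tt 3 6) 3000 6561 ≤ (31673231 / 10000000000 : ℝ) := by
  have h2 := (ws_le_tel _ _ 3000 (by norm_num) ul3g_0).2
  rw [us3g] at h2
  have h4 : _ ≤ ((31673231 / 10000000000 : ℚ) : ℝ) := Rat.cast_le.2 ut3g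
  rw [show ((31673231 / 10000000000 : ℚ) : ℝ) = (31673231 / 10000000000 : ℝ) by norm_num] at h4
  exact h2.trans h4

def u3h_0 : List (ℕ × ℕ × ℕ) :=
  [
    (8192, 19, 0x0279f1fafe7fe7ff),
    (16384, 20, 0x0119f3f1fd7f9ffcfff)]

theorem uk3h_0 : ctabR 3 ma3 6561 u3h_0 = true := by decide +kernel

def u3h_1 : List (ℕ × ℕ × ℕ) :=
  [
    (19683, 21, 0x0567cfc7f3ff3ff8fff)]

theorem uk3h_1 : ctabR 3 ma3 16384 u3h_1 = true := by decide +kernel

def uc3h_1 : List (ℕ × ℕ) := [(19683, 21)]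

theorem ul3h_1 : ChU (tt 3 6) 16384 uc3h_1 :=
  (chu_of_ctabR (N := 19683) (by norm_num) (by norm_num) cov_ma3 ord_ma3 u3h_1 16384 (by decide +kernel) uk3h_1)

def uc3h_0 : List (ℕ × ℕ) := [(8192, 19), (16384, 20)] ++ uc3h_1

theorem ul3h_0 : ChU (tt 3 6) 6561 uc3h_0 :=
  chu_append ul3h_1 [(8192, 19), (16384, 20)] 6561 (by decide +kernel)
    (chu_of_ctabR (N := 19683) (by norm_num) (by norm_num) cov_ma3 ord_ma3 u3h_0 6561 (by decide +kernel) uk3h_0)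

theorem us3h : lst 6561 uc3h_0 = 19683 := by decide +kernel

theorem ut3h : tel 6561 uc3h_0 ≤ (402419 / 200000000 : ℚ) := by decide +kernel

theorem uw3h : ws (tt 3 6) 6561 19683 ≤ (402419 / 200000000 : ℝ) := by
  have h2 := (ws_le_tel _ _ 6561 (by norm_num) ul3h_0).2
  rw [us3h] at h2
  have h4 : _ ≤ ((402419 / 200000000 : ℚ) : ℝ) := Rat.cast_le.2 ut3h
  rw [show ((402419 / 200000000 : ℚ) : ℝ) = (402419 / 200000000 : ℝ) by norm_num] at h4
  exact h2.trans h4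

end Pool.Agent.H36.KW
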