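import Pool.Agent.H36.KW.Upp
import Pool.Agent.H36.KW.Up3a
import Pool.Agent.H36.KW.Up3c
import Pool.Agent.H36.KW.Up3d1
import Pool.Agent.H36.KW.Up3e

/-!
# KW Fu3: the upper bound for k = 3
-/

set_option autoImplicit false
set_option maxRecDepth 100000

namespace Pool.Agent.H36.KW

open Pool.Agent.H96.KMF Pool.Agent.H36.K3 Filter Topology

theorem up3A : ws (tt 3 210) 1 100 ≤ (6134692303 / 2000000000 : ℝ) := by
  have h0 := uw3a
  linarith

theorem up3B : ws (tt 3 210) 100 700 ≤ (344663057 / 1000000000 : ℝ) := by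
  have h0 := uw3b
  linarith

theorem up3C : ws (tt 3 30) 600 3000 ≤ (267479407 / 5000000000 : ℝ) := by
  have e0 := ws_add (tt 3 30) (x := 600) (y := 700) (z := 3000) (by norm_num) (by norm_num)
  have e1 := ws_add (tt 3 30) (x := 700) (y := 2000) (z := 3000) (by norm_num) (by norm_num)
  have h0 := uw3d
  have h1 := uw3e
  have h2 := uw3f1
  linarith

theorem up3D : ws (tt 3 30) 700 3000 ≤ (225881523 / 5000000000 : ℝ) := by
  have e0 := ws_add (tt 3 30) (x := 700) (y := 2000) (z := 3000) (by norm_num) (by norm_num)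
  have h0 := uw3e
  have h1 := uw3f1
  linarith

theorem up3E : ws (tt 3 6) 3000 19683 ≤ (51794181 / 10000000000 : ℝ) := by
  have e0 := ws_add (tt 3 6) (x := 3000) (y := 6561) (z := 19683) (by norm_num) (by norm_num)
  have h0 := uw3g
  have h1 := uw3h
  linarith

theorem up3F : ws (tt 3 6) 6561 19683 ≤ (402419 / 200000000 : ℝ) := by
  have h0 := uw3h
  linarith

theorem upper3 (c : ℝ) (hc : Tendsto (fun n : ℕ => (gk 3 n : ℝ) / n) atTop (𝓝 c)) : c < 0.8108 := by
  have h := upper_aux 3 c hc 100 600 6561 (by norm_num) (by norm_num) (by norm_num) _ _ _ _ _ _ up3A up3B up3C up3D up3E up3F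
  norm_num at h ⊢
  linarith

end Pool.Agent.H36.KW
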