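import Pool.Agent.H96.KMF.Main1
import Pool.Agent.H36.K3.Tel
import Pool.Agent.H36.KW.Fc

/-!
# KW Low1: lower bounds by sets of smooth numbers, theory

`fa j` is the largest size of a `k`-multiple-free set of smooth numbers in `(j/M, j]`, `fn i` the largest size of such a set `A` in
`(i/M, i]` which can be completed for all `j` in `[2^r i, 2^r (i+1))`: the set `2^r A` together with the smooth numbers in `(j/(k+1), j]`
which are not multiples of `2^r` is `k`-multiple-free.  `cc j` is the number of smooth numbers in `(j/(k+1), j]`.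
-/

set_option autoImplicit false

namespace Pool.Agent.H36.KW

open Pool.Agent.H96.KMF Pool.Agent.H36.K3 Filter Topology

/-- the number of divisors of `2^r t` in the complement -/
def ext (k i t : ℕ) : ℕ :=
  (if t % 2 = 1 ∧ 2 * i < (k + 1) * t then 1 else 0) + (if t % 4 ≠ 0 ∧ 4 * i < (k + 1) * t then 1 else 0)

/-- `A` can be completed -/
def Nice (k i : ℕ) (A : Finset ℕ) : Prop := ∀ t ∈ A, (A.filter (fun b => b ∣ t ∧ b ≠ t)).card + ext k i t < k

/-- the largest size of a `k`-multiple-free set of smooth numbers in `(j/M, j]` -/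
noncomputable def fa (k P M j : ℕ) : ℕ := opt k (cell P M j)

open Classical in
/-- the largest size of a nice set of smooth numbers in `(j/M, j]` -/
noncomputable def fn (k P M i : ℕ) : ℕ := ((cell P M i).powerset.filter (Nice k i)).sup Finset.card

/-- number of smooth numbers in `(j/(k+1), j]` -/
noncomputable def cc (k P j : ℕ) : ℕ := (cell P (k + 1) j).card

theorem le_fn {k P M i : ℕ} {A : Finset ℕ} (h1 : A ⊆ cell P M i) (h2 : Nice k i A) : A.card ≤ fn k P M i := by
  classical
  unfold fn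
  exact Finset.le_sup (f := Finset.card) (by
    rw [Finset.mem_filter, Finset.mem_powerset]
    exact ⟨h1, h2⟩)

theorem exists_fn (k P M i : ℕ) : ∃ A ⊆ cell P M i, Nice k i A ∧ A.card = fn k P M i := by
  classical
  have hne : ((cell P M i).powerset.filter (Nice k i)).Nonempty :=
    ⟨∅, by
      rw [Finset.mem_filter, Finset.mem_powerset]
      exact ⟨Finset.empty_subset _, fun t ht => absurd ht (Finset.notMem_empty t)⟩⟩
  obtain ⟨A, hA, hAc⟩ := Finset.exists_mem_eq_sup _ hne Finset.card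
  rw [Finset.mem_filter, Finset.mem_powerset] at hA
  refine ⟨A, hA.1, hA.2, ?_⟩
  unfold fn
  rw [hAc]

theorem Nice.kmf {k i : ℕ} {A : Finset ℕ} (h : Nice k i A) : KMultipleFree k A := by
  rw [kmf_iff]
  intro a ha
  exact lt_of_le_of_lt (Nat.le_add_right _ _) (h a ha)

/-- few divisors if all elements are large -/
theorem few {k : ℕ} (hk : 1 ≤ k) (X : Finset ℕ) {a : ℕ} (ha : 1 ≤ a) (hX : ∀ b ∈ X, a < (k + 1) * b) :
    (X.filter (fun b => b ∣ a ∧ b ≠ a)).card < k := by
  classical
  have h1 : (X.filter (fun b => b ∣ a ∧ b ≠ a)).card ≤ (Finset.Icc 2 k).card := by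
    have key : ∀ b ∈ X.filter (fun b => b ∣ a ∧ b ≠ a), 0 < b ∧ a = b * (a / b) := by
      intro b hb
      rw [Finset.mem_filter] at hb
      exact ⟨Nat.pos_of_dvd_of_pos hb.2.1 ha, (Nat.mul_div_cancel' hb.2.1).symm⟩
    refine Finset.card_le_card_of_injOn (fun b => a / b) ?_ ?_
    · intro b hb
      have hb0 := Finset.mem_coe.1 hb
      obtain ⟨h2, h3⟩ := key b hb0
      rw [Finset.mem_filter] at hb0
      have h4 := hX b hb0.1
      have h5 : a / b < k + 1 := by
        rw [Nat.div_lt_iff_lt_mul h2]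
        exact h4
      have h6 : a / b ≠ 0 := by
        intro h
        rw [h, mul_zero] at h3
        omega
      have h7 : a / b ≠ 1 := by
        intro h
        rw [h, mul_one] at h3
        exact hb0.2.2 h3.symm
      show a / b ∈ ((Finset.Icc 2 k : Finset ℕ) : Set ℕ)
      rw [Finset.mem_coe, Finset.mem_Icc]
      have h8 : ∀ q : ℕ, q < k + 1 → q ≠ 0 → q ≠ 1 → 2 ≤ q ∧ q ≤ k := by
        intro q h9 h10 h11
        omega
      exact h8 _ h5 h6 h7
    · intro b hb c hc hbc
      obtain ⟨h2, h3⟩ := key b (Finset.mem_coe.1 hb)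
      obtain ⟨h4, h5⟩ := key c (Finset.mem_coe.1 hc)
      have hbc' : a / b = a / c := hbc
      have h6 : 0 < a / c := by
        rcases Nat.eq_zero_or_pos (a / c) with h | h
        · rw [h, mul_zero] at h5
          omega
        · exact h
      rw [hbc'] at h3
      exact Nat.eq_of_mul_eq_mul_right h6 (h3.symm.trans h5)
  rw [Nat.card_Icc] at h1
  omega

theorem cell_mono_M (P : ℕ) {M M' : ℕ} (h : M ≤ M') (j : ℕ) : cell P M j ⊆ cell P M' j := by
  intro s hs
  rw [mem_cell] at hs ⊢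
  exact ⟨hs.1, hs.2.1, lt_of_lt_of_le hs.2.2 (Nat.mul_le_mul_left s h)⟩

theorem cc_le_fa {k P M : ℕ} (hk : 1 ≤ k) (hM : k + 1 ≤ M) (j : ℕ) : cc k P j ≤ fa k P M j := by
  refine le_opt (cell_mono_M P hM j) ?_
  rw [kmf_iff]
  intro a ha
  rw [mem_cell] at ha
  refine few hk _ ha.1.1 ?_
  intro b hb
  rw [mem_cell] at hb
  rw [mul_comm]
  exact lt_of_le_of_lt ha.1.2 hb.2.2

theorem fn_le_fa (k P M j : ℕ) : fn k P M j ≤ fa k P M j := by
  obtain ⟨A, hA, hN, hc⟩ := exists_fn k P M j
  rw [← hc]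
  exact le_opt hA hN.kmf

theorem smo_pow {P : ℕ} (h : Smo P 2) : ∀ r : ℕ, Smo P (2 ^ r)
  | 0 => smo_one P
  | r + 1 => by
    rw [pow_succ]
    exact (smo_pow h r).mul h

open Classical in
/-- the complement -/
noncomputable def odds (k P r j : ℕ) : Finset ℕ := (cell P (k + 1) j).filter (fun s => ¬ 2 ^ r ∣ s)

theorem mem_odds {k P r j s : ℕ} : s ∈ odds k P r j ↔ ((1 ≤ s ∧ s ≤ j) ∧ Smo P s ∧ j < s * (k + 1)) ∧ ¬ 2 ^ r ∣ s := by
  classical
  unfold odds
  rw [Finset.mem_filter, mem_cell]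

theorem inj_pow (r : ℕ) : Function.Injective (fun s : ℕ => 2 ^ r * s) :=
  fun _ _ h => Nat.eq_of_mul_eq_mul_left (by positivity) h

theorem cc_dyadic {k P : ℕ} (h2 : Smo P 2) {i j r : ℕ} (h1 : 2 ^ r * i ≤ j) (h1' : j < 2 ^ r * (i + 1)) :
    cc k P j = cc k P i + (odds k P r j).card := by
  classical
  have h3 : cell P (k + 1) j = (cell P (k + 1) i).image (fun s => 2 ^ r * s) ∪ odds k P r j := by
    ext s
    rw [Finset.mem_union, Finset.mem_image, mem_odds, mem_cell]
    constructor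
    · intro hs
      by_cases h : 2 ^ r ∣ s
      · left
        obtain ⟨u, rfl⟩ := h
        refine ⟨u, mem_cell.2 ⟨⟨?_, ?_⟩, hs.2.1.of_dvd (Dvd.intro_left _ rfl), ?_⟩, rfl⟩
        · rcases Nat.eq_zero_or_pos u with h0 | h0
          · rw [h0, mul_zero] at hs
            omega
          · exact h0
        · have h4 : 2 ^ r * u < 2 ^ r * (i + 1) := lt_of_le_of_lt hs.1.2 h1'
          have := lt_of_mul_lt_mul_left h4 (Nat.zero_le _)
          omega
        · have h4 : 2 ^ r * i < 2 ^ r * (u * (k + 1)) := by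
            calc 2 ^ r * i ≤ j := h1
              _ < 2 ^ r * u * (k + 1) := hs.2.2
              _ = 2 ^ r * (u * (k + 1)) := by ring
          exact lt_of_mul_lt_mul_left h4 (Nat.zero_le _)
      · exact Or.inr ⟨hs, h⟩
    · rintro (⟨u, hu, rfl⟩ | h)
      · rw [mem_cell] at hu
        refine ⟨⟨Nat.mul_pos (by positivity) hu.1.1, (Nat.mul_le_mul_left _ hu.1.2).trans h1⟩, (smo_pow h2 r).mul hu.2.1, ?_⟩
        calc j < 2 ^ r * (i + 1) := h1'
          _ ≤ 2 ^ r * (u * (k + 1)) := Nat.mul_le_mul_left _ hu.2.2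
          _ = 2 ^ r * u * (k + 1) := by ring
      · exact h.1
  have h4 : Disjoint ((cell P (k + 1) i).image (fun s => 2 ^ r * s)) (odds k P r j) := by
    rw [Finset.disjoint_left]
    intro a ha hb
    obtain ⟨u, _, rfl⟩ := Finset.mem_image.1 ha
    exact (mem_odds.1 hb).2 (Dvd.intro _ rfl)
  unfold cc
  rw [h3, Finset.card_union_of_disjoint h4, Finset.card_image_of_injective _ (inj_pow r)]

/-- the divisors of `2^r t` in the complement -/
theorem odds_div {k P : ℕ} (hk5 : k ≤ 5) {i j r t : ℕ} (h1 : 2 ^ r * i ≤ j) (ht : 1 ≤ t) (hti : t ≤ i) :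
    ((odds k P r j).filter (fun b => b ∣ 2 ^ r * t)).card ≤ ext k i t := by
  classical
  have hQ : 0 < 2 ^ r := by positivity
  have hsub : (odds k P r j).filter (fun b => b ∣ 2 ^ r * t) ⊆
      (if t % 2 = 1 ∧ 2 * i < (k + 1) * t then {2 ^ r * t / 2} else ∅) ∪
      (if t % 4 ≠ 0 ∧ 4 * i < (k + 1) * t then {2 ^ r * t / 4} else ∅) := by
    intro b hb
    rw [Finset.mem_filter, mem_odds] at hb
    obtain ⟨⟨⟨_, _, hb2⟩, hb3⟩, q, hq⟩ := hb
    have h3 : 2 ^ r * i < b * (k + 1) := lt_of_le_of_lt h1 hb2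
    have h4 : b * q < b * (k + 1) := by
      rw [← hq]
      exact lt_of_le_of_lt (Nat.mul_le_mul_left _ hti) h3
    have h5 : q < k + 1 := lt_of_mul_lt_mul_left h4 (Nat.zero_le _)
    have h6 : q < 6 := by omega
    have h7 : q ≠ 0 := by
      rintro rfl
      have : 0 < 2 ^ r * t := Nat.mul_pos hQ ht
      omega
    have hodd : ∀ p : ℕ, Nat.Coprime 2 p → q = p → False := by
      rintro p hp rfl
      apply hb3
      have h8 : 2 ^ r ∣ b * q := Dvd.intro _ hq
      exact (Nat.Coprime.pow_left r hp).dvd_of_dvd_mul_right h8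
    rw [Finset.mem_union]
    interval_cases q
    · exact absurd rfl h7
    · exact (hodd 1 (by norm_num) rfl).elim
    · left
      have h8 : t % 2 = 1 := by
        by_contra h9
        obtain ⟨u, hu⟩ : 2 ∣ t := Nat.dvd_of_mod_eq_zero (by omega)
        apply hb3
        refine ⟨u, ?_⟩
        rw [hu] at hq
        have h10 : 2 * (2 ^ r * u) = 2 * b := by
          calc 2 * (2 ^ r * u) = 2 ^ r * (2 * u) := by ring
            _ = b * 2 := hq
            _ = 2 * b := by ring
        omega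
      have h9 : 2 * i < (k + 1) * t := by
        have h10 : 2 ^ r * (2 * i) < 2 ^ r * ((k + 1) * t) := by
          calc 2 ^ r * (2 * i) = 2 * (2 ^ r * i) := by ring
            _ < 2 * (b * (k + 1)) := by omega
            _ = (b * 2) * (k + 1) := by ring
            _ = (2 ^ r * t) * (k + 1) := by rw [hq]
            _ = 2 ^ r * ((k + 1) * t) := by ring
        exact lt_of_mul_lt_mul_left h10 (Nat.zero_le _)
      rw [if_pos ⟨h8, h9⟩, Finset.mem_singleton, hq]
      omega
    · exact (hodd 3 (by norm_num) rfl).elim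
    · right
      have h8 : t % 4 ≠ 0 := by
        intro h9
        obtain ⟨u, hu⟩ : 4 ∣ t := Nat.dvd_of_mod_eq_zero h9
        apply hb3
        refine ⟨u, ?_⟩
        rw [hu] at hq
        have h10 : 4 * (2 ^ r * u) = 4 * b := by
          calc 4 * (2 ^ r * u) = 2 ^ r * (4 * u) := by ring
            _ = b * 4 := hq
            _ = 4 * b := by ring
        omega
      have h9 : 4 * i < (k + 1) * t := by
        have h10 : 2 ^ r * (4 * i) < 2 ^ r * ((k + 1) * t) := by
          calc 2 ^ r * (4 * i) = 4 * (2 ^ r * i) := by ring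
            _ < 4 * (b * (k + 1)) := by omega
            _ = (b * 4) * (k + 1) := by ring
            _ = (2 ^ r * t) * (k + 1) := by rw [hq]
            _ = 2 ^ r * ((k + 1) * t) := by ring
        exact lt_of_mul_lt_mul_left h10 (Nat.zero_le _)
      rw [if_pos ⟨h8, h9⟩, Finset.mem_singleton, hq]
      omega
    · exact (hodd 5 (by norm_num) rfl).elim
  refine (Finset.card_le_card hsub).trans ((Finset.card_union_le _ _).trans ?_)
  unfold ext
  refine Nat.add_le_add ?_ ?_
  · split_ifs <;> simp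
  · split_ifs <;> simp

theorem fn_dyadic {k P M : ℕ} (hk : 1 ≤ k) (hk5 : k ≤ 5) (h2 : Smo P 2) (hM : k + 1 ≤ M) {i j r : ℕ}
    (h1 : 2 ^ r * i ≤ j) (h1' : j < 2 ^ r * (i + 1)) : fn k P M i + (odds k P r j).card ≤ fa k P M j := by
  classical
  have hinj := inj_pow r
  have hQ : 0 < 2 ^ r := by positivity
  obtain ⟨A, hA, hN, hc⟩ := exists_fn k P M i
  obtain ⟨B, hB⟩ : ∃ B : Finset ℕ, B = A.image (fun s => 2 ^ r * s) ∪ odds k P r j := ⟨_, rfl⟩
  have hAm : ∀ t ∈ A, 1 ≤ t ∧ t ≤ i ∧ Smo P t ∧ i < t * M := by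
    intro t ht
    have := mem_cell.1 (hA ht)
    exact ⟨this.1.1, this.1.2, this.2.1, this.2.2⟩
  have h4 : Disjoint (A.image (fun s => 2 ^ r * s)) (odds k P r j) := by
    rw [Finset.disjoint_left]
    intro a ha hb
    obtain ⟨u, _, rfl⟩ := Finset.mem_image.1 ha
    exact (mem_odds.1 hb).2 (Dvd.intro _ rfl)
  have hcard : B.card = fn k P M i + (odds k P r j).card := by
    rw [hB, Finset.card_union_of_disjoint h4, Finset.card_image_of_injective _ hinj, hc]
  rw [← hcard]
  refine le_opt ?_ ?_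
  · intro s hs
    rw [hB, Finset.mem_union] at hs
    rw [mem_cell]
    rcases hs with h | h
    · obtain ⟨u, hu, rfl⟩ := Finset.mem_image.1 h
      have hu' := hAm u hu
      refine ⟨⟨Nat.mul_pos hQ hu'.1, (Nat.mul_le_mul_left _ hu'.2.1).trans h1⟩, (smo_pow h2 r).mul hu'.2.2.1, ?_⟩
      calc j < 2 ^ r * (i + 1) := h1'
        _ ≤ 2 ^ r * (u * M) := Nat.mul_le_mul_left _ hu'.2.2.2
        _ = 2 ^ r * u * M := by ring
    · have h' := (mem_odds.1 h).1
      exact ⟨h'.1, h'.2.1, lt_of_lt_of_le h'.2.2 (Nat.mul_le_mul_left s hM)⟩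
  · rw [kmf_iff]
    intro a ha
    rw [hB, Finset.mem_union] at ha
    rcases ha with h | h
    · obtain ⟨t, ht, rfl⟩ := Finset.mem_image.1 h
      have ht' := hAm t ht
      have h5 : B.filter (fun b => b ∣ 2 ^ r * t ∧ b ≠ 2 ^ r * t) ⊆
          (A.filter (fun b => b ∣ t ∧ b ≠ t)).image (fun s => 2 ^ r * s) ∪ (odds k P r j).filter (fun b => b ∣ 2 ^ r * t) := by
        intro b hb
        rw [Finset.mem_filter, hB, Finset.mem_union] at hb
        rw [Finset.mem_union]
        rcases hb.1 with h | h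
        · left
          obtain ⟨u, hu, rfl⟩ := Finset.mem_image.1 h
          refine Finset.mem_image.2 ⟨u, Finset.mem_filter.2 ⟨hu, Nat.dvd_of_mul_dvd_mul_left hQ hb.2.1, ?_⟩, rfl⟩
          rintro rfl
          exact hb.2.2 rfl
        · right
          exact Finset.mem_filter.2 ⟨h, hb.2.1⟩
      have h6 := (Finset.card_le_card h5).trans (Finset.card_union_le _ _)
      rw [Finset.card_image_of_injective _ hinj] at h6
      have h7 := odds_div (P := P) hk5 h1 ht'.1 ht'.2.1
      exact lt_of_le_of_lt (h6.trans (Nat.add_le_add_left h7 _)) (hN t ht)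
    · have h' := mem_odds.1 h
      have h5 : B.filter (fun b => b ∣ a ∧ b ≠ a) ⊆ (odds k P r j).filter (fun b => b ∣ a ∧ b ≠ a) := by
        intro b hb
        rw [Finset.mem_filter, hB, Finset.mem_union] at hb
        rcases hb.1 with h8 | h8
        · exfalso
          obtain ⟨u, _, rfl⟩ := Finset.mem_image.1 h8
          exact h'.2 ((Dvd.intro _ rfl).trans hb.2.1)
        · exact Finset.mem_filter.2 ⟨h8, hb.2⟩
      refine lt_of_le_of_lt (Finset.card_le_card h5) (few hk _ h'.1.1.1 ?_)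
      intro b hb
      have hb' := (mem_odds.1 hb).1
      rw [mul_comm]
      exact lt_of_le_of_lt h'.1.1.2 hb'.2.2

/-- the excess of `fn` -/
noncomputable def dn (k P M j : ℕ) : ℕ := fn k P M j - cc k P j

/-- the excess of `fa` -/
noncomputable def da (k P M j : ℕ) : ℕ := fa k P M j - cc k P j

theorem dn_dyadic {k P M : ℕ} (hk : 1 ≤ k) (hk5 : k ≤ 5) (h2 : Smo P 2) (hM : k + 1 ≤ M) {i j r : ℕ}
    (h1 : 2 ^ r * i ≤ j) (h1' : j < 2 ^ r * (i + 1)) : dn k P M i ≤ da k P M j := by
  have h3 := fn_dyadic hk hk5 h2 hM h1 h1'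
  have h4 := cc_dyadic (k := k) h2 h1 h1'
  unfold dn da
  omega

end Pool.Agent.H36.KW
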