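import Pool.Agent.H36.KW.Low1

/-!
# KW Low2: tables of sets and the sum for the tail
-/

set_option autoImplicit false

namespace Pool.Agent.H36.KW

open Pool.Agent.H96.KMF Pool.Agent.H36.K3 Filter Topology

/-- the sublist given by the bits of a number -/
noncomputable def sel (f : ℕ) (l : List ℕ) : List ℕ :=
  List.rec (motive := fun _ => ℕ → List ℕ) (fun _ => []) (fun x _ ih f => frc f fun f' => cond (Nat.beq (Nat.mod f' 2) 1) (x :: ih (Nat.div f' 2)) (ih (Nat.div f' 2))) l f

/-- the set as a number: bit `s` -/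
noncomputable def bm (l : List ℕ) : ℕ := List.rec (motive := fun _ => ℕ) 0 (fun s _ ih => Nat.lor (Nat.pow 2 s) ih) l

/-- the number of the `q` of the list with `s / q` in the set given by the bits of `F` -/
noncomputable def cq (s F : ℕ) (qs : List ℕ) : ℕ :=
  List.rec (motive := fun _ => ℕ) 0 (fun q _ ih => cond (Nat.beq (Nat.mod s q) 0)
    (cond (Nat.beq (Nat.mod (Nat.shiftRight F (Nat.div s q)) 2) 1) (Nat.succ ih) ih) ih) qs

/-- the extra divisors -/
def exb (k x s : ℕ) : ℕ :=
  Nat.add (cond (Nat.beq (Nat.mod s 2) 1) (cond (Nat.ble (Nat.mul (Nat.succ k) s) (Nat.mul 2 x)) 0 1) 0)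
    (cond (Nat.beq (Nat.mod s 4) 0) 0 (cond (Nat.ble (Nat.mul (Nat.succ k) s) (Nat.mul 4 x)) 0 1))

/-- the check for the elements of a set -/
noncomputable def okE (nice : Bool) (k M x y F : ℕ) (qs l : List ℕ) : Bool :=
  List.rec (motive := fun _ => Bool) true (fun s _ ih => cond (Nat.ble s x) (cond (Nat.ble y (Nat.mul M s))
    (cond (Nat.ble (Nat.add (Nat.succ (cq s F qs)) (cond nice (exb k x s) 0)) k) ih false) false) false) l

/-- continuation with an evaluated list -/
noncomputable def frl {α : Type} (l : List ℕ) (f : List ℕ → α) : α :=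
  List.rec (motive := fun _ => (List ℕ → α) → α) (fun f => f []) (fun x _ ih f => frc x fun x' => ih fun ys => f (x' :: ys)) l f

/-- the length -/
noncomputable def ln (l : List ℕ) : ℕ := List.rec (motive := fun _ => ℕ) 0 (fun _ _ ih => Nat.succ ih) l

theorem ln_eq : ∀ l : List ℕ, ln l = l.length
  | [] => rfl
  | x :: l => by
    have h : ln (x :: l) = ln l + 1 := rfl
    rw [h, ln_eq l, List.length_cons]

/-- the check for one step `[x, y)`: the set is given by the bits of `f`, it has at least `n` elements -/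
noncomputable def okS (nice : Bool) (k M : ℕ) (qs ms : List ℕ) (x y n f : ℕ) : Bool :=
  frc x fun x' => frc y fun y' => frl (sel f ms) fun L => frc (bm L) fun F => cond (Nat.ble n (ln L)) (okE nice k M x' y' F qs L) false

/-- the check for a table of steps -/
noncomputable def chk (nice : Bool) (k M : ℕ) (qs ms : List ℕ) (x : ℕ) (T : List (ℕ × ℕ × ℕ)) : Bool :=
  List.rec (motive := fun _ => ℕ → Bool) (fun _ => true)
    (fun e _ ih x => cond (Nat.ble x e.1) (cond (okS nice k M qs ms x e.1 e.2.1 e.2.2) (ih e.1) false) false) T x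

theorem chk_cons {nice : Bool} {k M : ℕ} {qs ms : List ℕ} {x : ℕ} {e : ℕ × ℕ × ℕ} {t : List (ℕ × ℕ × ℕ)}
    (h : chk nice k M qs ms x (e :: t) = true) : x ≤ e.1 ∧ okS nice k M qs ms x e.1 e.2.1 e.2.2 = true ∧ chk nice k M qs ms e.1 t = true := by
  have h1 : cond (Nat.ble x e.1) (cond (okS nice k M qs ms x e.1 e.2.1 e.2.2) (chk nice k M qs ms e.1 t) false) false = true := h
  cases h2 : Nat.ble x e.1 with
  | false =>
    rw [h2] at h1
    exact absurd h1 (by simp)
  | true =>
    cases h3 : okS nice k M qs ms x e.1 e.2.1 e.2.2 with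
    | false =>
      rw [h2, h3] at h1
      exact absurd h1 (by simp)
    | true =>
      rw [h2, h3] at h1
      exact ⟨Nat.le_of_ble_eq_true h2, rfl, h1⟩

theorem frl_eq {α : Type} : ∀ (l : List ℕ) (f : List ℕ → α), frl l f = f l
  | [], _ => rfl
  | x :: l, f => by
    have h := frl_eq l (fun ys => f (x :: ys))
    show frc x (fun x' => frl l fun ys => f (x' :: ys)) = f (x :: l)
    rw [frc_eq]
    exact h

theorem sel_cons (f x : ℕ) (l : List ℕ) : sel f (x :: l) = cond (Nat.beq (f % 2) 1) (x :: sel (f / 2) l) (sel (f / 2) l) := by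
  show frc f (fun f' => cond (Nat.beq (f' % 2) 1) (x :: sel (f' / 2) l) (sel (f' / 2) l)) = _
  rw [frc_eq]

theorem sel_sublist : ∀ (l : List ℕ) (f : ℕ), (sel f l).Sublist l
  | [], _ => List.Sublist.refl _
  | x :: l, f => by
    rw [sel_cons]
    cases Nat.beq (f % 2) 1
    · exact (sel_sublist l (f / 2)).cons x
    · exact (sel_sublist l (f / 2)).cons_cons x

theorem bm_bit : ∀ (l : List ℕ) (s : ℕ), s ∈ l → bm l / 2 ^ s % 2 = 1
  | [], s, hs => absurd hs (by simp)
  | a :: l, s, hs => by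
    have h1 : bm (a :: l) = 2 ^ a ||| bm l := rfl
    have h2 : (bm (a :: l)).testBit s = true := by
      rw [h1, Nat.testBit_or, Nat.testBit_two_pow]
      rcases List.mem_cons.1 hs with h3 | h3
      · rw [h3]
        simp
      · have h4 := bm_bit l s h3
        have h5 : (bm l).testBit s = true := by
          rw [Nat.testBit_eq_decide_div_mod_eq, h4]
          rfl
        rw [h5, Bool.or_true]
    rw [Nat.testBit_eq_decide_div_mod_eq] at h2
    exact of_decide_eq_true h2

theorem cq_eq (s F : ℕ) : ∀ l : List ℕ, cq s F l = (l.filter (fun q => Nat.beq (s % q) 0 && Nat.beq (F / 2 ^ (s / q) % 2) 1)).length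
  | [] => rfl
  | t :: l => by
    have h : cq s F (t :: l) = cond (Nat.beq (s % t) 0) (cond (Nat.beq ((F >>> (s / t)) % 2) 1) (Nat.succ (cq s F l)) (cq s F l)) (cq s F l) := rfl
    rw [h, Nat.shiftRight_eq_div_pow]
    rw [List.filter_cons, cq_eq s F l]
    cases Nat.beq (s % t) 0
    · rfl
    · cases Nat.beq (F / 2 ^ (s / t) % 2) 1
      · rfl
      · rfl

theorem okE_spec {nice : Bool} {k M x y F : ℕ} {qs : List ℕ} : ∀ l : List ℕ, okE nice k M x y F qs l = true → ∀ s ∈ l,
    s ≤ x ∧ y ≤ M * s ∧ cq s F qs + 1 + cond nice (exb k x s) 0 ≤ k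
  | [], _, s, hs => absurd hs (by simp)
  | a :: l, h, s, hs => by
    have h1 : cond (Nat.ble a x) (cond (Nat.ble y (M * a)) (cond (Nat.ble (cq a F qs + 1 + cond nice (exb k x a) 0) k)
      (okE nice k M x y F qs l) false) false) false = true := h
    cases h2 : Nat.ble a x with
    | false =>
      rw [h2] at h1
      exact absurd h1 (by simp)
    | true =>
      cases h3 : Nat.ble y (M * a) with
      | false =>
        rw [h2, h3] at h1
        exact absurd h1 (by simp)
      | true =>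
        cases h4 : Nat.ble (cq a F qs + 1 + cond nice (exb k x a) 0) k with
        | false =>
          rw [h2, h3, h4] at h1
          exact absurd h1 (by simp)
        | true =>
          rw [h2, h3, h4] at h1
          rcases List.mem_cons.1 hs with h5 | h5
          · rw [h5]
            exact ⟨Nat.le_of_ble_eq_true h2, Nat.le_of_ble_eq_true h3, Nat.le_of_ble_eq_true h4⟩
          · exact okE_spec l h1 s h5

theorem blt_lt {a b : ℕ} (h : Nat.blt a b = true) : a < b := by
  rwa [Nat.blt_eq] at h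

theorem blt_true {a b : ℕ} (h : a < b) : Nat.blt a b = true := by
  rwa [Nat.blt_eq]

theorem exb_eq (k x s : ℕ) : exb k x s = ext k x s := by
  have h : exb k x s = (cond (Nat.beq (s % 2) 1) (cond (Nat.ble ((k + 1) * s) (2 * x)) 0 1) 0) +
    (cond (Nat.beq (s % 4) 0) 0 (cond (Nat.ble ((k + 1) * s) (4 * x)) 0 1)) := rfl
  rw [h]
  unfold ext
  congr 1
  · by_cases h1 : s % 2 = 1
    · by_cases h2 : 2 * x < (k + 1) * s
      · rw [if_pos ⟨h1, h2⟩, h1, Bool.eq_false_iff.2 (fun h => not_le.2 h2 (Nat.le_of_ble_eq_true h))]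
        rfl
      · rw [if_neg (fun h => h2 h.2), Nat.ble_eq_true_of_le (not_lt.1 h2)]
        simp
    · rw [if_neg (fun h => h1 h.1), Bool.eq_false_iff.2 (fun h => h1 (Nat.eq_of_beq_eq_true h))]
      rfl
  · by_cases h1 : s % 4 = 0
    · rw [if_neg (fun h => h.1 h1), h1]
      rfl
    · by_cases h2 : 4 * x < (k + 1) * s
      · rw [if_pos ⟨h1, h2⟩, Bool.eq_false_iff.2 (fun h => not_le.2 h2 (Nat.le_of_ble_eq_true h)),
          Bool.eq_false_iff.2 (fun h => h1 (Nat.eq_of_beq_eq_true h))]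
        rfl
      · rw [if_neg (fun h => h2 h.2), Nat.ble_eq_true_of_le (not_lt.1 h2)]
        simp

theorem ext_anti (k : ℕ) {x j : ℕ} (h : x ≤ j) (s : ℕ) : ext k j s ≤ ext k x s := by
  unfold ext
  refine Nat.add_le_add ?_ ?_
  · by_cases h1 : s % 2 = 1 ∧ 2 * j < (k + 1) * s
    · rw [if_pos h1, if_pos ⟨h1.1, by omega⟩]
    · rw [if_neg h1]
      exact Nat.zero_le _
  · by_cases h1 : s % 4 ≠ 0 ∧ 4 * j < (k + 1) * s
    · rw [if_pos h1, if_pos ⟨h1.1, by omega⟩]
    · rw [if_neg h1]
      exact Nat.zero_le _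

/-- the properties of the master list -/
structure Mas (P : ℕ) (ms : List ℕ) : Prop where
  nodup : ms.Nodup
  smo : ∀ s ∈ ms, Smo P s

/-- the check of the master list: increasing and smooth -/
def inc : ℕ → List ℕ → Bool
  | _, [] => true
  | x, y :: l => Nat.blt x y && inc y l

theorem inc_spec : ∀ (l : List ℕ) (x : ℕ), inc x l = true → (∀ s ∈ l, x < s) ∧ l.Nodup
  | [], _, _ => ⟨fun s hs => absurd hs (by simp), List.nodup_nil⟩
  | y :: l, x, h => by
    rw [inc, Bool.and_eq_true] at h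
    have h1 := blt_lt h.1
    obtain ⟨h2, h3⟩ := inc_spec l y h.2
    refine ⟨?_, List.nodup_cons.2 ⟨fun hy => absurd (h2 y hy) (lt_irrefl y), h3⟩⟩
    intro s hs
    rcases List.mem_cons.1 hs with h4 | h4
    · rw [h4]
      exact h1
    · exact h1.trans (h2 s h4)

theorem mas_of (P : ℕ) (ms : List ℕ) (h1 : inc 0 ms = true) (h2 : (ms.all fun s => Nat.beq (P ^ 15 % s) 0) = true) : Mas P ms := by
  obtain ⟨h3, h4⟩ := inc_spec ms 0 h1
  refine ⟨h4, ?_⟩
  intro s hs
  rw [List.all_eq_true] at h2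
  have h5 := h3 s hs
  refine ⟨by omega, ?_⟩
  intro p hp hd
  exact hp.dvd_of_dvd_pow (hd.trans (Nat.dvd_of_mod_eq_zero (Nat.eq_of_beq_eq_true (h2 s hs))))

theorem okS_spec {nice : Bool} {k P M x y j n f : ℕ} {qs ms : List ℕ} (hm : Mas P ms) (hq : ∀ q, 2 ≤ q → q < M → q ∈ qs)
    (h : okS nice k M qs ms x y n f = true) (h1 : x ≤ j) (h2 : j < y) :
    ∃ A : Finset ℕ, A ⊆ cell P M j ∧ n ≤ A.card ∧ KMultipleFree k A ∧ (nice = true → Nice k j A) := by
  classical
  unfold okS at h
  rw [frc_eq, frc_eq, frl_eq, frc_eq] at h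
  have hn : n ≤ (sel f ms).length := by
    cases h3 : Nat.ble n (ln (sel f ms)) with
    | false =>
      rw [h3] at h
      exact absurd h (by simp)
    | true =>
      rw [← ln_eq]
      exact Nat.le_of_ble_eq_true h3
  have h : okE nice k M x y (bm (sel f ms)) qs (sel f ms) = true := by
    cases h3 : Nat.ble n (ln (sel f ms)) with
    | false =>
      rw [h3] at h
      exact absurd h (by simp)
    | true =>
      rw [h3] at h
      exact h
  have h := okE_spec _ h
  have hsub := sel_sublist ms f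
  have hnd : (sel f ms).Nodup := hm.nodup.sublist hsub
  have hpos : ∀ s ∈ sel f ms, 1 ≤ s := fun s hs => Nat.one_le_iff_ne_zero.2 (hm.smo s (hsub.subset hs)).1
  have hcnt : ∀ s ∈ (sel f ms).toFinset, ((sel f ms).toFinset.filter (fun b => b ∣ s ∧ b ≠ s)).card ≤ cq s (bm (sel f ms)) qs := by
    intro s hs
    rw [List.mem_toFinset] at hs
    rw [cq_eq]
    have hs1 := hpos s hs
    have hsx := (h s hs).1
    have key : ∀ b ∈ (sel f ms).toFinset.filter (fun b => b ∣ s ∧ b ≠ s), b ∈ sel f ms ∧ 0 < b ∧ s = b * (s / b) ∧ b ≠ s := by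
      intro b hb
      rw [Finset.mem_filter, List.mem_toFinset] at hb
      exact ⟨hb.1, Nat.pos_of_dvd_of_pos hb.2.1 hs1, (Nat.mul_div_cancel' hb.2.1).symm, hb.2.2⟩
    refine le_trans ?_ (List.toFinset_card_le _)
    refine Finset.card_le_card_of_injOn (fun b => s / b) ?_ ?_
    · intro b hb
      obtain ⟨h3, h4, h5, h6⟩ := key b (Finset.mem_coe.1 hb)
      have h7 := (h b h3).2.1
      have h8 : s / b < M := by
        rw [Nat.div_lt_iff_lt_mul h4]
        omega
      have h9 : s / b ≠ 0 := by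
        intro h
        rw [h, mul_zero] at h5
        omega
      have h10 : s / b ≠ 1 := by
        intro h
        rw [h, mul_one] at h5
        exact h6 h5.symm
      have h11 : ∀ q : ℕ, q ≠ 0 → q ≠ 1 → 2 ≤ q := by
        intro q _ _
        omega
      have h12 : s / (s / b) = b := Nat.div_eq_of_eq_mul_left (Nat.pos_of_ne_zero h9) h5
      show s / b ∈ (((qs.filter (fun q => Nat.beq (s % q) 0 && Nat.beq (bm (sel f ms) / 2 ^ (s / q) % 2) 1)).toFinset : Finset ℕ) : Set ℕ)
      rw [Finset.mem_coe, List.mem_toFinset, List.mem_filter]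
      refine ⟨hq _ (h11 _ h9 h10) h8, ?_⟩
      rw [h12, bm_bit _ b h3, Nat.mod_eq_zero_of_dvd (Dvd.intro_left b h5.symm)]
      rfl
    · intro b hb c hc hbc
      obtain ⟨_, h2, h3, _⟩ := key b (Finset.mem_coe.1 hb)
      obtain ⟨_, h4, h5, _⟩ := key c (Finset.mem_coe.1 hc)
      have hbc' : s / b = s / c := hbc
      have h6 : 0 < s / c := by
        rcases Nat.eq_zero_or_pos (s / c) with h | h
        · rw [h, mul_zero] at h5
          omega
        · exact h
      rw [hbc'] at h3
      exact Nat.eq_of_mul_eq_mul_right h6 (h3.symm.trans h5)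
  refine ⟨(sel f ms).toFinset, ?_, ?_, ?_, ?_⟩
  · intro s hs
    rw [List.mem_toFinset] at hs
    have h5 := hm.smo s (hsub.subset hs)
    obtain ⟨a1, a2, _⟩ := h s hs
    rw [mem_cell]
    refine ⟨⟨Nat.one_le_iff_ne_zero.2 h5.1, by omega⟩, h5, ?_⟩
    rw [mul_comm]
    omega
  · rw [List.toFinset_card_of_nodup hnd]
    exact hn
  · rw [kmf_iff]
    intro s hs
    have h4 := hcnt s hs
    have h5 := (h s (List.mem_toFinset.1 hs)).2.2
    omega
  · intro hnice s hs
    have h4 := hcnt s hs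
    have h5 := (h s (List.mem_toFinset.1 hs)).2.2
    rw [hnice, cond_true, exb_eq] at h5
    have h6 := ext_anti k h1 s
    omega

theorem chl_fa {k P M : ℕ} {qs ms : List ℕ} (hm : Mas P ms) (hq : ∀ q, 2 ≤ q → q < M → q ∈ qs) :
    ∀ (T : List (ℕ × ℕ × ℕ)) (x : ℕ), chk false k M qs ms x T = true → ChL (fa k P M) x (T.map fun e => (e.1, e.2.1))
  | [], _, _ => trivial
  | e :: t, x, h => by
    obtain ⟨h0, h6, h7⟩ := chk_cons h
    refine ⟨h0, ?_, chl_fa hm hq t e.1 h7⟩
    intro j h1 h2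
    obtain ⟨A, h3, h4, h5, _⟩ := okS_spec hm hq h6 h1 h2
    exact h4.trans (le_opt h3 h5)

theorem chl_fn {k P M : ℕ} {qs ms : List ℕ} (hm : Mas P ms) (hq : ∀ q, 2 ≤ q → q < M → q ∈ qs) :
    ∀ (T : List (ℕ × ℕ × ℕ)) (x : ℕ), chk true k M qs ms x T = true → ChL (fn k P M) x (T.map fun e => (e.1, e.2.1))
  | [], _, _ => trivial
  | e :: t, x, h => by
    obtain ⟨h0, h6, h7⟩ := chk_cons h
    refine ⟨h0, ?_, chl_fn hm hq t e.1 h7⟩
    intro j h1 h2
    obtain ⟨A, h3, h4, _, h5⟩ := okS_spec hm hq h6 h1 h2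
    exact h4.trans (le_fn h3 (h5 rfl))

/-- the possible quotients for `M = 11` -/
def qs11 : List ℕ := [2, 3, 4, 5, 6, 7, 8, 9, 10]

/-- the possible quotients for `M = 17` -/
def qs17 : List ℕ := [2, 3, 4, 5, 6, 7, 8, 9, 10, 11, 12, 13, 14, 15, 16]

theorem qs11_spec : ∀ q, 2 ≤ q → q < 11 → q ∈ qs11 := by
  intro q h1 h2
  interval_cases q <;> simp [qs11]

theorem qs17_spec : ∀ q, 2 ≤ q → q < 17 → q ∈ qs17 := by
  intro q h1 h2
  interval_cases q <;> simp [qs17]

end Pool.Agent.H36.KW
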