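import Pool.Agent.H36.KW.Low2

/-!
# KW Low3: the lower bound in terms of finite sums
-/

set_option autoImplicit false

namespace Pool.Agent.H36.KW

open Pool.Agent.H96.KMF Pool.Agent.H36.K3 Filter Topology

theorem gk_self (n : ℕ) : n ≤ gk (n + 1) n := by
  classical
  rw [gk_eq_opt]
  have h : KMultipleFree (n + 1) (Finset.Icc 1 n) := by
    rw [kmf_iff]
    intro a _
    refine lt_of_le_of_lt (Finset.card_filter_le _ _) ?_
    simp
  have h2 := le_opt (Finset.Subset.refl (Finset.Icc 1 n)) h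
  simpa using h2

theorem cc_total (k P n : ℕ) : n ≤ (∑ m ∈ rgh P n, cc k P (n / m)) + n / (k + 1) := by
  have h1 := gk_le_GG (n + 1) P (k + 1) n (by omega)
  have h2 : GG (n + 1) P (k + 1) n ≤ ∑ m ∈ rgh P n, cc k P (n / m) := by
    unfold GG cc
    exact Finset.sum_le_sum fun m _ => opt_le_card _ _
  have h3 := gk_self n
  omega

theorem sum_cc_ge (k P : ℕ) (hP : 0 < P) :
    1 - 1 / ((k : ℝ) + 1) ≤ (Nat.totient P : ℝ) / (P : ℕ) * ∑' j : ℕ, ((cc k P j : ℕ) : ℝ) / (j * (j + 1)) := by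
  have h1 := tendsto_sum (fun j => ((cc k P j : ℕ) : ℝ)) (2 ^ (Nat.primesBelow (P + 1)).card) (by positivity)
    (fun j => by positivity) (fun j => cell_card_le P (k + 1) j hP) P hP
  refine ge_of_tendsto h1 ?_
  filter_upwards [eventually_gt_atTop 0] with n hn
  have hnr : (0 : ℝ) < n := by exact_mod_cast hn
  rw [le_div_iff₀ hnr]
  have h2 : ((n : ℕ) : ℝ) ≤ (∑ m ∈ rgh P n, ((cc k P (n / m) : ℕ) : ℝ)) + ((n / (k + 1) : ℕ) : ℝ) := by
    exact_mod_cast cc_total k P n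
  have h3 : ((n / (k + 1) : ℕ) : ℝ) ≤ (n : ℝ) / ((k + 1 : ℕ) : ℝ) := Nat.cast_div_le
  push_cast at h3
  have h4 : (1 - 1 / ((k : ℝ) + 1)) * n = n - n / ((k : ℝ) + 1) := by ring
  rw [h4]
  linarith

/-- the summand of the list sum -/
def trm (k A J s : ℕ) : ℚ :=
  if max s A ≤ min ((k + 1) * s) J then 1 / ((max s A : ℕ) : ℚ) - 1 / ((min ((k + 1) * s) J : ℕ) : ℚ) else 0

/-- an upper bound for the sum of `cc j / (j (j+1))` over `[A, J)` -/
theorem ws_cc_le (k P A J : ℕ) (l : List ℕ) (hJ : J ≤ 2 ^ 15) (hc : cov P (J - 1) l = true) (hn : l.Nodup)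
    (h0 : ∀ s ∈ l, 1 ≤ s) : ws (cc k P) A J ≤ ((l.map (trm k A J)).sum : ℚ) := by
  classical
  have hmem : ∀ s, 1 ≤ s → s < J → Smo P s → s ∈ l := fun s h1 h2 hs => cov_spec (by omega) hc s (by omega) hs
  have hstep : ∀ j ∈ Finset.Ico A J, wt (cc k P) j ≤ ∑ s ∈ l.toFinset, if s ≤ j ∧ j < (k + 1) * s then (1 : ℝ) / (j * (j + 1)) else 0 := by
    intro j hj
    rw [Finset.mem_Ico] at hj
    rw [← Finset.sum_filter, Finset.sum_const, nsmul_eq_mul, mul_one_div]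
    unfold wt
    apply div_le_div_of_nonneg_right _ (by positivity)
    have h5 : cc k P j ≤ (l.toFinset.filter (fun s => s ≤ j ∧ j < (k + 1) * s)).card := by
      refine Finset.card_le_card ?_
      intro s hs
      rw [mem_cell] at hs
      rw [Finset.mem_filter, List.mem_toFinset]
      refine ⟨hmem s hs.1.1 (by omega) hs.2.1, hs.1.2, ?_⟩
      rw [mul_comm]
      exact hs.2.2
    exact_mod_cast h5
  have h1 : ws (cc k P) A J ≤ ∑ s ∈ l.toFinset, ∑ j ∈ Finset.Ico A J, if s ≤ j ∧ j < (k + 1) * s then (1 : ℝ) / (j * (j + 1)) else 0 := by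
    rw [Finset.sum_comm]
    exact Finset.sum_le_sum hstep
  have h2 : ∀ s ∈ l.toFinset, (∑ j ∈ Finset.Ico A J, if s ≤ j ∧ j < (k + 1) * s then (1 : ℝ) / (j * (j + 1)) else 0) ≤
      ((trm k A J s : ℚ) : ℝ) := by
    intro s hs
    rw [List.mem_toFinset] at hs
    have h3 := h0 s hs
    rw [← Finset.sum_filter]
    have h5 : (Finset.Ico A J).filter (fun j => s ≤ j ∧ j < (k + 1) * s) ⊆ Finset.Ico (max s A) (min ((k + 1) * s) J) := by
      intro j hj
      rw [Finset.mem_filter, Finset.mem_Ico] at hj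
      rw [Finset.mem_Ico]
      exact ⟨max_le hj.2.1 hj.1.1, lt_min hj.2.2 hj.1.2⟩
    refine (Finset.sum_le_sum_of_subset_of_nonneg h5 (fun j _ _ => by positivity)).trans ?_
    unfold trm
    by_cases h4 : max s A ≤ min ((k + 1) * s) J
    · rw [if_pos h4, sum_tele (le_max_of_le_left h3) h4]
      push_cast
      exact le_rfl
    · rw [if_neg h4, Finset.Ico_eq_empty (by omega)]
      simp
  refine (h1.trans (Finset.sum_le_sum h2)).trans (le_of_eq ?_)
  rw [List.sum_toFinset _ hn, Rat.cast_list_sum, List.map_map]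
  rfl

/-- regrouping, the other direction -/
theorem ws_scale_ge (f g : ℕ → ℕ) (p a : ℕ) (hp : 1 ≤ p) (ha : 1 ≤ a) (h : ∀ q r, a ≤ q → r < p → g q ≤ f (p * q + r)) :
    ∀ N, a ≤ N → ws g a N / p ≤ ws f (p * a) (p * N) := by
  intro N hN
  induction N, hN using Nat.le_induction with
  | base => simp [ws]
  | succ N hN ih =>
    have h1 : p * N ≤ p * (N + 1) := Nat.mul_le_mul_left _ (Nat.le_succ _)
    rw [← ws_add f (Nat.mul_le_mul_left _ hN) h1, ← ws_add g hN (Nat.le_succ N), add_div]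
    refine add_le_add ih ?_
    have h2 : (g N : ℝ) * (1 / ((p * N : ℕ) : ℝ) - 1 / ((p * (N + 1) : ℕ) : ℝ)) ≤ ws f (p * N) (p * (N + 1)) := by
      refine le_ws (Nat.one_le_iff_ne_zero.2 (by
        have : 0 < p * N := Nat.mul_pos hp (ha.trans hN)
        omega)) h1 ?_
      intro j hj1 hj2
      have h3 := h N (j - p * N) hN (by
        rw [Nat.mul_succ] at hj2
        omega)
      rwa [Nat.add_sub_cancel' hj1] at h3
    have h4 : ws g N (N + 1) = (g N : ℝ) / (N * (N + 1)) := by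
      unfold ws wt
      rw [Finset.sum_Ico_succ_top le_rfl]
      simp
    rw [h4]
    refine le_trans (le_of_eq ?_) h2
    have hN0 : (N : ℝ) ≠ 0 := by
      have : 0 < N := by omega
      positivity
    have hp0 : (p : ℝ) ≠ 0 := by positivity
    have hN1 : (N : ℝ) + 1 ≠ 0 := by positivity
    push_cast
    field_simp
    ring

theorem ws_iter {k P M : ℕ} (hk : 1 ≤ k) (hk5 : k ≤ 5) (h2 : Smo P 2) (hM : k + 1 ≤ M) (a : ℕ) (ha : 1 ≤ a) (r : ℕ) :
    (1 - (1 / 2 : ℝ) ^ r) * ws (dn k P M) a (2 * a) ≤ ws (da k P M) (2 * a) (2 ^ r * (2 * a)) := by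
  induction r with
  | zero => simp [ws]
  | succ r ih =>
    have hp : 1 ≤ 2 ^ (r + 1) := Nat.one_le_two_pow
    have h0 : 2 * a ≤ 2 ^ r * (2 * a) := Nat.le_mul_of_pos_left _ Nat.one_le_two_pow
    have h1 := ws_scale_ge (da k P M) (dn k P M) (2 ^ (r + 1)) a hp ha (fun q s hq hs => dn_dyadic hk hk5 h2 hM
      (Nat.le_add_right _ _) (by rw [Nat.mul_succ]; omega)) (2 * a) (by omega)
    have h3 : 2 ^ (r + 1) * a = 2 ^ r * (2 * a) := by ring
    rw [h3] at h1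
    have h4 := ws_add (da k P M) (x := 2 * a) (y := 2 ^ r * (2 * a)) (z := 2 ^ (r + 1) * (2 * a)) h0 (by
      rw [pow_succ]
      calc 2 ^ r * (2 * a) = 2 ^ r * (2 * a) * 1 := by ring
        _ ≤ 2 ^ r * (2 * a) * 2 := Nat.mul_le_mul_left _ (by norm_num)
        _ = 2 ^ r * 2 * (2 * a) := by ring)
    rw [← h4]
    have h5 : (1 - (1 / 2 : ℝ) ^ (r + 1)) * ws (dn k P M) a (2 * a) = (1 - (1 / 2 : ℝ) ^ r) * ws (dn k P M) a (2 * a) +
        ws (dn k P M) a (2 * a) / ((2 ^ (r + 1) : ℕ) : ℝ) := by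
      push_cast
      rw [one_div, inv_pow, inv_pow, pow_succ]
      have : (2 : ℝ) ^ r ≠ 0 := by positivity
      field_simp
      ring
    rw [h5]
    exact add_le_add ih h1

theorem fa_eq {k P M : ℕ} (hk : 1 ≤ k) (hM : k + 1 ≤ M) (j : ℕ) : fa k P M j = cc k P j + da k P M j := by
  have h1 := cc_le_fa (P := P) hk hM j
  unfold da
  omega

theorem ws_eq_add (f g h : ℕ → ℕ) (hf : ∀ j, f j = g j + h j) (x y : ℕ) : ws f x y = ws g x y + ws h x y := by
  unfold ws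
  rw [← Finset.sum_add_distrib]
  refine Finset.sum_congr rfl fun j _ => ?_
  unfold wt
  rw [hf j]
  push_cast
  ring

theorem ws_le_add (f g h : ℕ → ℕ) (hf : ∀ j, f j ≤ g j + h j) (x y : ℕ) : ws f x y ≤ ws g x y + ws h x y := by
  unfold ws
  rw [← Finset.sum_add_distrib]
  refine Finset.sum_le_sum fun j _ => ?_
  unfold wt
  rw [← add_div]
  apply div_le_div_of_nonneg_right _ (by positivity)
  exact_mod_cast hf j

/-- the lower bound in terms of finite sums -/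
theorem lower_aux (k P M : ℕ) (hk : 1 ≤ k) (hk5 : k ≤ 5) (hP : 0 < P) (h2P : 2 ∣ P) (hM : k + 1 ≤ M)
    (hMp : ∀ p, p.Prime → p < M → p ∣ P) (c : ℝ) (hc : Tendsto (fun n : ℕ => (gk k n : ℝ) / n) atTop (𝓝 c)) (a r : ℕ) (ha : 1 ≤ a) :
    1 - 1 / ((k : ℝ) + 1) + (Nat.totient P : ℝ) / (P : ℕ) * ((ws (fa k P M) 1 (2 * a) - ws (cc k P) 1 (2 * a)) +
      (1 - (1 / 2 : ℝ) ^ r) * (ws (fn k P M) a (2 * a) - ws (cc k P) a (2 * a))) ≤ c := by
  have h2 : Smo P 2 := by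
    refine ⟨by norm_num, ?_⟩
    intro p hp hd
    exact hd.trans h2P
  have hfa : ∀ j : ℕ, ((fa k P M j : ℕ) : ℝ) ≤ 2 ^ (Nat.primesBelow (P + 1)).card * Real.sqrt j := by
    intro j
    have h1 : ((fa k P M j : ℕ) : ℝ) ≤ ((cell P M j).card : ℝ) := by exact_mod_cast opt_le_card k _
    exact h1.trans (cell_card_le P M j hP)
  have hda : ∀ j : ℕ, ((da k P M j : ℕ) : ℝ) ≤ 2 ^ (Nat.primesBelow (P + 1)).card * Real.sqrt j := by
    intro j
    have h1 : ((da k P M j : ℕ) : ℝ) ≤ ((fa k P M j : ℕ) : ℝ) := by exact_mod_cast Nat.sub_le _ _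
    exact h1.trans (hfa j)
  have h1 := tendsto_sum (fun j => ((fa k P M j : ℕ) : ℝ)) (2 ^ (Nat.primesBelow (P + 1)).card) (by positivity)
    (fun j => by positivity) hfa P hP
  have h3 : (Nat.totient P : ℝ) / (P : ℕ) * ∑' j : ℕ, ((fa k P M j : ℕ) : ℝ) / (j * (j + 1)) ≤ c := by
    refine le_of_tendsto_of_tendsto' h1 hc fun n => ?_
    refine div_le_div_of_nonneg_right ?_ (Nat.cast_nonneg n)
    have h3 := GG_le_gk k P M n hMp
    unfold GG at h3
    exact_mod_cast h3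
  have s1 := summable_series (fun j => ((cc k P j : ℕ) : ℝ)) _ (fun j => by positivity) (fun j => cell_card_le P (k + 1) j hP)
  have s2 := summable_series (fun j => ((da k P M j : ℕ) : ℝ)) _ (fun j => by positivity) hda
  have e1 : ∑' j : ℕ, ((fa k P M j : ℕ) : ℝ) / (j * (j + 1)) = ∑' j : ℕ, ((cc k P j : ℕ) : ℝ) / (j * (j + 1)) +
      ∑' j : ℕ, ((da k P M j : ℕ) : ℝ) / (j * (j + 1)) := by
    rw [← s1.tsum_add s2]
    refine tsum_congr fun j => ?_
    rw [fa_eq hk hM j]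
    push_cast
    ring
  have h4 := sum_cc_ge k P hP
  have hq : 0 ≤ (Nat.totient P : ℝ) / (P : ℕ) := by positivity
  have h6 : ws (da k P M) 1 (2 ^ r * (2 * a)) ≤ ∑' j : ℕ, ((da k P M j : ℕ) : ℝ) / (j * (j + 1)) := by
    unfold ws wt
    exact s2.sum_le_tsum _ (fun j _ => by positivity)
  have hp : 1 ≤ 2 ^ r := Nat.one_le_two_pow
  have h7 := ws_add (da k P M) (x := 1) (y := 2 * a) (z := 2 ^ r * (2 * a)) (by omega) (Nat.le_mul_of_pos_left _ hp)
  have h9 := ws_iter hk hk5 h2 hM a ha r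
  have h10 := ws_eq_add (fa k P M) (cc k P) (da k P M) (fa_eq hk hM) 1 (2 * a)
  have h11 := ws_le_add (fn k P M) (cc k P) (dn k P M) (fun j => by unfold dn; omega) a (2 * a)
  have hr : 0 ≤ 1 - (1 / 2 : ℝ) ^ r := by
    have := pow_le_one₀ (n := r) (by norm_num : (0 : ℝ) ≤ 1 / 2) (by norm_num)
    linarith
  have h12 : (1 - (1 / 2 : ℝ) ^ r) * (ws (fn k P M) a (2 * a) - ws (cc k P) a (2 * a)) ≤
      (1 - (1 / 2 : ℝ) ^ r) * ws (dn k P M) a (2 * a) := mul_le_mul_of_nonneg_left (by linarith) hr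
  rw [e1, mul_add] at h3
  have h13 : (Nat.totient P : ℝ) / (P : ℕ) * ((ws (fa k P M) 1 (2 * a) - ws (cc k P) 1 (2 * a)) +
      (1 - (1 / 2 : ℝ) ^ r) * (ws (fn k P M) a (2 * a) - ws (cc k P) a (2 * a))) ≤
      (Nat.totient P : ℝ) / (P : ℕ) * ∑' j : ℕ, ((da k P M j : ℕ) : ℝ) / (j * (j + 1)) := by
    refine mul_le_mul_of_nonneg_left ?_ hq
    linarith
  linarith

end Pool.Agent.H36.KW
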