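import Pool.Agent.H36.KW.Fc2

/-!
# KW Ma3: the 3-smooth numbers up to 19683, divisors first
-/

set_option autoImplicit false
set_option maxRecDepth 100000

namespace Pool.Agent.H36.KW

open Pool.Agent.H96.KMF Pool.Agent.H36.K3

/-- the 3-smooth numbers up to 19683 -/
def ma3 : List ℕ :=
  [1, 2, 4, 8, 16, 32, 64, 128, 256, 512, 1024, 2048, 4096, 8192, 16384, 3, 6, 12, 24, 48, 96, 192, 384, 768, 1536, 3072, 6144, 12288, 9, 18, 36, 72,
    144, 288, 576, 1152, 2304, 4608, 9216, 18432, 27, 54, 108, 216, 432, 864, 1728, 3456, 6912, 13824, 81, 162, 324, 648, 1296, 2592, 5184, 10368,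
    243, 486, 972, 1944, 3888, 7776, 15552, 729, 1458, 2916, 5832, 11664, 2187, 4374, 8748, 17496, 6561, 13122, 19683]

theorem cov_ma3 : cov 6 19683 ma3 = true := by decide +kernel

theorem ord_ma3 : ordc ma3 = true := by decide +kernel

end Pool.Agent.H36.KW
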