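import Pool.Agent.H36.KW.Fc2

/-!
# KW Ma5: the 5-smooth numbers up to 4999, divisors first
-/

set_option autoImplicit false
set_option maxRecDepth 100000

namespace Pool.Agent.H36.KW

open Pool.Agent.H96.KMF Pool.Agent.H36.K3

/-- the 5-smooth numbers up to 4999 -/
def ma5 : List ℕ :=
  [1, 2, 4, 8, 16, 32, 64, 128, 256, 512, 1024, 2048, 4096, 3, 6, 12, 24, 48, 96, 192, 384, 768, 1536, 3072, 9, 18, 36, 72, 144, 288, 576, 1152, 2304,
    4608, 27, 54, 108, 216, 432, 864, 1728, 3456, 81, 162, 324, 648, 1296, 2592, 243, 486, 972, 1944, 3888, 729, 1458, 2916, 2187, 4374, 5, 10, 20,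
    40, 80, 160, 320, 640, 1280, 2560, 15, 30, 60, 120, 240, 480, 960, 1920, 3840, 45, 90, 180, 360, 720, 1440, 2880, 135, 270, 540, 1080, 2160, 4320,
    405, 810, 1620, 3240, 1215, 2430, 4860, 3645, 25, 50, 100, 200, 400, 800, 1600, 3200, 75, 150, 300, 600, 1200, 2400, 4800, 225, 450, 900, 1800,
    3600, 675, 1350, 2700, 2025, 4050, 125, 250, 500, 1000, 2000, 4000, 375, 750, 1500, 3000, 1125, 2250, 4500, 3375, 625, 1250, 2500, 1875, 3750,
    3125]

theorem cov_ma5 : cov 30 4999 ma5 = true := by decide +kernel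

theorem ord_ma5 : ordc ma5 = true := by decide +kernel

end Pool.Agent.H36.KW
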