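import Pool.Agent.H36.KW.Fc2

/-!
# KW Ma7: the 7-smooth numbers up to 1399, divisors first
-/

set_option autoImplicit false
set_option maxRecDepth 100000

namespace Pool.Agent.H36.KW

open Pool.Agent.H96.KMF Pool.Agent.H36.K3

/-- the 7-smooth numbers up to 1399 -/
def ma7 : List ℕ :=
  [1, 2, 4, 8, 16, 32, 64, 128, 256, 512, 1024, 3, 6, 12, 24, 48, 96, 192, 384, 768, 9, 18, 36, 72, 144, 288, 576, 1152, 27, 54, 108, 216, 432, 864, 81,
    162, 324, 648, 1296, 243, 486, 972, 729, 5, 10, 20, 40, 80, 160, 320, 640, 1280, 15, 30, 60, 120, 240, 480, 960, 45, 90, 180, 360, 720, 135, 270,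
    540, 1080, 405, 810, 1215, 25, 50, 100, 200, 400, 800, 75, 150, 300, 600, 1200, 225, 450, 900, 675, 1350, 125, 250, 500, 1000, 375, 750, 1125,
    625, 1250, 7, 14, 28, 56, 112, 224, 448, 896, 21, 42, 84, 168, 336, 672, 1344, 63, 126, 252, 504, 1008, 189, 378, 756, 567, 1134, 35, 70, 140,
    280, 560, 1120, 105, 210, 420, 840, 315, 630, 1260, 945, 175, 350, 700, 525, 1050, 875, 49, 98, 196, 392, 784, 147, 294, 588, 1176, 441, 882,
    1323, 245, 490, 980, 735, 1225, 343, 686, 1372, 1029]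

theorem cov_ma7 : cov 210 1399 ma7 = true := by decide +kernel

theorem ord_ma7 : ordc ma7 = true := by decide +kernel

end Pool.Agent.H36.KW
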