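import Pool.Agent.H36.KW.Star

/-!
# KW Sdf: a search for the largest `k`-multiple-free subset of a finite list

The elements of the list are processed in an order in which divisors come first.  A state is a natural number whose `p`-th group of
`k + 1` bits describes the number of chosen divisors of the `p`-th remaining element in unary: bit `r` is set if it is at least `r + 1`.
By the rigidity property an element with `1, ..., k - 1` chosen divisors has to be chosen, an element with `k` chosen divisors is impossible.
-/

set_option autoImplicit false

namespace Pool.Agent.H36.KW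

/-- `f n`, the kernel evaluates `n` first -/
def frc {α : Type} (n : ℕ) (f : ℕ → α) : α :=
  match n with
  | 0 => f 0
  | Nat.succ m => f (Nat.succ m)

/-- the bits (all of the group) of the elements of the list which are multiples of `x` -/
def vm (B x : ℕ) : List ℕ → ℕ
  | [] => 0
  | y :: ys => cond (Nat.beq (y % x) 0) ((B - 1) + B * vm B x ys) (B * vm B x ys)

/-- the same group `c` repeated `n` times -/
def rp (B c : ℕ) : ℕ → ℕ
  | 0 => 0
  | n + 1 => c + B * rp B c n

/-- the new state when the first element is chosen -/
def nst (B K O V s : ℕ) : ℕ := (s / B) ||| ((2 * ((s / B) &&& K) ||| O) &&& V)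

/-- `true` if (in the state `s`) it is impossible to choose `r` elements -/
noncomputable def sdf (B C K O : ℕ) (l : List (ℕ × ℕ)) : ℕ → ℕ → Bool :=
  List.rec (motive := fun _ => ℕ → ℕ → Bool) (fun _ r => Nat.ble 1 r)
    (fun e _ ih s r => cond (Nat.beq r 0) false
      (cond (Nat.ble r e.2)
        (frc s fun s' => frc (s' % B) fun g => cond (Nat.beq g 0)
          (cond (ih (nst B K O e.1 s') (r - 1)) (ih (s' / B) r) false)
          (cond (Nat.ble C g) (cond (Nat.beq g C) true (ih (s' / B) r)) (ih (nst B K O e.1 s') (r - 1))))
        true)) l

/-- The list of masks and bounds; the flag says whether the search is tried at this element. -/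
noncomputable def bnd (B C K O : ℕ) (l : List (ℕ × Bool)) : (List (ℕ × ℕ) → ℕ → List ℕ → ℕ) → ℕ :=
  List.rec (motive := fun _ => (List (ℕ × ℕ) → ℕ → List ℕ → ℕ) → ℕ) (fun k => k [] 0 [])
    (fun e _ ih k => ih fun t u ys => frc (vm B e.1 ys) fun V => frc (u + 1) fun u' =>
      cond (cond e.2 (sdf B C K O t (nst B K O V 0) u) false) (k ((V, u) :: t) u (e.1 :: ys)) (k ((V, u') :: t) u' (e.1 :: ys))) l

/-- the bound for a list -/
noncomputable def res (k : ℕ) (l : List (ℕ × Bool)) : ℕ :=
  frc (2 ^ (k + 1)) fun B => frc (2 ^ k - 1) fun C => frc (rp B C l.length) fun K => frc (rp B 1 l.length) fun O =>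
    bnd B C K O l fun _ u _ => u

end Pool.Agent.H36.KW
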