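import Pool.Agent.H36.KW.Sdf

/-!
# KW SdfSound: correctness of the search
-/

set_option autoImplicit false

namespace Pool.Agent.H36.KW

open Pool.Agent.H96.KMF

theorem frc_eq {α : Type} (n : ℕ) (f : ℕ → α) : frc n f = f n := by
  cases n <;> rfl

theorem testBit_div (w s q : ℕ) : (s / 2 ^ w).testBit q = s.testBit (w + q) := by
  have h := Nat.testBit_shiftRight s (i := w) (j := q)
  rw [Nat.shiftRight_eq_div_pow] at h
  exact h

/-- bits of a number with groups -/
theorem grp_zero (w c R r : ℕ) (hc : c < 2 ^ w) (hr : r < w) : (c + 2 ^ w * R).testBit (w * 0 + r) = c.testBit r := by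
  have h3 := Nat.testBit_two_pow_mul_add R (b := c) (i := w) hc (w * 0 + r)
  rw [if_pos (by omega)] at h3
  rw [show c + 2 ^ w * R = 2 ^ w * R + c by ring, h3]
  congr 1
  omega

theorem grp_succ (w c R p r : ℕ) (hc : c < 2 ^ w) (hr : r < w) : (c + 2 ^ w * R).testBit (w * (p + 1) + r) = R.testBit (w * p + r) := by
  have h3 := Nat.testBit_two_pow_mul_add R (b := c) (i := w) hc (w * (p + 1) + r)
  have h4 : w * (p + 1) = w * p + w := by ring
  rw [if_neg (by omega)] at h3
  rw [show c + 2 ^ w * R = 2 ^ w * R + c by ring, h3]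
  congr 1
  omega

theorem vm_testBit (w x : ℕ) : ∀ (ys : List ℕ) (p : ℕ) (hp : p < ys.length) (r : ℕ), r < w →
    (vm (2 ^ w) x ys).testBit (w * p + r) = decide (x ∣ ys[p])
  | [], p, hp, _, _ => by simp at hp
  | y :: ys, p, hp, r, hr => by
    have hB : 2 ^ w - 1 < 2 ^ w := Nat.sub_lt (by positivity) (by norm_num)
    have h0 : 0 < 2 ^ w := by positivity
    have hv : vm (2 ^ w) x (y :: ys) = (if x ∣ y then 2 ^ w - 1 else 0) + 2 ^ w * vm (2 ^ w) x ys := by
      rw [vm]
      by_cases hd : x ∣ y
      · rw [Nat.mod_eq_zero_of_dvd hd, if_pos hd]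
        rfl
      · have h1 : Nat.beq (y % x) 0 = false := by
          cases hb : Nat.beq (y % x) 0
          · rfl
          · exact absurd (Nat.dvd_of_mod_eq_zero (Nat.eq_of_beq_eq_true hb)) hd
        rw [h1, if_neg hd, cond_false, zero_add]
    have hc : (if x ∣ y then 2 ^ w - 1 else 0) < 2 ^ w := by
      split_ifs <;> omega
    rw [hv]
    cases p with
    | zero =>
      rw [grp_zero w _ _ r hc hr]
      by_cases hd : x ∣ y
      · rw [if_pos hd, Nat.testBit_two_pow_sub_one]
        simp [hd, hr]
      · rw [if_neg hd, Nat.zero_testBit]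
        simp [hd]
    | succ p =>
      rw [grp_succ w _ _ p r hc hr]
      exact vm_testBit w x ys p (by simpa using hp) r hr

theorem rp_testBit (w c : ℕ) (hc : c < 2 ^ w) : ∀ (n p r : ℕ), p < n → r < w → (rp (2 ^ w) c n).testBit (w * p + r) = c.testBit r
  | 0, _, _, h, _ => absurd h (Nat.not_lt_zero _)
  | n + 1, 0, r, _, hr => by
    rw [rp]
    exact grp_zero w c _ r hc hr
  | n + 1, p + 1, r, h, hr => by
    rw [rp, grp_succ w c _ p r hc hr]
    exact rp_testBit w c hc n p r (by omega) hr

/-- what a state says -/
def Exact (k : ℕ) (B : Finset ℕ) (xs : List ℕ) (s : ℕ) : Prop :=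
  ∀ (p : ℕ) (h : p < xs.length) (r : ℕ), r < k + 1 → s.testBit ((k + 1) * p + r) = decide (r + 1 ≤ nd B xs[p])

/-- all `k`-multiple-free subsets of the list have at most `u` elements -/
def Bd (k : ℕ) (xs : List ℕ) (u : ℕ) : Prop := ∀ A : Finset ℕ, A ⊆ xs.toFinset → KMultipleFree k A → A.card ≤ u

/-- no element divides an earlier one -/
def Ord (xs : List ℕ) : Prop := xs.Pairwise fun x y => ¬ y ∣ x

/-- the mask of the multiples of `x` -/
def Msk (k x : ℕ) (ys : List ℕ) (V : ℕ) : Prop :=
  ∀ (p : ℕ) (h : p < ys.length) (r : ℕ), r < k + 1 → V.testBit ((k + 1) * p + r) = decide (x ∣ ys[p])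

/-- what the list of masks and bounds says -/
def Ok (k : ℕ) : List ℕ → List (ℕ × ℕ) → Prop
  | [], [] => True
  | x :: ys, e :: t => Msk k x ys e.1 ∧ Bd k (x :: ys) e.2 ∧ Ok k ys t
  | _, _ => False

/-- the two constants -/
def Cst (k n K O : ℕ) : Prop :=
  (∀ p r : ℕ, p < n → r < k + 1 → K.testBit ((k + 1) * p + r) = decide (r < k)) ∧
  (∀ p r : ℕ, p < n → r < k + 1 → O.testBit ((k + 1) * p + r) = decide (r = 0))

theorem exact_skip {k : ℕ} {B : Finset ℕ} {x : ℕ} {ys : List ℕ} {s : ℕ} (h : Exact k B (x :: ys) s) :
    Exact k B ys (s / 2 ^ (k + 1)) := by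
  intro p hp r hr
  rw [testBit_div]
  have := h (p + 1) (by simpa using hp) r hr
  rw [show k + 1 + ((k + 1) * p + r) = (k + 1) * (p + 1) + r by ring]
  exact this

theorem nd_insert {B : Finset ℕ} {x y : ℕ} (hx : x ∉ B) : nd (insert x B) y = nd B y + if x ∣ y then 1 else 0 := by
  classical
  unfold nd
  rw [Finset.filter_insert]
  split_ifs with h
  · rw [Finset.card_insert_of_notMem]
    intro hm
    exact hx (Finset.mem_filter.1 hm).1
  · rfl

theorem exact_nst {k n : ℕ} {B : Finset ℕ} {x : ℕ} {ys : List ℕ} {s V K O : ℕ} (hxB : x ∉ B) (hlen : ys.length ≤ n)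
    (hC : Cst k n K O) (hV : Msk k x ys V) (h : Exact k B ys (s / 2 ^ (k + 1))) :
    Exact k (insert x B) ys (nst (2 ^ (k + 1)) K O V s) := by
  intro p hp r hr
  have hu := h p hp
  set u := s / 2 ^ (k + 1) with hu0
  unfold nst
  rw [← hu0, Nat.testBit_or, Nat.testBit_and, Nat.testBit_or, hV p hp r hr, hC.2 p r (by omega) hr, hu r hr, nd_insert hxB]
  have h2 : (2 * (u &&& K)).testBit ((k + 1) * p + r) = (decide (1 ≤ r) && decide (r ≤ nd B ys[p])) := by
    have h3 := Nat.testBit_two_pow_mul (i := 1) (a := u &&& K) (j := (k + 1) * p + r)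
    rw [pow_one] at h3
    rw [h3]
    cases r with
    | zero =>
      cases p with
      | zero => simp
      | succ p =>
        have h4 : (k + 1) * (p + 1) + 0 - 1 = (k + 1) * p + k := by
          have : (k + 1) * (p + 1) = (k + 1) * p + k + 1 := by ring
          omega
        rw [h4, Nat.testBit_and, hC.1 p k (by omega) (by omega)]
        simp
    | succ r =>
      have h4 : (k + 1) * p + (r + 1) - 1 = (k + 1) * p + r := by omega
      rw [h4, Nat.testBit_and, hu r (by omega), hC.1 p r (by omega) (by omega)]
      have h5 : decide (r < k) = true := by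
        rw [decide_eq_true_eq]
        omega
      rw [h5]
      simp
      omega
  rw [h2]
  by_cases hd : x ∣ ys[p]
  · simp only [hd, decide_true, Bool.and_true, if_true]
    rw [Bool.eq_iff_iff]
    simp only [Bool.or_eq_true, Bool.and_eq_true, decide_eq_true_eq]
    omega
  · simp [hd]

theorem low_grp {k : ℕ} {B : Finset ℕ} {x : ℕ} {ys : List ℕ} {s : ℕ} (h : Exact k B (x :: ys) s) :
    s % 2 ^ (k + 1) = 2 ^ (min (nd B x) (k + 1)) - 1 := by
  refine Nat.eq_of_testBit_eq fun i => ?_
  rw [Nat.testBit_mod_two_pow, Nat.testBit_two_pow_sub_one]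
  by_cases hi : i < k + 1
  · have h1 := h 0 (by simp) i hi
    rw [Nat.mul_zero, Nat.zero_add] at h1
    rw [h1]
    simp only [List.getElem_cons_zero, hi, decide_true, Bool.true_and]
    rw [Bool.eq_iff_iff, decide_eq_true_eq, decide_eq_true_eq]
    omega
  · have h2 : ¬ i < min (nd B x) (k + 1) := by omega
    simp [hi, h2]

theorem sdf_sound (k : ℕ) (hk : 1 ≤ k) (n K O : ℕ) (hC : Cst k n K O) :
    ∀ (xs : List ℕ) (l : List (ℕ × ℕ)) (B : Finset ℕ) (s r : ℕ), Ok k xs l → Ord xs → xs.length ≤ n → (∀ x ∈ xs, x ∉ B) →
      Exact k B xs s → sdf (2 ^ (k + 1)) (2 ^ k - 1) K O l s r = true → ∀ A : Finset ℕ, A ⊆ xs.toFinset →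
      KMultipleFree k (B ∪ A) → Rig k xs.toFinset (B ∪ A) → A.card < r := by
  classical
  intro xs
  induction xs with
  | nil =>
    intro l B s r hok _ _ _ _ hd A hA _ _
    cases l with
    | nil =>
      have h1 : Nat.ble 1 r = true := hd
      rw [Nat.ble_eq] at h1
      have h2 : A = ∅ := Finset.subset_empty.1 (by simpa using hA)
      rw [h2, Finset.card_empty]
      omega
    | cons _ _ => exact absurd hok (by simp [Ok])
  | cons x ys ih =>
    intro l B s r hok hord hlen hB hg hd A hA hf hrig
    cases l with
    | nil => exact absurd hok (by simp [Ok])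
    | cons e t =>
      obtain ⟨hV, hbd, hok'⟩ := hok
      have hord' : Ord ys := (List.pairwise_cons.1 hord).2
      have hxy : ∀ y ∈ ys, ¬ y ∣ x := (List.pairwise_cons.1 hord).1
      have hlen' : ys.length ≤ n := by
        simp only [List.length_cons] at hlen
        omega
      have hxB : x ∉ B := hB x (List.mem_cons_self)
      have hd' : cond (Nat.beq r 0) false (cond (Nat.ble r e.2)
          (frc s fun s' => frc (s' % 2 ^ (k + 1)) fun g => cond (Nat.beq g 0)
            (cond (sdf (2 ^ (k + 1)) (2 ^ k - 1) K O t (nst (2 ^ (k + 1)) K O e.1 s') (r - 1))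
              (sdf (2 ^ (k + 1)) (2 ^ k - 1) K O t (s' / 2 ^ (k + 1)) r) false)
            (cond (Nat.ble (2 ^ k - 1) g) (cond (Nat.beq g (2 ^ k - 1)) true
              (sdf (2 ^ (k + 1)) (2 ^ k - 1) K O t (s' / 2 ^ (k + 1)) r))
              (sdf (2 ^ (k + 1)) (2 ^ k - 1) K O t (nst (2 ^ (k + 1)) K O e.1 s') (r - 1)))) true) = true := hd
      rw [frc_eq, frc_eq] at hd'
      have hr0 : Nat.beq r 0 = false := by
        cases h0 : Nat.beq r 0
        · rfl
        · rw [h0, cond_true] at hd'
          exact absurd hd' (by decide)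
      rw [hr0, cond_false] at hd'
      have hr0' : r ≠ 0 := by
        intro h0
        rw [h0] at hr0
        exact absurd hr0 (by decide)
      cases hble : Nat.ble r e.2 with
      | false =>
        have h1 := hbd A hA (hf.subset Finset.subset_union_right)
        have h2 : ¬ r ≤ e.2 := by
          intro h3
          rw [Nat.ble_eq_true_of_le h3] at hble
          exact absurd hble (by decide)
        omega
      | true =>
        rw [hble, cond_true] at hd'
        have hlow := low_grp hg
        -- the divisors of `x` in `B ∪ A` other than `x` are in `B`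
        have hA0 : ∀ b ∈ B ∪ A, b ∣ x → b ≠ x → b ∈ B := by
          intro b hb hbx hne
          rcases Finset.mem_union.1 hb with h | h
          · exact h
          · exfalso
            have h1 := hA h
            rw [List.mem_toFinset, List.mem_cons] at h1
            rcases h1 with h1 | h1
            · exact hne h1
            · exact hxy b h1 hbx
        have hskip : x ∉ A → sdf (2 ^ (k + 1)) (2 ^ k - 1) K O t (s / 2 ^ (k + 1)) r = true → A.card < r := by
          intro hxA hs
          refine ih t B (s / 2 ^ (k + 1)) r hok' hord' hlen' (fun y hy => hB y (List.mem_cons_of_mem _ hy)) (exact_skip hg) hs A ?_ hf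
            (fun m hm => hrig m (by
              rw [List.mem_toFinset] at hm ⊢
              exact List.mem_cons_of_mem _ hm))
          intro a ha
          have h1 := hA ha
          rw [List.mem_toFinset, List.mem_cons] at h1
          rw [List.mem_toFinset]
          rcases h1 with h1 | h1
          · exact absurd (h1 ▸ ha) hxA
          · exact h1
        have hchoose : x ∈ A → sdf (2 ^ (k + 1)) (2 ^ k - 1) K O t (nst (2 ^ (k + 1)) K O e.1 s) (r - 1) = true → A.card < r := by
          intro hxA hs
          have h3 : insert x B ∪ A.erase x = B ∪ A := by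
            rw [Finset.insert_union, ← Finset.union_insert, Finset.insert_erase hxA]
          have h2 := ih t (insert x B) (nst (2 ^ (k + 1)) K O e.1 s) (r - 1) hok' hord' hlen' (by
            intro y hy hm
            rcases Finset.mem_insert.1 hm with h3 | h3
            · exact hxy y hy (h3 ▸ dvd_rfl)
            · exact hB y (List.mem_cons_of_mem _ hy) h3) (exact_nst hxB hlen' hC hV (exact_skip hg)) hs (A.erase x) (by
            intro a ha
            rw [Finset.mem_erase] at ha
            have h1 := hA ha.2
            rw [List.mem_toFinset, List.mem_cons] at h1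
            rw [List.mem_toFinset]
            rcases h1 with h1 | h1
            · exact absurd h1 ha.1
            · exact h1) (by
            rw [h3]
            exact hf) (by
            rw [h3]
            exact fun m hm => hrig m (by
              rw [List.mem_toFinset] at hm ⊢
              exact List.mem_cons_of_mem _ hm))
          rw [Finset.card_erase_of_mem hxA] at h2
          omega
        -- the number of chosen divisors
        have hin : x ∈ A → nd B x < k := by
          intro hxA
          have h1 := (kmf_nd k _).1 hf x (Finset.mem_union_right _ hxA)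
          rw [nd_eq (Finset.mem_union_right _ hxA)] at h1
          have h2 : B.filter (fun b => b ∣ x) ⊆ (B ∪ A).filter (fun b => b ∣ x ∧ b ≠ x) := by
            intro b hb
            rw [Finset.mem_filter] at hb ⊢
            refine ⟨Finset.mem_union_left _ hb.1, hb.2, ?_⟩
            rintro rfl
            exact hxB hb.1
          have h3 := Finset.card_le_card h2
          unfold nd
          omega
        have hout : x ∉ A → nd B x = 0 ∨ k < nd B x := by
          intro hxA
          have hxU : x ∉ B ∪ A := fun h => by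
            rcases Finset.mem_union.1 h with h | h
            · exact hxB h
            · exact hxA h
          have h1 := hrig x (by
            rw [List.mem_toFinset]
            exact List.mem_cons_self) hxU
          have h2 : (B ∪ A).filter (fun b => b ∣ x) = B.filter (fun b => b ∣ x) := by
            ext b
            rw [Finset.mem_filter, Finset.mem_filter]
            constructor
            · rintro ⟨hb, hbx⟩
              exact ⟨hA0 b hb hbx (fun h => hxU (h ▸ hb)), hbx⟩
            · rintro ⟨hb, hbx⟩
              exact ⟨Finset.mem_union_left _ hb, hbx⟩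
          unfold nd at h1 ⊢
          rw [h2] at h1
          exact h1
        have hpk : 1 < 2 ^ (k + 1) := Nat.one_lt_two_pow (by omega)
        by_cases hc0 : nd B x = 0
        · have hg0 : s % 2 ^ (k + 1) = 0 := by
            rw [hlow, hc0]
            simp
          rw [hg0] at hd'
          have hd2 : cond (sdf (2 ^ (k + 1)) (2 ^ k - 1) K O t (nst (2 ^ (k + 1)) K O e.1 s) (r - 1))
              (sdf (2 ^ (k + 1)) (2 ^ k - 1) K O t (s / 2 ^ (k + 1)) r) false = true := hd'
          have hd3 : sdf (2 ^ (k + 1)) (2 ^ k - 1) K O t (nst (2 ^ (k + 1)) K O e.1 s) (r - 1) = true := by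
            cases h0 : sdf (2 ^ (k + 1)) (2 ^ k - 1) K O t (nst (2 ^ (k + 1)) K O e.1 s) (r - 1)
            · rw [h0, cond_false] at hd2
              exact hd2
            · rfl
          rw [hd3, cond_true] at hd2
          by_cases hxA : x ∈ A
          · exact hchoose hxA hd3
          · exact hskip hxA hd2
        · have hmin : 1 ≤ min (nd B x) (k + 1) := by omega
          have hg1 : s % 2 ^ (k + 1) ≠ 0 := by
            rw [hlow]
            have : 2 ^ 1 ≤ 2 ^ (min (nd B x) (k + 1)) := Nat.pow_le_pow_right (by norm_num) hmin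
            omega
          have hb0 : Nat.beq (s % 2 ^ (k + 1)) 0 = false := by
            cases hb : Nat.beq (s % 2 ^ (k + 1)) 0
            · rfl
            · exact absurd (Nat.eq_of_beq_eq_true hb) hg1
          rw [hb0, cond_false] at hd'
          by_cases hxA : x ∈ A
          · have hlt := hin hxA
            have hb1 : Nat.ble (2 ^ k - 1) (s % 2 ^ (k + 1)) = false := by
              cases hb : Nat.ble (2 ^ k - 1) (s % 2 ^ (k + 1))
              · rfl
              · exfalso
                rw [Nat.ble_eq, hlow] at hb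
                have h5 : min (nd B x) (k + 1) < k := by omega
                have h6 : 2 ^ (min (nd B x) (k + 1)) < 2 ^ k := Nat.pow_lt_pow_right (by norm_num) h5
                have h7 : 0 < 2 ^ (min (nd B x) (k + 1)) := by positivity
                omega
            rw [hb1, cond_false] at hd'
            exact hchoose hxA hd'
          · have hgt : k < nd B x := by
              rcases hout hxA with h | h
              · exact absurd h hc0
              · exact h
            have hmm : min (nd B x) (k + 1) = k + 1 := by omega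
            rw [hmm] at hlow
            have hpp : 2 ^ k < 2 ^ (k + 1) := Nat.pow_lt_pow_right (by norm_num) (Nat.lt_succ_self k)
            have hb1 : Nat.ble (2 ^ k - 1) (s % 2 ^ (k + 1)) = true := by
              rw [Nat.ble_eq, hlow]
              omega
            have hb2 : Nat.beq (s % 2 ^ (k + 1)) (2 ^ k - 1) = false := by
              cases hb : Nat.beq (s % 2 ^ (k + 1)) (2 ^ k - 1)
              · rfl
              · exfalso
                have h8 := Nat.eq_of_beq_eq_true hb
                rw [hlow] at h8
                have h9 : 0 < 2 ^ k := by positivity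
                omega
            rw [hb1, hb2, cond_true, cond_false] at hd'
            exact hskip hxA hd'

theorem exact_zero (k : ℕ) (xs : List ℕ) : Exact k ∅ xs 0 := by
  intro p hp r _
  rw [Nat.zero_testBit]
  simp [nd]

theorem bnd_sound (k : ℕ) (hk : 1 ≤ k) (n K O : ℕ) (hC : Cst k n K O) :
    ∀ (l : List (ℕ × Bool)), Ord (l.map Prod.fst) → (∀ x ∈ l.map Prod.fst, 0 < x) → l.length ≤ n →
      ∃ (t : List (ℕ × ℕ)) (u : ℕ), Ok k (l.map Prod.fst) t ∧ Bd k (l.map Prod.fst) u ∧
        ∀ κ, bnd (2 ^ (k + 1)) (2 ^ k - 1) K O l κ = κ t u (l.map Prod.fst) := by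
  classical
  intro l
  induction l with
  | nil =>
    intro _ _ _
    refine ⟨[], 0, trivial, ?_, fun κ => rfl⟩
    intro A hA _
    have h2 : A = ∅ := Finset.subset_empty.1 (by simpa using hA)
    rw [h2, Finset.card_empty]
  | cons e l ih =>
    intro hord hpos hlen
    have hord0 : Ord (e.1 :: l.map Prod.fst) := hord
    have hpos0 : ∀ x ∈ e.1 :: l.map Prod.fst, 0 < x := hpos
    have hord' : Ord (l.map Prod.fst) := (List.pairwise_cons.1 hord0).2
    have hxy : ∀ y ∈ l.map Prod.fst, ¬ y ∣ e.1 := (List.pairwise_cons.1 hord0).1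
    have hlen' : l.length ≤ n := by
      simp only [List.length_cons] at hlen
      omega
    obtain ⟨t, u, hok, hbd, hk2⟩ := ih hord' (fun x hx => hpos0 x (List.mem_cons_of_mem _ hx)) hlen'
    have hV : Msk k e.1 (l.map Prod.fst) (vm (2 ^ (k + 1)) e.1 (l.map Prod.fst)) := by
      intro p hp r hr
      exact vm_testBit (k + 1) e.1 (l.map Prod.fst) p hp r hr
    have hcase : ∀ A : Finset ℕ, A ⊆ (e.1 :: l.map Prod.fst).toFinset → (A.erase e.1) ⊆ (l.map Prod.fst).toFinset := by
      intro A hA a ha
      rw [Finset.mem_erase] at ha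
      have h1 := hA ha.2
      rw [List.mem_toFinset, List.mem_cons] at h1
      rw [List.mem_toFinset]
      rcases h1 with h1 | h1
      · exact absurd h1 ha.1
      · exact h1
    have hsucc : Bd k (e.1 :: l.map Prod.fst) (u + 1) := by
      intro A hA hf
      have h1 := hbd (A.erase e.1) (hcase A hA) (hf.subset (Finset.erase_subset _ _))
      have h2 := Finset.pred_card_le_card_erase (s := A) (a := e.1)
      omega
    have hrun : ∀ κ, bnd (2 ^ (k + 1)) (2 ^ k - 1) K O (e :: l) κ =
        cond (cond e.2 (sdf (2 ^ (k + 1)) (2 ^ k - 1) K O t (nst (2 ^ (k + 1)) K O (vm (2 ^ (k + 1)) e.1 (l.map Prod.fst)) 0) u) false)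
          (κ ((vm (2 ^ (k + 1)) e.1 (l.map Prod.fst), u) :: t) u (e.1 :: l.map Prod.fst))
          (κ ((vm (2 ^ (k + 1)) e.1 (l.map Prod.fst), u + 1) :: t) (u + 1) (e.1 :: l.map Prod.fst)) := by
      intro κ
      have h1 : bnd (2 ^ (k + 1)) (2 ^ k - 1) K O (e :: l) κ = bnd (2 ^ (k + 1)) (2 ^ k - 1) K O l
        (fun t u ys => frc (vm (2 ^ (k + 1)) e.1 ys) fun V => frc (u + 1) fun u' =>
          cond (cond e.2 (sdf (2 ^ (k + 1)) (2 ^ k - 1) K O t (nst (2 ^ (k + 1)) K O V 0) u) false)
            (κ ((V, u) :: t) u (e.1 :: ys)) (κ ((V, u') :: t) u' (e.1 :: ys))) := rfl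
      rw [h1, hk2]
      simp only [frc_eq]
    cases hc : cond e.2 (sdf (2 ^ (k + 1)) (2 ^ k - 1) K O t
        (nst (2 ^ (k + 1)) K O (vm (2 ^ (k + 1)) e.1 (l.map Prod.fst)) 0) u) false with
    | false =>
      refine ⟨(vm (2 ^ (k + 1)) e.1 (l.map Prod.fst), u + 1) :: t, u + 1, ⟨hV, hsucc, hok⟩, hsucc, ?_⟩
      intro κ
      rw [hrun, hc, cond_false]
      rfl
    | true =>
      have hd : sdf (2 ^ (k + 1)) (2 ^ k - 1) K O t (nst (2 ^ (k + 1)) K O (vm (2 ^ (k + 1)) e.1 (l.map Prod.fst)) 0) u = true := by
        cases h2 : e.2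
        · rw [h2, cond_false] at hc
          exact absurd hc (by decide)
        · rw [h2, cond_true] at hc
          exact hc
      have hbd' : Bd k (e.1 :: l.map Prod.fst) u := by
        intro A₀ hA₀ hf₀
        obtain ⟨A, hA, hf, hcard, hrig⟩ := exists_rig k (e.1 :: l.map Prod.fst).toFinset (fun m hm => hpos0 m (List.mem_toFinset.1 hm))
        have hle : A₀.card ≤ A.card := by
          rw [hcard]
          exact le_opt hA₀ hf₀
        refine hle.trans ?_
        by_cases hx : e.1 ∈ A
        · have hlen2 : (l.map Prod.fst).length ≤ n := by simpa using hlen'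
          have hex : Exact k ∅ (l.map Prod.fst) (0 / 2 ^ (k + 1)) := by
            rw [Nat.zero_div]
            exact exact_zero k _
          have hg1 := exact_nst (Finset.notMem_empty _) hlen2 hC hV hex
          have h3 : insert e.1 ∅ ∪ A.erase e.1 = A := by
            rw [Finset.insert_union, Finset.empty_union, Finset.insert_erase hx]
          have h2 := sdf_sound k hk n K O hC (l.map Prod.fst) t (insert e.1 ∅) _ u hok hord' hlen2 (by
            intro y hy hm
            rcases Finset.mem_insert.1 hm with h3 | h3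
            · exact hxy y hy (h3 ▸ dvd_rfl)
            · exact absurd h3 (Finset.notMem_empty _)) hg1 hd (A.erase e.1) (hcase A hA) (by
            rw [h3]
            exact hf) (by
            rw [h3]
            exact fun m hm => hrig m (by
              rw [List.mem_toFinset] at hm ⊢
              exact List.mem_cons_of_mem _ hm))
          rw [Finset.card_erase_of_mem hx] at h2
          omega
        · refine hbd A ?_ hf
          intro a ha
          exact hcase A hA (Finset.mem_erase.2 ⟨fun h => hx (h ▸ ha), ha⟩)
      refine ⟨(vm (2 ^ (k + 1)) e.1 (l.map Prod.fst), u) :: t, u, ⟨hV, hbd', hok⟩, hbd', ?_⟩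
      intro κ
      rw [hrun, hc, cond_true]
      rfl

theorem cst_rp (k n : ℕ) : Cst k n (rp (2 ^ (k + 1)) (2 ^ k - 1) n) (rp (2 ^ (k + 1)) 1 n) := by
  have h1 : 2 ^ k - 1 < 2 ^ (k + 1) := by
    have h2 : 2 ^ k < 2 ^ (k + 1) := Nat.pow_lt_pow_right (by norm_num) (Nat.lt_succ_self k)
    omega
  constructor
  · intro p r hp hr
    rw [rp_testBit (k + 1) _ h1 n p r hp hr, Nat.testBit_two_pow_sub_one]
  · intro p r hp hr
    rw [rp_testBit (k + 1) 1 (Nat.one_lt_two_pow (by omega)) n p r hp hr]
    cases r with
    | zero => simp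
    | succ r => simp [Nat.testBit_succ]

theorem res_sound (k : ℕ) (hk : 1 ≤ k) (l : List (ℕ × Bool)) (h1 : Ord (l.map Prod.fst)) (h2 : ∀ x ∈ l.map Prod.fst, 0 < x) :
    opt k (l.map Prod.fst).toFinset ≤ res k l := by
  obtain ⟨t, u, _, hbd, hrun⟩ := bnd_sound k hk l.length _ _ (cst_rp k l.length) l h1 h2 le_rfl
  have h3 : res k l = u := by
    unfold res
    simp only [frc_eq]
    rw [hrun]
  rw [h3]
  obtain ⟨A, hA, hf, hc⟩ := exists_opt k (l.map Prod.fst).toFinset
  rw [← hc]
  exact hbd A hA hf

end Pool.Agent.H36.KW
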