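import Pool.Agent.H36.KW.Low3

/-!
# KW Sm13: the 13-smooth numbers below 2048
-/

set_option autoImplicit false
set_option maxRecDepth 100000

namespace Pool.Agent.H36.KW

open Pool.Agent.H96.KMF Pool.Agent.H36.K3

/-- the 13-smooth numbers below 2048 -/
def sm13 : List ℕ :=
  [1, 2, 3, 4, 5, 6, 7, 8, 9, 10, 11, 12, 13, 14, 15, 16, 18, 20, 21, 22, 24, 25, 26, 27, 28, 30, 32, 33, 35, 36, 39, 40, 42, 44, 45, 48, 49, 50, 52, 54,
    55, 56, 60, 63, 64, 65, 66, 70, 72, 75, 77, 78, 80, 81, 84, 88, 90, 91, 96, 98, 99, 100, 104, 105, 108, 110, 112, 117, 120, 121, 125, 126, 128,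
    130, 132, 135, 140, 143, 144, 147, 150, 154, 156, 160, 162, 165, 168, 169, 175, 176, 180, 182, 189, 192, 195, 196, 198, 200, 208, 210, 216, 220,
    224, 225, 231, 234, 240, 242, 243, 245, 250, 252, 256, 260, 264, 270, 273, 275, 280, 286, 288, 294, 297, 300, 308, 312, 315, 320, 324, 325, 330,
    336, 338, 343, 350, 351, 352, 360, 363, 364, 375, 378, 384, 385, 390, 392, 396, 400, 405, 416, 420, 429, 432, 440, 441, 448, 450, 455, 462, 468,
    480, 484, 486, 490, 495, 500, 504, 507, 512, 520, 525, 528, 539, 540, 546, 550, 560, 567, 572, 576, 585, 588, 594, 600, 605, 616, 624, 625, 630,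
    637, 640, 648, 650, 660, 672, 675, 676, 686, 693, 700, 702, 704, 715, 720, 726, 728, 729, 735, 750, 756, 768, 770, 780, 784, 792, 800, 810, 819,
    825, 832, 840, 845, 847, 858, 864, 875, 880, 882, 891, 896, 900, 910, 924, 936, 945, 960, 968, 972, 975, 980, 990, 1000, 1001, 1008, 1014, 1024,
    1029, 1040, 1050, 1053, 1056, 1078, 1080, 1089, 1092, 1100, 1120, 1125, 1134, 1144, 1152, 1155, 1170, 1176, 1183, 1188, 1200, 1210, 1215, 1225,
    1232, 1248, 1250, 1260, 1274, 1280, 1287, 1296, 1300, 1320, 1323, 1331, 1344, 1350, 1352, 1365, 1372, 1375, 1386, 1400, 1404, 1408, 1430, 1440,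
    1452, 1456, 1458, 1470, 1485, 1500, 1512, 1521, 1536, 1540, 1560, 1568, 1573, 1575, 1584, 1600, 1617, 1620, 1625, 1638, 1650, 1664, 1680, 1690,
    1694, 1701, 1715, 1716, 1728, 1750, 1755, 1760, 1764, 1782, 1792, 1800, 1815, 1820, 1848, 1859, 1872, 1875, 1890, 1911, 1920, 1925, 1936, 1944,
    1950, 1960, 1980, 2000, 2002, 2016, 2025, 2028]

theorem cov_sm13 : cov 30030 (2048 - 1) sm13 = true := by decide +kernel

theorem inc_sm13 : inc 0 sm13 = true := by decide +kernel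

theorem mas_sm13 : Mas 30030 sm13 := mas_of 30030 sm13 inc_sm13 (by decide +kernel)

theorem pos_sm13 : ∀ s ∈ sm13, 1 ≤ s := (inc_spec sm13 0 inc_sm13).1

theorem sum_a_4 : (sm13.map (trm 4 1 2048)).sum ≤ (40095775961 / 10000000000 : ℚ) := by decide +kernel

theorem ws_cc_a_4 : ws (cc 4 30030) 1 2048 ≤ (40095775961 / 10000000000 : ℝ) := by
  have h1 := ws_cc_le 4 30030 1 2048 sm13 (by norm_num) cov_sm13 mas_sm13.nodup pos_sm13
  have h4 : _ ≤ ((40095775961 / 10000000000 : ℚ) : ℝ) := Rat.cast_le.2 sum_a_4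
  rw [show ((40095775961 / 10000000000 : ℚ) : ℝ) = (40095775961 / 10000000000 : ℝ) by norm_num] at h4
  exact h1.trans h4

theorem sum_g_4 : (sm13.map (trm 4 1024 2048)).sum ≤ (208590673 / 2500000000 : ℚ) := by decide +kernel

theorem ws_cc_g_4 : ws (cc 4 30030) 1024 2048 ≤ (208590673 / 2500000000 : ℝ) := by
  have h1 := ws_cc_le 4 30030 1024 2048 sm13 (by norm_num) cov_sm13 mas_sm13.nodup pos_sm13
  have h4 : _ ≤ ((208590673 / 2500000000 : ℚ) : ℝ) := Rat.cast_le.2 sum_g_4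
  rw [show ((208590673 / 2500000000 : ℚ) : ℝ) = (208590673 / 2500000000 : ℝ) by norm_num] at h4
  exact h1.trans h4

theorem sum_a_5 : (sm13.map (trm 5 1 2048)).sum ≤ (166834409 / 40000000 : ℚ) := by decide +kernel

theorem ws_cc_a_5 : ws (cc 5 30030) 1 2048 ≤ (166834409 / 40000000 : ℝ) := by
  have h1 := ws_cc_le 5 30030 1 2048 sm13 (by norm_num) cov_sm13 mas_sm13.nodup pos_sm13
  have h4 : _ ≤ ((166834409 / 40000000 : ℚ) : ℝ) := Rat.cast_le.2 sum_a_5
  rw [show ((166834409 / 40000000 : ℚ) : ℝ) = (166834409 / 40000000 : ℝ) by norm_num] at h4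
  exact h1.trans h4

theorem sum_g_5 : (sm13.map (trm 5 1024 2048)).sum ≤ (22371077 / 250000000 : ℚ) := by decide +kernel

theorem ws_cc_g_5 : ws (cc 5 30030) 1024 2048 ≤ (22371077 / 250000000 : ℝ) := by
  have h1 := ws_cc_le 5 30030 1024 2048 sm13 (by norm_num) cov_sm13 mas_sm13.nodup pos_sm13
  have h4 : _ ≤ ((22371077 / 250000000 : ℚ) : ℝ) := Rat.cast_le.2 sum_g_5
  rw [show ((22371077 / 250000000 : ℚ) : ℝ) = (22371077 / 250000000 : ℝ) by norm_num] at h4
  exact h1.trans h4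

end Pool.Agent.H36.KW
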