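import Pool.Agent.H36.KW.Low3

/-!
# KW Sm7: the 7-smooth numbers below 4096
-/

set_option autoImplicit false
set_option maxRecDepth 100000

namespace Pool.Agent.H36.KW

open Pool.Agent.H96.KMF Pool.Agent.H36.K3

/-- the 7-smooth numbers below 4096 -/
def sm7 : List ℕ :=
  [1, 2, 3, 4, 5, 6, 7, 8, 9, 10, 12, 14, 15, 16, 18, 20, 21, 24, 25, 27, 28, 30, 32, 35, 36, 40, 42, 45, 48, 49, 50, 54, 56, 60, 63, 64, 70, 72, 75, 80,
    81, 84, 90, 96, 98, 100, 105, 108, 112, 120, 125, 126, 128, 135, 140, 144, 147, 150, 160, 162, 168, 175, 180, 189, 192, 196, 200, 210, 216, 224,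
    225, 240, 243, 245, 250, 252, 256, 270, 280, 288, 294, 300, 315, 320, 324, 336, 343, 350, 360, 375, 378, 384, 392, 400, 405, 420, 432, 441, 448,
    450, 480, 486, 490, 500, 504, 512, 525, 540, 560, 567, 576, 588, 600, 625, 630, 640, 648, 672, 675, 686, 700, 720, 729, 735, 750, 756, 768, 784,
    800, 810, 840, 864, 875, 882, 896, 900, 945, 960, 972, 980, 1000, 1008, 1024, 1029, 1050, 1080, 1120, 1125, 1134, 1152, 1176, 1200, 1215, 1225,
    1250, 1260, 1280, 1296, 1323, 1344, 1350, 1372, 1400, 1440, 1458, 1470, 1500, 1512, 1536, 1568, 1575, 1600, 1620, 1680, 1701, 1715, 1728, 1750,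
    1764, 1792, 1800, 1875, 1890, 1920, 1944, 1960, 2000, 2016, 2025, 2048, 2058, 2100, 2160, 2187, 2205, 2240, 2250, 2268, 2304, 2352, 2400, 2401,
    2430, 2450, 2500, 2520, 2560, 2592, 2625, 2646, 2688, 2700, 2744, 2800, 2835, 2880, 2916, 2940, 3000, 3024, 3072, 3087, 3125, 3136, 3150, 3200,
    3240, 3360, 3375, 3402, 3430, 3456, 3500, 3528, 3584, 3600, 3645, 3675, 3750, 3780, 3840, 3888, 3920, 3969, 4000, 4032, 4050]

theorem cov_sm7 : cov 210 (4096 - 1) sm7 = true := by decide +kernel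

theorem inc_sm7 : inc 0 sm7 = true := by decide +kernel

theorem mas_sm7 : Mas 210 sm7 := mas_of 210 sm7 inc_sm7 (by decide +kernel)

theorem pos_sm7 : ∀ s ∈ sm7, 1 ≤ s := (inc_spec sm7 0 inc_sm7).1

theorem sum_a_3 : (sm7.map (trm 3 1 4096)).sum ≤ (32467014177 / 10000000000 : ℚ) := by decide +kernel

theorem ws_cc_a_3 : ws (cc 3 210) 1 4096 ≤ (32467014177 / 10000000000 : ℝ) := by
  have h1 := ws_cc_le 3 210 1 4096 sm7 (by norm_num) cov_sm7 mas_sm7.nodup pos_sm7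
  have h4 : _ ≤ ((32467014177 / 10000000000 : ℚ) : ℝ) := Rat.cast_le.2 sum_a_3
  rw [show ((32467014177 / 10000000000 : ℚ) : ℝ) = (32467014177 / 10000000000 : ℝ) by norm_num] at h4
  exact h1.trans h4

theorem sum_g_3 : (sm7.map (trm 3 2048 4096)).sum ≤ (45449889 / 2000000000 : ℚ) := by decide +kernel

theorem ws_cc_g_3 : ws (cc 3 210) 2048 4096 ≤ (45449889 / 2000000000 : ℝ) := by
  have h1 := ws_cc_le 3 210 2048 4096 sm7 (by norm_num) cov_sm7 mas_sm7.nodup pos_sm7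
  have h4 : _ ≤ ((45449889 / 2000000000 : ℚ) : ℝ) := Rat.cast_le.2 sum_g_3
  rw [show ((45449889 / 2000000000 : ℚ) : ℝ) = (45449889 / 2000000000 : ℝ) by norm_num] at h4
  exact h1.trans h4

end Pool.Agent.H36.KW
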