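import Pool.Agent.H96.KMF.Basic

/-!
# KW Star: optimal sets with a rigidity property

Every finite set of positive integers has a largest `k`-multiple-free subset `A` such that every element which is not in `A` has either no
divisor or at least `k + 1` divisors in `A` (choose `A` with the largest sum).
-/

set_option autoImplicit false

namespace Pool.Agent.H36.KW

open Pool.Agent.H96.KMF

/-- the number of divisors of `m` in `A` -/
def nd (A : Finset ℕ) (m : ℕ) : ℕ := (A.filter (fun b => b ∣ m)).card

theorem nd_eq {A : Finset ℕ} {m : ℕ} (h : m ∈ A) : nd A m = (A.filter (fun b => b ∣ m ∧ b ≠ m)).card + 1 := by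
  classical
  have h1 : A.filter (fun b => b ∣ m) = insert m (A.filter (fun b => b ∣ m ∧ b ≠ m)) := by
    ext b
    rw [Finset.mem_insert, Finset.mem_filter, Finset.mem_filter]
    constructor
    · rintro ⟨hb, hd⟩
      by_cases hbm : b = m
      · exact Or.inl hbm
      · exact Or.inr ⟨hb, hd, hbm⟩
    · rintro (rfl | ⟨hb, hd, _⟩)
      · exact ⟨h, dvd_rfl⟩
      · exact ⟨hb, hd⟩
  unfold nd
  rw [h1, Finset.card_insert_of_notMem (by simp)]

theorem kmf_nd (k : ℕ) (A : Finset ℕ) : KMultipleFree k A ↔ ∀ a ∈ A, nd A a ≤ k := by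
  rw [kmf_iff]
  constructor
  · intro h a ha
    rw [nd_eq ha]
    exact h a ha
  · intro h a ha
    have := h a ha
    rw [nd_eq ha] at this
    exact this

/-- the rigidity property in `S` -/
def Rig (k : ℕ) (S A : Finset ℕ) : Prop := ∀ m ∈ S, m ∉ A → nd A m = 0 ∨ k < nd A m

theorem swap (k : ℕ) {A : Finset ℕ} (hA : KMultipleFree k A) {m d : ℕ} (hm : m ∉ A) (hd : d ∈ A) (hdm : d ∣ m) (hn : nd A m ≤ k) :
    KMultipleFree k (insert m (A.erase d)) := by
  classical
  rw [kmf_nd] at hA ⊢
  have hmd : m ≠ d := fun h => hm (h ▸ hd)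
  intro a ha
  rcases Finset.mem_insert.1 ha with h | h
  · subst h
    have h1 : (insert a (A.erase d)).filter (fun b => b ∣ a) ⊆ insert a ((A.filter (fun b => b ∣ a)).erase d) := by
      intro b hb
      rw [Finset.mem_filter, Finset.mem_insert, Finset.mem_erase] at hb
      rw [Finset.mem_insert, Finset.mem_erase, Finset.mem_filter]
      rcases hb.1 with h | h
      · exact Or.inl h
      · exact Or.inr ⟨h.1, h.2, hb.2⟩
    have h2 := Finset.card_le_card h1
    have h3 : d ∈ A.filter (fun b => b ∣ a) := Finset.mem_filter.2 ⟨hd, hdm⟩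
    have h4 := Finset.card_insert_le a ((A.filter (fun b => b ∣ a)).erase d)
    rw [Finset.card_erase_of_mem h3] at h4
    have h5 : 0 < (A.filter (fun b => b ∣ a)).card := Finset.card_pos.2 ⟨d, h3⟩
    unfold nd at hn ⊢
    omega
  · have h' := Finset.mem_erase.1 h
    refine le_trans ?_ (hA a h'.2)
    unfold nd
    by_cases hma : m ∣ a
    · have h1 : (insert m (A.erase d)).filter (fun b => b ∣ a) ⊆ insert m ((A.filter (fun b => b ∣ a)).erase d) := by
        intro b hb
        rw [Finset.mem_filter, Finset.mem_insert, Finset.mem_erase] at hb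
        rw [Finset.mem_insert, Finset.mem_erase, Finset.mem_filter]
        rcases hb.1 with h | h
        · exact Or.inl h
        · exact Or.inr ⟨h.1, h.2, hb.2⟩
      have h2 := Finset.card_le_card h1
      have h3 : d ∈ A.filter (fun b => b ∣ a) := Finset.mem_filter.2 ⟨hd, hdm.trans hma⟩
      have h4 := Finset.card_insert_le m ((A.filter (fun b => b ∣ a)).erase d)
      rw [Finset.card_erase_of_mem h3] at h4
      have h5 : 0 < (A.filter (fun b => b ∣ a)).card := Finset.card_pos.2 ⟨d, h3⟩
      omega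
    · apply Finset.card_le_card
      intro b hb
      rw [Finset.mem_filter, Finset.mem_insert, Finset.mem_erase] at hb
      rw [Finset.mem_filter]
      rcases hb.1 with h | h
      · exact absurd (h ▸ hb.2) hma
      · exact ⟨h.2, hb.2⟩

theorem exists_rig (k : ℕ) (S : Finset ℕ) (hS : ∀ m ∈ S, 0 < m) :
    ∃ A ⊆ S, KMultipleFree k A ∧ A.card = opt k S ∧ Rig k S A := by
  classical
  set T := S.powerset.filter (fun A => KMultipleFree k A ∧ A.card = opt k S) with hT
  have hne : T.Nonempty := by
    obtain ⟨A, hA, hf, hc⟩ := exists_opt k S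
    exact ⟨A, Finset.mem_filter.2 ⟨Finset.mem_powerset.2 hA, hf, hc⟩⟩
  obtain ⟨A, hA, hmax⟩ := Finset.exists_max_image T (fun A => ∑ a ∈ A, a) hne
  rw [hT, Finset.mem_filter, Finset.mem_powerset] at hA
  refine ⟨A, hA.1, hA.2.1, hA.2.2, ?_⟩
  intro m hm hmA
  by_contra hcon
  push Not at hcon
  obtain ⟨d, hd⟩ : (A.filter (fun b => b ∣ m)).Nonempty := Finset.card_pos.1 (Nat.pos_of_ne_zero hcon.1)
  rw [Finset.mem_filter] at hd
  have hmd : m ≠ d := fun h => hmA (h ▸ hd.1)
  have hlt : d < m := lt_of_le_of_ne (Nat.le_of_dvd (hS m hm) hd.2) (Ne.symm hmd)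
  have hkm := swap k hA.2.1 hmA hd.1 hd.2 hcon.2
  have hme : m ∉ A.erase d := fun h => hmA (Finset.mem_of_mem_erase h)
  have hcard : (insert m (A.erase d)).card = A.card := by
    rw [Finset.card_insert_of_notMem hme, Finset.card_erase_of_mem hd.1]
    have : 0 < A.card := Finset.card_pos.2 ⟨d, hd.1⟩
    omega
  have hmem : insert m (A.erase d) ∈ T := by
    rw [hT, Finset.mem_filter, Finset.mem_powerset]
    refine ⟨?_, hkm, hcard.trans hA.2.2⟩
    intro b hb
    rcases Finset.mem_insert.1 hb with h | h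
    · exact h ▸ hm
    · exact hA.1 (Finset.mem_of_mem_erase h)
  have h1 := hmax _ hmem
  rw [Finset.sum_insert hme] at h1
  have h2 := Finset.add_sum_erase A (fun a => a) hd.1
  simp only at h1 h2
  omega

end Pool.Agent.H36.KW
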