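import Pool.Agent.H36.KW.Sm7
import Pool.Agent.H36.KW.Chunk

/-!
# KW Tab3a0: sets, for k = 3, j from 1 to 4095
-/

set_option autoImplicit false
set_option maxRecDepth 100000

namespace Pool.Agent.H36.KW

open Pool.Agent.H96.KMF Pool.Agent.H36.K3

def tab3a0_0 : List (ℕ × ℕ × ℕ) :=
  [
    (2, 1, 0x1),
    (3, 2, 0x3),
    (4, 3, 0x7)]

theorem chk_tab3a0_0 : chk false 3 11 qs11 sm7 1 tab3a0_0 = true := by decide +kernel

def tab3a0_1 : List (ℕ × ℕ × ℕ) :=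
  [
    (5, 4, 0xf),
    (7, 5, 0x1f),
    (8, 6, 0x5f)]

theorem chk_tab3a0_1 : chk false 3 11 qs11 sm7 4 tab3a0_1 = true := by decide +kernel

def tab3a0_2 : List (ℕ × ℕ × ℕ) :=
  [
    (9, 7, 0xfe),
    (10, 8, 0x1fe),
    (14, 9, 0x3fe)]

theorem chk_tab3a0_2 : chk false 3 11 qs11 sm7 8 tab3a0_2 = true := by decide +kernel

def tab3a0_3 : List (ℕ × ℕ × ℕ) :=
  [
    (15, 10, 0xbfe),
    (18, 11, 0x1bfe),
    (21, 12, 0x7fdc)]

theorem chk_tab3a0_3 : chk false 3 11 qs11 sm7 14 tab3a0_3 = true := by decide +kernel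

def tab3a0_4 : List (ℕ × ℕ × ℕ) :=
  [
    (25, 13, 0x1ffcc),
    (27, 14, 0x5ffcc),
    (28, 15, 0xdffcc)]

theorem chk_tab3a0_4 : chk false 3 11 qs11 sm7 21 tab3a0_4 = true := by decide +kernel

def tab3a0_5 : List (ℕ × ℕ × ℕ) :=
  [
    (32, 16, 0x1dfff0),
    (35, 17, 0x5dfff0),
    (45, 18, 0xddfff0)]

theorem chk_tab3a0_5 : chk false 3 11 qs11 sm7 28 tab3a0_5 = true := by decide +kernel

def tab3a0_6 : List (ℕ × ℕ × ℕ) :=
  [
    (48, 19, 0xffebdc0),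
    (49, 20, 0x1bfffb40),
    (50, 21, 0x3ffefb40)]

theorem chk_tab3a0_6 : chk false 3 11 qs11 sm7 45 tab3a0_6 = true := by decide +kernel

def tab3a0_7 : List (ℕ × ℕ × ℕ) :=
  [
    (56, 22, 0x7ffefb40),
    (63, 23, 0x1ffffbb00),
    (64, 24, 0x5ffff9f00)]

theorem chk_tab3a0_7 : chk false 3 11 qs11 sm7 50 tab3a0_7 = true := by decide +kernel

def tab3a0_8 : List (ℕ × ℕ × ℕ) :=
  [
    (75, 25, 0xdefffbf00),
    (80, 26, 0x4defffbf00),
    (81, 27, 0xdf7fff7900)]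

theorem chk_tab3a0_8 : chk false 3 11 qs11 sm7 64 tab3a0_8 = true := by decide +kernel

def tab3a0_9 : List (ℕ × ℕ × ℕ) :=
  [
    (98, 28, 0x1df7fff7900),
    (100, 29, 0x11dfffff7800),
    (105, 30, 0x31dfffff7800)]

theorem chk_tab3a0_9 : chk false 3 11 qs11 sm7 81 tab3a0_9 = true := by decide +kernel

def tab3a0_10 : List (ℕ × ℕ × ℕ) :=
  [
    (125, 31, 0x75ffffff2800),
    (128, 32, 0x475ffffff2800),
    (135, 33, 0x1ddfff7fbe8000)]

theorem chk_tab3a0_10 : chk false 3 11 qs11 sm7 105 tab3a0_10 = true := by decide +kernel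

def tab3a0_11 : List (ℕ × ℕ × ℕ) :=
  [
    (140, 34, 0x3ddfff7fbe8000),
    (147, 35, 0x777fffffcd4000),
    (160, 36, 0x1777fffffcd4000)]

theorem chk_tab3a0_11 : chk false 3 11 qs11 sm7 135 tab3a0_11 = true := by decide +kernel

def tab3a0_12 : List (ℕ × ℕ × ℕ) :=
  [
    (175, 37, 0x5bffffffcfc0000),
    (189, 38, 0x25bffffffcfc0000),
    (196, 39, 0xadfffeeffcfc0000)]

theorem chk_tab3a0_12 : chk false 3 11 qs11 sm7 160 tab3a0_12 = true := by decide +kernel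

def tab3a0_13 : List (ℕ × ℕ × ℕ) :=
  [
    (224, 40, 0x3bfffffbf6b8c0000),
    (225, 41, 0x23bfffffbf6b8c0000),
    (243, 42, 0x63bfffffbf6b8c0000)]

theorem chk_tab3a0_13 : chk false 3 11 qs11 sm7 196 tab3a0_13 = true := by decide +kernel

def tab3a0_14 : List (ℕ × ℕ × ℕ) :=
  [
    (245, 43, 0x16bbfffffaf6b8c0000),
    (250, 44, 0x36bbfffffaf6b8c0000),
    (256, 45, 0x767bfffdffe6f880000)]

theorem chk_tab3a0_14 : chk false 3 11 qs11 sm7 243 tab3a0_14 = true := by decide +kernel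

def tab3a0_15 : List (ℕ × ℕ × ℕ) :=
  [
    (288, 46, 0x1767bfffdffe6f880000),
    (315, 47, 0x9ff7fffffdd9ec800000),
    (336, 48, 0x4d7ffffffbfdcec000000)]

theorem chk_tab3a0_15 : chk false 3 11 qs11 sm7 256 tab3a0_15 = true := by decide +kernel

def tab3a0_16 : List (ℕ × ℕ × ℕ) :=
  [
    (343, 49, 0x2d7ffffefffd7e60000000),
    (375, 50, 0x6d7ffffefffd7e60000000),
    (378, 51, 0x27d7ffffefffc7e60000000)]

theorem chk_tab3a0_16 : chk false 3 11 qs11 sm7 336 tab3a0_16 = true := by decide +kernel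

def tab3a0_17 : List (ℕ × ℕ × ℕ) :=
  [
    (400, 52, 0x6cdfffffef7ff4f60000000),
    (405, 53, 0x36fdffffeff7777e00000000),
    (432, 54, 0x76cd7ffffff7ff7e00000000)]

theorem chk_tab3a0_17 : chk false 3 11 qs11 sm7 378 tab3a0_17 = true := by decide +kernel

def tab3a0_18 : List (ℕ × ℕ × ℕ) :=
  [
    (441, 55, 0x176fdfffffff77d5e00000000),
    (448, 56, 0x372fdffffffff7d5e00000000),
    (500, 57, 0x776fdfffffff67f5e00000000)]

theorem chk_tab3a0_18 : chk false 3 11 qs11 sm7 432 tab3a0_18 = true := by decide +kernel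

def tab3a0_19 : List (ℕ × ℕ × ℕ) :=
  [
    (512, 58, 0xe67edffffff7f7c7f400000000),
    (525, 59, 0x2e67afffffff7ffc5f400000000),
    (567, 60, 0x6e6fefffffff7ff95e000000000)]

theorem chk_tab3a0_19 : chk false 3 11 qs11 sm7 500 tab3a0_19 = true := by decide +kernel

def tab3a0_20 : List (ℕ × ℕ × ℕ) :=
  [
    (600, 61, 0x26e6fefffffff7ff95e000000000),
    (625, 62, 0x176ffffffffff753dd50400000000),
    (675, 63, 0x376ffffffffff753dd50400000000)]

theorem chk_tab3a0_20 : chk false 3 11 qs11 sm7 567 tab3a0_20 = true := by decide +kernel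

def tab3a0_21 : List (ℕ × ℕ × ℕ) :=
  [
    (686, 64, 0x4376ffffffffff753dd50400000000),
    (700, 65, 0xc376fffffffffffd3dd40000000000),
    (729, 66, 0x1c376fffffffffffd3dd40000000000)]

theorem chk_tab3a0_21 : chk false 3 11 qs11 sm7 675 tab3a0_21 = true := by decide +kernel

def tab3a0_22 : List (ℕ × ℕ × ℕ) :=
  [
    (735, 67, 0x5c376fffffffffffd3dd40000000000),
    (800, 68, 0xdce77fffffffffff337910000000000),
    (875, 69, 0x10dce77fffffffffff337910000000000)]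

theorem chk_tab3a0_22 : chk false 3 11 qs11 sm7 729 tab3a0_22 = true := by decide +kernel

def tab3a0_23 : List (ℕ × ℕ × ℕ) :=
  [
    (896, 70, 0x110dce77fffffffffffb37900000000000),
    (945, 71, 0x79cffffffffffbffcabe24400000000000),
    (980, 72, 0x173cdfefffffffbfffee286400000000000)]

theorem chk_tab3a0_23 : chk false 3 11 qs11 sm7 875 tab3a0_23 = true := by decide +kernel

def tab3a0_24 : List (ℕ × ℕ × ℕ) :=
  [
    (1024, 73, 0xd57cdffffdfffffffd0e78d000000000000),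
    (1029, 74, 0x4d57cdffffdfffffffd0e78d000000000000),
    (1125, 75, 0xd957ddfffffffffffbd0e789000000000000)]

theorem chk_tab3a0_24 : chk false 3 11 qs11 sm7 980 tab3a0_24 = true := by decide +kernel

def tab3a0_25 : List (ℕ × ℕ × ℕ) :=
  [
    (1134, 76, 0x8d957cdffffffffffffd0e789000000000000),
    (1215, 77, 0x1cdd53fdfefffffbeffbdcf382000000000000),
    (1225, 78, 0x11cd573fdfefffffbeffbdef282000000000000)]

theorem chk_tab3a0_25 : chk false 3 11 qs11 sm7 1125 tab3a0_25 = true := by decide +kernel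

def tab3a0_26 : List (ℕ × ℕ × ℕ) :=
  [
    (1250, 79, 0x31cdd73fdfeffbffbeffbdef282000000000000),
    (1296, 80, 0x71cd973fdfeffbffbfffbdef282000000000000),
    (1320, 81, 0x371cdd7bfdfefffefbeee9dff302000000000000)]

theorem chk_tab3a0_26 : chk false 3 11 qs11 sm7 1225 tab3a0_26 = true := by decide +kernel

def tab3a0_27 : List (ℕ × ℕ × ℕ) :=
  [
    (1323, 80, 0x371cdd7bfdfefffefbeee9dff300000000000000),
    (1350, 81, 0x771cdd7bfffefffcfbefebddb300000000000000),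
    (1372, 82, 0x1771ecddbfffffff7ffefcfcd3100000000000000)]

theorem chk_tab3a0_27 : chk false 3 11 qs11 sm7 1320 tab3a0_27 = true := by decide +kernel

def tab3a0_28 : List (ℕ × ℕ × ℕ) :=
  [
    (1568, 83, 0x3771ecddbfffffff7ffefcfcd3100000000000000),
    (1575, 84, 0x213771ecdfbfffffff5ffefcecd3100000000000000),
    (1600, 85, 0x63bd77ffffff7fffb6ffed65e942000000000000000)]

theorem chk_tab3a0_28 : chk false 3 11 qs11 sm7 1372 tab3a0_28 = true := by decide +kernel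

def tab3a0_29 : List (ℕ × ℕ × ℕ) :=
  [
    (1701, 86, 0xf17d7fffffbffffffffc75fce080000000000000000),
    (1715, 87, 0x4f17f7fffffffffffffec75f8e080000000000000000),
    (1728, 88, 0xcf9777fffffffffffefec37f8e280000000000000000)]

theorem chk_tab3a0_29 : chk false 3 11 qs11 sm7 1600 tab3a0_29 = true := by decide +kernel

def tab3a0_30 : List (ℕ × ℕ × ℕ) :=
  [
    (1750, 89, 0x1ce17777fffffffffbfdeef7797a80000000000000000),
    (1875, 90, 0x3ce17777fffffffffbfdeef7797a80000000000000000),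
    (1890, 91, 0x23ce97777fffffffffbfdeeb7797a80000000000000000)]

theorem chk_tab3a0_30 : chk false 3 11 qs11 sm7 1728 tab3a0_30 = true := by decide +kernel

def tab3a0_31 : List (ℕ × ℕ × ℕ) :=
  [
    (2025, 92, 0x6bce97ff7fffffffffbffaeb73d6800000000000000000),
    (2048, 93, 0x106bce97ff7fffffffff3ffafb73d6800000000000000000),
    (2187, 94, 0x3c2bef9effffffffbffffefe5ede22000000000000000000)]

theorem chk_tab3a0_31 : chk false 3 11 qs11 sm7 1890 tab3a0_31 = true := by decide +kernel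

def tab3a0_32 : List (ℕ × ℕ × ℕ) :=
  [
    (2205, 95, 0x23c3bee9ffffffffffffefed64edf23000000000000000000),
    (2250, 96, 0x67e2feebffffff7fffdfffedc5f9e01000000000000000000),
    (2401, 97, 0x167c3feefffffffffffffffed45c9c21000000000000000000)]

theorem chk_tab3a0_32 : chk false 3 11 qs11 sm7 2187 tab3a0_32 = true := by decide +kernel

def tab3a0_33 : List (ℕ × ℕ × ℕ) :=
  [
    (2430, 98, 0x2d67e3fefffffffffffbfff3ed44c9c21000000000000000000),
    (2500, 99, 0x6ce7fafffbfffffffffffff2ecf878200000000000000000000),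
    (2625, 100, 0x1e4e3faffffff7ffffffffffae0db7c400000000000000000000)]

theorem chk_tab3a0_33 : chk false 3 11 qs11 sm7 2401 tab3a0_33 = true := by decide +kernel

def tab3a0_34 : List (ℕ × ℕ × ℕ) :=
  [
    (2646, 101, 0x15e5e7fbbffffffff7ffffff6ae17b4c200000000000000000000),
    (2800, 102, 0x3da3f37ffdfffffefffffffe6f730f0e200000000000000000000),
    (2916, 103, 0x39fadfffffffffffdfff7ffee36676640000000000000000000000)]

theorem chk_tab3a0_34 : chk false 3 11 qs11 sm7 2625 tab3a0_34 = true := by decide +kernel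

def tab3a0_35 : List (ℕ × ℕ × ℕ) :=
  [
    (3087, 104, 0x1717edeffffffeffffffffffe732e57244000000000000000000000),
    (3125, 105, 0x39735eee7fefffffffffdbff1f7fed4c814200000000000000000000),
    (3136, 106, 0x7873cefe7fefffffdfffdfff8f7f6dcc814200000000000000000000)]

theorem chk_tab3a0_35 : chk false 3 11 qs11 sm7 2916 tab3a0_35 = true := by decide +kernel

def tab3a0_36 : List (ℕ × ℕ × ℕ) :=
  [
    (3200, 107, 0xf973defe7fefffeffbffdfff0f6fedcc814200000000000000000000),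
    (3375, 108, 0x2edf35fff7fffffffffffdbff4df6af4c800000000000000000000000),
    (3456, 109, 0x12edf35fff7fffffffffffdbff4df6af4c800000000000000000000000)]

theorem chk_tab3a0_36 : chk false 3 11 qs11 sm7 3136 tab3a0_36 = true := by decide +kernel

def tab3a0_37 : List (ℕ × ℕ × ℕ) :=
  [
    (3500, 110, 0xf2edf3dfff7fffbfffffffdbf74d76af4c800000000000000000000000),
    (3645, 111, 0x1b2e5f7dffffffffffffffffff568d69f48400000000000000000000000),
    (3675, 112, 0x15f2e5f7df7fffffffffffffffb5e8f69e08400000000000000000000000)]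

theorem chk_tab3a0_37 : chk false 3 11 qs11 sm7 3456 tab3a0_37 = true := by decide +kernel

def tab3a0_38 : List (ℕ × ℕ × ℕ) :=
  [
    (3888, 113, 0x35f2f7f7dffffffff6ffbffffff5e0de1d0a400000000000000000000000),
    (3969, 114, 0x37572f7f7dfffffffffffdbeff9ffa4d67d08000000000000000000000000),
    (4050, 115, 0xb3572f7f7dfffffffffffdffff9ffa4d65d08000000000000000000000000)]

theorem chk_tab3a0_38 : chk false 3 11 qs11 sm7 3675 tab3a0_38 = true := by decide +kernel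

def tab3a0_39 : List (ℕ × ℕ × ℕ) :=
  [
    (4096, 116, 0x5e347ff17ffffffffffffffff7fbd83f8bc102020000000000000000000000)]

theorem chk_tab3a0_39 : chk false 3 11 qs11 sm7 4050 tab3a0_39 = true := by decide +kernel

def cat_tab3a0_39 : List (ℕ × ℕ) := [(4096, 116)]

theorem chl_tab3a0_39 : ChL (fa 3 210 11) 4050 cat_tab3a0_39 :=
  (chl_fa mas_sm7 qs11_spec tab3a0_39 4050 chk_tab3a0_39)

def cat_tab3a0_38 : List (ℕ × ℕ) := [(3888, 113), (3969, 114), (4050, 115)] ++ cat_tab3a0_39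

theorem chl_tab3a0_38 : ChL (fa 3 210 11) 3675 cat_tab3a0_38 :=
  chl_append chl_tab3a0_39 [(3888, 113), (3969, 114), (4050, 115)] 3675 (by decide +kernel) (chl_fa mas_sm7 qs11_spec tab3a0_38 3675 chk_tab3a0_38)

def cat_tab3a0_37 : List (ℕ × ℕ) := [(3500, 110), (3645, 111), (3675, 112)] ++ cat_tab3a0_38

theorem chl_tab3a0_37 : ChL (fa 3 210 11) 3456 cat_tab3a0_37 :=
  chl_append chl_tab3a0_38 [(3500, 110), (3645, 111), (3675, 112)] 3456 (by decide +kernel) (chl_fa mas_sm7 qs11_spec tab3a0_37 3456 chk_tab3a0_37)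

def cat_tab3a0_36 : List (ℕ × ℕ) := [(3200, 107), (3375, 108), (3456, 109)] ++ cat_tab3a0_37

theorem chl_tab3a0_36 : ChL (fa 3 210 11) 3136 cat_tab3a0_36 :=
  chl_append chl_tab3a0_37 [(3200, 107), (3375, 108), (3456, 109)] 3136 (by decide +kernel) (chl_fa mas_sm7 qs11_spec tab3a0_36 3136 chk_tab3a0_36)

def cat_tab3a0_35 : List (ℕ × ℕ) := [(3087, 104), (3125, 105), (3136, 106)] ++ cat_tab3a0_36

theorem chl_tab3a0_35 : ChL (fa 3 210 11) 2916 cat_tab3a0_35 :=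
  chl_append chl_tab3a0_36 [(3087, 104), (3125, 105), (3136, 106)] 2916 (by decide +kernel) (chl_fa mas_sm7 qs11_spec tab3a0_35 2916 chk_tab3a0_35)

def cat_tab3a0_34 : List (ℕ × ℕ) := [(2646, 101), (2800, 102), (2916, 103)] ++ cat_tab3a0_35

theorem chl_tab3a0_34 : ChL (fa 3 210 11) 2625 cat_tab3a0_34 :=
  chl_append chl_tab3a0_35 [(2646, 101), (2800, 102), (2916, 103)] 2625 (by decide +kernel) (chl_fa mas_sm7 qs11_spec tab3a0_34 2625 chk_tab3a0_34)

def cat_tab3a0_33 : List (ℕ × ℕ) := [(2430, 98), (2500, 99), (2625, 100)] ++ cat_tab3a0_34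

theorem chl_tab3a0_33 : ChL (fa 3 210 11) 2401 cat_tab3a0_33 :=
  chl_append chl_tab3a0_34 [(2430, 98), (2500, 99), (2625, 100)] 2401 (by decide +kernel) (chl_fa mas_sm7 qs11_spec tab3a0_33 2401 chk_tab3a0_33)

def cat_tab3a0_32 : List (ℕ × ℕ) := [(2205, 95), (2250, 96), (2401, 97)] ++ cat_tab3a0_33

theorem chl_tab3a0_32 : ChL (fa 3 210 11) 2187 cat_tab3a0_32 :=
  chl_append chl_tab3a0_33 [(2205, 95), (2250, 96), (2401, 97)] 2187 (by decide +kernel) (chl_fa mas_sm7 qs11_spec tab3a0_32 2187 chk_tab3a0_32)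

def cat_tab3a0_31 : List (ℕ × ℕ) := [(2025, 92), (2048, 93), (2187, 94)] ++ cat_tab3a0_32

theorem chl_tab3a0_31 : ChL (fa 3 210 11) 1890 cat_tab3a0_31 :=
  chl_append chl_tab3a0_32 [(2025, 92), (2048, 93), (2187, 94)] 1890 (by decide +kernel) (chl_fa mas_sm7 qs11_spec tab3a0_31 1890 chk_tab3a0_31)

def cat_tab3a0_30 : List (ℕ × ℕ) := [(1750, 89), (1875, 90), (1890, 91)] ++ cat_tab3a0_31

theorem chl_tab3a0_30 : ChL (fa 3 210 11) 1728 cat_tab3a0_30 :=
  chl_append chl_tab3a0_31 [(1750, 89), (1875, 90), (1890, 91)] 1728 (by decide +kernel) (chl_fa mas_sm7 qs11_spec tab3a0_30 1728 chk_tab3a0_30)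

def cat_tab3a0_29 : List (ℕ × ℕ) := [(1701, 86), (1715, 87), (1728, 88)] ++ cat_tab3a0_30

theorem chl_tab3a0_29 : ChL (fa 3 210 11) 1600 cat_tab3a0_29 :=
  chl_append chl_tab3a0_30 [(1701, 86), (1715, 87), (1728, 88)] 1600 (by decide +kernel) (chl_fa mas_sm7 qs11_spec tab3a0_29 1600 chk_tab3a0_29)

def cat_tab3a0_28 : List (ℕ × ℕ) := [(1568, 83), (1575, 84), (1600, 85)] ++ cat_tab3a0_29

theorem chl_tab3a0_28 : ChL (fa 3 210 11) 1372 cat_tab3a0_28 :=
  chl_append chl_tab3a0_29 [(1568, 83), (1575, 84), (1600, 85)] 1372 (by decide +kernel) (chl_fa mas_sm7 qs11_spec tab3a0_28 1372 chk_tab3a0_28)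

def cat_tab3a0_27 : List (ℕ × ℕ) := [(1323, 80), (1350, 81), (1372, 82)] ++ cat_tab3a0_28

theorem chl_tab3a0_27 : ChL (fa 3 210 11) 1320 cat_tab3a0_27 :=
  chl_append chl_tab3a0_28 [(1323, 80), (1350, 81), (1372, 82)] 1320 (by decide +kernel) (chl_fa mas_sm7 qs11_spec tab3a0_27 1320 chk_tab3a0_27)

def cat_tab3a0_26 : List (ℕ × ℕ) := [(1250, 79), (1296, 80), (1320, 81)] ++ cat_tab3a0_27

theorem chl_tab3a0_26 : ChL (fa 3 210 11) 1225 cat_tab3a0_26 :=
  chl_append chl_tab3a0_27 [(1250, 79), (1296, 80), (1320, 81)] 1225 (by decide +kernel) (chl_fa mas_sm7 qs11_spec tab3a0_26 1225 chk_tab3a0_26)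

def cat_tab3a0_25 : List (ℕ × ℕ) := [(1134, 76), (1215, 77), (1225, 78)] ++ cat_tab3a0_26

theorem chl_tab3a0_25 : ChL (fa 3 210 11) 1125 cat_tab3a0_25 :=
  chl_append chl_tab3a0_26 [(1134, 76), (1215, 77), (1225, 78)] 1125 (by decide +kernel) (chl_fa mas_sm7 qs11_spec tab3a0_25 1125 chk_tab3a0_25)

def cat_tab3a0_24 : List (ℕ × ℕ) := [(1024, 73), (1029, 74), (1125, 75)] ++ cat_tab3a0_25

theorem chl_tab3a0_24 : ChL (fa 3 210 11) 980 cat_tab3a0_24 :=
  chl_append chl_tab3a0_25 [(1024, 73), (1029, 74), (1125, 75)] 980 (by decide +kernel) (chl_fa mas_sm7 qs11_spec tab3a0_24 980 chk_tab3a0_24)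

def cat_tab3a0_23 : List (ℕ × ℕ) := [(896, 70), (945, 71), (980, 72)] ++ cat_tab3a0_24

theorem chl_tab3a0_23 : ChL (fa 3 210 11) 875 cat_tab3a0_23 :=
  chl_append chl_tab3a0_24 [(896, 70), (945, 71), (980, 72)] 875 (by decide +kernel) (chl_fa mas_sm7 qs11_spec tab3a0_23 875 chk_tab3a0_23)

def cat_tab3a0_22 : List (ℕ × ℕ) := [(735, 67), (800, 68), (875, 69)] ++ cat_tab3a0_23

theorem chl_tab3a0_22 : ChL (fa 3 210 11) 729 cat_tab3a0_22 :=
  chl_append chl_tab3a0_23 [(735, 67), (800, 68), (875, 69)] 729 (by decide +kernel) (chl_fa mas_sm7 qs11_spec tab3a0_22 729 chk_tab3a0_22)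

def cat_tab3a0_21 : List (ℕ × ℕ) := [(686, 64), (700, 65), (729, 66)] ++ cat_tab3a0_22

theorem chl_tab3a0_21 : ChL (fa 3 210 11) 675 cat_tab3a0_21 :=
  chl_append chl_tab3a0_22 [(686, 64), (700, 65), (729, 66)] 675 (by decide +kernel) (chl_fa mas_sm7 qs11_spec tab3a0_21 675 chk_tab3a0_21)

def cat_tab3a0_20 : List (ℕ × ℕ) := [(600, 61), (625, 62), (675, 63)] ++ cat_tab3a0_21

theorem chl_tab3a0_20 : ChL (fa 3 210 11) 567 cat_tab3a0_20 :=
  chl_append chl_tab3a0_21 [(600, 61), (625, 62), (675, 63)] 567 (by decide +kernel) (chl_fa mas_sm7 qs11_spec tab3a0_20 567 chk_tab3a0_20)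

def cat_tab3a0_19 : List (ℕ × ℕ) := [(512, 58), (525, 59), (567, 60)] ++ cat_tab3a0_20

theorem chl_tab3a0_19 : ChL (fa 3 210 11) 500 cat_tab3a0_19 :=
  chl_append chl_tab3a0_20 [(512, 58), (525, 59), (567, 60)] 500 (by decide +kernel) (chl_fa mas_sm7 qs11_spec tab3a0_19 500 chk_tab3a0_19)

def cat_tab3a0_18 : List (ℕ × ℕ) := [(441, 55), (448, 56), (500, 57)] ++ cat_tab3a0_19

theorem chl_tab3a0_18 : ChL (fa 3 210 11) 432 cat_tab3a0_18 :=
  chl_append chl_tab3a0_19 [(441, 55), (448, 56), (500, 57)] 432 (by decide +kernel) (chl_fa mas_sm7 qs11_spec tab3a0_18 432 chk_tab3a0_18)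

def cat_tab3a0_17 : List (ℕ × ℕ) := [(400, 52), (405, 53), (432, 54)] ++ cat_tab3a0_18

theorem chl_tab3a0_17 : ChL (fa 3 210 11) 378 cat_tab3a0_17 :=
  chl_append chl_tab3a0_18 [(400, 52), (405, 53), (432, 54)] 378 (by decide +kernel) (chl_fa mas_sm7 qs11_spec tab3a0_17 378 chk_tab3a0_17)

def cat_tab3a0_16 : List (ℕ × ℕ) := [(343, 49), (375, 50), (378, 51)] ++ cat_tab3a0_17

theorem chl_tab3a0_16 : ChL (fa 3 210 11) 336 cat_tab3a0_16 :=
  chl_append chl_tab3a0_17 [(343, 49), (375, 50), (378, 51)] 336 (by decide +kernel) (chl_fa mas_sm7 qs11_spec tab3a0_16 336 chk_tab3a0_16)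

def cat_tab3a0_15 : List (ℕ × ℕ) := [(288, 46), (315, 47), (336, 48)] ++ cat_tab3a0_16

theorem chl_tab3a0_15 : ChL (fa 3 210 11) 256 cat_tab3a0_15 :=
  chl_append chl_tab3a0_16 [(288, 46), (315, 47), (336, 48)] 256 (by decide +kernel) (chl_fa mas_sm7 qs11_spec tab3a0_15 256 chk_tab3a0_15)

def cat_tab3a0_14 : List (ℕ × ℕ) := [(245, 43), (250, 44), (256, 45)] ++ cat_tab3a0_15

theorem chl_tab3a0_14 : ChL (fa 3 210 11) 243 cat_tab3a0_14 :=
  chl_append chl_tab3a0_15 [(245, 43), (250, 44), (256, 45)] 243 (by decide +kernel) (chl_fa mas_sm7 qs11_spec tab3a0_14 243 chk_tab3a0_14)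

def cat_tab3a0_13 : List (ℕ × ℕ) := [(224, 40), (225, 41), (243, 42)] ++ cat_tab3a0_14

theorem chl_tab3a0_13 : ChL (fa 3 210 11) 196 cat_tab3a0_13 :=
  chl_append chl_tab3a0_14 [(224, 40), (225, 41), (243, 42)] 196 (by decide +kernel) (chl_fa mas_sm7 qs11_spec tab3a0_13 196 chk_tab3a0_13)

def cat_tab3a0_12 : List (ℕ × ℕ) := [(175, 37), (189, 38), (196, 39)] ++ cat_tab3a0_13

theorem chl_tab3a0_12 : ChL (fa 3 210 11) 160 cat_tab3a0_12 :=
  chl_append chl_tab3a0_13 [(175, 37), (189, 38), (196, 39)] 160 (by decide +kernel) (chl_fa mas_sm7 qs11_spec tab3a0_12 160 chk_tab3a0_12)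

def cat_tab3a0_11 : List (ℕ × ℕ) := [(140, 34), (147, 35), (160, 36)] ++ cat_tab3a0_12

theorem chl_tab3a0_11 : ChL (fa 3 210 11) 135 cat_tab3a0_11 :=
  chl_append chl_tab3a0_12 [(140, 34), (147, 35), (160, 36)] 135 (by decide +kernel) (chl_fa mas_sm7 qs11_spec tab3a0_11 135 chk_tab3a0_11)

def cat_tab3a0_10 : List (ℕ × ℕ) := [(125, 31), (128, 32), (135, 33)] ++ cat_tab3a0_11

theorem chl_tab3a0_10 : ChL (fa 3 210 11) 105 cat_tab3a0_10 :=
  chl_append chl_tab3a0_11 [(125, 31), (128, 32), (135, 33)] 105 (by decide +kernel) (chl_fa mas_sm7 qs11_spec tab3a0_10 105 chk_tab3a0_10)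

def cat_tab3a0_9 : List (ℕ × ℕ) := [(98, 28), (100, 29), (105, 30)] ++ cat_tab3a0_10

theorem chl_tab3a0_9 : ChL (fa 3 210 11) 81 cat_tab3a0_9 :=
  chl_append chl_tab3a0_10 [(98, 28), (100, 29), (105, 30)] 81 (by decide +kernel) (chl_fa mas_sm7 qs11_spec tab3a0_9 81 chk_tab3a0_9)

def cat_tab3a0_8 : List (ℕ × ℕ) := [(75, 25), (80, 26), (81, 27)] ++ cat_tab3a0_9

theorem chl_tab3a0_8 : ChL (fa 3 210 11) 64 cat_tab3a0_8 :=
  chl_append chl_tab3a0_9 [(75, 25), (80, 26), (81, 27)] 64 (by decide +kernel) (chl_fa mas_sm7 qs11_spec tab3a0_8 64 chk_tab3a0_8)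

def cat_tab3a0_7 : List (ℕ × ℕ) := [(56, 22), (63, 23), (64, 24)] ++ cat_tab3a0_8

theorem chl_tab3a0_7 : ChL (fa 3 210 11) 50 cat_tab3a0_7 :=
  chl_append chl_tab3a0_8 [(56, 22), (63, 23), (64, 24)] 50 (by decide +kernel) (chl_fa mas_sm7 qs11_spec tab3a0_7 50 chk_tab3a0_7)

def cat_tab3a0_6 : List (ℕ × ℕ) := [(48, 19), (49, 20), (50, 21)] ++ cat_tab3a0_7

theorem chl_tab3a0_6 : ChL (fa 3 210 11) 45 cat_tab3a0_6 :=
  chl_append chl_tab3a0_7 [(48, 19), (49, 20), (50, 21)] 45 (by decide +kernel) (chl_fa mas_sm7 qs11_spec tab3a0_6 45 chk_tab3a0_6)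

def cat_tab3a0_5 : List (ℕ × ℕ) := [(32, 16), (35, 17), (45, 18)] ++ cat_tab3a0_6

theorem chl_tab3a0_5 : ChL (fa 3 210 11) 28 cat_tab3a0_5 :=
  chl_append chl_tab3a0_6 [(32, 16), (35, 17), (45, 18)] 28 (by decide +kernel) (chl_fa mas_sm7 qs11_spec tab3a0_5 28 chk_tab3a0_5)

def cat_tab3a0_4 : List (ℕ × ℕ) := [(25, 13), (27, 14), (28, 15)] ++ cat_tab3a0_5

theorem chl_tab3a0_4 : ChL (fa 3 210 11) 21 cat_tab3a0_4 :=
  chl_append chl_tab3a0_5 [(25, 13), (27, 14), (28, 15)] 21 (by decide +kernel) (chl_fa mas_sm7 qs11_spec tab3a0_4 21 chk_tab3a0_4)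

def cat_tab3a0_3 : List (ℕ × ℕ) := [(15, 10), (18, 11), (21, 12)] ++ cat_tab3a0_4

theorem chl_tab3a0_3 : ChL (fa 3 210 11) 14 cat_tab3a0_3 :=
  chl_append chl_tab3a0_4 [(15, 10), (18, 11), (21, 12)] 14 (by decide +kernel) (chl_fa mas_sm7 qs11_spec tab3a0_3 14 chk_tab3a0_3)

def cat_tab3a0_2 : List (ℕ × ℕ) := [(9, 7), (10, 8), (14, 9)] ++ cat_tab3a0_3

theorem chl_tab3a0_2 : ChL (fa 3 210 11) 8 cat_tab3a0_2 :=
  chl_append chl_tab3a0_3 [(9, 7), (10, 8), (14, 9)] 8 (by decide +kernel) (chl_fa mas_sm7 qs11_spec tab3a0_2 8 chk_tab3a0_2)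

def cat_tab3a0_1 : List (ℕ × ℕ) := [(5, 4), (7, 5), (8, 6)] ++ cat_tab3a0_2

theorem chl_tab3a0_1 : ChL (fa 3 210 11) 4 cat_tab3a0_1 :=
  chl_append chl_tab3a0_2 [(5, 4), (7, 5), (8, 6)] 4 (by decide +kernel) (chl_fa mas_sm7 qs11_spec tab3a0_1 4 chk_tab3a0_1)

def cat_tab3a0_0 : List (ℕ × ℕ) := [(2, 1), (3, 2), (4, 3)] ++ cat_tab3a0_1

theorem chl_tab3a0_0 : ChL (fa 3 210 11) 1 cat_tab3a0_0 :=
  chl_append chl_tab3a0_1 [(2, 1), (3, 2), (4, 3)] 1 (by decide +kernel) (chl_fa mas_sm7 qs11_spec tab3a0_0 1 chk_tab3a0_0)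

def tab3a0 : List (ℕ × ℕ) := cat_tab3a0_0

theorem chl_tab3a0 : ChL (fa 3 210 11) 1 tab3a0 := chl_tab3a0_0

theorem lst_tab3a0 : lst 1 tab3a0 = 4096 := by decide +kernel

theorem tel_tab3a0 : (35084471161 / 10000000000 : ℚ) ≤ tel 1 tab3a0 := by decide +kernel

theorem ws_tab3a0 : (35084471161 / 10000000000 : ℝ) ≤ ws (fa 3 210 11) 1 4096 := by
  have h2 := (tel_le_ws _ _ 1 (by norm_num) chl_tab3a0).2
  rw [lst_tab3a0] at h2
  have h4 : ((35084471161 / 10000000000 : ℚ) : ℝ) ≤ _ := Rat.cast_le.2 tel_tab3a0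
  rw [show ((35084471161 / 10000000000 : ℚ) : ℝ) = (35084471161 / 10000000000 : ℝ) by norm_num] at h4
  exact h4.trans h2

end Pool.Agent.H36.KW
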