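import Pool.Agent.H36.KW.Sm13
import Pool.Agent.H36.KW.Chunk

/-!
# KW Tab4a0: sets, for k = 4, j from 1 to 999
-/

set_option autoImplicit false
set_option maxRecDepth 100000

namespace Pool.Agent.H36.KW

open Pool.Agent.H96.KMF Pool.Agent.H36.K3

def tab4a0_0 : List (ℕ × ℕ × ℕ) :=
  [
    (2, 1, 0x1),
    (3, 2, 0x3),
    (4, 3, 0x7)]

theorem chk_tab4a0_0 : chk false 4 17 qs17 sm13 1 tab4a0_0 = true := by decide +kernel

def tab4a0_1 : List (ℕ × ℕ × ℕ) :=
  [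
    (5, 4, 0xf),
    (6, 5, 0x1f),
    (7, 6, 0x3f)]

theorem chk_tab4a0_1 : chk false 4 17 qs17 sm13 4 tab4a0_1 = true := by decide +kernel

def tab4a0_2 : List (ℕ × ℕ × ℕ) :=
  [
    (8, 7, 0x7f),
    (9, 8, 0xff),
    (10, 9, 0x1ff)]

theorem chk_tab4a0_2 : chk false 4 17 qs17 sm13 7 tab4a0_2 = true := by decide +kernel

def tab4a0_3 : List (ℕ × ℕ × ℕ) :=
  [
    (11, 10, 0x3ff),
    (13, 11, 0x7ff),
    (14, 12, 0x17ff)]

theorem chk_tab4a0_3 : chk false 4 17 qs17 sm13 10 tab4a0_3 = true := by decide +kernel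

def tab4a0_4 : List (ℕ × ℕ × ℕ) :=
  [
    (15, 13, 0x37ff),
    (17, 14, 0x77ff),
    (18, 14, 0xf7fe)]

theorem chk_tab4a0_4 : chk false 4 17 qs17 sm13 14 tab4a0_4 = true := by decide +kernel

def tab4a0_5 : List (ℕ × ℕ × ℕ) :=
  [
    (20, 15, 0x1fffc),
    (21, 16, 0x3fffc),
    (22, 17, 0x7fffc)]

theorem chk_tab4a0_5 : chk false 4 17 qs17 sm13 18 tab4a0_5 = true := by decide +kernel

def tab4a0_6 : List (ℕ × ℕ × ℕ) :=
  [
    (25, 18, 0xffffc),
    (26, 19, 0x2ffffc),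
    (27, 20, 0x6ffffc)]

theorem chk_tab4a0_6 : chk false 4 17 qs17 sm13 22 tab4a0_6 = true := by decide +kernel

def tab4a0_7 : List (ℕ × ℕ × ℕ) :=
  [
    (28, 21, 0xeffffc),
    (32, 22, 0x1effffc),
    (33, 23, 0x5effffc)]

theorem chk_tab4a0_7 : chk false 4 17 qs17 sm13 27 tab4a0_7 = true := by decide +kernel

def tab4a0_8 : List (ℕ × ℕ × ℕ) :=
  [
    (35, 24, 0xdeffffc),
    (39, 25, 0x1deffffc),
    (42, 26, 0x5deffffc)]

theorem chk_tab4a0_8 : chk false 4 17 qs17 sm13 33 tab4a0_8 = true := by decide +kernel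

def tab4a0_9 : List (ℕ × ℕ × ℕ) :=
  [
    (44, 27, 0x15fffffd8),
    (45, 28, 0x37ffeffd8),
    (48, 29, 0x77ffeffd8)]

theorem chk_tab4a0_9 : chk false 4 17 qs17 sm13 42 tab4a0_9 = true := by decide +kernel

def tab4a0_10 : List (ℕ × ℕ × ℕ) :=
  [
    (49, 30, 0xfffffff50),
    (50, 31, 0x1fffffff50),
    (52, 32, 0x3fffffff50)]

theorem chk_tab4a0_10 : chk false 4 17 qs17 sm13 48 tab4a0_10 = true := by decide +kernel

def tab4a0_11 : List (ℕ × ℕ × ℕ) :=
  [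
    (54, 33, 0x7fffffff50),
    (55, 34, 0xffffffff50),
    (56, 35, 0x1ffffffff50)]

theorem chk_tab4a0_11 : chk false 4 17 qs17 sm13 52 tab4a0_11 = true := by decide +kernel

def tab4a0_12 : List (ℕ × ℕ × ℕ) :=
  [
    (63, 36, 0x3ffffffff50),
    (64, 37, 0xbffffffff50),
    (65, 38, 0x1bffffffff50)]

theorem chk_tab4a0_12 : chk false 4 17 qs17 sm13 56 tab4a0_12 = true := by decide +kernel

def tab4a0_13 : List (ℕ × ℕ × ℕ) :=
  [
    (66, 39, 0x3bffffffff50),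
    (75, 40, 0x7bffffffff50),
    (77, 41, 0x27bffffffff50)]

theorem chk_tab4a0_13 : chk false 4 17 qs17 sm13 65 tab4a0_13 = true := by decide +kernel

def tab4a0_14 : List (ℕ × ℕ × ℕ) :=
  [
    (78, 42, 0x67bffffffff50),
    (81, 43, 0xe7bffffffff50),
    (88, 44, 0x3ffffffffef540)]

theorem chk_tab4a0_14 : chk false 4 17 qs17 sm13 77 tab4a0_14 = true := by decide +kernel

def tab4a0_15 : List (ℕ × ℕ × ℕ) :=
  [
    (91, 45, 0xbeffffffffbd40),
    (96, 46, 0x3befffbffffbd40),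
    (98, 47, 0x6bfffffffeff540)]

theorem chk_tab4a0_15 : chk false 4 17 qs17 sm13 88 tab4a0_15 = true := by decide +kernel

def tab4a0_16 : List (ℕ × ℕ × ℕ) :=
  [
    (99, 48, 0xebfffffffeff540),
    (100, 49, 0x1ebfffffffeff540),
    (104, 50, 0x3ebfffffffeff540)]

theorem chk_tab4a0_16 : chk false 4 17 qs17 sm13 98 tab4a0_16 = true := by decide +kernel

def tab4a0_17 : List (ℕ × ℕ × ℕ) :=
  [
    (110, 51, 0x7ebfffffffeff540),
    (112, 52, 0x2febfffffffeff500),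
    (117, 53, 0x6fefffffffeeff500)]

theorem chk_tab4a0_17 : chk false 4 17 qs17 sm13 104 tab4a0_17 = true := by decide +kernel

def tab4a0_18 : List (ℕ × ℕ × ℕ) :=
  [
    (121, 54, 0xefefffffffeeff500),
    (125, 55, 0x2efefffffffeeff500),
    (126, 56, 0x6efefffffffeeff500)]

theorem chk_tab4a0_18 : chk false 4 17 qs17 sm13 117 tab4a0_18 = true := by decide +kernel

def tab4a0_19 : List (ℕ × ℕ × ℕ) :=
  [
    (128, 57, 0xeffffffffffbfed400),
    (130, 58, 0x1efffffffffffeed400),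
    (135, 59, 0x3effbfffffffffed400)]

theorem chk_tab4a0_19 : chk false 4 17 qs17 sm13 126 tab4a0_19 = true := by decide +kernel

def tab4a0_20 : List (ℕ × ℕ × ℕ) :=
  [
    (143, 60, 0xbeffffffffffffe5400),
    (147, 61, 0x3beffbff7ffffffed400),
    (154, 62, 0xbbeffbff7ffffffed400)]

theorem chk_tab4a0_20 : chk false 4 17 qs17 sm13 135 tab4a0_20 = true := by decide +kernel

def tab4a0_21 : List (ℕ × ℕ × ℕ) :=
  [
    (160, 63, 0x2bbeffbff7ffffffed400),
    (162, 64, 0xabbeffffffffffffc5400),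
    (165, 65, 0x1abbeffffffffffffc5400)]

theorem chk_tab4a0_21 : chk false 4 17 qs17 sm13 154 tab4a0_21 = true := by decide +kernel

def tab4a0_22 : List (ℕ × ℕ × ℕ) :=
  [
    (169, 66, 0x3bbbfffffffffff9fc9400),
    (175, 67, 0xbbbbfffffffffff9fc9400),
    (180, 68, 0x1bbbbfffffffffff9fc9400)]

theorem chk_tab4a0_22 : chk false 4 17 qs17 sm13 165 tab4a0_22 = true := by decide +kernel

def tab4a0_23 : List (ℕ × ℕ × ℕ) :=
  [
    (182, 69, 0x5bbfbffffffffffddfc1400),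
    (189, 70, 0xfbbffffffffffffddf41000),
    (195, 71, 0x1fbbfbffffffffffddfc1000)]

theorem chk_tab4a0_23 : chk false 4 17 qs17 sm13 180 tab4a0_23 = true := by decide +kernel

def tab4a0_24 : List (ℕ × ℕ × ℕ) :=
  [
    (196, 72, 0x5fbbfbffffffffffddfc1000),
    (198, 73, 0xdfbbffffffffffffd5fc1000),
    (220, 74, 0x1dfbbffffffffffffddf41000)]

theorem chk_tab4a0_24 : chk false 4 17 qs17 sm13 195 tab4a0_24 = true := by decide +kernel

def tab4a0_25 : List (ℕ × ℕ × ℕ) :=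
  [
    (224, 75, 0x27dfbffffffff7ffffddd40000),
    (225, 76, 0x67fbbbffffffffffdffbe40000),
    (231, 77, 0xe7fbbbffffffffffdffbe40000)]

theorem chk_tab4a0_25 : chk false 4 17 qs17 sm13 220 tab4a0_25 = true := by decide +kernel

def tab4a0_26 : List (ℕ × ℕ × ℕ) :=
  [
    (234, 78, 0x1e7fbbfffffffffffdfbbe40000),
    (242, 79, 0x3e7fbbfffffffffffdffba40000),
    (243, 80, 0xbe7fbbfffffffffffdffba40000)]

theorem chk_tab4a0_26 : chk false 4 17 qs17 sm13 231 tab4a0_26 = true := by decide +kernel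

def tab4a0_27 : List (ℕ × ℕ × ℕ) :=
  [
    (245, 81, 0x1be7fbbfffffffffffdffba40000),
    (250, 82, 0x3be7fbbfffffffffffdffba40000),
    (256, 83, 0x7be7fbbfffffffffffdffba40000)]

theorem chk_tab4a0_27 : chk false 4 17 qs17 sm13 243 tab4a0_27 = true := by decide +kernel

def tab4a0_28 : List (ℕ × ℕ × ℕ) :=
  [
    (260, 84, 0x17be7fbbfffffffffffdffba40000),
    (273, 85, 0x37be7fbbfffffffffffdffba40000),
    (275, 86, 0x137be7fbbfffffffffffdffba40000)]

theorem chk_tab4a0_28 : chk false 4 17 qs17 sm13 256 tab4a0_28 = true := by decide +kernel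

def tab4a0_29 : List (ℕ × ℕ × ℕ) :=
  [
    (286, 87, 0x337be7fbbfffffffffffdffba40000),
    (288, 88, 0xb37be7fbbfffffffffffdffba40000),
    (294, 89, 0x1f37ffffffffffffffe7df75da00000)]

theorem chk_tab4a0_29 : chk false 4 17 qs17 sm13 275 tab4a0_29 = true := by decide +kernel

def tab4a0_30 : List (ℕ × ℕ × ℕ) :=
  [
    (297, 90, 0x3f3fffffffffffffffefdf65ca00000),
    (308, 91, 0x7f3fffffffffffffffe7ff65ca00000),
    (315, 92, 0x17f3fffffffffffffffe7ff65ca00000)]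

theorem chk_tab4a0_30 : chk false 4 17 qs17 sm13 294 tab4a0_30 = true := by decide +kernel

def tab4a0_31 : List (ℕ × ℕ × ℕ) :=
  [
    (324, 93, 0x57f3fffffffffffffffefff64ca00000),
    (325, 94, 0x1d7fbffffffffffffffffff7648200000),
    (338, 95, 0x3d7fbffffffffffffffffff7648200000)]

theorem chk_tab4a0_31 : chk false 4 17 qs17 sm13 315 tab4a0_31 = true := by decide +kernel

def tab4a0_32 : List (ℕ × ℕ × ℕ) :=
  [
    (343, 96, 0x1bd7fbfffffffffffffffffd7648200000),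
    (351, 97, 0x3b97fbfffffffffffffffffd7658200000),
    (352, 98, 0xbb97fbfffffffffffffffffd7658200000)]

theorem chk_tab4a0_32 : chk false 4 17 qs17 sm13 338 tab4a0_32 = true := by decide +kernel

def tab4a0_33 : List (ℕ × ℕ × ℕ) :=
  [
    (363, 99, 0x1fbd7fbfffffefffffbffffff7648200000),
    (364, 100, 0x5f3d7fbfffffeffffffffffff7648200000),
    (375, 101, 0xdbbd7fbfffffffffffbffffff7648200000)]

theorem chk_tab4a0_33 : chk false 4 17 qs17 sm13 352 tab4a0_33 = true := by decide +kernel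

def tab4a0_34 : List (ℕ × ℕ × ℕ) :=
  [
    (378, 102, 0x1dfbd7fbffffffffffffffff7d7648200000),
    (385, 103, 0x3dfbd7fbffffffffffffffff7d7648200000),
    (392, 104, 0xbdf3d7fbffffffffffffffffff5648200000)]

theorem chk_tab4a0_34 : chk false 4 17 qs17 sm13 375 tab4a0_34 = true := by decide +kernel

def tab4a0_35 : List (ℕ × ℕ × ℕ) :=
  [
    (405, 105, 0x2bdbb97fbfffffffffffffffffd7658200000),
    (416, 106, 0x12bdbb97fbfffffffffffffffffd7658200000),
    (429, 107, 0x32fdfbd7fbfffffffffefffffffd7648000000)]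

theorem chk_tab4a0_35 : chk false 4 17 qs17 sm13 392 tab4a0_35 = true := by decide +kernel

def tab4a0_36 : List (ℕ × ℕ × ℕ) :=
  [
    (432, 108, 0xbafdfbdffbffffdfffffffdffff97648000000),
    (441, 109, 0x1bafffbdffbfffffffffffffffee95258000000),
    (448, 110, 0x5bafffbdffbfffffffffffffffee95258000000)]

theorem chk_tab4a0_36 : chk false 4 17 qs17 sm13 429 tab4a0_36 = true := by decide +kernel

def tab4a0_37 : List (ℕ × ℕ × ℕ) :=
  [
    (455, 111, 0xdbafffbdffbfffffffffffffffee95258000000),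
    (462, 112, 0x3dbafffbdffbfffffffefffffffee95258000000),
    (484, 113, 0x7dbfbdfffffffffffffffffeeff5bd5210000000)]

theorem chk_tab4a0_37 : chk false 4 17 qs17 sm13 448 tab4a0_37 = true := by decide +kernel

def tab4a0_38 : List (ℕ × ℕ × ℕ) :=
  [
    (486, 114, 0x27dbfbdfffffffffefffffffefff5bd5210000000),
    (495, 115, 0x6fdbfbdfffffffdfeffffbffffff5bd5210000000),
    (500, 116, 0x16fdbfbdfffffffdfeffffbffffff5bd5210000000)]

theorem chk_tab4a0_38 : chk false 4 17 qs17 sm13 484 tab4a0_38 = true := by decide +kernel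

def tab4a0_39 : List (ℕ × ℕ × ℕ) :=
  [
    (507, 117, 0x36ffbffdffffffffdfdffbbffffff5bd5010000000),
    (512, 118, 0xb6ffbffdffffffffdfdffbbffffff5bd5010000000),
    (525, 119, 0x1b6fdbffdffffffffffdffbbffffff5bd5010000000)]

theorem chk_tab4a0_39 : chk false 4 17 qs17 sm13 500 tab4a0_39 = true := by decide +kernel

def tab4a0_40 : List (ℕ × ℕ × ℕ) :=
  [
    (528, 120, 0x5b6fdbffdffffffffffdffbbbfffff5bd5210000000),
    (539, 121, 0xdb67ebffdfffffffffffffffffffb75bd5010000000),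
    (546, 122, 0x1db6ffbffdfffffffffffffbfffeff75ad5010000000)]

theorem chk_tab4a0_40 : chk false 4 17 qs17 sm13 525 tab4a0_40 = true := by decide +kernel

def tab4a0_41 : List (ℕ × ℕ × ℕ) :=
  [
    (550, 123, 0x5db67ebffdffffffffffffffffffff75ad5010000000),
    (560, 124, 0xddb6febffdfffffffffffffbffffff75ad5010000000),
    (567, 125, 0x1fdbe7fffffffffffffffffffeffefe77295000000000)]

theorem chk_tab4a0_41 : chk false 4 17 qs17 sm13 546 tab4a0_41 = true := by decide +kernel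

def tab4a0_42 : List (ℕ × ℕ × ℕ) :=
  [
    (572, 126, 0x3fdbffffffffffffffdf7fffffffefa67395000000000),
    (585, 127, 0x7fdbffffffffffffffdfffffffffe7a67395000000000),
    (594, 128, 0x17fdbfffbffffffffffdfffffffffefa67395000000000)]

theorem chk_tab4a0_42 : chk false 4 17 qs17 sm13 567 tab4a0_42 = true := by decide +kernel

def tab4a0_43 : List (ℕ × ℕ × ℕ) :=
  [
    (605, 129, 0x57fdbffffffffffffffdfffffffffefa27395000000000),
    (616, 130, 0x157fdbffffffffffffffdfffffffffefa27395000000000),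
    (624, 131, 0x357fdbf7ffffffffffffffffffffffefa27395000000000)]

theorem chk_tab4a0_43 : chk false 4 17 qs17 sm13 594 tab4a0_43 = true := by decide +kernel

def tab4a0_44 : List (ℕ × ℕ × ℕ) :=
  [
    (625, 132, 0x757ffbffffffffffffffff7fffffffeba67391000000000),
    (637, 133, 0xf57ffbfffbffffffffffffffffffffeba67391000000000),
    (650, 134, 0x2f57ffbfffbffffffffffffffffffffeba67391000000000)]

theorem chk_tab4a0_44 : chk false 4 17 qs17 sm13 624 tab4a0_44 = true := by decide +kernel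

def tab4a0_45 : List (ℕ × ℕ × ℕ) :=
  [
    (672, 135, 0x17f57ffbefffffffffffffff7fffffffe3e67291000000000),
    (675, 136, 0x56f5fdfffefffffffffffffffffbfffffbb26291000000000),
    (676, 137, 0xd6f5fdfffefffffffffffffffffbfffffbb26291000000000)]

theorem chk_tab4a0_45 : chk false 4 17 qs17 sm13 650 tab4a0_45 = true := by decide +kernel

def tab4a0_46 : List (ℕ × ℕ × ℕ) :=
  [
    (686, 138, 0x1d6f5fdfffffffffffffffffffffbeffffbb26291000000000),
    (700, 139, 0x3d6f5fdfffffffffffffffffffffbeffffbb26291000000000),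
    (702, 140, 0xf97f5fffffffffffffffffffffffffe77fba66211000000000)]

theorem chk_tab4a0_46 : chk false 4 17 qs17 sm13 676 tab4a0_46 = true := by decide +kernel

def tab4a0_47 : List (ℕ × ℕ × ℕ) :=
  [
    (704, 141, 0x1f97f5ffffffffffffffff7ffffffffef7fba66211000000000),
    (715, 142, 0x3f97f5fdfffffffffffffffffffffffef7fba66211000000000),
    (726, 143, 0x7f97f5fdffffffffffffffffffffff7ef7fba76211000000000)]

theorem chk_tab4a0_47 : chk false 4 17 qs17 sm13 702 tab4a0_47 = true := by decide +kernel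

def tab4a0_48 : List (ℕ × ℕ × ℕ) :=
  [
    (728, 144, 0x17f97f5fdffffffffffffffffffffff7ef7fba76211000000000),
    (729, 145, 0x37f97f5fdffffffffffffffffffffff7ef7fba76211000000000),
    (750, 146, 0x77f97f5fdffffffffffffffffffffff7ef7fba76211000000000)]

theorem chk_tab4a0_48 : chk false 4 17 qs17 sm13 726 tab4a0_48 = true := by decide +kernel

def tab4a0_49 : List (ℕ × ℕ × ℕ) :=
  [
    (784, 147, 0x1f7f97fdfdffffffffffffffffffffffeff7f1b64211000000000),
    (800, 148, 0x26f77d7f5fffffffffffffffffffffdfffff7aba27210000000000),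
    (819, 149, 0xa6f7f97f7fffffffffffffffffffff5fffff7e9a27210000000000)]

theorem chk_tab4a0_49 : chk false 4 17 qs17 sm13 750 tab4a0_49 = true := by decide +kernel

def tab4a0_50 : List (ℕ × ℕ × ℕ) :=
  [
    (825, 150, 0x2a6f7fd7f7fffffffffffffffffffbf5fffff7e9a27210000000000),
    (832, 151, 0x6a7f7fd7fffffffffffffffffffffff5ffeff7a9a25210000000000),
    (845, 152, 0xea7f7fd7fffffffffffffffffffffff5ffeff7a9a25210000000000)]

theorem chk_tab4a0_50 : chk false 4 17 qs17 sm13 819 tab4a0_50 = true := by decide +kernel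

def tab4a0_51 : List (ℕ × ℕ × ℕ) :=
  [
    (847, 153, 0x2ea7f7f97fffffffffffffffffffffffdffeff7e9225210000000000),
    (858, 154, 0x6ea7f7fd7ffffffffffffff7ffffffffdffeff7e9225210000000000),
    (875, 155, 0xeea7f7fd7ffffffffffffff7ffffffffdffeff7e9225210000000000)]

theorem chk_tab4a0_51 : chk false 4 17 qs17 sm13 845 tab4a0_51 = true := by decide +kernel

def tab4a0_52 : List (ℕ × ℕ × ℕ) :=
  [
    (882, 156, 0x2eea7f7fd7ffffffffffffff7ffffffffdffeff7e9225210000000000),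
    (891, 157, 0xaeea7f7fd7ffffffffffffff7ffffffffdffeff7e9225210000000000),
    (896, 158, 0x1aeea7f7f97fffffffffffffffffffffffdffeff7e9225210000000000)]

theorem chk_tab4a0_52 : chk false 4 17 qs17 sm13 875 tab4a0_52 = true := by decide +kernel

def tab4a0_53 : List (ℕ × ℕ × ℕ) :=
  [
    (945, 159, 0x3feeeff7fffffffffffffffffffffbffaffffefa7c9224200000000000),
    (968, 160, 0x47fefefffffffffffffffffffffffffffbefbfeb27c9204200000000000),
    (975, 161, 0x147fefeffffbfffffffffffffffffffffffefbfeb27c9204200000000000)]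

theorem chk_tab4a0_53 : chk false 4 17 qs17 sm13 896 tab4a0_53 = true := by decide +kernel

def tab4a0_54 : List (ℕ × ℕ × ℕ) :=
  [
    (1000, 162, 0x747fefeffffffffffffbfffffffffffffffffbaeb27c8224200000000000)]

theorem chk_tab4a0_54 : chk false 4 17 qs17 sm13 975 tab4a0_54 = true := by decide +kernel

def cat_tab4a0_54 : List (ℕ × ℕ) := [(1000, 162)]

theorem chl_tab4a0_54 : ChL (fa 4 30030 17) 975 cat_tab4a0_54 :=
  (chl_fa mas_sm13 qs17_spec tab4a0_54 975 chk_tab4a0_54)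

def cat_tab4a0_53 : List (ℕ × ℕ) := [(945, 159), (968, 160), (975, 161)] ++ cat_tab4a0_54

theorem chl_tab4a0_53 : ChL (fa 4 30030 17) 896 cat_tab4a0_53 :=
  chl_append chl_tab4a0_54 [(945, 159), (968, 160), (975, 161)] 896 (by decide +kernel) (chl_fa mas_sm13 qs17_spec tab4a0_53 896 chk_tab4a0_53)

def cat_tab4a0_52 : List (ℕ × ℕ) := [(882, 156), (891, 157), (896, 158)] ++ cat_tab4a0_53

theorem chl_tab4a0_52 : ChL (fa 4 30030 17) 875 cat_tab4a0_52 :=
  chl_append chl_tab4a0_53 [(882, 156), (891, 157), (896, 158)] 875 (by decide +kernel) (chl_fa mas_sm13 qs17_spec tab4a0_52 875 chk_tab4a0_52)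

def cat_tab4a0_51 : List (ℕ × ℕ) := [(847, 153), (858, 154), (875, 155)] ++ cat_tab4a0_52

theorem chl_tab4a0_51 : ChL (fa 4 30030 17) 845 cat_tab4a0_51 :=
  chl_append chl_tab4a0_52 [(847, 153), (858, 154), (875, 155)] 845 (by decide +kernel) (chl_fa mas_sm13 qs17_spec tab4a0_51 845 chk_tab4a0_51)

def cat_tab4a0_50 : List (ℕ × ℕ) := [(825, 150), (832, 151), (845, 152)] ++ cat_tab4a0_51

theorem chl_tab4a0_50 : ChL (fa 4 30030 17) 819 cat_tab4a0_50 :=
  chl_append chl_tab4a0_51 [(825, 150), (832, 151), (845, 152)] 819 (by decide +kernel) (chl_fa mas_sm13 qs17_spec tab4a0_50 819 chk_tab4a0_50)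

def cat_tab4a0_49 : List (ℕ × ℕ) := [(784, 147), (800, 148), (819, 149)] ++ cat_tab4a0_50

theorem chl_tab4a0_49 : ChL (fa 4 30030 17) 750 cat_tab4a0_49 :=
  chl_append chl_tab4a0_50 [(784, 147), (800, 148), (819, 149)] 750 (by decide +kernel) (chl_fa mas_sm13 qs17_spec tab4a0_49 750 chk_tab4a0_49)

def cat_tab4a0_48 : List (ℕ × ℕ) := [(728, 144), (729, 145), (750, 146)] ++ cat_tab4a0_49

theorem chl_tab4a0_48 : ChL (fa 4 30030 17) 726 cat_tab4a0_48 :=
  chl_append chl_tab4a0_49 [(728, 144), (729, 145), (750, 146)] 726 (by decide +kernel) (chl_fa mas_sm13 qs17_spec tab4a0_48 726 chk_tab4a0_48)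

def cat_tab4a0_47 : List (ℕ × ℕ) := [(704, 141), (715, 142), (726, 143)] ++ cat_tab4a0_48

theorem chl_tab4a0_47 : ChL (fa 4 30030 17) 702 cat_tab4a0_47 :=
  chl_append chl_tab4a0_48 [(704, 141), (715, 142), (726, 143)] 702 (by decide +kernel) (chl_fa mas_sm13 qs17_spec tab4a0_47 702 chk_tab4a0_47)

def cat_tab4a0_46 : List (ℕ × ℕ) := [(686, 138), (700, 139), (702, 140)] ++ cat_tab4a0_47

theorem chl_tab4a0_46 : ChL (fa 4 30030 17) 676 cat_tab4a0_46 :=
  chl_append chl_tab4a0_47 [(686, 138), (700, 139), (702, 140)] 676 (by decide +kernel) (chl_fa mas_sm13 qs17_spec tab4a0_46 676 chk_tab4a0_46)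

def cat_tab4a0_45 : List (ℕ × ℕ) := [(672, 135), (675, 136), (676, 137)] ++ cat_tab4a0_46

theorem chl_tab4a0_45 : ChL (fa 4 30030 17) 650 cat_tab4a0_45 :=
  chl_append chl_tab4a0_46 [(672, 135), (675, 136), (676, 137)] 650 (by decide +kernel) (chl_fa mas_sm13 qs17_spec tab4a0_45 650 chk_tab4a0_45)

def cat_tab4a0_44 : List (ℕ × ℕ) := [(625, 132), (637, 133), (650, 134)] ++ cat_tab4a0_45

theorem chl_tab4a0_44 : ChL (fa 4 30030 17) 624 cat_tab4a0_44 :=
  chl_append chl_tab4a0_45 [(625, 132), (637, 133), (650, 134)] 624 (by decide +kernel) (chl_fa mas_sm13 qs17_spec tab4a0_44 624 chk_tab4a0_44)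

def cat_tab4a0_43 : List (ℕ × ℕ) := [(605, 129), (616, 130), (624, 131)] ++ cat_tab4a0_44

theorem chl_tab4a0_43 : ChL (fa 4 30030 17) 594 cat_tab4a0_43 :=
  chl_append chl_tab4a0_44 [(605, 129), (616, 130), (624, 131)] 594 (by decide +kernel) (chl_fa mas_sm13 qs17_spec tab4a0_43 594 chk_tab4a0_43)

def cat_tab4a0_42 : List (ℕ × ℕ) := [(572, 126), (585, 127), (594, 128)] ++ cat_tab4a0_43

theorem chl_tab4a0_42 : ChL (fa 4 30030 17) 567 cat_tab4a0_42 :=
  chl_append chl_tab4a0_43 [(572, 126), (585, 127), (594, 128)] 567 (by decide +kernel) (chl_fa mas_sm13 qs17_spec tab4a0_42 567 chk_tab4a0_42)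

def cat_tab4a0_41 : List (ℕ × ℕ) := [(550, 123), (560, 124), (567, 125)] ++ cat_tab4a0_42

theorem chl_tab4a0_41 : ChL (fa 4 30030 17) 546 cat_tab4a0_41 :=
  chl_append chl_tab4a0_42 [(550, 123), (560, 124), (567, 125)] 546 (by decide +kernel) (chl_fa mas_sm13 qs17_spec tab4a0_41 546 chk_tab4a0_41)

def cat_tab4a0_40 : List (ℕ × ℕ) := [(528, 120), (539, 121), (546, 122)] ++ cat_tab4a0_41

theorem chl_tab4a0_40 : ChL (fa 4 30030 17) 525 cat_tab4a0_40 :=
  chl_append chl_tab4a0_41 [(528, 120), (539, 121), (546, 122)] 525 (by decide +kernel) (chl_fa mas_sm13 qs17_spec tab4a0_40 525 chk_tab4a0_40)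

def cat_tab4a0_39 : List (ℕ × ℕ) := [(507, 117), (512, 118), (525, 119)] ++ cat_tab4a0_40

theorem chl_tab4a0_39 : ChL (fa 4 30030 17) 500 cat_tab4a0_39 :=
  chl_append chl_tab4a0_40 [(507, 117), (512, 118), (525, 119)] 500 (by decide +kernel) (chl_fa mas_sm13 qs17_spec tab4a0_39 500 chk_tab4a0_39)

def cat_tab4a0_38 : List (ℕ × ℕ) := [(486, 114), (495, 115), (500, 116)] ++ cat_tab4a0_39

theorem chl_tab4a0_38 : ChL (fa 4 30030 17) 484 cat_tab4a0_38 :=
  chl_append chl_tab4a0_39 [(486, 114), (495, 115), (500, 116)] 484 (by decide +kernel) (chl_fa mas_sm13 qs17_spec tab4a0_38 484 chk_tab4a0_38)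

def cat_tab4a0_37 : List (ℕ × ℕ) := [(455, 111), (462, 112), (484, 113)] ++ cat_tab4a0_38

theorem chl_tab4a0_37 : ChL (fa 4 30030 17) 448 cat_tab4a0_37 :=
  chl_append chl_tab4a0_38 [(455, 111), (462, 112), (484, 113)] 448 (by decide +kernel) (chl_fa mas_sm13 qs17_spec tab4a0_37 448 chk_tab4a0_37)

def cat_tab4a0_36 : List (ℕ × ℕ) := [(432, 108), (441, 109), (448, 110)] ++ cat_tab4a0_37

theorem chl_tab4a0_36 : ChL (fa 4 30030 17) 429 cat_tab4a0_36 :=
  chl_append chl_tab4a0_37 [(432, 108), (441, 109), (448, 110)] 429 (by decide +kernel) (chl_fa mas_sm13 qs17_spec tab4a0_36 429 chk_tab4a0_36)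

def cat_tab4a0_35 : List (ℕ × ℕ) := [(405, 105), (416, 106), (429, 107)] ++ cat_tab4a0_36

theorem chl_tab4a0_35 : ChL (fa 4 30030 17) 392 cat_tab4a0_35 :=
  chl_append chl_tab4a0_36 [(405, 105), (416, 106), (429, 107)] 392 (by decide +kernel) (chl_fa mas_sm13 qs17_spec tab4a0_35 392 chk_tab4a0_35)

def cat_tab4a0_34 : List (ℕ × ℕ) := [(378, 102), (385, 103), (392, 104)] ++ cat_tab4a0_35

theorem chl_tab4a0_34 : ChL (fa 4 30030 17) 375 cat_tab4a0_34 :=
  chl_append chl_tab4a0_35 [(378, 102), (385, 103), (392, 104)] 375 (by decide +kernel) (chl_fa mas_sm13 qs17_spec tab4a0_34 375 chk_tab4a0_34)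

def cat_tab4a0_33 : List (ℕ × ℕ) := [(363, 99), (364, 100), (375, 101)] ++ cat_tab4a0_34

theorem chl_tab4a0_33 : ChL (fa 4 30030 17) 352 cat_tab4a0_33 :=
  chl_append chl_tab4a0_34 [(363, 99), (364, 100), (375, 101)] 352 (by decide +kernel) (chl_fa mas_sm13 qs17_spec tab4a0_33 352 chk_tab4a0_33)

def cat_tab4a0_32 : List (ℕ × ℕ) := [(343, 96), (351, 97), (352, 98)] ++ cat_tab4a0_33

theorem chl_tab4a0_32 : ChL (fa 4 30030 17) 338 cat_tab4a0_32 :=
  chl_append chl_tab4a0_33 [(343, 96), (351, 97), (352, 98)] 338 (by decide +kernel) (chl_fa mas_sm13 qs17_spec tab4a0_32 338 chk_tab4a0_32)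

def cat_tab4a0_31 : List (ℕ × ℕ) := [(324, 93), (325, 94), (338, 95)] ++ cat_tab4a0_32

theorem chl_tab4a0_31 : ChL (fa 4 30030 17) 315 cat_tab4a0_31 :=
  chl_append chl_tab4a0_32 [(324, 93), (325, 94), (338, 95)] 315 (by decide +kernel) (chl_fa mas_sm13 qs17_spec tab4a0_31 315 chk_tab4a0_31)

def cat_tab4a0_30 : List (ℕ × ℕ) := [(297, 90), (308, 91), (315, 92)] ++ cat_tab4a0_31

theorem chl_tab4a0_30 : ChL (fa 4 30030 17) 294 cat_tab4a0_30 :=
  chl_append chl_tab4a0_31 [(297, 90), (308, 91), (315, 92)] 294 (by decide +kernel) (chl_fa mas_sm13 qs17_spec tab4a0_30 294 chk_tab4a0_30)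

def cat_tab4a0_29 : List (ℕ × ℕ) := [(286, 87), (288, 88), (294, 89)] ++ cat_tab4a0_30

theorem chl_tab4a0_29 : ChL (fa 4 30030 17) 275 cat_tab4a0_29 :=
  chl_append chl_tab4a0_30 [(286, 87), (288, 88), (294, 89)] 275 (by decide +kernel) (chl_fa mas_sm13 qs17_spec tab4a0_29 275 chk_tab4a0_29)

def cat_tab4a0_28 : List (ℕ × ℕ) := [(260, 84), (273, 85), (275, 86)] ++ cat_tab4a0_29

theorem chl_tab4a0_28 : ChL (fa 4 30030 17) 256 cat_tab4a0_28 :=
  chl_append chl_tab4a0_29 [(260, 84), (273, 85), (275, 86)] 256 (by decide +kernel) (chl_fa mas_sm13 qs17_spec tab4a0_28 256 chk_tab4a0_28)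

def cat_tab4a0_27 : List (ℕ × ℕ) := [(245, 81), (250, 82), (256, 83)] ++ cat_tab4a0_28

theorem chl_tab4a0_27 : ChL (fa 4 30030 17) 243 cat_tab4a0_27 :=
  chl_append chl_tab4a0_28 [(245, 81), (250, 82), (256, 83)] 243 (by decide +kernel) (chl_fa mas_sm13 qs17_spec tab4a0_27 243 chk_tab4a0_27)

def cat_tab4a0_26 : List (ℕ × ℕ) := [(234, 78), (242, 79), (243, 80)] ++ cat_tab4a0_27

theorem chl_tab4a0_26 : ChL (fa 4 30030 17) 231 cat_tab4a0_26 :=
  chl_append chl_tab4a0_27 [(234, 78), (242, 79), (243, 80)] 231 (by decide +kernel) (chl_fa mas_sm13 qs17_spec tab4a0_26 231 chk_tab4a0_26)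

def cat_tab4a0_25 : List (ℕ × ℕ) := [(224, 75), (225, 76), (231, 77)] ++ cat_tab4a0_26

theorem chl_tab4a0_25 : ChL (fa 4 30030 17) 220 cat_tab4a0_25 :=
  chl_append chl_tab4a0_26 [(224, 75), (225, 76), (231, 77)] 220 (by decide +kernel) (chl_fa mas_sm13 qs17_spec tab4a0_25 220 chk_tab4a0_25)

def cat_tab4a0_24 : List (ℕ × ℕ) := [(196, 72), (198, 73), (220, 74)] ++ cat_tab4a0_25

theorem chl_tab4a0_24 : ChL (fa 4 30030 17) 195 cat_tab4a0_24 :=
  chl_append chl_tab4a0_25 [(196, 72), (198, 73), (220, 74)] 195 (by decide +kernel) (chl_fa mas_sm13 qs17_spec tab4a0_24 195 chk_tab4a0_24)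

def cat_tab4a0_23 : List (ℕ × ℕ) := [(182, 69), (189, 70), (195, 71)] ++ cat_tab4a0_24

theorem chl_tab4a0_23 : ChL (fa 4 30030 17) 180 cat_tab4a0_23 :=
  chl_append chl_tab4a0_24 [(182, 69), (189, 70), (195, 71)] 180 (by decide +kernel) (chl_fa mas_sm13 qs17_spec tab4a0_23 180 chk_tab4a0_23)

def cat_tab4a0_22 : List (ℕ × ℕ) := [(169, 66), (175, 67), (180, 68)] ++ cat_tab4a0_23

theorem chl_tab4a0_22 : ChL (fa 4 30030 17) 165 cat_tab4a0_22 :=
  chl_append chl_tab4a0_23 [(169, 66), (175, 67), (180, 68)] 165 (by decide +kernel) (chl_fa mas_sm13 qs17_spec tab4a0_22 165 chk_tab4a0_22)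

def cat_tab4a0_21 : List (ℕ × ℕ) := [(160, 63), (162, 64), (165, 65)] ++ cat_tab4a0_22

theorem chl_tab4a0_21 : ChL (fa 4 30030 17) 154 cat_tab4a0_21 :=
  chl_append chl_tab4a0_22 [(160, 63), (162, 64), (165, 65)] 154 (by decide +kernel) (chl_fa mas_sm13 qs17_spec tab4a0_21 154 chk_tab4a0_21)

def cat_tab4a0_20 : List (ℕ × ℕ) := [(143, 60), (147, 61), (154, 62)] ++ cat_tab4a0_21

theorem chl_tab4a0_20 : ChL (fa 4 30030 17) 135 cat_tab4a0_20 :=
  chl_append chl_tab4a0_21 [(143, 60), (147, 61), (154, 62)] 135 (by decide +kernel) (chl_fa mas_sm13 qs17_spec tab4a0_20 135 chk_tab4a0_20)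

def cat_tab4a0_19 : List (ℕ × ℕ) := [(128, 57), (130, 58), (135, 59)] ++ cat_tab4a0_20

theorem chl_tab4a0_19 : ChL (fa 4 30030 17) 126 cat_tab4a0_19 :=
  chl_append chl_tab4a0_20 [(128, 57), (130, 58), (135, 59)] 126 (by decide +kernel) (chl_fa mas_sm13 qs17_spec tab4a0_19 126 chk_tab4a0_19)

def cat_tab4a0_18 : List (ℕ × ℕ) := [(121, 54), (125, 55), (126, 56)] ++ cat_tab4a0_19

theorem chl_tab4a0_18 : ChL (fa 4 30030 17) 117 cat_tab4a0_18 :=
  chl_append chl_tab4a0_19 [(121, 54), (125, 55), (126, 56)] 117 (by decide +kernel) (chl_fa mas_sm13 qs17_spec tab4a0_18 117 chk_tab4a0_18)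

def cat_tab4a0_17 : List (ℕ × ℕ) := [(110, 51), (112, 52), (117, 53)] ++ cat_tab4a0_18

theorem chl_tab4a0_17 : ChL (fa 4 30030 17) 104 cat_tab4a0_17 :=
  chl_append chl_tab4a0_18 [(110, 51), (112, 52), (117, 53)] 104 (by decide +kernel) (chl_fa mas_sm13 qs17_spec tab4a0_17 104 chk_tab4a0_17)

def cat_tab4a0_16 : List (ℕ × ℕ) := [(99, 48), (100, 49), (104, 50)] ++ cat_tab4a0_17

theorem chl_tab4a0_16 : ChL (fa 4 30030 17) 98 cat_tab4a0_16 :=
  chl_append chl_tab4a0_17 [(99, 48), (100, 49), (104, 50)] 98 (by decide +kernel) (chl_fa mas_sm13 qs17_spec tab4a0_16 98 chk_tab4a0_16)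

def cat_tab4a0_15 : List (ℕ × ℕ) := [(91, 45), (96, 46), (98, 47)] ++ cat_tab4a0_16

theorem chl_tab4a0_15 : ChL (fa 4 30030 17) 88 cat_tab4a0_15 :=
  chl_append chl_tab4a0_16 [(91, 45), (96, 46), (98, 47)] 88 (by decide +kernel) (chl_fa mas_sm13 qs17_spec tab4a0_15 88 chk_tab4a0_15)

def cat_tab4a0_14 : List (ℕ × ℕ) := [(78, 42), (81, 43), (88, 44)] ++ cat_tab4a0_15

theorem chl_tab4a0_14 : ChL (fa 4 30030 17) 77 cat_tab4a0_14 :=
  chl_append chl_tab4a0_15 [(78, 42), (81, 43), (88, 44)] 77 (by decide +kernel) (chl_fa mas_sm13 qs17_spec tab4a0_14 77 chk_tab4a0_14)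

def cat_tab4a0_13 : List (ℕ × ℕ) := [(66, 39), (75, 40), (77, 41)] ++ cat_tab4a0_14

theorem chl_tab4a0_13 : ChL (fa 4 30030 17) 65 cat_tab4a0_13 :=
  chl_append chl_tab4a0_14 [(66, 39), (75, 40), (77, 41)] 65 (by decide +kernel) (chl_fa mas_sm13 qs17_spec tab4a0_13 65 chk_tab4a0_13)

def cat_tab4a0_12 : List (ℕ × ℕ) := [(63, 36), (64, 37), (65, 38)] ++ cat_tab4a0_13

theorem chl_tab4a0_12 : ChL (fa 4 30030 17) 56 cat_tab4a0_12 :=
  chl_append chl_tab4a0_13 [(63, 36), (64, 37), (65, 38)] 56 (by decide +kernel) (chl_fa mas_sm13 qs17_spec tab4a0_12 56 chk_tab4a0_12)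

def cat_tab4a0_11 : List (ℕ × ℕ) := [(54, 33), (55, 34), (56, 35)] ++ cat_tab4a0_12

theorem chl_tab4a0_11 : ChL (fa 4 30030 17) 52 cat_tab4a0_11 :=
  chl_append chl_tab4a0_12 [(54, 33), (55, 34), (56, 35)] 52 (by decide +kernel) (chl_fa mas_sm13 qs17_spec tab4a0_11 52 chk_tab4a0_11)

def cat_tab4a0_10 : List (ℕ × ℕ) := [(49, 30), (50, 31), (52, 32)] ++ cat_tab4a0_11

theorem chl_tab4a0_10 : ChL (fa 4 30030 17) 48 cat_tab4a0_10 :=
  chl_append chl_tab4a0_11 [(49, 30), (50, 31), (52, 32)] 48 (by decide +kernel) (chl_fa mas_sm13 qs17_spec tab4a0_10 48 chk_tab4a0_10)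

def cat_tab4a0_9 : List (ℕ × ℕ) := [(44, 27), (45, 28), (48, 29)] ++ cat_tab4a0_10

theorem chl_tab4a0_9 : ChL (fa 4 30030 17) 42 cat_tab4a0_9 :=
  chl_append chl_tab4a0_10 [(44, 27), (45, 28), (48, 29)] 42 (by decide +kernel) (chl_fa mas_sm13 qs17_spec tab4a0_9 42 chk_tab4a0_9)

def cat_tab4a0_8 : List (ℕ × ℕ) := [(35, 24), (39, 25), (42, 26)] ++ cat_tab4a0_9

theorem chl_tab4a0_8 : ChL (fa 4 30030 17) 33 cat_tab4a0_8 :=
  chl_append chl_tab4a0_9 [(35, 24), (39, 25), (42, 26)] 33 (by decide +kernel) (chl_fa mas_sm13 qs17_spec tab4a0_8 33 chk_tab4a0_8)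

def cat_tab4a0_7 : List (ℕ × ℕ) := [(28, 21), (32, 22), (33, 23)] ++ cat_tab4a0_8

theorem chl_tab4a0_7 : ChL (fa 4 30030 17) 27 cat_tab4a0_7 :=
  chl_append chl_tab4a0_8 [(28, 21), (32, 22), (33, 23)] 27 (by decide +kernel) (chl_fa mas_sm13 qs17_spec tab4a0_7 27 chk_tab4a0_7)

def cat_tab4a0_6 : List (ℕ × ℕ) := [(25, 18), (26, 19), (27, 20)] ++ cat_tab4a0_7

theorem chl_tab4a0_6 : ChL (fa 4 30030 17) 22 cat_tab4a0_6 :=
  chl_append chl_tab4a0_7 [(25, 18), (26, 19), (27, 20)] 22 (by decide +kernel) (chl_fa mas_sm13 qs17_spec tab4a0_6 22 chk_tab4a0_6)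

def cat_tab4a0_5 : List (ℕ × ℕ) := [(20, 15), (21, 16), (22, 17)] ++ cat_tab4a0_6

theorem chl_tab4a0_5 : ChL (fa 4 30030 17) 18 cat_tab4a0_5 :=
  chl_append chl_tab4a0_6 [(20, 15), (21, 16), (22, 17)] 18 (by decide +kernel) (chl_fa mas_sm13 qs17_spec tab4a0_5 18 chk_tab4a0_5)

def cat_tab4a0_4 : List (ℕ × ℕ) := [(15, 13), (17, 14), (18, 14)] ++ cat_tab4a0_5

theorem chl_tab4a0_4 : ChL (fa 4 30030 17) 14 cat_tab4a0_4 :=
  chl_append chl_tab4a0_5 [(15, 13), (17, 14), (18, 14)] 14 (by decide +kernel) (chl_fa mas_sm13 qs17_spec tab4a0_4 14 chk_tab4a0_4)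

def cat_tab4a0_3 : List (ℕ × ℕ) := [(11, 10), (13, 11), (14, 12)] ++ cat_tab4a0_4

theorem chl_tab4a0_3 : ChL (fa 4 30030 17) 10 cat_tab4a0_3 :=
  chl_append chl_tab4a0_4 [(11, 10), (13, 11), (14, 12)] 10 (by decide +kernel) (chl_fa mas_sm13 qs17_spec tab4a0_3 10 chk_tab4a0_3)

def cat_tab4a0_2 : List (ℕ × ℕ) := [(8, 7), (9, 8), (10, 9)] ++ cat_tab4a0_3

theorem chl_tab4a0_2 : ChL (fa 4 30030 17) 7 cat_tab4a0_2 :=
  chl_append chl_tab4a0_3 [(8, 7), (9, 8), (10, 9)] 7 (by decide +kernel) (chl_fa mas_sm13 qs17_spec tab4a0_2 7 chk_tab4a0_2)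

def cat_tab4a0_1 : List (ℕ × ℕ) := [(5, 4), (6, 5), (7, 6)] ++ cat_tab4a0_2

theorem chl_tab4a0_1 : ChL (fa 4 30030 17) 4 cat_tab4a0_1 :=
  chl_append chl_tab4a0_2 [(5, 4), (6, 5), (7, 6)] 4 (by decide +kernel) (chl_fa mas_sm13 qs17_spec tab4a0_1 4 chk_tab4a0_1)

def cat_tab4a0_0 : List (ℕ × ℕ) := [(2, 1), (3, 2), (4, 3)] ++ cat_tab4a0_1

theorem chl_tab4a0_0 : ChL (fa 4 30030 17) 1 cat_tab4a0_0 :=
  chl_append chl_tab4a0_1 [(2, 1), (3, 2), (4, 3)] 1 (by decide +kernel) (chl_fa mas_sm13 qs17_spec tab4a0_0 1 chk_tab4a0_0)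

def tab4a0 : List (ℕ × ℕ) := cat_tab4a0_0

theorem chl_tab4a0 : ChL (fa 4 30030 17) 1 tab4a0 := chl_tab4a0_0

theorem lst_tab4a0 : lst 1 tab4a0 = 1000 := by decide +kernel

theorem tel_tab4a0 : (42838825009 / 10000000000 : ℚ) ≤ tel 1 tab4a0 := by decide +kernel

theorem ws_tab4a0 : (42838825009 / 10000000000 : ℝ) ≤ ws (fa 4 30030 17) 1 1000 := by
  have h2 := (tel_le_ws _ _ 1 (by norm_num) chl_tab4a0).2
  rw [lst_tab4a0] at h2
  have h4 : ((42838825009 / 10000000000 : ℚ) : ℝ) ≤ _ := Rat.cast_le.2 tel_tab4a0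
  rw [show ((42838825009 / 10000000000 : ℚ) : ℝ) = (42838825009 / 10000000000 : ℝ) by norm_num] at h4
  exact h4.trans h2

end Pool.Agent.H36.KW
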