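import Pool.Agent.H36.KW.Sm13
import Pool.Agent.H36.KW.Chunk

/-!
# KW Tab5a0: sets, for k = 5, j from 1 to 831
-/

set_option autoImplicit false
set_option maxRecDepth 100000

namespace Pool.Agent.H36.KW

open Pool.Agent.H96.KMF Pool.Agent.H36.K3

def tab5a0_0 : List (ℕ × ℕ × ℕ) :=
  [
    (2, 1, 0x1),
    (3, 2, 0x3),
    (4, 3, 0x7)]

theorem chk_tab5a0_0 : chk false 5 17 qs17 sm13 1 tab5a0_0 = true := by decide +kernel

def tab5a0_1 : List (ℕ × ℕ × ℕ) :=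
  [
    (5, 4, 0xf),
    (6, 5, 0x1f),
    (7, 6, 0x3f)]

theorem chk_tab5a0_1 : chk false 5 17 qs17 sm13 4 tab5a0_1 = true := by decide +kernel

def tab5a0_2 : List (ℕ × ℕ × ℕ) :=
  [
    (8, 7, 0x7f),
    (9, 8, 0xff),
    (10, 9, 0x1ff)]

theorem chk_tab5a0_2 : chk false 5 17 qs17 sm13 7 tab5a0_2 = true := by decide +kernel

def tab5a0_3 : List (ℕ × ℕ × ℕ) :=
  [
    (11, 10, 0x3ff),
    (13, 11, 0x7ff),
    (14, 12, 0x1ffe)]

theorem chk_tab5a0_3 : chk false 5 17 qs17 sm13 10 tab5a0_3 = true := by decide +kernel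

def tab5a0_4 : List (ℕ × ℕ × ℕ) :=
  [
    (15, 13, 0x3ffe),
    (16, 14, 0x7ffe),
    (18, 15, 0xfffe)]

theorem chk_tab5a0_4 : chk false 5 17 qs17 sm13 14 tab5a0_4 = true := by decide +kernel

def tab5a0_5 : List (ℕ × ℕ × ℕ) :=
  [
    (20, 16, 0x1fffe),
    (21, 17, 0x3fffe),
    (22, 18, 0x7fffe)]

theorem chk_tab5a0_5 : chk false 5 17 qs17 sm13 18 tab5a0_5 = true := by decide +kernel

def tab5a0_6 : List (ℕ × ℕ × ℕ) :=
  [
    (25, 19, 0xffffe),
    (26, 20, 0x2ffffe),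
    (27, 21, 0x6ffffe)]

theorem chk_tab5a0_6 : chk false 5 17 qs17 sm13 22 tab5a0_6 = true := by decide +kernel

def tab5a0_7 : List (ℕ × ℕ × ℕ) :=
  [
    (28, 22, 0xeffffe),
    (32, 23, 0x1effffe),
    (33, 24, 0x5effffe)]

theorem chk_tab5a0_7 : chk false 5 17 qs17 sm13 27 tab5a0_7 = true := by decide +kernel

def tab5a0_8 : List (ℕ × ℕ × ℕ) :=
  [
    (35, 25, 0xffffff8),
    (39, 26, 0x1ffffff8),
    (40, 27, 0x7ffffff0)]

theorem chk_tab5a0_8 : chk false 5 17 qs17 sm13 33 tab5a0_8 = true := by decide +kernel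

def tab5a0_9 : List (ℕ × ℕ × ℕ) :=
  [
    (42, 28, 0xffffffd4),
    (44, 29, 0x1ffffffd4),
    (45, 30, 0x3ffffffd4)]

theorem chk_tab5a0_9 : chk false 5 17 qs17 sm13 40 tab5a0_9 = true := by decide +kernel

def tab5a0_10 : List (ℕ × ℕ × ℕ) :=
  [
    (49, 31, 0x7ffffffd4),
    (50, 32, 0x1fffefffd4),
    (52, 33, 0x3fffffffd0)]

theorem chk_tab5a0_10 : chk false 5 17 qs17 sm13 45 tab5a0_10 = true := by decide +kernel

def tab5a0_11 : List (ℕ × ℕ × ℕ) :=
  [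
    (54, 34, 0x7fffffff58),
    (55, 35, 0xffffffff58),
    (56, 36, 0x1ffffffff58)]

theorem chk_tab5a0_11 : chk false 5 17 qs17 sm13 52 tab5a0_11 = true := by decide +kernel

def tab5a0_12 : List (ℕ × ℕ × ℕ) :=
  [
    (63, 37, 0x3ffffffff58),
    (64, 38, 0xbffffffff58),
    (65, 39, 0x1bffffffff58)]

theorem chk_tab5a0_12 : chk false 5 17 qs17 sm13 56 tab5a0_12 = true := by decide +kernel

def tab5a0_13 : List (ℕ × ℕ × ℕ) :=
  [
    (66, 40, 0x3bffffffff58),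
    (75, 41, 0x7bffffffffd0),
    (77, 42, 0x27bffffffff70)]

theorem chk_tab5a0_13 : chk false 5 17 qs17 sm13 65 tab5a0_13 = true := by decide +kernel

def tab5a0_14 : List (ℕ × ℕ × ℕ) :=
  [
    (78, 43, 0x6fbffffffdf70),
    (80, 44, 0xefbf7ffffdff0),
    (81, 45, 0x1efbffffff7fe0)]

theorem chk_tab5a0_14 : chk false 5 17 qs17 sm13 77 tab5a0_14 = true := by decide +kernel

def tab5a0_15 : List (ℕ × ℕ × ℕ) :=
  [
    (88, 46, 0x3efbffffff7fe0),
    (91, 47, 0xbefbffffff7fe0),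
    (96, 48, 0x2befbffffff7fe0)]

theorem chk_tab5a0_15 : chk false 5 17 qs17 sm13 81 tab5a0_15 = true := by decide +kernel

def tab5a0_16 : List (ℕ × ℕ × ℕ) :=
  [
    (98, 49, 0x6fffffffffff700),
    (99, 50, 0xefffffffffff700),
    (100, 51, 0x1efffffefffff740)]

theorem chk_tab5a0_16 : chk false 5 17 qs17 sm13 96 tab5a0_16 = true := by decide +kernel

def tab5a0_17 : List (ℕ × ℕ × ℕ) :=
  [
    (104, 52, 0x3efffffefffff740),
    (105, 53, 0x7ebffffffffff740),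
    (110, 54, 0xfebffffffffff740)]

theorem chk_tab5a0_17 : chk false 5 17 qs17 sm13 100 tab5a0_17 = true := by decide +kernel

def tab5a0_18 : List (ℕ × ℕ × ℕ) :=
  [
    (112, 55, 0x2febffffffffff740),
    (117, 56, 0x7feffff7ffffff700),
    (121, 57, 0xffefffffffffef700)]

theorem chk_tab5a0_18 : chk false 5 17 qs17 sm13 110 tab5a0_18 = true := by decide +kernel

def tab5a0_19 : List (ℕ × ℕ × ℕ) :=
  [
    (125, 58, 0x2efefffffffffff700),
    (126, 59, 0x6ffeffffffff7ff700),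
    (128, 60, 0xeffffffffffffef600)]

theorem chk_tab5a0_19 : chk false 5 17 qs17 sm13 121 tab5a0_19 = true := by decide +kernel

def tab5a0_20 : List (ℕ × ℕ × ℕ) :=
  [
    (130, 61, 0x1effffffffffffef600),
    (135, 62, 0x3effffffffffffef600),
    (143, 63, 0xbeffffffffffffef600)]

theorem chk_tab5a0_20 : chk false 5 17 qs17 sm13 128 tab5a0_20 = true := by decide +kernel

def tab5a0_21 : List (ℕ × ℕ × ℕ) :=
  [
    (147, 64, 0x2beffffffffffffef600),
    (154, 65, 0xefeffffffff7f7fef600),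
    (160, 66, 0x2efeffffffff7f7fef600)]

theorem chk_tab5a0_21 : chk false 5 17 qs17 sm13 143 tab5a0_21 = true := by decide +kernel

def tab5a0_22 : List (ℕ × ℕ × ℕ) :=
  [
    (162, 67, 0xbbf7fffffbffffffdb400),
    (165, 68, 0x1bbb7ffffffffffffdb400),
    (169, 69, 0x3bbb7ffffffffffffdb400)]

theorem chk_tab5a0_22 : chk false 5 17 qs17 sm13 160 tab5a0_22 = true := by decide +kernel

def tab5a0_23 : List (ℕ × ℕ × ℕ) :=
  [
    (175, 70, 0xbbbbffffffffff7dffd400),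
    (176, 71, 0x1bbbffffffffffd7dffd400),
    (180, 72, 0x3bfbffffffffffd7dffc400)]

theorem chk_tab5a0_23 : chk false 5 17 qs17 sm13 169 tab5a0_23 = true := by decide +kernel

def tab5a0_24 : List (ℕ × ℕ × ℕ) :=
  [
    (182, 73, 0x7bfffffffffffffddbcf000),
    (189, 74, 0xfbfffffffffffffddbcf000),
    (195, 75, 0x1fbfffffffffffffddfce000)]

theorem chk_tab5a0_24 : chk false 5 17 qs17 sm13 180 tab5a0_24 = true := by decide +kernel

def tab5a0_25 : List (ℕ × ℕ × ℕ) :=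
  [
    (196, 76, 0x5fbfffffffffffffddfce000),
    (198, 77, 0xdfbfffffffffffbfddfcf000),
    (200, 78, 0x1dfbbffffffffffffddfcf000)]

theorem chk_tab5a0_25 : chk false 5 17 qs17 sm13 195 tab5a0_25 = true := by decide +kernel

def tab5a0_26 : List (ℕ × ℕ × ℕ) :=
  [
    (208, 79, 0x3dfbbffffffffffffddfcf000),
    (220, 80, 0x7dfbfffffffffffffddfce000),
    (225, 81, 0x27dfbfffffffffffffddfce000)]

theorem chk_tab5a0_26 : chk false 5 17 qs17 sm13 200 tab5a0_26 = true := by decide +kernel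

def tab5a0_27 : List (ℕ × ℕ × ℕ) :=
  [
    (231, 82, 0xb7dfbfffffffffffffdd7ce000),
    (234, 83, 0x1b7dfbfffffffffffffdd7ce000),
    (242, 84, 0x3f7dfffffffffffffffdcecc000)]

theorem chk_tab5a0_27 : chk false 5 17 qs17 sm13 225 tab5a0_27 = true := by decide +kernel

def tab5a0_28 : List (ℕ × ℕ × ℕ) :=
  [
    (243, 85, 0xbf7fffffffffffffffedbec8000),
    (245, 86, 0x1bf7fffffffffffffffedbec8000),
    (250, 87, 0x3bf7fffffffffffffffedbec8000)]

theorem chk_tab5a0_28 : chk false 5 17 qs17 sm13 242 tab5a0_28 = true := by decide +kernel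

def tab5a0_29 : List (ℕ × ℕ × ℕ) :=
  [
    (252, 88, 0x7bffffffffffffff7ffed9ecc000),
    (256, 89, 0xfbfffffffffffffffffedbe88000),
    (260, 90, 0x1fbfffffffffffffffffedbe88000)]

theorem chk_tab5a0_29 : chk false 5 17 qs17 sm13 250 tab5a0_29 = true := by decide +kernel

def tab5a0_30 : List (ℕ × ℕ × ℕ) :=
  [
    (273, 91, 0x3fbfffffffffffffffffedfe80000),
    (275, 92, 0x13fbfffffffffffffffffedfe80000),
    (286, 93, 0x33fbfffffffffffffffffedfe80000)]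

theorem chk_tab5a0_30 : chk false 5 17 qs17 sm13 260 tab5a0_30 = true := by decide +kernel

def tab5a0_31 : List (ℕ × ℕ × ℕ) :=
  [
    (294, 94, 0xb3fbfffffffffffffffffedfe80000),
    (297, 95, 0x3b3fbfffffffffffbfffffedfe80000),
    (308, 96, 0x7b3fbfffffffffffbfffffedfe80000)]

theorem chk_tab5a0_31 : chk false 5 17 qs17 sm13 286 tab5a0_31 = true := by decide +kernel

def tab5a0_32 : List (ℕ × ℕ × ℕ) :=
  [
    (315, 97, 0x16f3fbffffffffffffff7fffdee80000),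
    (320, 98, 0x57f3fbffffffbfffffff7fffdee80000),
    (324, 99, 0xd7f3fbffffffffffffff7fffdae80000)]

theorem chk_tab5a0_32 : chk false 5 17 qs17 sm13 308 tab5a0_32 = true := by decide +kernel

def tab5a0_33 : List (ℕ × ℕ × ℕ) :=
  [
    (325, 100, 0x1d7fbffffffffffffffffff775ce80000),
    (338, 101, 0x3d7fbffffffffbfffffffff775cf80000),
    (343, 102, 0x1bd7fbfffffffffffffffffd775ce80000)]

theorem chk_tab5a0_33 : chk false 5 17 qs17 sm13 324 tab5a0_33 = true := by decide +kernel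

def tab5a0_34 : List (ℕ × ℕ × ℕ) :=
  [
    (351, 103, 0x3bd7fbfffffffffffffffffd775ce80000),
    (352, 104, 0xf3d7fbffffffffffffffffff575ce80000),
    (360, 105, 0x1f7d7fffffffffffffffbffff5f54e00000)]

theorem chk_tab5a0_34 : chk false 5 17 qs17 sm13 343 tab5a0_34 = true := by decide +kernel

def tab5a0_35 : List (ℕ × ℕ × ℕ) :=
  [
    (363, 106, 0x3f7dffffffffffffffffffebb7f5cc00000),
    (364, 107, 0x7f7dffffffffffffffffffebb7f5cc00000),
    (375, 108, 0xff7dffffffffffffffffffebbff5c400000)]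

theorem chk_tab5a0_35 : chk false 5 17 qs17 sm13 360 tab5a0_35 = true := by decide +kernel

def tab5a0_36 : List (ℕ × ℕ × ℕ) :=
  [
    (384, 109, 0x1ff7dffffffffffffffffffebbff5c400000),
    (385, 110, 0x7dffd7ffffffffffffffffffaff6cc600000),
    (392, 111, 0xfdffd7ffffffffffffffffffaff6cc600000)]

theorem chk_tab5a0_36 : chk false 5 17 qs17 sm13 375 tab5a0_36 = true := by decide +kernel

def tab5a0_37 : List (ℕ × ℕ × ℕ) :=
  [
    (405, 112, 0x2fdffd7ffffffffefffffffff3f76f8e00000),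
    (416, 113, 0x12fdffd7ffffffffefffffffff3f76f8e00000),
    (429, 114, 0x3afdfedfbfffffffffffffffffbfd6f8400000)]

theorem chk_tab5a0_37 : chk false 5 17 qs17 sm13 392 tab5a0_37 = true := by decide +kernel

def tab5a0_38 : List (ℕ × ℕ × ℕ) :=
  [
    (432, 115, 0xbafdfedfbfffffffffffffdfffbff6f8400000),
    (440, 116, 0x1befdffd7ffffffffffffffffffbf7652400000),
    (441, 117, 0x3beffffdffffffffffffffffffefbf450400000)]

theorem chk_tab5a0_38 : chk false 5 17 qs17 sm13 429 tab5a0_38 = true := by decide +kernel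

def tab5a0_39 : List (ℕ × ℕ × ℕ) :=
  [
    (448, 118, 0x7bfbffffffffffffffffffffff6b9f45d000000),
    (455, 119, 0xfbffffffffffffffffffffffff6fbf450000000),
    (462, 120, 0x2fbffffffffffffffffffffffff6fbf450000000)]

theorem chk_tab5a0_39 : chk false 5 17 qs17 sm13 441 tab5a0_39 = true := by decide +kernel

def tab5a0_40 : List (ℕ × ℕ × ℕ) :=
  [
    (484, 121, 0x6fbffffffffffffffffffffffff6fbf450000000),
    (486, 122, 0x36fbffffffffffffffffffffffbf6fbf450000000),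
    (495, 123, 0x76fbffffffffffffffffffffffbf6fbf450000000)]

theorem chk_tab5a0_40 : chk false 5 17 qs17 sm13 462 tab5a0_40 = true := by decide +kernel

def tab5a0_41 : List (ℕ × ℕ × ℕ) :=
  [
    (500, 124, 0x176fbffffffffffffffffffffffbf6fbf450000000),
    (507, 125, 0x36efbffffffffffffffffffff7fff6fbf450000000),
    (512, 126, 0xb66fbffffffffffffffffffffffff6fbf450000000)]

theorem chk_tab5a0_41 : chk false 5 17 qs17 sm13 495 tab5a0_41 = true := by decide +kernel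

def tab5a0_42 : List (ℕ × ℕ × ℕ) :=
  [
    (520, 127, 0x1ffeffffffffffffffffff7fff7ffb679f450000000),
    (525, 128, 0x3bfefffffffffffffffffffefffffe67bb450000000),
    (539, 129, 0x7bfefffffffffffffffffffefffffe67bb450000000)]

theorem chk_tab5a0_42 : chk false 5 17 qs17 sm13 512 tab5a0_42 = true := by decide +kernel

def tab5a0_43 : List (ℕ × ℕ × ℕ) :=
  [
    (546, 130, 0x17bfefffffffffffffffffffefffffe67bb450000000),
    (550, 131, 0x57bfefbfffffffffffffffffffffffe67bb450000000),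
    (560, 132, 0xd7bfefbfffffffffffffffffffffffe67bb450000000)]

theorem chk_tab5a0_43 : chk false 5 17 qs17 sm13 539 tab5a0_43 = true := by decide +kernel

def tab5a0_44 : List (ℕ × ℕ × ℕ) :=
  [
    (567, 133, 0x1d7ffefffffffffffffffffffffffffae79b410000000),
    (572, 134, 0x3dfffefffffffffffffffffffffffff2e79b410000000),
    (585, 135, 0x7dfffeffffffffffffffffdffffffffae79b410000000)]

theorem chk_tab5a0_44 : chk false 5 17 qs17 sm13 560 tab5a0_44 = true := by decide +kernel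

def tab5a0_45 : List (ℕ × ℕ × ℕ) :=
  [
    (594, 136, 0x17d7ffefffffffffffffffffffffffffae79b410000000),
    (605, 137, 0x5edfbfefbffffffffffffffffffffffb7ebbb600000000),
    (616, 138, 0x17edfffefffffffffffffffffffff7ffb3ebba600000000)]

theorem chk_tab5a0_45 : chk false 5 17 qs17 sm13 585 tab5a0_45 = true := by decide +kernel

def tab5a0_46 : List (ℕ × ℕ × ℕ) :=
  [
    (625, 139, 0x35fdfffefffffffffffffffffffeffffb3eb9b600000000),
    (637, 140, 0xb5fdfffefffffffffffffffffffeffffb3eb9b600000000),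
    (640, 141, 0x2b5edfffeffffffffffffffffffffffffb3eb9b600000000)]

theorem chk_tab5a0_46 : chk false 5 17 qs17 sm13 616 tab5a0_46 = true := by decide +kernel

def tab5a0_47 : List (ℕ × ℕ × ℕ) :=
  [
    (650, 142, 0x6b5fdfffeffffffffffffffffffffffffb2eb9b600000000),
    (672, 143, 0x16b5fdfffeffffffffffffffffffffffffb2eb9b600000000),
    (675, 144, 0x56b5fdfffeffffffffffffffffffffffffb2eb9b600000000)]

theorem chk_tab5a0_47 : chk false 5 17 qs17 sm13 640 tab5a0_47 = true := by decide +kernel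

def tab5a0_48 : List (ℕ × ℕ × ℕ) :=
  [
    (676, 145, 0xd6b5fdfffeffffffffffffffffffffffffb2eb9b600000000),
    (686, 146, 0x1d6b5fdfffeffffffffffffffffffffffffb2eb9b600000000),
    (693, 147, 0x3d6b5fdfffeffffffffffffffffffffffffb2eb9b600000000)]

theorem chk_tab5a0_48 : chk false 5 17 qs17 sm13 675 tab5a0_48 = true := by decide +kernel

def tab5a0_49 : List (ℕ × ℕ × ℕ) :=
  [
    (702, 148, 0x7d6f7fdfffefffffffddfffffffffffffffb2eb9b600000000),
    (704, 149, 0x17d6f7fdfffefffffffffffffff7fffffffbb26b9f600000000),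
    (715, 150, 0x37d6f7fdfffefffffffffffffff7fffffffbb26b9f600000000)]

theorem chk_tab5a0_49 : chk false 5 17 qs17 sm13 693 tab5a0_49 = true := by decide +kernel

def tab5a0_50 : List (ℕ × ℕ × ℕ) :=
  [
    (726, 151, 0x77d6f7fdfffefffffffffffffff7fffffffbb26b9f600000000),
    (728, 152, 0x177d6f5fdfffefffffffffffffffffffffffbb26b9f600000000),
    (729, 153, 0x377d6f7fdfffefffffffffffffffffff7fffbb26b9f600000000)]

theorem chk_tab5a0_50 : chk false 5 17 qs17 sm13 715 tab5a0_50 = true := by decide +kernel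

def tab5a0_51 : List (ℕ × ℕ × ℕ) :=
  [
    (735, 154, 0x777d6f7fdfffefffffffffffffffffff7fffbb26b9f600000000),
    (750, 155, 0xf77d6f5fdfffefffffffffffffffffffffffbba6b9f400000000),
    (765, 156, 0x1f7fd6fffdffffffffffffdffffffffffffff9ba4b9d400000000)]

theorem chk_tab5a0_51 : chk false 5 17 qs17 sm13 729 tab5a0_51 = true := by decide +kernel

def tab5a0_52 : List (ℕ × ℕ × ℕ) :=
  [
    (784, 155, 0x1f7fd6fffdffffffffffffdffffffffffffff9ba4b9d000000000),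
    (800, 156, 0x21f7fd6fffdfffffffffffffffffffffffffff9ba4b9c000000000),
    (810, 157, 0xa5f7fd6fffdfffffffffffffffffffdfffffff9ba4b9c000000000)]

theorem chk_tab5a0_52 : chk false 5 17 qs17 sm13 765 tab5a0_52 = true := by decide +kernel

def tab5a0_53 : List (ℕ × ℕ × ℕ) :=
  [
    (819, 158, 0x1a7f7fdff7fffffffffffffffffbfffffe7fbfebab7654000000000),
    (825, 159, 0x3aff7fdff7ff7ffffffffffffffbfffffe7fffcbab7654000000000),
    (832, 160, 0x7aef7fdff7fffffffffffffffffffffffe7fffcbab7254000000000)]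

theorem chk_tab5a0_53 : chk false 5 17 qs17 sm13 810 tab5a0_53 = true := by decide +kernel

def cat_tab5a0_53 : List (ℕ × ℕ) := [(819, 158), (825, 159), (832, 160)]

theorem chl_tab5a0_53 : ChL (fa 5 30030 17) 810 cat_tab5a0_53 :=
  (chl_fa mas_sm13 qs17_spec tab5a0_53 810 chk_tab5a0_53)

def cat_tab5a0_52 : List (ℕ × ℕ) := [(784, 155), (800, 156), (810, 157)] ++ cat_tab5a0_53

theorem chl_tab5a0_52 : ChL (fa 5 30030 17) 765 cat_tab5a0_52 :=
  chl_append chl_tab5a0_53 [(784, 155), (800, 156), (810, 157)] 765 (by decide +kernel) (chl_fa mas_sm13 qs17_spec tab5a0_52 765 chk_tab5a0_52)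

def cat_tab5a0_51 : List (ℕ × ℕ) := [(735, 154), (750, 155), (765, 156)] ++ cat_tab5a0_52

theorem chl_tab5a0_51 : ChL (fa 5 30030 17) 729 cat_tab5a0_51 :=
  chl_append chl_tab5a0_52 [(735, 154), (750, 155), (765, 156)] 729 (by decide +kernel) (chl_fa mas_sm13 qs17_spec tab5a0_51 729 chk_tab5a0_51)

def cat_tab5a0_50 : List (ℕ × ℕ) := [(726, 151), (728, 152), (729, 153)] ++ cat_tab5a0_51

theorem chl_tab5a0_50 : ChL (fa 5 30030 17) 715 cat_tab5a0_50 :=
  chl_append chl_tab5a0_51 [(726, 151), (728, 152), (729, 153)] 715 (by decide +kernel) (chl_fa mas_sm13 qs17_spec tab5a0_50 715 chk_tab5a0_50)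

def cat_tab5a0_49 : List (ℕ × ℕ) := [(702, 148), (704, 149), (715, 150)] ++ cat_tab5a0_50

theorem chl_tab5a0_49 : ChL (fa 5 30030 17) 693 cat_tab5a0_49 :=
  chl_append chl_tab5a0_50 [(702, 148), (704, 149), (715, 150)] 693 (by decide +kernel) (chl_fa mas_sm13 qs17_spec tab5a0_49 693 chk_tab5a0_49)

def cat_tab5a0_48 : List (ℕ × ℕ) := [(676, 145), (686, 146), (693, 147)] ++ cat_tab5a0_49

theorem chl_tab5a0_48 : ChL (fa 5 30030 17) 675 cat_tab5a0_48 :=
  chl_append chl_tab5a0_49 [(676, 145), (686, 146), (693, 147)] 675 (by decide +kernel) (chl_fa mas_sm13 qs17_spec tab5a0_48 675 chk_tab5a0_48)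

def cat_tab5a0_47 : List (ℕ × ℕ) := [(650, 142), (672, 143), (675, 144)] ++ cat_tab5a0_48

theorem chl_tab5a0_47 : ChL (fa 5 30030 17) 640 cat_tab5a0_47 :=
  chl_append chl_tab5a0_48 [(650, 142), (672, 143), (675, 144)] 640 (by decide +kernel) (chl_fa mas_sm13 qs17_spec tab5a0_47 640 chk_tab5a0_47)

def cat_tab5a0_46 : List (ℕ × ℕ) := [(625, 139), (637, 140), (640, 141)] ++ cat_tab5a0_47

theorem chl_tab5a0_46 : ChL (fa 5 30030 17) 616 cat_tab5a0_46 :=
  chl_append chl_tab5a0_47 [(625, 139), (637, 140), (640, 141)] 616 (by decide +kernel) (chl_fa mas_sm13 qs17_spec tab5a0_46 616 chk_tab5a0_46)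

def cat_tab5a0_45 : List (ℕ × ℕ) := [(594, 136), (605, 137), (616, 138)] ++ cat_tab5a0_46

theorem chl_tab5a0_45 : ChL (fa 5 30030 17) 585 cat_tab5a0_45 :=
  chl_append chl_tab5a0_46 [(594, 136), (605, 137), (616, 138)] 585 (by decide +kernel) (chl_fa mas_sm13 qs17_spec tab5a0_45 585 chk_tab5a0_45)

def cat_tab5a0_44 : List (ℕ × ℕ) := [(567, 133), (572, 134), (585, 135)] ++ cat_tab5a0_45

theorem chl_tab5a0_44 : ChL (fa 5 30030 17) 560 cat_tab5a0_44 :=
  chl_append chl_tab5a0_45 [(567, 133), (572, 134), (585, 135)] 560 (by decide +kernel) (chl_fa mas_sm13 qs17_spec tab5a0_44 560 chk_tab5a0_44)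

def cat_tab5a0_43 : List (ℕ × ℕ) := [(546, 130), (550, 131), (560, 132)] ++ cat_tab5a0_44

theorem chl_tab5a0_43 : ChL (fa 5 30030 17) 539 cat_tab5a0_43 :=
  chl_append chl_tab5a0_44 [(546, 130), (550, 131), (560, 132)] 539 (by decide +kernel) (chl_fa mas_sm13 qs17_spec tab5a0_43 539 chk_tab5a0_43)

def cat_tab5a0_42 : List (ℕ × ℕ) := [(520, 127), (525, 128), (539, 129)] ++ cat_tab5a0_43

theorem chl_tab5a0_42 : ChL (fa 5 30030 17) 512 cat_tab5a0_42 :=
  chl_append chl_tab5a0_43 [(520, 127), (525, 128), (539, 129)] 512 (by decide +kernel) (chl_fa mas_sm13 qs17_spec tab5a0_42 512 chk_tab5a0_42)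

def cat_tab5a0_41 : List (ℕ × ℕ) := [(500, 124), (507, 125), (512, 126)] ++ cat_tab5a0_42

theorem chl_tab5a0_41 : ChL (fa 5 30030 17) 495 cat_tab5a0_41 :=
  chl_append chl_tab5a0_42 [(500, 124), (507, 125), (512, 126)] 495 (by decide +kernel) (chl_fa mas_sm13 qs17_spec tab5a0_41 495 chk_tab5a0_41)

def cat_tab5a0_40 : List (ℕ × ℕ) := [(484, 121), (486, 122), (495, 123)] ++ cat_tab5a0_41

theorem chl_tab5a0_40 : ChL (fa 5 30030 17) 462 cat_tab5a0_40 :=
  chl_append chl_tab5a0_41 [(484, 121), (486, 122), (495, 123)] 462 (by decide +kernel) (chl_fa mas_sm13 qs17_spec tab5a0_40 462 chk_tab5a0_40)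

def cat_tab5a0_39 : List (ℕ × ℕ) := [(448, 118), (455, 119), (462, 120)] ++ cat_tab5a0_40

theorem chl_tab5a0_39 : ChL (fa 5 30030 17) 441 cat_tab5a0_39 :=
  chl_append chl_tab5a0_40 [(448, 118), (455, 119), (462, 120)] 441 (by decide +kernel) (chl_fa mas_sm13 qs17_spec tab5a0_39 441 chk_tab5a0_39)

def cat_tab5a0_38 : List (ℕ × ℕ) := [(432, 115), (440, 116), (441, 117)] ++ cat_tab5a0_39

theorem chl_tab5a0_38 : ChL (fa 5 30030 17) 429 cat_tab5a0_38 :=
  chl_append chl_tab5a0_39 [(432, 115), (440, 116), (441, 117)] 429 (by decide +kernel) (chl_fa mas_sm13 qs17_spec tab5a0_38 429 chk_tab5a0_38)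

def cat_tab5a0_37 : List (ℕ × ℕ) := [(405, 112), (416, 113), (429, 114)] ++ cat_tab5a0_38

theorem chl_tab5a0_37 : ChL (fa 5 30030 17) 392 cat_tab5a0_37 :=
  chl_append chl_tab5a0_38 [(405, 112), (416, 113), (429, 114)] 392 (by decide +kernel) (chl_fa mas_sm13 qs17_spec tab5a0_37 392 chk_tab5a0_37)

def cat_tab5a0_36 : List (ℕ × ℕ) := [(384, 109), (385, 110), (392, 111)] ++ cat_tab5a0_37

theorem chl_tab5a0_36 : ChL (fa 5 30030 17) 375 cat_tab5a0_36 :=
  chl_append chl_tab5a0_37 [(384, 109), (385, 110), (392, 111)] 375 (by decide +kernel) (chl_fa mas_sm13 qs17_spec tab5a0_36 375 chk_tab5a0_36)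

def cat_tab5a0_35 : List (ℕ × ℕ) := [(363, 106), (364, 107), (375, 108)] ++ cat_tab5a0_36

theorem chl_tab5a0_35 : ChL (fa 5 30030 17) 360 cat_tab5a0_35 :=
  chl_append chl_tab5a0_36 [(363, 106), (364, 107), (375, 108)] 360 (by decide +kernel) (chl_fa mas_sm13 qs17_spec tab5a0_35 360 chk_tab5a0_35)

def cat_tab5a0_34 : List (ℕ × ℕ) := [(351, 103), (352, 104), (360, 105)] ++ cat_tab5a0_35

theorem chl_tab5a0_34 : ChL (fa 5 30030 17) 343 cat_tab5a0_34 :=
  chl_append chl_tab5a0_35 [(351, 103), (352, 104), (360, 105)] 343 (by decide +kernel) (chl_fa mas_sm13 qs17_spec tab5a0_34 343 chk_tab5a0_34)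

def cat_tab5a0_33 : List (ℕ × ℕ) := [(325, 100), (338, 101), (343, 102)] ++ cat_tab5a0_34

theorem chl_tab5a0_33 : ChL (fa 5 30030 17) 324 cat_tab5a0_33 :=
  chl_append chl_tab5a0_34 [(325, 100), (338, 101), (343, 102)] 324 (by decide +kernel) (chl_fa mas_sm13 qs17_spec tab5a0_33 324 chk_tab5a0_33)

def cat_tab5a0_32 : List (ℕ × ℕ) := [(315, 97), (320, 98), (324, 99)] ++ cat_tab5a0_33

theorem chl_tab5a0_32 : ChL (fa 5 30030 17) 308 cat_tab5a0_32 :=
  chl_append chl_tab5a0_33 [(315, 97), (320, 98), (324, 99)] 308 (by decide +kernel) (chl_fa mas_sm13 qs17_spec tab5a0_32 308 chk_tab5a0_32)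

def cat_tab5a0_31 : List (ℕ × ℕ) := [(294, 94), (297, 95), (308, 96)] ++ cat_tab5a0_32

theorem chl_tab5a0_31 : ChL (fa 5 30030 17) 286 cat_tab5a0_31 :=
  chl_append chl_tab5a0_32 [(294, 94), (297, 95), (308, 96)] 286 (by decide +kernel) (chl_fa mas_sm13 qs17_spec tab5a0_31 286 chk_tab5a0_31)

def cat_tab5a0_30 : List (ℕ × ℕ) := [(273, 91), (275, 92), (286, 93)] ++ cat_tab5a0_31

theorem chl_tab5a0_30 : ChL (fa 5 30030 17) 260 cat_tab5a0_30 :=
  chl_append chl_tab5a0_31 [(273, 91), (275, 92), (286, 93)] 260 (by decide +kernel) (chl_fa mas_sm13 qs17_spec tab5a0_30 260 chk_tab5a0_30)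

def cat_tab5a0_29 : List (ℕ × ℕ) := [(252, 88), (256, 89), (260, 90)] ++ cat_tab5a0_30

theorem chl_tab5a0_29 : ChL (fa 5 30030 17) 250 cat_tab5a0_29 :=
  chl_append chl_tab5a0_30 [(252, 88), (256, 89), (260, 90)] 250 (by decide +kernel) (chl_fa mas_sm13 qs17_spec tab5a0_29 250 chk_tab5a0_29)

def cat_tab5a0_28 : List (ℕ × ℕ) := [(243, 85), (245, 86), (250, 87)] ++ cat_tab5a0_29

theorem chl_tab5a0_28 : ChL (fa 5 30030 17) 242 cat_tab5a0_28 :=
  chl_append chl_tab5a0_29 [(243, 85), (245, 86), (250, 87)] 242 (by decide +kernel) (chl_fa mas_sm13 qs17_spec tab5a0_28 242 chk_tab5a0_28)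

def cat_tab5a0_27 : List (ℕ × ℕ) := [(231, 82), (234, 83), (242, 84)] ++ cat_tab5a0_28

theorem chl_tab5a0_27 : ChL (fa 5 30030 17) 225 cat_tab5a0_27 :=
  chl_append chl_tab5a0_28 [(231, 82), (234, 83), (242, 84)] 225 (by decide +kernel) (chl_fa mas_sm13 qs17_spec tab5a0_27 225 chk_tab5a0_27)

def cat_tab5a0_26 : List (ℕ × ℕ) := [(208, 79), (220, 80), (225, 81)] ++ cat_tab5a0_27

theorem chl_tab5a0_26 : ChL (fa 5 30030 17) 200 cat_tab5a0_26 :=
  chl_append chl_tab5a0_27 [(208, 79), (220, 80), (225, 81)] 200 (by decide +kernel) (chl_fa mas_sm13 qs17_spec tab5a0_26 200 chk_tab5a0_26)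

def cat_tab5a0_25 : List (ℕ × ℕ) := [(196, 76), (198, 77), (200, 78)] ++ cat_tab5a0_26

theorem chl_tab5a0_25 : ChL (fa 5 30030 17) 195 cat_tab5a0_25 :=
  chl_append chl_tab5a0_26 [(196, 76), (198, 77), (200, 78)] 195 (by decide +kernel) (chl_fa mas_sm13 qs17_spec tab5a0_25 195 chk_tab5a0_25)

def cat_tab5a0_24 : List (ℕ × ℕ) := [(182, 73), (189, 74), (195, 75)] ++ cat_tab5a0_25

theorem chl_tab5a0_24 : ChL (fa 5 30030 17) 180 cat_tab5a0_24 :=
  chl_append chl_tab5a0_25 [(182, 73), (189, 74), (195, 75)] 180 (by decide +kernel) (chl_fa mas_sm13 qs17_spec tab5a0_24 180 chk_tab5a0_24)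

def cat_tab5a0_23 : List (ℕ × ℕ) := [(175, 70), (176, 71), (180, 72)] ++ cat_tab5a0_24

theorem chl_tab5a0_23 : ChL (fa 5 30030 17) 169 cat_tab5a0_23 :=
  chl_append chl_tab5a0_24 [(175, 70), (176, 71), (180, 72)] 169 (by decide +kernel) (chl_fa mas_sm13 qs17_spec tab5a0_23 169 chk_tab5a0_23)

def cat_tab5a0_22 : List (ℕ × ℕ) := [(162, 67), (165, 68), (169, 69)] ++ cat_tab5a0_23

theorem chl_tab5a0_22 : ChL (fa 5 30030 17) 160 cat_tab5a0_22 :=
  chl_append chl_tab5a0_23 [(162, 67), (165, 68), (169, 69)] 160 (by decide +kernel) (chl_fa mas_sm13 qs17_spec tab5a0_22 160 chk_tab5a0_22)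

def cat_tab5a0_21 : List (ℕ × ℕ) := [(147, 64), (154, 65), (160, 66)] ++ cat_tab5a0_22

theorem chl_tab5a0_21 : ChL (fa 5 30030 17) 143 cat_tab5a0_21 :=
  chl_append chl_tab5a0_22 [(147, 64), (154, 65), (160, 66)] 143 (by decide +kernel) (chl_fa mas_sm13 qs17_spec tab5a0_21 143 chk_tab5a0_21)

def cat_tab5a0_20 : List (ℕ × ℕ) := [(130, 61), (135, 62), (143, 63)] ++ cat_tab5a0_21

theorem chl_tab5a0_20 : ChL (fa 5 30030 17) 128 cat_tab5a0_20 :=
  chl_append chl_tab5a0_21 [(130, 61), (135, 62), (143, 63)] 128 (by decide +kernel) (chl_fa mas_sm13 qs17_spec tab5a0_20 128 chk_tab5a0_20)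

def cat_tab5a0_19 : List (ℕ × ℕ) := [(125, 58), (126, 59), (128, 60)] ++ cat_tab5a0_20

theorem chl_tab5a0_19 : ChL (fa 5 30030 17) 121 cat_tab5a0_19 :=
  chl_append chl_tab5a0_20 [(125, 58), (126, 59), (128, 60)] 121 (by decide +kernel) (chl_fa mas_sm13 qs17_spec tab5a0_19 121 chk_tab5a0_19)

def cat_tab5a0_18 : List (ℕ × ℕ) := [(112, 55), (117, 56), (121, 57)] ++ cat_tab5a0_19

theorem chl_tab5a0_18 : ChL (fa 5 30030 17) 110 cat_tab5a0_18 :=
  chl_append chl_tab5a0_19 [(112, 55), (117, 56), (121, 57)] 110 (by decide +kernel) (chl_fa mas_sm13 qs17_spec tab5a0_18 110 chk_tab5a0_18)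

def cat_tab5a0_17 : List (ℕ × ℕ) := [(104, 52), (105, 53), (110, 54)] ++ cat_tab5a0_18

theorem chl_tab5a0_17 : ChL (fa 5 30030 17) 100 cat_tab5a0_17 :=
  chl_append chl_tab5a0_18 [(104, 52), (105, 53), (110, 54)] 100 (by decide +kernel) (chl_fa mas_sm13 qs17_spec tab5a0_17 100 chk_tab5a0_17)

def cat_tab5a0_16 : List (ℕ × ℕ) := [(98, 49), (99, 50), (100, 51)] ++ cat_tab5a0_17

theorem chl_tab5a0_16 : ChL (fa 5 30030 17) 96 cat_tab5a0_16 :=
  chl_append chl_tab5a0_17 [(98, 49), (99, 50), (100, 51)] 96 (by decide +kernel) (chl_fa mas_sm13 qs17_spec tab5a0_16 96 chk_tab5a0_16)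

def cat_tab5a0_15 : List (ℕ × ℕ) := [(88, 46), (91, 47), (96, 48)] ++ cat_tab5a0_16

theorem chl_tab5a0_15 : ChL (fa 5 30030 17) 81 cat_tab5a0_15 :=
  chl_append chl_tab5a0_16 [(88, 46), (91, 47), (96, 48)] 81 (by decide +kernel) (chl_fa mas_sm13 qs17_spec tab5a0_15 81 chk_tab5a0_15)

def cat_tab5a0_14 : List (ℕ × ℕ) := [(78, 43), (80, 44), (81, 45)] ++ cat_tab5a0_15

theorem chl_tab5a0_14 : ChL (fa 5 30030 17) 77 cat_tab5a0_14 :=
  chl_append chl_tab5a0_15 [(78, 43), (80, 44), (81, 45)] 77 (by decide +kernel) (chl_fa mas_sm13 qs17_spec tab5a0_14 77 chk_tab5a0_14)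

def cat_tab5a0_13 : List (ℕ × ℕ) := [(66, 40), (75, 41), (77, 42)] ++ cat_tab5a0_14

theorem chl_tab5a0_13 : ChL (fa 5 30030 17) 65 cat_tab5a0_13 :=
  chl_append chl_tab5a0_14 [(66, 40), (75, 41), (77, 42)] 65 (by decide +kernel) (chl_fa mas_sm13 qs17_spec tab5a0_13 65 chk_tab5a0_13)

def cat_tab5a0_12 : List (ℕ × ℕ) := [(63, 37), (64, 38), (65, 39)] ++ cat_tab5a0_13

theorem chl_tab5a0_12 : ChL (fa 5 30030 17) 56 cat_tab5a0_12 :=
  chl_append chl_tab5a0_13 [(63, 37), (64, 38), (65, 39)] 56 (by decide +kernel) (chl_fa mas_sm13 qs17_spec tab5a0_12 56 chk_tab5a0_12)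

def cat_tab5a0_11 : List (ℕ × ℕ) := [(54, 34), (55, 35), (56, 36)] ++ cat_tab5a0_12

theorem chl_tab5a0_11 : ChL (fa 5 30030 17) 52 cat_tab5a0_11 :=
  chl_append chl_tab5a0_12 [(54, 34), (55, 35), (56, 36)] 52 (by decide +kernel) (chl_fa mas_sm13 qs17_spec tab5a0_11 52 chk_tab5a0_11)

def cat_tab5a0_10 : List (ℕ × ℕ) := [(49, 31), (50, 32), (52, 33)] ++ cat_tab5a0_11

theorem chl_tab5a0_10 : ChL (fa 5 30030 17) 45 cat_tab5a0_10 :=
  chl_append chl_tab5a0_11 [(49, 31), (50, 32), (52, 33)] 45 (by decide +kernel) (chl_fa mas_sm13 qs17_spec tab5a0_10 45 chk_tab5a0_10)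

def cat_tab5a0_9 : List (ℕ × ℕ) := [(42, 28), (44, 29), (45, 30)] ++ cat_tab5a0_10

theorem chl_tab5a0_9 : ChL (fa 5 30030 17) 40 cat_tab5a0_9 :=
  chl_append chl_tab5a0_10 [(42, 28), (44, 29), (45, 30)] 40 (by decide +kernel) (chl_fa mas_sm13 qs17_spec tab5a0_9 40 chk_tab5a0_9)

def cat_tab5a0_8 : List (ℕ × ℕ) := [(35, 25), (39, 26), (40, 27)] ++ cat_tab5a0_9

theorem chl_tab5a0_8 : ChL (fa 5 30030 17) 33 cat_tab5a0_8 :=
  chl_append chl_tab5a0_9 [(35, 25), (39, 26), (40, 27)] 33 (by decide +kernel) (chl_fa mas_sm13 qs17_spec tab5a0_8 33 chk_tab5a0_8)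

def cat_tab5a0_7 : List (ℕ × ℕ) := [(28, 22), (32, 23), (33, 24)] ++ cat_tab5a0_8

theorem chl_tab5a0_7 : ChL (fa 5 30030 17) 27 cat_tab5a0_7 :=
  chl_append chl_tab5a0_8 [(28, 22), (32, 23), (33, 24)] 27 (by decide +kernel) (chl_fa mas_sm13 qs17_spec tab5a0_7 27 chk_tab5a0_7)

def cat_tab5a0_6 : List (ℕ × ℕ) := [(25, 19), (26, 20), (27, 21)] ++ cat_tab5a0_7

theorem chl_tab5a0_6 : ChL (fa 5 30030 17) 22 cat_tab5a0_6 :=
  chl_append chl_tab5a0_7 [(25, 19), (26, 20), (27, 21)] 22 (by decide +kernel) (chl_fa mas_sm13 qs17_spec tab5a0_6 22 chk_tab5a0_6)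

def cat_tab5a0_5 : List (ℕ × ℕ) := [(20, 16), (21, 17), (22, 18)] ++ cat_tab5a0_6

theorem chl_tab5a0_5 : ChL (fa 5 30030 17) 18 cat_tab5a0_5 :=
  chl_append chl_tab5a0_6 [(20, 16), (21, 17), (22, 18)] 18 (by decide +kernel) (chl_fa mas_sm13 qs17_spec tab5a0_5 18 chk_tab5a0_5)

def cat_tab5a0_4 : List (ℕ × ℕ) := [(15, 13), (16, 14), (18, 15)] ++ cat_tab5a0_5

theorem chl_tab5a0_4 : ChL (fa 5 30030 17) 14 cat_tab5a0_4 :=
  chl_append chl_tab5a0_5 [(15, 13), (16, 14), (18, 15)] 14 (by decide +kernel) (chl_fa mas_sm13 qs17_spec tab5a0_4 14 chk_tab5a0_4)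

def cat_tab5a0_3 : List (ℕ × ℕ) := [(11, 10), (13, 11), (14, 12)] ++ cat_tab5a0_4

theorem chl_tab5a0_3 : ChL (fa 5 30030 17) 10 cat_tab5a0_3 :=
  chl_append chl_tab5a0_4 [(11, 10), (13, 11), (14, 12)] 10 (by decide +kernel) (chl_fa mas_sm13 qs17_spec tab5a0_3 10 chk_tab5a0_3)

def cat_tab5a0_2 : List (ℕ × ℕ) := [(8, 7), (9, 8), (10, 9)] ++ cat_tab5a0_3

theorem chl_tab5a0_2 : ChL (fa 5 30030 17) 7 cat_tab5a0_2 :=
  chl_append chl_tab5a0_3 [(8, 7), (9, 8), (10, 9)] 7 (by decide +kernel) (chl_fa mas_sm13 qs17_spec tab5a0_2 7 chk_tab5a0_2)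

def cat_tab5a0_1 : List (ℕ × ℕ) := [(5, 4), (6, 5), (7, 6)] ++ cat_tab5a0_2

theorem chl_tab5a0_1 : ChL (fa 5 30030 17) 4 cat_tab5a0_1 :=
  chl_append chl_tab5a0_2 [(5, 4), (6, 5), (7, 6)] 4 (by decide +kernel) (chl_fa mas_sm13 qs17_spec tab5a0_1 4 chk_tab5a0_1)

def cat_tab5a0_0 : List (ℕ × ℕ) := [(2, 1), (3, 2), (4, 3)] ++ cat_tab5a0_1

theorem chl_tab5a0_0 : ChL (fa 5 30030 17) 1 cat_tab5a0_0 :=
  chl_append chl_tab5a0_1 [(2, 1), (3, 2), (4, 3)] 1 (by decide +kernel) (chl_fa mas_sm13 qs17_spec tab5a0_0 1 chk_tab5a0_0)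

def tab5a0 : List (ℕ × ℕ) := cat_tab5a0_0

theorem chl_tab5a0 : ChL (fa 5 30030 17) 1 tab5a0 := chl_tab5a0_0

theorem lst_tab5a0 : lst 1 tab5a0 = 832 := by decide +kernel

theorem tel_tab5a0 : (2719280433 / 625000000 : ℚ) ≤ tel 1 tab5a0 := by decide +kernel

theorem ws_tab5a0 : (2719280433 / 625000000 : ℝ) ≤ ws (fa 5 30030 17) 1 832 := by
  have h2 := (tel_le_ws _ _ 1 (by norm_num) chl_tab5a0).2
  rw [lst_tab5a0] at h2
  have h4 : ((2719280433 / 625000000 : ℚ) : ℝ) ≤ _ := Rat.cast_le.2 tel_tab5a0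
  rw [show ((2719280433 / 625000000 : ℚ) : ℝ) = (2719280433 / 625000000 : ℝ) by norm_num] at h4
  exact h4.trans h2

end Pool.Agent.H36.KW
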