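import Pool.Agent.H96.KMF.Main1
import Pool.Agent.H36.K3.Tel
import Pool.Agent.H36.KW.Fc

/-!
# KW Upp: the upper bound in terms of finite sums

`c_k` is at most `8/35` times the sum of `tt k 210 j / (j (j+1))`; the tails of the sum are bounded by the recursions
`tt k 6 j ≤ k + tt k 6 (j/3)`, `tt k 30 j ≤ tt k 6 j + tt k 30 (j/5)`, `tt k 210 j ≤ tt k 30 j + tt k 210 (j/7)`.
-/

set_option autoImplicit false

namespace Pool.Agent.H36.KW

open Pool.Agent.H96.KMF Pool.Agent.H36.K3 Filter Topology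

theorem rcr (F e : ℕ → ℕ) (p a N : ℕ) (hp : 1 ≤ p) (ha : 1 ≤ a) (hN : a ≤ N) (h : ∀ j, F j ≤ e j + F (j / p)) :
    ((p : ℝ) - 1) * ws F (p * a) (p * N) ≤ p * ws e (p * a) (p * N) + ws F a (p * a) := by
  have hp0 : (0 : ℝ) < p := by exact_mod_cast hp
  have h1 : ws F (p * a) (p * N) ≤ ws e (p * a) (p * N) + ws (fun j => F (j / p)) (p * a) (p * N) := by
    unfold ws
    rw [← Finset.sum_add_distrib]
    refine Finset.sum_le_sum fun j _ => ?_
    unfold wt
    rw [← add_div]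
    apply div_le_div_of_nonneg_right _ (by positivity)
    exact_mod_cast h j
  have h2 := ws_scale (fun j => F (j / p)) F p a hp ha (fun q r hr => by
    have h3 : (p * q + r) / p = q := by
      rw [Nat.mul_add_div (by omega), Nat.div_eq_of_lt hr, add_zero]
    show F ((p * q + r) / p) ≤ F q
    rw [h3]) N hN
  have h3 : ws F a N ≤ ws F a (p * N) := ws_mono F (Nat.le_mul_of_pos_left N hp)
  have h4 := ws_add F (Nat.le_mul_of_pos_left a hp) (Nat.mul_le_mul_left p hN)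
  have h5 : ws F a N / p * p = ws F a N := div_mul_cancel₀ _ hp0.ne'
  have h6 := mul_le_mul_of_nonneg_left (h1.trans (add_le_add_right h2 _)) hp0.le
  nlinarith

theorem ws_const_le (v x y : ℕ) (hx : 1 ≤ x) (h : x ≤ y) : ws (fun _ => v) x y ≤ v / x := by
  have h1 := ws_le (f := fun _ => v) (v := v) hx h (fun _ _ _ => le_rfl)
  have h2 : (0 : ℝ) ≤ 1 / y := by positivity
  calc ws (fun _ => v) x y ≤ (v : ℝ) * (1 / (x : ℝ) - 1 / y) := h1
    _ ≤ (v : ℝ) * (1 / (x : ℝ)) := mul_le_mul_of_nonneg_left (by linarith) (Nat.cast_nonneg v)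
    _ = v / x := by ring

theorem total_le (k a b d : ℕ) (ha : 1 ≤ a) (hab : 7 * a ≤ 5 * b) (hbd : 5 * b ≤ 3 * d) (qA qB qC qD qE qF : ℝ)
    (hA : ws (tt k 210) 1 a ≤ qA) (hB : ws (tt k 210) a (7 * a) ≤ qB) (hC : ws (tt k 30) b (5 * b) ≤ qC)
    (hD : ws (tt k 30) (7 * a) (5 * b) ≤ qD) (hE : ws (tt k 6) (5 * b) (3 * d) ≤ qE) (hF : ws (tt k 6) d (3 * d) ≤ qF)
    (N : ℕ) (hN : d ≤ N) : ws (tt k 210) 1 (7 * N) ≤
      qA + qB + (7 * (qD + (5 * (qE + ((k : ℝ) / d + qF) / 2) + qC) / 4) + qB) / 6 := by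
  have hd0 : (0 : ℝ) < d := by
    have : 0 < d := by omega
    exact_mod_cast this
  -- 3-smooth numbers
  have a1 := rcr (tt k 6) (fun _ => k) 3 d (5 * (7 * N)) (by norm_num) (by omega) (by omega) (tt_six k)
  have a2 := ws_const_le k (3 * d) (3 * (5 * (7 * N))) (by omega) (by omega)
  have a3 : (k : ℝ) / ((3 * d : ℕ) : ℝ) = (k : ℝ) / d / 3 := by
    push_cast
    field_simp
  have a5 : ws (tt k 6) (5 * b) (5 * (7 * N)) ≤ ws (tt k 6) (5 * b) (3 * (5 * (7 * N))) := ws_mono (tt k 6) (by omega)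
  have a6 := ws_add (tt k 6) (x := 5 * b) (y := 3 * d) (z := 3 * (5 * (7 * N))) (by omega) (by omega)
  rw [a3] at a2
  norm_num at a1
  -- 5-smooth numbers
  have b1 := rcr (tt k 30) (tt k 6) 5 b (7 * N) (by norm_num) (by omega) (by omega) (tt_thirty k)
  have b4 : ws (tt k 30) (7 * a) (7 * N) ≤ ws (tt k 30) (7 * a) (5 * (7 * N)) := ws_mono (tt k 30) (by omega)
  have b5 := ws_add (tt k 30) (x := 7 * a) (y := 5 * b) (z := 5 * (7 * N)) (by omega) (by omega)
  norm_num at b1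
  -- 7-smooth numbers
  have d1 := rcr (tt k 210) (tt k 30) 7 a N (by norm_num) (by omega) (by omega) (tt_twoten k)
  have d4 := ws_add (tt k 210) (x := 1) (y := a) (z := 7 * a) ha (by omega)
  have d5 := ws_add (tt k 210) (x := 1) (y := 7 * a) (z := 7 * N) (by omega) (by omega)
  norm_num at d1
  linarith

theorem fc_card_le (k P j : ℕ) (hP : 0 < P) : ((tt k P j : ℕ) : ℝ) ≤ 2 ^ (Nat.primesBelow (P + 1)).card * Real.sqrt j := by
  have h1 : ((opt k (fc P j) : ℕ) : ℝ) ≤ ((cell P (j + 1) j).card : ℝ) := by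
    exact_mod_cast opt_le_card k _
  exact h1.trans (cell_card_le P (j + 1) j hP)

theorem tsum_le (k d : ℕ) (q : ℝ) (h : ∀ N, d ≤ N → ws (tt k 210) 1 (7 * N) ≤ q) :
    ∑' j : ℕ, ((tt k 210 j : ℕ) : ℝ) / (j * (j + 1)) ≤ q := by
  have hb : ∀ n : ℕ, ∑ j ∈ Finset.range n, ((tt k 210 j : ℕ) : ℝ) / (j * (j + 1)) ≤ q := by
    intro n
    have h1 := h (n + d + 1) (by omega)
    refine le_trans ?_ h1
    have h2 : ∑ j ∈ Finset.range n, ((tt k 210 j : ℕ) : ℝ) / (j * (j + 1)) ≤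
        ∑ j ∈ Finset.range (7 * (n + d + 1)), ((tt k 210 j : ℕ) : ℝ) / (j * (j + 1)) := by
      refine Finset.sum_le_sum_of_subset_of_nonneg ?_ (fun j _ _ => by positivity)
      exact Finset.range_subset_range.2 (by omega)
    refine h2.trans (le_of_eq ?_)
    unfold ws wt
    rw [Finset.range_eq_Ico, Finset.sum_eq_sum_Ico_succ_bot (by omega)]
    simp
  exact Real.tsum_le_of_sum_range_le (fun j => by positivity) hb

/-- the upper bound in terms of finite sums -/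
theorem upper_aux (k : ℕ) (c : ℝ) (hc : Tendsto (fun n : ℕ => (gk k n : ℝ) / n) atTop (𝓝 c)) (a b d : ℕ) (ha : 1 ≤ a)
    (hab : 7 * a ≤ 5 * b) (hbd : 5 * b ≤ 3 * d) (qA qB qC qD qE qF : ℝ)
    (hA : ws (tt k 210) 1 a ≤ qA) (hB : ws (tt k 210) a (7 * a) ≤ qB) (hC : ws (tt k 30) b (5 * b) ≤ qC)
    (hD : ws (tt k 30) (7 * a) (5 * b) ≤ qD) (hE : ws (tt k 6) (5 * b) (3 * d) ≤ qE) (hF : ws (tt k 6) d (3 * d) ≤ qF) :
    c ≤ 8 / 35 * (qA + qB + (7 * (qD + (5 * (qE + ((k : ℝ) / d + qF) / 2) + qC) / 4) + qB) / 6) := by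
  have h1 := tendsto_sum (fun j => ((tt k 210 j : ℕ) : ℝ)) (2 ^ (Nat.primesBelow (210 + 1)).card) (by positivity)
    (fun j => by positivity) (fun j => fc_card_le k 210 j (by norm_num)) 210 (by norm_num)
  have h2 : c ≤ (Nat.totient 210 : ℝ) / (210 : ℕ) * ∑' j : ℕ, ((tt k 210 j : ℕ) : ℝ) / (j * (j + 1)) := by
    refine le_of_tendsto_of_tendsto' hc h1 fun n => ?_
    refine div_le_div_of_nonneg_right ?_ (Nat.cast_nonneg n)
    have h3 := gk_le_GG k 210 (n + 1) n (by omega)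
    rw [Nat.div_eq_of_lt (Nat.lt_succ_self n), add_zero] at h3
    have h4 : GG k 210 (n + 1) n ≤ ∑ m ∈ rgh 210 n, tt k 210 (n / m) := by
      unfold GG
      exact Finset.sum_le_sum fun m _ => opt_mono k (cell_subset_fc 210 (n + 1) (n / m))
    have h5 : ((gk k n : ℕ) : ℝ) ≤ ((∑ m ∈ rgh 210 n, tt k 210 (n / m) : ℕ) : ℝ) := by
      exact_mod_cast h3.trans h4
    rw [Nat.cast_sum] at h5
    exact h5
  have h3 : (Nat.totient 210 : ℝ) / (210 : ℕ) = 8 / 35 := by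
    have : Nat.totient 210 = 48 := by decide +kernel
    rw [this]
    norm_num
  rw [h3] at h2
  have h4 := tsum_le k d _ (total_le k a b d ha hab hbd qA qB qC qD qE qF hA hB hC hD hE hF)
  exact h2.trans (mul_le_mul_of_nonneg_left h4 (by norm_num))

end Pool.Agent.H36.KW
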